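import Pool.Agent.helper132_poly.V1

/-! Newton's identities and Linnik's lemma. -/

namespace Pool.Agent.helper132_poly

open Finset Pool.Agent.helper132_sph

lemma esymm_eq {A : Type} [CommRing A] {n : ℕ} (z z' : Fin n → A)
    (hu : ∀ j : ℕ, 1 ≤ j → j ≤ n → IsUnit (j : A))
    (h : ∀ j : ℕ, 1 ≤ j → j ≤ n → ∑ i, z i ^ j = ∑ i, z' i ^ j) (j : ℕ) (hj : j ≤ n) :
    MvPolynomial.aeval z (MvPolynomial.esymm (Fin n) ℤ j) =
      MvPolynomial.aeval z' (MvPolynomial.esymm (Fin n) ℤ j) := by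
  induction j using Nat.strong_induction_on with
  | _ j ih =>
    rcases Nat.eq_zero_or_pos j with h0 | hpos
    · subst h0; simp
    · have e := MvPolynomial.mul_esymm_eq_sum (Fin n) ℤ j
      have e1 := congrArg (MvPolynomial.aeval z) e
      have e2 := congrArg (MvPolynomial.aeval z') e
      simp only [map_mul, map_natCast, map_pow, map_neg, map_one, map_sum] at e1 e2
      have hps : ∀ (y : Fin n → A) (m : ℕ), MvPolynomial.aeval y (MvPolynomial.psum (Fin n) ℤ m) =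
          ∑ i, y i ^ m := by
        intro y m
        simp [MvPolynomial.psum]
      have e3 : (j : A) * MvPolynomial.aeval z (MvPolynomial.esymm (Fin n) ℤ j) =
          (j : A) * MvPolynomial.aeval z' (MvPolynomial.esymm (Fin n) ℤ j) := by
        rw [e1, e2]
        congr 1
        refine Finset.sum_congr rfl fun a ha => ?_
        rw [Finset.mem_filter, Finset.HasAntidiagonal.mem_antidiagonal] at ha
        rw [ih a.1 ha.2 (by omega), hps, hps, h a.2 (by omega) (by omega)]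
      exact (hu j hpos hj).mul_left_cancel e3

lemma prod_sub_eq {A : Type} [CommRing A] {n : ℕ} (z z' : Fin n → A)
    (hu : ∀ j : ℕ, 1 ≤ j → j ≤ n → IsUnit (j : A))
    (h : ∀ j : ℕ, 1 ≤ j → j ≤ n → ∑ i, z i ^ j = ∑ i, z' i ^ j) (w : A) :
    ∏ i, (w - z i) = ∏ i, (w - z' i) := by
  have key : ∀ y : Fin n → A, ∏ i, (w - y i) =
      ∑ j ∈ range (n + 1), (-1) ^ j * (MvPolynomial.aeval y (MvPolynomial.esymm (Fin n) ℤ j) * w ^ (n - j)) := by
    intro y
    have h1 := Multiset.prod_X_sub_X_eq_sum_esymm ((Finset.univ : Finset (Fin n)).val.map y)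
    have h2 := congrArg (Polynomial.eval w) h1
    rw [Multiset.card_map, Finset.card_val, Finset.card_univ, Fintype.card_fin, Multiset.map_map,
      Polynomial.eval_multiset_prod, Multiset.map_map, Polynomial.eval_finsetSum] at h2
    simp only [Function.comp_def, Polynomial.eval_sub, Polynomial.eval_X, Polynomial.eval_C,
      Polynomial.eval_mul, Polynomial.eval_pow, Polynomial.eval_neg, Polynomial.eval_one] at h2
    rw [Finset.prod_eq_multiset_prod, h2]
    refine Finset.sum_congr rfl fun j _ => ?_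
    rw [MvPolynomial.aeval_esymm_eq_multiset_esymm]
  rw [key z, key z']
  refine Finset.sum_congr rfl fun j hj => ?_
  rw [Finset.mem_range] at hj
  rw [esymm_eq z z' hu h j (by omega)]

lemma mem_of_pow_sums (p k : ℕ) (hp : p.Prime) (hk : 1 ≤ k) (hpk : k < p) (x x' : Fin k → ℤ)
    (hinj : ∀ i j, i ≠ j → ¬ (p : ℤ) ∣ x i - x j)
    (h : ∀ j : ℕ, 1 ≤ j → j ≤ k → ((p : ℤ) ^ k) ∣ ∑ i, x i ^ j - ∑ i, x' i ^ j) (i : Fin k) :
    ∃ i', ((p : ℤ) ^ k) ∣ x' i - x i' := by
  classical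
  have hpp : Prime (p : ℤ) := Nat.prime_iff_prime_int.1 hp
  have hu : ∀ j : ℕ, 1 ≤ j → j ≤ k → IsUnit ((j : ℕ) : ZMod (p ^ k)) := by
    intro j hj1 hj2
    rw [ZMod.isUnit_iff_coprime]
    refine Nat.Coprime.pow_right k ?_
    rw [Nat.coprime_comm, Nat.Prime.coprime_iff_not_dvd hp]
    intro hdvd
    have := Nat.le_of_dvd hj1 hdvd
    omega
  have hcast : ((p ^ k : ℕ) : ℤ) = (p : ℤ) ^ k := by push_cast; ring
  have hs : ∀ j : ℕ, 1 ≤ j → j ≤ k → ∑ i, ((x i : ℤ) : ZMod (p ^ k)) ^ j =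
      ∑ i, ((x' i : ℤ) : ZMod (p ^ k)) ^ j := by
    intro j hj1 hj2
    have h1 := h j hj1 hj2
    rw [← hcast, ← ZMod.intCast_zmod_eq_zero_iff_dvd] at h1
    push_cast at h1
    exact sub_eq_zero.1 h1
  have h2 := prod_sub_eq (fun i => ((x i : ℤ) : ZMod (p ^ k))) (fun i => ((x' i : ℤ) : ZMod (p ^ k)))
    hu hs ((x' i : ℤ) : ZMod (p ^ k))
  have h3 : ∏ i', (((x' i : ℤ) : ZMod (p ^ k)) - ((x' i' : ℤ) : ZMod (p ^ k))) = 0 :=
    Finset.prod_eq_zero (Finset.mem_univ i) (sub_self _)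
  rw [h3] at h2
  have h4 : ((p : ℤ) ^ k) ∣ ∏ i', (x' i - x i') := by
    rw [← hcast, ← ZMod.intCast_zmod_eq_zero_iff_dvd]
    push_cast
    exact h2
  have h5 : (p : ℤ) ∣ ∏ i', (x' i - x i') := (dvd_pow_self _ (by omega)).trans h4
  obtain ⟨i0, _, hi0⟩ := (Prime.dvd_finsetProd_iff hpp _).1 h5
  refine ⟨i0, ?_⟩
  rw [← Finset.mul_prod_erase _ _ (Finset.mem_univ i0)] at h4
  refine IsCoprime.dvd_of_dvd_mul_right ?_ h4
  refine IsCoprime.pow_left ?_
  refine IsCoprime.prod_right fun i' hi' => ?_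
  rw [Prime.coprime_iff_not_dvd hpp]
  intro hdvd
  refine hinj i0 i' (Finset.ne_of_mem_erase hi').symm ?_
  have := dvd_sub hdvd hi0
  have e : x' i - x i' - (x' i - x i0) = x i0 - x i' := by ring
  rwa [e] at this

lemma linnik (p k X : ℕ) (hp : p.Prime) (hk : 1 ≤ k) (hpk : k < p) (hX : X ≤ p ^ k) (r : ℤ)
    (h : Fin k → ℤ) (A : Finset (Fin k → ℤ)) (hA : A ⊆ bx k X)
    (hinj : ∀ x ∈ A, ∀ i j, i ≠ j → ¬ (p : ℤ) ∣ x i - x j) :
    (A.filter (fun x => ∀ j : Fin k, ((p : ℤ) ^ ((j : ℕ) + 1)) ∣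
      ∑ i, (x i - r) ^ ((j : ℕ) + 1) - h j)).card ≤ k ^ k * p ^ (k * (k - 1) / 2) := by
  classical
  obtain ⟨S, hS⟩ : ∃ S, S = A.filter (fun x => ∀ j : Fin k, ((p : ℤ) ^ ((j : ℕ) + 1)) ∣
      ∑ i, (x i - r) ^ ((j : ℕ) + 1) - h j) := ⟨_, rfl⟩
  rw [← hS]
  have hp0 : (0 : ℤ) < p := by exact_mod_cast hp.pos
  obtain ⟨T, hT⟩ : ∃ T : Finset (Fin k → ℕ), T = Fintype.piFinset (fun j : Fin k => range (p ^ (k - 1 - (j : ℕ)))) :=
    ⟨_, rfl⟩
  have hTcard : T.card = p ^ (k * (k - 1) / 2) := by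
    rw [hT, Fintype.card_piFinset]
    simp only [Finset.card_range]
    rw [Finset.prod_pow_eq_pow_sum]
    congr 1
    rw [Fin.sum_univ_eq_sum_range (fun j => k - 1 - j) k, Finset.sum_range_reflect (fun j => j) k,
      Finset.sum_range_id]
  rw [← hTcard]
  refine Finset.card_le_mul_card_image_of_maps_to (f := fun x => fun j : Fin k =>
    (((∑ i, (x i - r) ^ ((j : ℕ) + 1) - h j) / (p : ℤ) ^ ((j : ℕ) + 1)) %
      ((p : ℤ) ^ (k - 1 - (j : ℕ)))).toNat) ?_ (k ^ k) ?_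
  · intro x _
    rw [hT, Fintype.mem_piFinset]
    intro j
    rw [Finset.mem_range]
    have hpos : (0 : ℤ) < (p : ℤ) ^ (k - 1 - (j : ℕ)) := by positivity
    have h1 := Int.emod_lt_of_pos ((∑ i, (x i - r) ^ ((j : ℕ) + 1) - h j) / (p : ℤ) ^ ((j : ℕ) + 1)) hpos
    have h0 := Int.emod_nonneg ((∑ i, (x i - r) ^ ((j : ℕ) + 1) - h j) / (p : ℤ) ^ ((j : ℕ) + 1)) hpos.ne'
    have h2 : (((p ^ (k - 1 - (j : ℕ)) : ℕ)) : ℤ) = (p : ℤ) ^ (k - 1 - (j : ℕ)) := by push_cast; ring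
    rw [← h2] at h1 h0 ⊢
    omega
  · intro t _
    rcases (S.filter (fun x => (fun j : Fin k =>
      (((∑ i, (x i - r) ^ ((j : ℕ) + 1) - h j) / (p : ℤ) ^ ((j : ℕ) + 1)) %
      ((p : ℤ) ^ (k - 1 - (j : ℕ)))).toNat) = t)).eq_empty_or_nonempty with h0 | ⟨x0, hx0⟩
    · rw [h0]; simp
    · rw [Finset.mem_filter, hS, Finset.mem_filter] at hx0
      obtain ⟨⟨hx0A, hx0d⟩, hx0t⟩ := hx0
      have hsub : S.filter (fun x => (fun j : Fin k =>
          (((∑ i, (x i - r) ^ ((j : ℕ) + 1) - h j) / (p : ℤ) ^ ((j : ℕ) + 1)) %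
          ((p : ℤ) ^ (k - 1 - (j : ℕ)))).toNat) = t) ⊆
          Fintype.piFinset (fun _ : Fin k => Finset.univ.image x0) := by
        intro x hx
        rw [Finset.mem_filter, hS, Finset.mem_filter] at hx
        obtain ⟨⟨hxA, hxd⟩, hxt⟩ := hx
        rw [Fintype.mem_piFinset]
        intro i
        have key : ∀ j : ℕ, 1 ≤ j → j ≤ k → ((p : ℤ) ^ k) ∣ ∑ i, (x0 i - r) ^ j - ∑ i, (x i - r) ^ j := by
          intro j hj1 hj2
          obtain ⟨j', rfl⟩ : ∃ j', j = j' + 1 := ⟨j - 1, by omega⟩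
          obtain ⟨a, ha⟩ := hx0d ⟨j', by omega⟩
          obtain ⟨b, hb⟩ := hxd ⟨j', by omega⟩
          have e1 := congrFun hx0t ⟨j', by omega⟩
          have e2 := congrFun hxt ⟨j', by omega⟩
          simp only at ha hb e1 e2
          have hpj : ((p : ℤ) ^ (j' + 1)) ≠ 0 := by positivity
          rw [ha, Int.mul_ediv_cancel_left _ hpj] at e1
          rw [hb, Int.mul_ediv_cancel_left _ hpj] at e2
          have hpos : (0 : ℤ) < (p : ℤ) ^ (k - 1 - j') := by positivity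
          have n1 := Int.emod_nonneg a hpos.ne'
          have n2 := Int.emod_nonneg b hpos.ne'
          have e3 : a % (p : ℤ) ^ (k - 1 - j') = b % (p : ℤ) ^ (k - 1 - j') := by
            rw [← Int.toNat_of_nonneg n1, ← Int.toNat_of_nonneg n2, e1, e2]
          have e4 : ((p : ℤ) ^ (k - 1 - j')) ∣ a - b :=
            Int.ModEq.dvd (show b ≡ a [ZMOD (p : ℤ) ^ (k - 1 - j')] from e3.symm)
          have e5 : ∑ i, (x0 i - r) ^ (j' + 1) - ∑ i, (x i - r) ^ (j' + 1) = (p : ℤ) ^ (j' + 1) * (a - b) := by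
            rw [mul_sub, ← ha, ← hb]; ring
          rw [e5]
          have e6 : (p : ℤ) ^ k = (p : ℤ) ^ (j' + 1) * (p : ℤ) ^ (k - 1 - j') := by
            rw [← pow_add]; congr 1; omega
          rw [e6]
          exact mul_dvd_mul_left _ e4
        obtain ⟨i', hi'⟩ := mem_of_pow_sums p k hp hk hpk (fun i => x0 i - r) (fun i => x i - r)
          (by
            intro i j hij hd
            refine hinj x0 hx0A i j hij ?_
            have e : x0 i - r - (x0 j - r) = x0 i - x0 j := by ring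
            rwa [e] at hd) key i
        have e : x i - r - (x0 i' - r) = x i - x0 i' := by ring
        rw [e] at hi'
        have hb1 := mem_bx.1 (hA hxA) i
        have hb2 := mem_bx.1 (hA hx0A) i'
        have hXp : (X : ℤ) ≤ (p : ℤ) ^ k := by exact_mod_cast hX
        have hz : x i - x0 i' = 0 := by
          refine Int.eq_zero_of_abs_lt_dvd hi' ?_
          rw [abs_lt]
          constructor <;> linarith [hb1.1, hb1.2, hb2.1, hb2.2]
        rw [Finset.mem_image]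
        exact ⟨i', Finset.mem_univ _, by linarith⟩
      refine (Finset.card_le_card hsub).trans ?_
      rw [Fintype.card_piFinset]
      simp only [Finset.prod_const, Finset.card_univ, Fintype.card_fin]
      refine Nat.pow_le_pow_left ?_ k
      refine Finset.card_image_le.trans ?_
      simp

end Pool.Agent.helper132_poly
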