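import Pool.Agent.helper132_poly.P3

/-! Sums of the kernel over multiples, and the combined bound. -/

namespace Pool.Agent.helper132_poly

open Finset Pool.Agent.helper132_sph

lemma sum_Icc_symm (f : ℤ → ℝ) (n : ℕ) :
    ∑ j ∈ Icc (-(n : ℤ)) n, f j = f 0 + ∑ i ∈ Ico 1 (n + 1), (f i + f (-(i : ℤ))) := by
  induction n with
  | zero => simp
  | succ n ih =>
    rw [Finset.sum_Ico_succ_top (by omega), ← add_assoc, ← ih]
    have h1 : Icc (-((n + 1 : ℕ) : ℤ)) ((n + 1 : ℕ) : ℤ) =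
        insert ((n + 1 : ℕ) : ℤ) (insert (-((n + 1 : ℕ) : ℤ)) (Icc (-(n : ℤ)) n)) := by
      ext j
      simp only [Finset.mem_insert, Finset.mem_Icc]
      push_cast
      omega
    rw [h1, Finset.sum_insert, Finset.sum_insert]
    · ring
    · simp only [Finset.mem_Icc]; push_cast; omega
    · simp only [Finset.mem_insert, Finset.mem_Icc]; push_cast; omega

lemma mult_sum (M q : ℕ) (hq : 1 ≤ q) (F : ℤ → ℝ) :
    ∑ y ∈ (Icc (-(M : ℤ)) M).filter (fun y => (q : ℤ) ∣ y), F y =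
      ∑ j ∈ Icc (-(((M / q : ℕ)) : ℤ)) (((M / q : ℕ)) : ℤ), F (q * j) := by
  have hqz : (0 : ℤ) < q := by exact_mod_cast hq
  refine Finset.sum_bij' (fun y _ => y / (q : ℤ)) (fun j _ => (q : ℤ) * j) ?_ ?_ ?_ ?_ ?_
  · intro y hy
    rw [Finset.mem_filter, Finset.mem_Icc] at hy
    obtain ⟨⟨h1, h2⟩, j, rfl⟩ := hy
    rw [Int.mul_ediv_cancel_left _ hqz.ne', Finset.mem_Icc]
    push_cast
    constructor
    · have : -j ≤ (M : ℤ) / q := by
        rw [Int.le_ediv_iff_mul_le hqz]; linarith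
      linarith
    · rw [Int.le_ediv_iff_mul_le hqz]; linarith
  · intro j hj
    rw [Finset.mem_Icc] at hj
    push_cast at hj
    rw [Finset.mem_filter, Finset.mem_Icc]
    have h3 : (q : ℤ) * ((M : ℤ) / q) ≤ M := Int.mul_ediv_self_le hqz.ne'
    refine ⟨⟨?_, ?_⟩, Dvd.intro _ rfl⟩
    · have : (q : ℤ) * (-((M : ℤ) / q)) ≤ q * j := mul_le_mul_of_nonneg_left hj.1 hqz.le
      linarith
    · have : (q : ℤ) * j ≤ q * ((M : ℤ) / q) := mul_le_mul_of_nonneg_left hj.2 hqz.le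
      linarith
  · intro y hy
    rw [Finset.mem_filter] at hy
    exact Int.mul_ediv_cancel' hy.2
  · intro j _
    exact Int.mul_ediv_cancel_left _ hqz.ne'
  · intro y hy
    rw [Finset.mem_filter] at hy
    rw [Int.mul_ediv_cancel' hy.2]

lemma K_mult_A (X M q : ℕ) (hX : 1 ≤ X) (hq : 1 ≤ q) (ω : ℝ) :
    ∑ y ∈ (Icc (-(M : ℤ)) M).filter (fun y => (q : ℤ) ∣ y), KX X (ω * y) ≤
      (2 * ((M : ℝ) / q) + 1) * (4 * X) := by
  rw [mult_sum M q hq (fun y => KX X (ω * y))]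
  refine (Finset.sum_le_sum fun j _ => KX_le1 X hX _).trans ?_
  rw [Finset.sum_const, Int.card_Icc, nsmul_eq_mul]
  refine mul_le_mul_of_nonneg_right ?_ (by positivity)
  have h2 : ((((M / q : ℕ)) : ℤ) + 1 - -(((M / q : ℕ)) : ℤ)).toNat = 2 * (M / q) + 1 := by omega
  rw [h2]
  have h3 : ((M / q : ℕ) : ℝ) ≤ (M : ℝ) / q := Nat.cast_div_le
  push_cast
  linarith

lemma tele (c : ℝ) (hc : 0 < c) (n : ℕ) :
    ∑ i ∈ Ico 1 (n + 1), 1 / (1 + (c * (i : ℕ)) ^ 2) ≤ 2 / c := by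
  have h : ∑ i ∈ Ico 1 (n + 1), 1 / (1 + (c * ((i : ℕ) : ℝ)) ^ 2) ≤ (2 / c) * (1 - 1 / (1 + c * n)) := by
    induction n with
    | zero => simp
    | succ n ih =>
      rw [Finset.sum_Ico_succ_top (by omega)]
      refine (add_le_add_left ih _).trans ?_
      push_cast
      have hn : (0 : ℝ) ≤ n := Nat.cast_nonneg n
      have h1 : 1 / (1 + (c * ((n : ℝ) + 1)) ^ 2) ≤ (2 / c) * (1 / (1 + c * n) - 1 / (1 + c * (n + 1))) := by
        have e : (2 / c) * (1 / (1 + c * n) - 1 / (1 + c * (n + 1))) =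
            2 / ((1 + c * n) * (1 + c * (n + 1))) := by
          have : 1 + c * (n : ℝ) ≠ 0 := by positivity
          have : 1 + c * ((n : ℝ) + 1) ≠ 0 := by positivity
          field_simp
          ring
        rw [e, div_le_div_iff₀ (by positivity) (by positivity), one_mul]
        have h2 : (1 + c * (n : ℝ)) * (1 + c * (n + 1)) ≤ (1 + c * ((n : ℝ) + 1)) ^ 2 := by
          rw [sq]
          refine mul_le_mul_of_nonneg_right ?_ (by positivity)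
          nlinarith
        have h3 : (1 + c * ((n : ℝ) + 1)) ^ 2 ≤ 2 * (1 + (c * ((n : ℝ) + 1)) ^ 2) := by
          nlinarith [sq_nonneg (1 - c * ((n : ℝ) + 1))]
        linarith
      have h4 : (2 / c) * (1 - 1 / (1 + c * n)) + (2 / c) * (1 / (1 + c * n) - 1 / (1 + c * (n + 1))) =
          (2 / c) * (1 - 1 / (1 + c * (n + 1))) := by ring
      linarith
  refine h.trans ?_
  have h1 : 1 - 1 / (1 + c * (n : ℝ)) ≤ 1 := by
    have : 0 ≤ 1 / (1 + c * (n : ℝ)) := by positivity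
    linarith
  calc (2 / c) * (1 - 1 / (1 + c * (n : ℝ))) ≤ (2 / c) * 1 := mul_le_mul_of_nonneg_left h1 (by positivity)
    _ = 2 / c := mul_one _

lemma K_mult_B (X M q : ℕ) (hX : 1 ≤ X) (hq : 1 ≤ q) (a : ℤ) (θ ω : ℝ) (z : ℤ)
    (hω : ω = (a : ℝ) / q + θ + z) (hθ : |θ| * M ≤ 1 / (2 * q)) (hθ0 : θ ≠ 0) :
    ∑ y ∈ (Icc (-(M : ℤ)) M).filter (fun y => (q : ℤ) ∣ y), KX X (ω * y) ≤
      4 * X + 8 / (|θ| * q) := by
  have hXR : (0 : ℝ) < X := by exact_mod_cast hX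
  have hqR : (0 : ℝ) < q := by exact_mod_cast hq
  have hq1 : (1 : ℝ) ≤ q := by exact_mod_cast hq
  have hqz : (0 : ℤ) < q := by exact_mod_cast hq
  have hθp : 0 < |θ| := abs_pos.2 hθ0
  obtain ⟨c, hc⟩ : ∃ c : ℝ, c = 4 * X * (|θ| * q) := ⟨_, rfl⟩
  have hc0 : 0 < c := by rw [hc]; positivity
  rw [mult_sum M q hq (fun y => KX X (ω * y)), sum_Icc_symm (fun j => KX X (ω * ((q * j : ℤ) : ℝ)))]
  have hpt : ∀ j : ℤ, 1 ≤ |j| → |j| ≤ ((M / q : ℕ) : ℤ) →
      KX X (ω * ((q * j : ℤ) : ℝ)) ≤ 8 * X * (1 / (1 + (c * |(j : ℝ)|) ^ 2)) := by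
    intro j hj1 hj2
    obtain ⟨J, hJ⟩ : ∃ J : ℝ, J = |(j : ℝ)| := ⟨_, rfl⟩
    have hJ1 : 1 ≤ J := by rw [hJ]; exact_mod_cast hj1
    have hJ2 : (q : ℝ) * J ≤ M := by
      have h1 : (q : ℤ) * |j| ≤ q * ((M / q : ℕ) : ℤ) := mul_le_mul_of_nonneg_left hj2 hqz.le
      have h2 : (q : ℤ) * ((M / q : ℕ) : ℤ) ≤ M := by
        have := Nat.mul_div_le M q
        exact_mod_cast this
      have h3 : (q : ℤ) * |j| ≤ M := h1.trans h2
      have h4 : (((q : ℤ) * |j| : ℤ) : ℝ) ≤ M := by exact_mod_cast h3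
      push_cast at h4
      rw [hJ]; exact h4
    have e1 : ω * ((q * j : ℤ) : ℝ) = θ * (q * j) + ((a * j + z * (q * j) : ℤ) : ℝ) := by
      rw [hω]; push_cast; field_simp
      ring
    rw [e1, KX_add_int]
    rw [← hJ]
    have hsm : |θ| * (q * J) ≤ 1 / 2 := by
      have h1 : |θ| * (q * J) ≤ |θ| * M := mul_le_mul_of_nonneg_left hJ2 (abs_nonneg _)
      have h2 : 1 / (2 * (q : ℝ)) ≤ 1 / 2 := one_div_le_one_div_of_le (by norm_num) (by linarith)
      linarith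
    rcases le_or_gt (c * J) 1 with h | h
    · refine (KX_le1 X hX _).trans ?_
      have h1 : (c * J) ^ 2 ≤ 1 := pow_le_one₀ (by positivity) h
      have h2 : 1 / 2 ≤ 1 / (1 + (c * J) ^ 2) :=
        one_div_le_one_div_of_le (by positivity) (by linarith)
      calc 4 * (X : ℝ) = 8 * X * (1 / 2) := by ring
        _ ≤ _ := mul_le_mul_of_nonneg_left h2 (by positivity)
    · refine (KX_le2 X hX _ (|θ| * (q * J)) (by positivity) ?_).trans ?_
      · intro b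
        have hab : |θ * (q * (j : ℝ))| = |θ| * (q * J) := by
          rw [abs_mul, abs_mul, abs_of_pos hqR, hJ]
        rcases eq_or_ne b 0 with hb | hb
        · rw [hb, Int.cast_zero, sub_zero, hab]
        · have hb1 : (1 : ℝ) ≤ |(b : ℝ)| := by
            have := Int.one_le_abs hb
            exact_mod_cast this
          have h3 := abs_sub_abs_le_abs_sub (b : ℝ) (θ * (q * (j : ℝ)))
          rw [hab, abs_sub_comm] at h3
          linarith
      · have h1 : 1 ≤ (c * J) ^ 2 := one_le_pow₀ h.le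
        have e2 : 1 / (4 * (X : ℝ) * (|θ| * (q * J)) ^ 2) = 4 * X / (c * J) ^ 2 := by
          rw [hc]
          have : J ≠ 0 := by positivity
          field_simp
        rw [e2]
        have e3 : 8 * (X : ℝ) * (1 / (1 + (c * J) ^ 2)) = 8 * X / (1 + (c * J) ^ 2) := by ring
        rw [e3, div_le_div_iff₀ (by positivity) (by positivity)]
        nlinarith
  have h0 : KX X (ω * ((q * (0 : ℤ) : ℤ) : ℝ)) ≤ 4 * X := KX_le1 X hX _
  have h1 : ∑ i ∈ Ico 1 (M / q + 1), (KX X (ω * ((q * ((i : ℕ) : ℤ) : ℤ) : ℝ)) +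
      KX X (ω * ((q * (-((i : ℕ) : ℤ)) : ℤ) : ℝ))) ≤
      ∑ i ∈ Ico 1 (M / q + 1), 16 * X * (1 / (1 + (c * (i : ℕ)) ^ 2)) := by
    refine Finset.sum_le_sum fun i hi => ?_
    rw [Finset.mem_Ico] at hi
    have hi1 : (1 : ℤ) ≤ (i : ℤ) := by exact_mod_cast hi.1
    have hi2 : (i : ℤ) ≤ ((M / q : ℕ) : ℤ) := by exact_mod_cast (by omega : i ≤ M / q)
    have g1 := hpt (i : ℤ) (by rw [abs_of_pos (by linarith)]; exact hi1)
      (by rw [abs_of_pos (by linarith)]; exact hi2)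
    have g2 := hpt (-(i : ℤ)) (by rw [abs_neg, abs_of_pos (by linarith)]; exact hi1)
      (by rw [abs_neg, abs_of_pos (by linarith)]; exact hi2)
    have e1 : |(((i : ℕ) : ℤ) : ℝ)| = (i : ℝ) := by simp
    have e2 : |((-((i : ℕ) : ℤ) : ℤ) : ℝ)| = (i : ℝ) := by simp
    rw [e1] at g1
    rw [e2] at g2
    linarith
  rw [← Finset.mul_sum] at h1
  have h2 := tele c hc0 (M / q)
  have h3 : 16 * (X : ℝ) * ∑ i ∈ Ico 1 (M / q + 1), 1 / (1 + (c * (i : ℕ)) ^ 2) ≤ 16 * X * (2 / c) :=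
    mul_le_mul_of_nonneg_left h2 (by positivity)
  have h4 : 16 * (X : ℝ) * (2 / c) = 8 / (|θ| * q) := by
    rw [hc]
    field_simp
    norm_num
  linarith

/-- combined bound, version A. -/
lemma K_A (X M q : ℕ) (hX : 1 ≤ X) (hq : 1 ≤ q) (a : ℤ) (hcop : IsCoprime a (q : ℤ))
    (θ ω : ℝ) (z : ℤ) (hω : ω = (a : ℝ) / q + θ + z) (hθ : |θ| * M ≤ 1 / (2 * q)) :
    ∑ y ∈ Icc (-(M : ℤ)) M, KX X (ω * y) ≤
      (2 * ((M : ℝ) / q) + 2) * (4 * (q : ℝ) ^ 2 / X) + (2 * ((M : ℝ) / q) + 1) * (4 * X) := by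
  rw [← Finset.sum_filter_add_sum_filter_not (Icc (-(M : ℤ)) M) (fun y => (q : ℤ) ∣ y)]
  have h1 := K_nonmult X M q hX hq a hcop θ ω z hω hθ
  have h2 := K_mult_A X M q hX hq ω
  linarith

/-- combined bound, version B. -/
lemma K_B (X M q : ℕ) (hX : 1 ≤ X) (hq : 1 ≤ q) (a : ℤ) (hcop : IsCoprime a (q : ℤ))
    (θ ω : ℝ) (z : ℤ) (hω : ω = (a : ℝ) / q + θ + z) (hθ : |θ| * M ≤ 1 / (2 * q)) (hθ0 : θ ≠ 0) :
    ∑ y ∈ Icc (-(M : ℤ)) M, KX X (ω * y) ≤
      (2 * ((M : ℝ) / q) + 2) * (4 * (q : ℝ) ^ 2 / X) + 4 * X + 8 / (|θ| * q) := by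
  rw [← Finset.sum_filter_add_sum_filter_not (Icc (-(M : ℤ)) M) (fun y => (q : ℤ) ∣ y)]
  have h1 := K_nonmult X M q hX hq a hcop θ ω z hω hθ
  have h2 := K_mult_B X M q hX hq a θ ω z hω hθ hθ0
  linarith

end Pool.Agent.helper132_poly
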