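import Pool.Agent.helper132_poly.P4

/-! Averages of differenced sums. -/

namespace Pool.Agent.helper132_poly

open Finset Pool.Agent.helper132_sph

/-- the differenced sum. -/
noncomputable def DD (φ : ℤ → ℝ) (X : ℕ) (h : ℤ) : ℂ :=
  ∑ n ∈ Ico (max (0 : ℤ) (0 - h)) (min (X : ℤ) (X - h)), ec (φ (n + h) - φ n)

/-- the averaged `m`-th power. -/
noncomputable def Vm (φ : ℤ → ℝ) (X m : ℕ) : ℝ :=
  (∑ h ∈ Ioo (-(X : ℤ)) X, (‖DD φ X h‖ / X) ^ m) / X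

lemma norm_DD_le (φ : ℤ → ℝ) (X : ℕ) (h : ℤ) : ‖DD φ X h‖ ≤ X := by
  unfold DD
  refine norm_sum_ec_le _ _ (fun n => φ (n + h) - φ n) X ?_
  have := min_le_left (X : ℤ) (X - h)
  have := le_max_left (0 : ℤ) (0 - h)
  linarith

lemma Vm_nonneg (φ : ℤ → ℝ) (X m : ℕ) : 0 ≤ Vm φ X m := by
  unfold Vm
  exact div_nonneg (Finset.sum_nonneg fun _ _ => by positivity) (Nat.cast_nonneg _)

lemma Vm_le_two (φ : ℤ → ℝ) (X m : ℕ) (hX : 1 ≤ X) : Vm φ X m ≤ 2 := by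
  have hXR : (0 : ℝ) < X := by exact_mod_cast hX
  unfold Vm
  rw [div_le_iff₀ hXR]
  calc ∑ h ∈ Ioo (-(X : ℤ)) X, (‖DD φ X h‖ / X) ^ m ≤ ∑ h ∈ Ioo (-(X : ℤ)) X, (1 : ℝ) := by
        refine Finset.sum_le_sum fun h _ => pow_le_one₀ (by positivity) ?_
        rw [div_le_one hXR]; exact norm_DD_le φ X h
    _ = ((Ioo (-(X : ℤ)) X).card : ℝ) := by simp
    _ ≤ 2 * X := by
        rw [Int.card_Ioo]
        have : ((X : ℤ) - -(X : ℤ) - 1).toNat ≤ 2 * X := by omega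
        exact_mod_cast this

lemma smooth (a b : ℤ) (X : ℕ) (ha : 0 ≤ a) (hb : b ≤ X) (ψ : ℤ → ℝ) (g H : ℕ) (hH : 1 ≤ H) :
    ‖∑ n ∈ Ico a b, ec (ψ n)‖ ≤
      (∑ n ∈ Ico (0 : ℤ) X, ‖∑ u ∈ Ico (0 : ℤ) H, ec (ψ (n + g * u))‖) / H + g * H := by
  classical
  have hHR : (0 : ℝ) < H := by exact_mod_cast hH
  have hH1 : (1 : ℝ) ≤ H := by exact_mod_cast hH
  have hgz : (0 : ℤ) ≤ g := Nat.cast_nonneg _
  have hgR : (0 : ℝ) ≤ g := Nat.cast_nonneg _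
  have hmain0 : 0 ≤ (∑ n ∈ Ico (0 : ℤ) X, ‖∑ u ∈ Ico (0 : ℤ) H, ec (ψ (n + g * u))‖) / H :=
    div_nonneg (Finset.sum_nonneg fun _ _ => norm_nonneg _) hHR.le
  rcases le_or_gt (b - a) (g * H) with hcase | hcase
  · have h1 := norm_sum_ec_le a b ψ (g * H) (by push_cast; exact hcase)
    push_cast at h1
    linarith
  obtain ⟨L, hL⟩ : ∃ L : ℤ, L = g * (H - 1) := ⟨_, rfl⟩
  have hLle : L ≤ g * H := by rw [hL]; exact mul_le_mul_of_nonneg_left (by linarith) hgz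
  have hL0 : 0 ≤ L := by
    rw [hL]
    have : (1 : ℤ) ≤ H := by exact_mod_cast hH
    exact mul_nonneg hgz (by linarith)
  have hone : ∀ u ∈ Ico (0 : ℤ) H, ‖∑ n ∈ Ico a b, ec (ψ n) - ∑ n ∈ Ico a (b - L), ec (ψ (n + g * u))‖ ≤ g * H := by
    intro u hu
    rw [Finset.mem_Ico] at hu
    have hgu0 : 0 ≤ (g : ℤ) * u := mul_nonneg hgz hu.1
    have hguL : (g : ℤ) * u ≤ L := by
      rw [hL]; exact mul_le_mul_of_nonneg_left (by linarith [hu.2]) hgz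
    have e1 : ∑ n ∈ Ico a (b - L), ec (ψ (n + g * u)) =
        ∑ n ∈ Ico (a + g * u) (b - L + g * u), ec (ψ n) := by
      refine Finset.sum_bij' (fun n _ => n + g * u) (fun n _ => n - g * u) ?_ ?_ ?_ ?_ ?_
      · intro n hn; rw [Finset.mem_Ico] at hn ⊢; constructor <;> linarith [hn.1, hn.2]
      · intro n hn; rw [Finset.mem_Ico] at hn ⊢; constructor <;> linarith [hn.1, hn.2]
      · intro n _; ring
      · intro n _; ring
      · intro n _; rfl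
    rw [e1]
    have hsub : Ico (a + g * u) (b - L + g * u) ⊆ Ico a b := by
      intro n hn
      rw [Finset.mem_Ico] at hn ⊢
      constructor <;> linarith [hn.1, hn.2]
    rw [← Finset.sum_sdiff hsub, add_sub_cancel_right]
    refine (norm_sum_le _ _).trans ?_
    simp only [norm_ec, Finset.sum_const, nsmul_eq_mul, mul_one]
    rw [Finset.card_sdiff_of_subset hsub, Int.card_Ico, Int.card_Ico]
    have h3 : (((b - a).toNat - (b - L + g * u - (a + g * u)).toNat : ℕ) : ℤ) ≤ g * H := by omega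
    exact_mod_cast h3
  have hsum : ‖(H : ℂ) * ∑ n ∈ Ico a b, ec (ψ n) -
      ∑ n ∈ Ico a (b - L), ∑ u ∈ Ico (0 : ℤ) H, ec (ψ (n + g * u))‖ ≤ H * (g * H) := by
    have e1 : (H : ℂ) * ∑ n ∈ Ico a b, ec (ψ n) -
        ∑ n ∈ Ico a (b - L), ∑ u ∈ Ico (0 : ℤ) H, ec (ψ (n + g * u)) =
        ∑ u ∈ Ico (0 : ℤ) H, (∑ n ∈ Ico a b, ec (ψ n) - ∑ n ∈ Ico a (b - L), ec (ψ (n + g * u))) := by
      rw [Finset.sum_sub_distrib, Finset.sum_comm]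
      congr 1
      rw [Finset.sum_const, Int.card_Ico, nsmul_eq_mul]
      simp
    rw [e1]
    refine (norm_sum_le _ _).trans ((Finset.sum_le_sum hone).trans ?_)
    rw [Finset.sum_const, Int.card_Ico, nsmul_eq_mul]
    simp
  have h1 : H * ‖∑ n ∈ Ico a b, ec (ψ n)‖ ≤
      ∑ n ∈ Ico (0 : ℤ) X, ‖∑ u ∈ Ico (0 : ℤ) H, ec (ψ (n + g * u))‖ + H * (g * H) := by
    have e2 : (H : ℝ) * ‖∑ n ∈ Ico a b, ec (ψ n)‖ = ‖(H : ℂ) * ∑ n ∈ Ico a b, ec (ψ n)‖ := by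
      rw [norm_mul, Complex.norm_natCast]
    rw [e2]
    have h2 := norm_le_norm_add_norm_sub' ((H : ℂ) * ∑ n ∈ Ico a b, ec (ψ n))
      (∑ n ∈ Ico a (b - L), ∑ u ∈ Ico (0 : ℤ) H, ec (ψ (n + g * u)))
    refine h2.trans (add_le_add ?_ hsum)
    refine (norm_sum_le _ _).trans ?_
    refine Finset.sum_le_sum_of_subset_of_nonneg ?_ (fun _ _ _ => norm_nonneg _)
    intro n hn
    rw [Finset.mem_Ico] at hn ⊢
    constructor <;> linarith [hn.1, hn.2]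
  have h2 : ‖∑ n ∈ Ico a b, ec (ψ n)‖ ≤
      (∑ n ∈ Ico (0 : ℤ) X, ‖∑ u ∈ Ico (0 : ℤ) H, ec (ψ (n + g * u))‖ + H * (g * H)) / H := by
    rw [le_div_iff₀ hHR, mul_comm]
    exact h1
  refine h2.trans (le_of_eq ?_)
  field_simp

lemma add_pow_le_two (x y : ℝ) (hx : 0 ≤ x) (hy : 0 ≤ y) (m : ℕ) :
    (x + y) ^ m ≤ 2 ^ m * (x ^ m + y ^ m) := by
  have h1 : x + y ≤ 2 * max x y := by
    have h2 := le_max_left x y
    have h3 := le_max_right x y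
    linarith
  calc (x + y) ^ m ≤ (2 * max x y) ^ m := pow_le_pow_left₀ (by positivity) h1 _
    _ = 2 ^ m * (max x y) ^ m := mul_pow _ _ _
    _ ≤ 2 ^ m * (x ^ m + y ^ m) := by
        refine mul_le_mul_of_nonneg_left ?_ (by positivity)
        rcases max_choice x y with h | h
        · rw [h]; have : 0 ≤ y ^ m := by positivity
          linarith
        · rw [h]; have : 0 ≤ x ^ m := by positivity
          linarith

/-- the basic bound for `Vm`. -/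
lemma Vm_basic (κ s X g H : ℕ) (hκ : 1 ≤ κ) (hs : 1 ≤ s) (hX : 1 ≤ X) (hH : 1 ≤ H) (α : ℝ)
    (φ : ℤ → ℝ) (hφ : PP (κ + 1) α φ) :
    Vm φ X (2 * s) ≤ 2 ^ (2 * s) * ((((s : ℝ) ^ (κ - 1) * (H : ℝ) ^ (κ * (κ - 1) / 2)) * (Jm κ s H *
        ∑ y ∈ Icc (-((s * H ^ κ : ℕ) : ℤ)) ((s * H ^ κ : ℕ) : ℤ), KX X ((((κ : ℝ) + 1) * α * (g : ℝ) ^ κ) * y)))
          / ((H : ℝ) ^ (2 * s) * X) + 2 * ((g : ℝ) * H / X) ^ (2 * s)) := by
  classical
  have hXR : (0 : ℝ) < X := by exact_mod_cast hX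
  have hHR : (0 : ℝ) < H := by exact_mod_cast hH
  obtain ⟨Bd, hBd⟩ : ∃ Bd : ℝ, Bd = ((s : ℝ) ^ (κ - 1) * (H : ℝ) ^ (κ * (κ - 1) / 2)) * (Jm κ s H *
        ∑ y ∈ Icc (-((s * H ^ κ : ℕ) : ℤ)) ((s * H ^ κ : ℕ) : ℤ),
          KX X ((((κ : ℝ) + 1) * α * (g : ℝ) ^ κ) * y)) := ⟨_, rfl⟩
  rw [← hBd]
  obtain ⟨S, hS⟩ : ∃ S : ℤ → ℤ → ℝ, S = fun h n =>
    ‖∑ u ∈ Ico (0 : ℤ) H, ec (φ (n + g * u + h) - φ (n + g * u))‖ := ⟨_, rfl⟩
  have hS0 : ∀ h n, 0 ≤ S h n := by intro h n; rw [hS]; exact norm_nonneg _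
  have hLS : ∀ n : ℤ, ∑ h ∈ Ioo (-(X : ℤ)) X, S h n ^ (2 * s) ≤ Bd := by
    intro n
    rw [hBd, hS]
    refine large_sieve κ s H X hκ hs hH hX (((κ : ℝ) + 1) * α * (g : ℝ) ^ κ)
      (fun h u => φ (n + g * u + h) - φ (n + g * u)) ?_
    intro h
    have h1 := PP.affine (PP.diff hφ h) n g
    have e : ((κ : ℝ) + 1) * (h : ℝ) * α * ((g : ℤ) : ℝ) ^ κ = ((κ : ℝ) + 1) * α * (g : ℝ) ^ κ * h := by
      push_cast; ring
    rw [e] at h1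
    exact h1
  have hpt : ∀ h : ℤ, (‖DD φ X h‖ / X) ^ (2 * s) ≤
      2 ^ (2 * s) * ((∑ n ∈ Ico (0 : ℤ) X, S h n ^ (2 * s)) / ((H : ℝ) ^ (2 * s) * X) +
        ((g : ℝ) * H / X) ^ (2 * s)) := by
    intro h
    have h1 := smooth (max (0 : ℤ) (0 - h)) (min (X : ℤ) (X - h)) X (le_max_left _ _) (min_le_left _ _)
      (fun n => φ (n + h) - φ n) g H hH
    have h1' : ‖DD φ X h‖ ≤ (∑ n ∈ Ico (0 : ℤ) X, S h n) / H + g * H := by
      rw [hS]; exact h1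
    have h2 : ‖DD φ X h‖ / X ≤ (∑ n ∈ Ico (0 : ℤ) X, S h n) / (H * X) + g * H / X := by
      rw [div_le_iff₀ hXR]
      refine h1'.trans (le_of_eq ?_)
      field_simp
    have hsum0 : 0 ≤ ∑ n ∈ Ico (0 : ℤ) X, S h n := Finset.sum_nonneg fun n _ => hS0 h n
    refine (pow_le_pow_left₀ (by positivity) h2 _).trans ?_
    refine (add_pow_le_two _ _ (by positivity) (by positivity) _).trans ?_
    refine mul_le_mul_of_nonneg_left (add_le_add ?_ le_rfl) (by positivity)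
    have h3 := pow_mean (Ico (0 : ℤ) X) (fun n => S h n) (fun n _ => hS0 h n) (2 * s)
    rw [Int.card_Ico] at h3
    simp only [sub_zero, Int.toNat_natCast] at h3
    rw [div_pow, mul_pow, div_le_div_iff₀ (by positivity) (by positivity)]
    calc (∑ n ∈ Ico (0 : ℤ) X, S h n) ^ (2 * s) * ((H : ℝ) ^ (2 * s) * X)
        = ((∑ n ∈ Ico (0 : ℤ) X, S h n) ^ (2 * s) * X) * (H : ℝ) ^ (2 * s) := by ring
      _ ≤ ((X : ℝ) ^ (2 * s) * ∑ n ∈ Ico (0 : ℤ) X, S h n ^ (2 * s)) * (H : ℝ) ^ (2 * s) :=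
          mul_le_mul_of_nonneg_right h3 (by positivity)
      _ = _ := by ring
  unfold Vm
  rw [div_le_iff₀ hXR]
  refine (Finset.sum_le_sum fun h _ => hpt h).trans ?_
  rw [← Finset.mul_sum, Finset.sum_add_distrib, ← Finset.sum_div, Finset.sum_comm, Finset.sum_const,
    nsmul_eq_mul]
  have h4 : ∑ n ∈ Ico (0 : ℤ) X, ∑ h ∈ Ioo (-(X : ℤ)) X, S h n ^ (2 * s) ≤ X * Bd := by
    refine (Finset.sum_le_sum fun n _ => hLS n).trans ?_
    rw [Finset.sum_const, Int.card_Ico, nsmul_eq_mul]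
    simp
  have h5 : ((Ioo (-(X : ℤ)) X).card : ℝ) ≤ 2 * X := by
    rw [Int.card_Ioo]
    have : ((X : ℤ) - -(X : ℤ) - 1).toNat ≤ 2 * X := by omega
    exact_mod_cast this
  have h6 : (∑ n ∈ Ico (0 : ℤ) X, ∑ h ∈ Ioo (-(X : ℤ)) X, S h n ^ (2 * s)) / ((H : ℝ) ^ (2 * s) * X) ≤
      (X * Bd) / ((H : ℝ) ^ (2 * s) * X) := div_le_div_of_nonneg_right h4 (by positivity)
  have h7 : ((Ioo (-(X : ℤ)) X).card : ℝ) * ((g : ℝ) * H / X) ^ (2 * s) ≤ 2 * X * ((g : ℝ) * H / X) ^ (2 * s) :=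
    mul_le_mul_of_nonneg_right h5 (by positivity)
  rw [mul_assoc]
  refine mul_le_mul_of_nonneg_left ?_ (by positivity)
  refine (add_le_add h6 h7).trans (le_of_eq ?_)
  field_simp

end Pool.Agent.helper132_poly
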