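import Pool.Agent.helper132_poly.N1

/-! An interval of a residue class where the number of representations is large. -/

namespace Pool.Agent.helper132_poly

open Finset Pool.Agent.helper132_sph

lemma Phi_diff' (k X s0 P n n' : ℕ) (hX : 1 ≤ X) (ε κ1 : ℝ) (hε : 0 ≤ ε) (hκ1 : 0 ≤ κ1)
    (hdec : ∀ α : ℝ, ‖fS k X α‖ ≤ ε * X ∨ ‖ec (-(α * n)) - ec (-(α * n'))‖ ≤ κ1) :
    ‖Phi k X (s0 + 1) P n - Phi k X (s0 + 1) P n'‖ ≤
      (X : ℝ) ^ (s0 + 1) * (∑ a ∈ range P, (‖fS k X ((a : ℝ) / P)‖ / X) ^ s0) * (2 * ε + κ1) := by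
  classical
  have hXR : (0 : ℝ) < X := by exact_mod_cast hX
  unfold Phi
  rw [← Finset.sum_sub_distrib]
  refine (norm_sum_le _ _).trans ?_
  rw [Finset.mul_sum, Finset.sum_mul]
  refine Finset.sum_le_sum fun a _ => ?_
  obtain ⟨α, hα⟩ : ∃ α : ℝ, α = (a : ℝ) / P := ⟨_, rfl⟩
  rw [← hα]
  obtain ⟨v, hv⟩ : ∃ v : ℝ, v = ‖fS k X α‖ := ⟨_, rfl⟩
  have hv0 : 0 ≤ v := by rw [hv]; exact norm_nonneg _
  have hvX : v ≤ X := by rw [hv]; exact norm_fS_le _ _ _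
  rw [← sub_mul, norm_mul, norm_pow, ← hv]
  have hvX1 : v / X ≤ 1 := by rw [div_le_one hXR]; exact hvX
  have hE2 : ‖ec (-(α * n)) - ec (-(α * n'))‖ ≤ 2 := by
    refine (norm_sub_le _ _).trans ?_
    rw [norm_ec, norm_ec]; norm_num
  have hvs : v ^ (s0 + 1) = (X : ℝ) ^ (s0 + 1) * (v / X) ^ s0 * (v / X) := by
    rw [mul_assoc, ← pow_succ, div_pow]; field_simp
  rcases hdec α with h | h
  · rw [← hv] at h
    have h1 : v / X ≤ ε := by rw [div_le_iff₀ hXR]; exact h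
    calc ‖ec (-(α * n)) - ec (-(α * n'))‖ * v ^ (s0 + 1) ≤ 2 * ((X : ℝ) ^ (s0 + 1) * (v / X) ^ s0 * ε) := by
          rw [hvs]; gcongr
      _ = (X : ℝ) ^ (s0 + 1) * (v / X) ^ s0 * (2 * ε) := by ring
      _ ≤ _ := by
          refine mul_le_mul_of_nonneg_left ?_ (by positivity)
          linarith
  · calc ‖ec (-(α * n)) - ec (-(α * n'))‖ * v ^ (s0 + 1)
        ≤ κ1 * ((X : ℝ) ^ (s0 + 1) * (v / X) ^ s0 * 1) := by
          rw [hvs]; gcongr
      _ = (X : ℝ) ^ (s0 + 1) * (v / X) ^ s0 * κ1 := by ring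
      _ ≤ _ := by
          refine mul_le_mul_of_nonneg_left ?_ (by positivity)
          linarith

/-- interval lemma. -/
lemma interval_lemma' (k A : ℕ) (hk : 3 ≤ k) (C : ℝ) (hC : 1 ≤ C) (hWH : WH k A C) (s : ℕ)
    (hsA : s = k * A + 1) :
    ∃ W X1 : ℕ, ∃ δ : ℝ, 1 ≤ W ∧ 1 ≤ X1 ∧ 0 < δ ∧ δ ≤ 1 ∧
    ∀ X, X1 ≤ X → ∃ n0 : ℕ, n0 < s * X ^ k ∧ ∀ n : ℕ, n0 ≤ n → (n : ℝ) ≤ n0 + δ * (X : ℝ) ^ k →
      (W : ℤ) ∣ (n : ℤ) - n0 → (X : ℝ) ^ s ≤ 2 * s * (X : ℝ) ^ k * cS k X s n := by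
  classical
  obtain ⟨K, hK, hmv⟩ := mean_value' k A hk C hC hWH
  have hpi := Real.pi_pos
  obtain ⟨M, hM⟩ : ∃ M : ℝ, M = K * (((2 * s : ℕ) : ℝ) + 2) ^ 3 := ⟨_, rfl⟩
  have hM0 : 0 < M := by rw [hM]; positivity
  have hs1 : 1 ≤ s := by omega
  have hsR : (1 : ℝ) ≤ s := by exact_mod_cast hs1
  obtain ⟨ε, hε⟩ : ∃ ε : ℝ, ε = 1 / (4 * M) := ⟨_, rfl⟩
  have hε0 : 0 < ε := by rw [hε]; positivity
  obtain ⟨Q, hQ⟩ := exists_nat_ge (C / ε ^ A)
  have hQ0 : (0 : ℝ) < Q := lt_of_lt_of_le (by positivity) hQ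
  have hQ1 : 1 ≤ Q := by exact_mod_cast hQ0
  obtain ⟨W, hW⟩ : ∃ W : ℕ, W = Nat.factorial Q := ⟨_, rfl⟩
  have hW1 : 1 ≤ W := by rw [hW]; exact Nat.factorial_pos _
  refine ⟨W, Q + 1, min 1 (1 / (2 * M * (2 * Real.pi * Q))), hW1, by omega,
    lt_min one_pos (by positivity), min_le_left _ _, ?_⟩
  intro X hX
  have hX1 : 1 ≤ X := by omega
  have hXR : (1 : ℝ) ≤ X := by exact_mod_cast hX1
  have hX0 : (0 : ℝ) < X := by linarith
  have hXk : (0 : ℝ) < (X : ℝ) ^ k := by positivity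
  have hXkn : 1 ≤ X ^ k := Nat.one_le_pow _ _ hX1
  obtain ⟨P, hP⟩ : ∃ P : ℕ, P = 2 * s * X ^ k := ⟨_, rfl⟩
  have hP1 : 1 ≤ P := by
    rw [hP]; exact Nat.mul_pos (by omega) hXkn
  have hPR : (P : ℝ) = 2 * s * (X : ℝ) ^ k := by rw [hP]; push_cast; ring
  -- range of values
  have hval : ∀ y ∈ Fintype.piFinset (fun _ : Fin s => range X), ∑ j, (y j) ^ k < s * X ^ k := by
    intro y hy
    rw [Fintype.mem_piFinset] at hy
    calc ∑ j, (y j) ^ k < ∑ _j : Fin s, X ^ k := by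
          refine Finset.sum_lt_sum_of_nonempty ?_ ?_
          · exact ⟨⟨0, by omega⟩, Finset.mem_univ _⟩
          · intro j _
            exact Nat.pow_lt_pow_left (Finset.mem_range.1 (hy j)) (by omega)
      _ = s * X ^ k := by simp
  have hval2 : ∀ y ∈ Fintype.piFinset (fun _ : Fin s => range X), ∑ j, (y j) ^ k < P := by
    intro y hy
    have := hval y hy
    rw [hP, mul_assoc]
    omega
  -- the peak
  have hpeak : ∃ n0 ∈ range (s * X ^ k), X ^ s ≤ s * X ^ k * cS k X s n0 := by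
    by_contra hcon
    push Not at hcon
    have h1 : ∑ n ∈ range (s * X ^ k), cS k X s n = X ^ s := by
      unfold cS
      rw [← Finset.card_eq_sum_card_fiberwise (f := fun y : Fin s → ℕ => ∑ j, (y j) ^ k)]
      · rw [Fintype.card_piFinset]; simp
      · intro y hy
        rw [Finset.mem_coe] at hy ⊢
        exact Finset.mem_range.2 (hval y hy)
    have h2 : ∑ n ∈ range (s * X ^ k), (s * X ^ k * cS k X s n) < ∑ n ∈ range (s * X ^ k), X ^ s :=
      Finset.sum_lt_sum_of_nonempty ⟨0, Finset.mem_range.2 (Nat.mul_pos (by omega) hXkn)⟩ hcon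
    rw [← Finset.mul_sum, h1, Finset.sum_const, Finset.card_range, smul_eq_mul] at h2
    exact absurd h2 (lt_irrefl _)
  obtain ⟨n0, hn0, hn0p⟩ := hpeak
  rw [Finset.mem_range] at hn0
  refine ⟨n0, hn0, ?_⟩
  intro n hn1 hn2 hWn
  have hmin1 : min 1 (1 / (2 * M * (2 * Real.pi * Q))) ≤ 1 := min_le_left _ _
  have hmin2 : min 1 (1 / (2 * M * (2 * Real.pi * Q))) ≤ 1 / (2 * M * (2 * Real.pi * Q)) := min_le_right _ _
  have hnP : n < P := by
    have h1 : (n : ℝ) ≤ n0 + 1 * (X : ℝ) ^ k := hn2.trans (by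
      have := mul_le_mul_of_nonneg_right hmin1 hXk.le
      linarith)
    have h2 : (n : ℝ) ≤ ((n0 + X ^ k : ℕ) : ℝ) := by push_cast; linarith
    have h3 : n ≤ n0 + X ^ k := by exact_mod_cast h2
    have h4 : X ^ k ≤ s * X ^ k := Nat.le_mul_of_pos_left _ hs1
    rw [hP, mul_assoc]
    omega
  have hn0P : n0 < P := by
    rw [hP, mul_assoc]; omega
  have e1 := Phi_eq k X s P n hP1 hnP hval2
  have e2 := Phi_eq k X s P n0 hP1 hn0P hval2
  have hmv2 := hmv (2 * s) X (by omega) hX1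
  have hPc : 2 * s * X ^ k = P := hP.symm
  rw [hPc, ← hM] at hmv2
  have hnn : |(n : ℝ) - n0| ≤ 1 / (2 * M * (2 * Real.pi * Q)) * (X : ℝ) ^ k := by
    rw [abs_of_nonneg (by
      have : (n0 : ℝ) ≤ n := by exact_mod_cast hn1
      linarith)]
    have := mul_le_mul_of_nonneg_right hmin2 hXk.le
    linarith
  have hdec : ∀ α : ℝ, ‖fS k X α‖ ≤ ε * X ∨
      ‖ec (-(α * n)) - ec (-(α * n0))‖ ≤ 1 / (2 * M) := by
    intro α
    by_cases hcase : ‖fS k X α‖ ≤ ε * X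
    · left; exact hcase
    push Not at hcase
    right
    have hWX := hWH X hX1 α (fun n : ℤ => α * (n : ℝ) ^ k) (PP.pow k α) 0 X (by simp)
    obtain ⟨u, hu⟩ : ∃ u : ℝ, u = ‖fS k X α‖ / X := ⟨_, rfl⟩
    have hu' : ‖∑ n ∈ Ico (0 : ℤ) X, ec ((fun n : ℤ => α * (n : ℝ) ^ k) n)‖ / X = u := by
      rw [hu]; rfl
    rw [hu'] at hWX
    have huε : ε ≤ u := by rw [hu, le_div_iff₀ hX0]; exact hcase.le
    have huA : ε ^ A ≤ u ^ A := pow_le_pow_left₀ hε0.le huε A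
    have hconv : ∀ z : ℝ, 0 ≤ z → z * u ^ A ≤ C → z ≤ Q := by
      intro z hz hzC
      refine le_trans ?_ hQ
      rw [le_div_iff₀ (by positivity)]
      exact (mul_le_mul_of_nonneg_left huA hz).trans hzC
    have hnd : ¬ (u ^ A * X ≤ C) := by
      intro h
      have h1 := hconv X hX0.le (by rw [mul_comm]; exact h)
      have h2 : X ≤ Q := by exact_mod_cast h1
      omega
    obtain ⟨q, c, hq, h1, h2⟩ := hWX.resolve_left hnd
    have hqQ : q ≤ Q := by exact_mod_cast hconv q (Nat.cast_nonneg _) h1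
    have hqR : (1 : ℝ) ≤ q := by exact_mod_cast hq
    have hq0 : (0 : ℝ) < q := by linarith
    have hβ : |(q : ℝ) * α - c| * (X : ℝ) ^ k ≤ Q := by
      refine hconv _ (by positivity) ?_
      calc |(q : ℝ) * α - c| * (X : ℝ) ^ k * u ^ A = |(q : ℝ) * α - c| * u ^ A * (X : ℝ) ^ k := by ring
        _ ≤ C := h2
    obtain ⟨w, hw⟩ : (q : ℤ) ∣ (n : ℤ) - n0 := by
      refine dvd_trans ?_ hWn
      rw [hW]
      exact_mod_cast Nat.dvd_factorial (by omega) hqQ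
    have hwR : (n : ℝ) - n0 = q * w := by exact_mod_cast hw
    have e1 : -(α * n) = (-(α * n0) - (q * α - c) * w) + (((-(c * w) : ℤ)) : ℝ) := by
      have : (n : ℝ) = n0 + q * w := by linarith
      rw [this]; push_cast; ring
    rw [e1, ec_add_int]
    refine (norm_ec_sub_le _ _).trans ?_
    have e2 : -(α * (n0 : ℝ)) - (q * α - c) * w - -(α * n0) = -((q * α - c) * w) := by ring
    rw [e2, abs_neg, abs_mul]
    have hw' : |(w : ℝ)| ≤ |(n : ℝ) - n0| := by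
      rw [hwR, abs_mul, abs_of_pos hq0]
      exact le_mul_of_one_le_left (abs_nonneg _) hqR
    have hβ' : |(q : ℝ) * α - c| ≤ Q / (X : ℝ) ^ k := by rw [le_div_iff₀ hXk]; exact hβ
    calc 2 * Real.pi * (|(q : ℝ) * α - c| * |(w : ℝ)|)
        ≤ 2 * Real.pi * ((Q / (X : ℝ) ^ k) * (1 / (2 * M * (2 * Real.pi * Q)) * (X : ℝ) ^ k)) := by
          refine mul_le_mul_of_nonneg_left ?_ (by positivity)
          exact mul_le_mul hβ' (hw'.trans hnn) (abs_nonneg _) (by positivity)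
      _ = 1 / (2 * M) := by field_simp
  have hd := Phi_diff' k X (k * A) P n n0 hX1 ε (1 / (2 * M)) hε0.le (by positivity) hdec
  rw [← hsA] at hd
  have hsum0 : 0 ≤ ∑ a ∈ range P, (‖fS k X ((a : ℝ) / P)‖ / X) ^ (k * A) :=
    Finset.sum_nonneg fun a _ => by positivity
  have hpieces : 2 * ε + 1 / (2 * M) ≤ 1 / M := by
    have : 2 * ε + 1 / (2 * M) = 1 / M := by rw [hε]; field_simp; norm_num
    exact this.le
  have hd2 : ‖Phi k X s P n - Phi k X s P n0‖ ≤ (X : ℝ) ^ s := by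
    refine hd.trans ?_
    calc _ ≤ (X : ℝ) ^ s * M * (1 / M) := by
          have h0 : 0 ≤ 2 * ε + 1 / (2 * M) := by positivity
          gcongr
      _ = (X : ℝ) ^ s := by field_simp
  rw [e1, e2] at hd2
  have h6 : (P : ℝ) * cS k X s n0 - P * cS k X s n ≤ (X : ℝ) ^ s := by
    have h7 : ‖(P : ℂ) * cS k X s n - (P : ℂ) * cS k X s n0‖ =
        |(P : ℝ) * cS k X s n - P * cS k X s n0| := by
      rw [← Real.norm_eq_abs, ← Complex.norm_real]
      push_cast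
      rfl
    rw [h7, abs_sub_comm] at hd2
    exact (le_abs_self _).trans hd2
  have h8 : 2 * (X : ℝ) ^ s ≤ P * cS k X s n0 := by
    have h9 : ((X ^ s : ℕ) : ℝ) ≤ ((s * X ^ k * cS k X s n0 : ℕ) : ℝ) := by exact_mod_cast hn0p
    push_cast at h9
    rw [hPR]
    linarith
  rw [← hPR]
  linarith

end Pool.Agent.helper132_poly
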