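import Mathlib

/-! Every residue class is a sum of `k ^ 3` powers. -/

namespace Pool.Agent.helper132_poly

open Finset

lemma hensel_root (p : ℕ) [Fact p.Prime] (k : ℕ) (u : ℤ_[p])
    (hu : ‖1 - u‖ < ‖(k : ℤ_[p])‖ ^ 2) : ∃ z : ℤ_[p], z ^ k = u := by
  obtain ⟨F, hF⟩ : ∃ F : Polynomial ℤ_[p], F = Polynomial.X ^ k - Polynomial.C u := ⟨_, rfl⟩
  have h1 : ∀ z : ℤ_[p], Polynomial.aeval z F = z ^ k - u := by
    intro z; rw [hF]; simp
  have h2 : Polynomial.aeval (1 : ℤ_[p]) F.derivative = k := by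
    rw [hF, Polynomial.derivative_sub, Polynomial.derivative_X_pow, Polynomial.derivative_C, sub_zero]
    simp
  have h3 := hensels_lemma (F := F) (a := (1 : ℤ_[p])) (by
    rw [h1, h2, one_pow]; exact hu)
  obtain ⟨z, hz, _⟩ := h3
  refine ⟨z, ?_⟩
  rw [h1] at hz
  exact sub_eq_zero.1 hz

/-- solvability of `Σ ρ^k ≡ c` modulo `W` with `t` variables. -/
def LSR (k t W : ℕ) : Prop := ∀ c : ℤ, ∃ ρ : ℕ → ℕ, (W : ℤ) ∣ c - ∑ i ∈ range t, ((ρ i : ℕ) : ℤ) ^ k

lemma LSR.mono {k t t' W : ℕ} (hk : 1 ≤ k) (h : LSR k t W) (ht : t ≤ t') : LSR k t' W := by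
  intro c
  obtain ⟨ρ, hρ⟩ := h c
  refine ⟨fun i => if i < t then ρ i else 0, ?_⟩
  have h1 : ∑ i ∈ range t', (((if i < t then ρ i else 0 : ℕ)) : ℤ) ^ k =
      ∑ i ∈ range t, ((ρ i : ℕ) : ℤ) ^ k := by
    have hsub : range t ⊆ range t' := Finset.range_subset_range.2 ht
    rw [← Finset.sum_subset hsub]
    · refine Finset.sum_congr rfl fun i hi => ?_
      rw [if_pos (Finset.mem_range.1 hi)]
    · intro i _ hi
      rw [if_neg (by rw [Finset.mem_range] at hi; exact hi)]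
      simp only [Nat.cast_zero]
      exact zero_pow (by omega)
  rw [h1]
  exact hρ

lemma LSR_mul {k t m n : ℕ} (hmn : Nat.Coprime m n) (h1 : LSR k t m) (h2 : LSR k t n) :
    LSR k t (m * n) := by
  intro c
  obtain ⟨ρ1, hρ1⟩ := h1 c
  obtain ⟨ρ2, hρ2⟩ := h2 c
  have hch : ∀ i, ∃ r : ℕ, r ≡ ρ1 i [MOD m] ∧ r ≡ ρ2 i [MOD n] := fun i =>
    ⟨(Nat.chineseRemainder hmn (ρ1 i) (ρ2 i)).1, (Nat.chineseRemainder hmn (ρ1 i) (ρ2 i)).2⟩
  choose ρ hρa hρb using hch
  refine ⟨ρ, ?_⟩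
  have key : ∀ (M : ℕ) (σ : ℕ → ℕ), (∀ i, ρ i ≡ σ i [MOD M]) →
      (M : ℤ) ∣ c - ∑ i ∈ range t, ((σ i : ℕ) : ℤ) ^ k → (M : ℤ) ∣ c - ∑ i ∈ range t, ((ρ i : ℕ) : ℤ) ^ k := by
    intro M σ hσ hd
    have h3 : (M : ℤ) ∣ ∑ i ∈ range t, (((σ i : ℕ) : ℤ) ^ k - ((ρ i : ℕ) : ℤ) ^ k) := by
      refine Finset.dvd_sum fun i _ => ?_
      have h4 : (M : ℤ) ∣ ((σ i : ℕ) : ℤ) - ((ρ i : ℕ) : ℤ) := Nat.modEq_iff_dvd.1 (hσ i)
      exact h4.trans (sub_dvd_pow_sub_pow _ _ _)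
    rw [Finset.sum_sub_distrib] at h3
    have h5 := dvd_add hd h3
    have e : c - ∑ i ∈ range t, ((σ i : ℕ) : ℤ) ^ k + (∑ i ∈ range t, ((σ i : ℕ) : ℤ) ^ k -
        ∑ i ∈ range t, ((ρ i : ℕ) : ℤ) ^ k) = c - ∑ i ∈ range t, ((ρ i : ℕ) : ℤ) ^ k := by ring
    rwa [e] at h5
  push_cast
  exact IsCoprime.mul_dvd (Nat.isCoprime_iff_coprime.2 hmn) (key m ρ1 hρa hρ1) (key n ρ2 hρb hρ2)

open Pointwise in
lemma sum_powers_prime (p k : ℕ) [hp : Fact p.Prime] (hk : 1 ≤ k) : LSR k k p := by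
  classical
  obtain ⟨A, hA⟩ : ∃ A : Finset (ZMod p), A = Finset.univ.image (fun x : ZMod p => x ^ k) := ⟨_, rfl⟩
  have hp1 := hp.out.one_lt
  have h0A : (0 : ZMod p) ∈ A := by
    rw [hA, Finset.mem_image]
    exact ⟨0, Finset.mem_univ _, zero_pow (by omega)⟩
  have hAcard : p - 1 ≤ k * (A.card - 1) := by
    have h1 : (Finset.univ.erase (0 : ZMod p)).card ≤ k * (A.erase 0).card := by
      refine Finset.card_le_mul_card_image_of_maps_to (f := fun x : ZMod p => x ^ k) ?_ k ?_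
      · intro x hx
        rw [Finset.mem_erase] at hx ⊢
        refine ⟨pow_ne_zero k hx.1, ?_⟩
        rw [hA]
        exact Finset.mem_image_of_mem _ (Finset.mem_univ x)
      · intro b _
        have h2 : (Finset.univ.erase (0 : ZMod p)).filter (fun x => x ^ k = b) ⊆
            (Polynomial.nthRoots k b).toFinset := by
          intro x hx
          rw [Finset.mem_filter] at hx
          rw [Multiset.mem_toFinset, Polynomial.mem_nthRoots (by omega)]
          exact hx.2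
        exact (Finset.card_le_card h2).trans ((Multiset.toFinset_card_le _).trans (Polynomial.card_nthRoots k b))
    rw [Finset.card_erase_of_mem (Finset.mem_univ _), Finset.card_univ, ZMod.card,
      Finset.card_erase_of_mem h0A] at h1
    exact h1
  have hAne : A.Nonempty := ⟨0, h0A⟩
  have hA1 : 1 ≤ A.card := Finset.card_pos.2 hAne
  have hind : ∀ j : ℕ, ∃ S : Finset (ZMod p), S.Nonempty ∧ min p (j * (A.card - 1) + 1) ≤ S.card ∧
      ∀ c ∈ S, ∃ ρ : ℕ → ZMod p, ∑ i ∈ range j, (ρ i) ^ k = c := by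
    intro j
    induction j with
    | zero =>
      refine ⟨{0}, ⟨0, Finset.mem_singleton_self _⟩, ?_, ?_⟩
      · simp
      · intro c hc
        rw [Finset.mem_singleton] at hc
        exact ⟨fun _ => 0, by simp [hc]⟩
    | succ j ih =>
      obtain ⟨S, hS1, hS2, hS3⟩ := ih
      refine ⟨S + A, hS1.add hAne, ?_, ?_⟩
      · have h1 := ZMod.cauchy_davenport hp.out hS1 hAne
        have h2 : (j + 1) * (A.card - 1) + 1 = (j * (A.card - 1) + 1) + (A.card - 1) := by ring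
        rw [h2]
        refine le_trans ?_ h1
        have h3 : S.card + A.card - 1 = S.card + (A.card - 1) := by omega
        rw [h3]
        rcases le_total p (j * (A.card - 1) + 1) with h | h
        · rw [min_eq_left h] at hS2
          rw [min_eq_left (by omega), min_eq_left (by omega)]
        · rw [min_eq_right h] at hS2
          exact min_le_min le_rfl (by omega)
      · intro c hc
        rw [Finset.mem_add] at hc
        obtain ⟨a, ha, b, hb, rfl⟩ := hc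
        obtain ⟨ρ, hρ⟩ := hS3 a ha
        rw [hA, Finset.mem_image] at hb
        obtain ⟨x, _, hx⟩ := hb
        refine ⟨fun i => if i = j then x else ρ i, ?_⟩
        rw [Finset.sum_range_succ]
        beta_reduce
        rw [if_pos rfl, hx, ← hρ]
        congr 1
        refine Finset.sum_congr rfl fun i hi => ?_
        rw [Finset.mem_range] at hi
        rw [if_neg (by omega)]
  obtain ⟨S, _, hS2, hS3⟩ := hind k
  have hSuniv : S = Finset.univ := by
    rw [← Finset.card_eq_iff_eq_univ, ZMod.card]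
    refine le_antisymm ?_ ?_
    · have := Finset.card_le_univ S
      rwa [ZMod.card] at this
    · have : min p (k * (A.card - 1) + 1) = p := min_eq_left (by omega)
      rwa [this] at hS2
  intro c
  obtain ⟨ρ, hρ⟩ := hS3 (c : ZMod p) (by rw [hSuniv]; exact Finset.mem_univ _)
  refine ⟨fun i => (ρ i).val, ?_⟩
  rw [← ZMod.intCast_zmod_eq_zero_iff_dvd]
  push_cast
  have h1 : ∀ i, (((ρ i).val : ℕ) : ZMod p) = ρ i := fun i => ZMod.natCast_zmod_val _
  simp only [h1, hρ, sub_self]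

/-- solvability modulo `p^(2τ+1)`. -/
lemma LSR_base (p k : ℕ) [hp : Fact p.Prime] (hk : 2 ≤ k) :
    LSR k (k ^ 3 - 1) (p ^ (2 * padicValNat p k + 1)) := by
  have hk3 : k * 2 * 2 ≤ k ^ 3 := by
    calc k * 2 * 2 ≤ k * k * k := Nat.mul_le_mul (Nat.mul_le_mul_left _ hk) hk
      _ = k ^ 3 := by ring
  by_cases hpk : p ∣ k
  · obtain ⟨τ, hτ⟩ : ∃ τ, τ = padicValNat p k := ⟨_, rfl⟩
    rw [← hτ]
    have h1 : p ^ τ ≤ k := by
      refine Nat.le_of_dvd (by omega) ?_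
      rw [hτ]; exact pow_padicValNat_dvd
    have h2 : p ≤ k := Nat.le_of_dvd (by omega) hpk
    have hN : p ^ (2 * τ + 1) ≤ k ^ 3 := by
      calc p ^ (2 * τ + 1) = (p ^ τ) ^ 2 * p := by rw [pow_succ, mul_comm 2 τ, pow_mul]
        _ ≤ k ^ 2 * k := Nat.mul_le_mul (Nat.pow_le_pow_left h1 2) h2
        _ = k ^ 3 := by ring
    obtain ⟨N, hNd⟩ : ∃ N, N = p ^ (2 * τ + 1) := ⟨_, rfl⟩
    rw [← hNd] at hN ⊢
    have hN1 : 0 < N := by rw [hNd]; exact pow_pos hp.out.pos _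
    intro c
    obtain ⟨j, hj⟩ : ∃ j : ℕ, (j : ℤ) = c % N := ⟨(c % N).toNat, Int.toNat_of_nonneg (Int.emod_nonneg _ (by omega))⟩
    have hjN : j < N := by
      have : (j : ℤ) < N := by rw [hj]; exact Int.emod_lt_of_pos _ (by omega)
      exact_mod_cast this
    refine ⟨fun i => if i < j then 1 else 0, ?_⟩
    have h3 : ∑ i ∈ range (k ^ 3 - 1), (((if i < j then 1 else 0 : ℕ)) : ℤ) ^ k = j := by
      have h4 : ∀ i ∈ range (k ^ 3 - 1), (((if i < j then 1 else 0 : ℕ)) : ℤ) ^ k =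
          if i < j then 1 else 0 := by
        intro i _
        split_ifs
        · simp
        · simp only [Nat.cast_zero]; exact zero_pow (by omega)
      rw [Finset.sum_congr rfl h4, ← Finset.sum_filter, Finset.sum_const]
      have h5 : (range (k ^ 3 - 1)).filter (fun i => i < j) = range j := by
        ext i
        rw [Finset.mem_filter, Finset.mem_range, Finset.mem_range]
        constructor
        · exact fun h => h.2
        · intro h; exact ⟨by omega, h⟩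
      rw [h5, Finset.card_range]
      simp
    rw [h3, hj]
    exact Int.dvd_self_sub_emod
  · have h1 : padicValNat p k = 0 := padicValNat.eq_zero_of_not_dvd hpk
    rw [h1, mul_zero, zero_add, pow_one]
    exact (sum_powers_prime p k (by omega)).mono (by omega) (by omega)

lemma LSR_prime_pow (p k v : ℕ) [hp : Fact p.Prime] (hk : 2 ≤ k) : LSR k (k ^ 3) (p ^ v) := by
  have hk31 : 1 ≤ k ^ 3 := Nat.one_le_pow _ _ (by omega)
  intro c
  obtain ⟨ρ, hρ⟩ := LSR_base p k hk (c - 1)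
  obtain ⟨σ, hσ⟩ : ∃ σ : ℤ, σ = ∑ i ∈ range (k ^ 3 - 1), ((ρ i : ℕ) : ℤ) ^ k := ⟨_, rfl⟩
  rw [← hσ] at hρ
  obtain ⟨τ, hτ⟩ : ∃ τ, τ = padicValNat p k := ⟨_, rfl⟩
  rw [← hτ] at hρ
  have hpR : (1 : ℝ) < p := by exact_mod_cast hp.out.one_lt
  have hpR0 : (0 : ℝ) < p := by linarith
  have hnorm1 : ‖(1 : ℤ_[p]) - ((c - σ : ℤ) : ℤ_[p])‖ ≤ (p : ℝ) ^ (-((2 * τ + 1 : ℕ) : ℤ)) := by
    have e : (1 : ℤ_[p]) - ((c - σ : ℤ) : ℤ_[p]) = ((1 - (c - σ) : ℤ) : ℤ_[p]) := by push_cast; ring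
    rw [e, PadicInt.norm_int_le_pow_iff_dvd]
    have e2 : 1 - (c - σ) = -(c - 1 - σ) := by ring
    rw [e2, dvd_neg]
    exact_mod_cast hρ
  have hnormk : ‖(k : ℤ_[p])‖ = (p : ℝ) ^ (-(τ : ℤ)) := by
    have h1 : ‖(k : ℤ_[p])‖ = ‖((k : ℕ) : ℚ_[p])‖ := by
      rw [PadicInt.norm_def]; simp
    rw [h1, Padic.norm_eq_zpow_neg_valuation (by
      have : (k : ℕ) ≠ 0 := by omega
      exact_mod_cast this), Padic.valuation_natCast, hτ]
  obtain ⟨z, hz⟩ := hensel_root p k ((c - σ : ℤ) : ℤ_[p]) (by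
    refine lt_of_le_of_lt hnorm1 ?_
    rw [hnormk, ← zpow_natCast, ← zpow_mul]
    refine zpow_lt_zpow_right₀ hpR ?_
    push_cast
    linarith)
  refine ⟨fun i => if i = k ^ 3 - 1 then (PadicInt.toZModPow v z).val else ρ i, ?_⟩
  have h1 : ∑ i ∈ range (k ^ 3), (((if i = k ^ 3 - 1 then (PadicInt.toZModPow v z).val else ρ i : ℕ)) : ℤ) ^ k
      = σ + (((PadicInt.toZModPow v z).val : ℕ) : ℤ) ^ k := by
    obtain ⟨K, hK⟩ : ∃ K, k ^ 3 = K + 1 := ⟨k ^ 3 - 1, by omega⟩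
    rw [hσ, hK, Nat.add_sub_cancel, Finset.sum_range_succ, if_pos rfl]
    congr 1
    refine Finset.sum_congr rfl fun i hi => ?_
    rw [Finset.mem_range] at hi
    rw [if_neg (by omega)]
  rw [h1, ← ZMod.intCast_zmod_eq_zero_iff_dvd]
  have h2 : (PadicInt.toZModPow v z) ^ k = (((c - σ : ℤ)) : ZMod (p ^ v)) := by
    rw [← map_pow, hz, map_intCast]
  have : NeZero (p ^ v) := ⟨(pow_pos hp.out.pos v).ne'⟩
  have h3 : (((PadicInt.toZModPow v z).val : ℕ) : ZMod (p ^ v)) = PadicInt.toZModPow v z :=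
    ZMod.natCast_zmod_val _
  push_cast
  rw [h3, h2]
  push_cast
  ring

theorem local_solv (k : ℕ) (hk : 2 ≤ k) : ∀ W : ℕ, 1 ≤ W → LSR k (k ^ 3) W := by
  intro W
  induction W using Nat.recOnPosPrimePosCoprime with
  | prime_pow p n hp hn =>
    intro _
    have : Fact p.Prime := ⟨hp⟩
    exact LSR_prime_pow p k n hk
  | zero => intro h; omega
  | one =>
    intro _ c
    exact ⟨fun _ => 0, by simp⟩
  | coprime a b ha hb hab iha ihb =>
    intro _
    exact LSR_mul hab (iha (by omega)) (ihb (by omega))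

end Pool.Agent.helper132_poly
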