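import Pool.Agent.helper132_poly.N2
import Pool.Agent.helper132_poly.N3

/-! Lower bound for the number of lattice points, explicit dimension. -/

namespace Pool.Agent.helper132_poly

open Finset Pool.Agent.helper132_sph

lemma step_one' (k X s n n0 B T1 W : ℕ) (δ : ℝ) (hk : 1 ≤ k) (hX : 1 ≤ X) (hW : 1 ≤ W)
    (hn0 : n0 < s * X ^ k)
    (hint : ∀ n : ℕ, n0 ≤ n → (n : ℝ) ≤ n0 + δ * (X : ℝ) ^ k → (W : ℤ) ∣ (n : ℤ) - n0 →
      (X : ℝ) ^ s ≤ 2 * s * (X : ℝ) ^ k * cS k X s n)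
    (hn1 : (s + 1) * X ^ k ≤ n) (hn2 : n ≤ B * X ^ k) (hmod : (W : ℤ) ∣ (n : ℤ) - n0)
    (hT1 : T1 * W ≤ X)
    (hT2 : (k : ℝ) * ((T1 * W : ℕ) : ℝ) * ((B : ℝ) + 1) ^ (k - 1) ≤ δ * X) :
    (T1 : ℝ) * (X : ℝ) ^ s ≤ 2 * s * (X : ℝ) ^ k * (Rp k (s + 1) n).card := by
  classical
  have hXR : (1 : ℝ) ≤ X := by exact_mod_cast hX
  have hX0 : (0 : ℝ) < X := by linarith
  obtain ⟨M, hM⟩ : ∃ M : ℕ, M = n - n0 := ⟨_, rfl⟩
  have hexp : (s + 1) * X ^ k = s * X ^ k + X ^ k := by ring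
  have hMX : X ^ k ≤ M := by omega
  have hMn : n = n0 + M := by omega
  obtain ⟨w, hw1, hw2⟩ := exists_root k M hk
  have hwX : X ≤ w := by
    by_contra hlt
    push Not at hlt
    have : (w + 1) ^ k ≤ X ^ k := Nat.pow_le_pow_left hlt k
    omega
  have hwB : w ≤ B * X := by
    have h1 : w ^ k ≤ (B * X) ^ k := by
      calc w ^ k ≤ M := hw1
        _ ≤ B * X ^ k := by omega
        _ ≤ B ^ k * X ^ k := Nat.mul_le_mul_right _ (Nat.le_self_pow (by omega) _)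
        _ = (B * X) ^ k := (Nat.mul_pow _ _ _).symm
    exact (Nat.pow_le_pow_iff_left (by omega)).1 h1
  have hw1R : ((w : ℝ) + 1) ≤ (B + 1) * X := by
    have : w + 1 ≤ (B + 1) * X := by
      rw [Nat.add_mul, Nat.one_mul]; omega
    exact_mod_cast this
  have hwW : T1 ≤ w / W := by
    rw [Nat.le_div_iff_mul_le (by omega)]
    omega
  have hmulW : w < W * (w / W) + W := by
    have := Nat.lt_div_mul_add (a := w) (b := W) (by omega)
    calc w < w / W * W + W := this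
      _ = _ := by ring
  have hmulW2 : W * (w / W) ≤ w := Nat.mul_div_le _ _
  obtain ⟨S, hS⟩ : ∃ S : Finset ℕ, S = (range T1).image (fun i => W * (w / W - i)) := ⟨_, rfl⟩
  have hScard : S.card = T1 := by
    rw [hS, Finset.card_image_of_injOn, Finset.card_range]
    intro i hi j hj hij
    rw [Finset.mem_coe, Finset.mem_range] at hi hj
    simp only at hij
    have := Nat.eq_of_mul_eq_mul_left (by omega : 0 < W) hij
    omega
  have hSprop : ∀ z ∈ S, z ≤ w ∧ w + 1 ≤ T1 * W + z ∧ (W : ℤ) ∣ (z : ℤ) := by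
    intro z hz
    rw [hS, Finset.mem_image] at hz
    obtain ⟨i, hi, rfl⟩ := hz
    rw [Finset.mem_range] at hi
    have h1 : W * (w / W - i) = W * (w / W) - W * i := Nat.mul_sub _ _ _
    have h2 : W * (i + 1) ≤ W * T1 := Nat.mul_le_mul_left _ hi
    have h3 : W * (i + 1) = W * i + W := by ring
    have h4 : W * T1 = T1 * W := Nat.mul_comm _ _
    refine ⟨by omega, by omega, ?_⟩
    exact_mod_cast Dvd.intro _ rfl
  have hSz : ∀ z ∈ S, z ^ k ≤ M := by
    intro z hz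
    exact (Nat.pow_le_pow_left (hSprop z hz).1 k).trans hw1
  have hmain : ∀ z ∈ S, (X : ℝ) ^ s ≤ 2 * s * (X : ℝ) ^ k * (Rp k s (n - z ^ k)).card := by
    intro z hz
    have hzM := hSz z hz
    obtain ⟨hz1, hz2, hz3⟩ := hSprop z hz
    have h1 : n0 ≤ n - z ^ k := by omega
    have h2 : ((n - z ^ k : ℕ) : ℝ) ≤ n0 + δ * (X : ℝ) ^ k := by
      have h3 : ((n - z ^ k : ℕ) : ℝ) = n0 + M - (z : ℝ) ^ k := by
        rw [Nat.cast_sub (by omega)]
        rw [hMn]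
        push_cast
        ring
      rw [h3]
      have h4 := pow_sub_pow_le k ((w : ℝ) + 1) z (by positivity) (by
        have : (z : ℝ) ≤ w := by exact_mod_cast hz1
        linarith)
      have h5 : (M : ℝ) ≤ ((w : ℝ) + 1) ^ k := by exact_mod_cast hw2.le
      have h6 : (w : ℝ) + 1 - z ≤ ((T1 * W : ℕ) : ℝ) := by
        have : (w : ℝ) + 1 ≤ ((T1 * W : ℕ) : ℝ) + z := by exact_mod_cast hz2
        linarith
      have h7 : (k : ℝ) * ((w : ℝ) + 1 - z) * ((w : ℝ) + 1) ^ (k - 1) ≤ δ * (X : ℝ) ^ k := by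
        calc (k : ℝ) * ((w : ℝ) + 1 - z) * ((w : ℝ) + 1) ^ (k - 1)
            ≤ (k : ℝ) * ((T1 * W : ℕ) : ℝ) * ((B + 1) * X) ^ (k - 1) := by gcongr
          _ = ((k : ℝ) * ((T1 * W : ℕ) : ℝ) * ((B : ℝ) + 1) ^ (k - 1)) * (X : ℝ) ^ (k - 1) := by
              rw [mul_pow]; ring
          _ ≤ (δ * X) * (X : ℝ) ^ (k - 1) := mul_le_mul_of_nonneg_right hT2 (by positivity)
          _ = δ * (X : ℝ) ^ k := by
              obtain ⟨k', rfl⟩ : ∃ k', k = k' + 1 := ⟨k - 1, by omega⟩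
              rw [Nat.add_sub_cancel, pow_succ]; ring
      linarith
    have h9 : (W : ℤ) ∣ ((n - z ^ k : ℕ) : ℤ) - n0 := by
      have e : ((n - z ^ k : ℕ) : ℤ) - n0 = ((n : ℤ) - n0) - (z : ℤ) ^ k := by
        rw [Nat.cast_sub (by omega)]
        push_cast
        ring
      rw [e]
      exact dvd_sub hmod (dvd_pow hz3 (by omega))
    refine (hint _ h1 h2 h9).trans ?_
    have h8 : (cS k X s (n - z ^ k) : ℝ) ≤ (Rp k s (n - z ^ k)).card := by
      exact_mod_cast cS_le_Rp k X s _ hk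
    exact mul_le_mul_of_nonneg_left h8 (by positivity)
  have hR := Rp_succ k s n hk S (fun z hz => by have := hSz z hz; omega)
  calc (T1 : ℝ) * (X : ℝ) ^ s = ∑ z ∈ S, (X : ℝ) ^ s := by
        rw [Finset.sum_const, nsmul_eq_mul, hScard]
    _ ≤ ∑ z ∈ S, 2 * s * (X : ℝ) ^ k * (Rp k s (n - z ^ k)).card := Finset.sum_le_sum hmain
    _ = 2 * s * (X : ℝ) ^ k * ((∑ z ∈ S, (Rp k s (n - z ^ k)).card : ℕ) : ℝ) := by
        rw [← Finset.mul_sum]; push_cast; ring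
    _ ≤ _ := by
        refine mul_le_mul_of_nonneg_left ?_ (by positivity)
        exact_mod_cast hR

lemma step_two' (k X s B T1 W n0 : ℕ) (hk : 1 ≤ k) (hW : 1 ≤ W)
    (h1 : ∀ n, (s + 1) * X ^ k ≤ n → n ≤ B * X ^ k → (W : ℤ) ∣ (n : ℤ) - n0 →
      (T1 : ℝ) * (X : ℝ) ^ s ≤ 2 * s * (X : ℝ) ^ k * (Rp k (s + 1) n).card) (j : ℕ) :
    ∀ n, (s + 1 + j) * X ^ k ≤ n → n ≤ B * X ^ k →
      (∃ ρ : ℕ → ℕ, (W : ℤ) ∣ ((n : ℤ) - n0) - ∑ i ∈ range j, ((ρ i : ℕ) : ℤ) ^ k) →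
      (T1 : ℝ) * (X : ℝ) ^ s * (((X / W : ℕ)) : ℝ) ^ j ≤
        2 * s * (X : ℝ) ^ k * (Rp k (s + 1 + j) n).card := by
  classical
  induction j with
  | zero =>
    intro n hn1 hn2 hρ
    obtain ⟨ρ, hρ⟩ := hρ
    rw [Finset.sum_range_zero, sub_zero] at hρ
    rw [pow_zero, mul_one]
    exact h1 n (by simpa using hn1) hn2 hρ
  | succ j ih =>
    intro n hn1 hn2 hρ
    obtain ⟨ρ, hρ⟩ := hρ
    have hexp : (s + 1 + (j + 1)) * X ^ k = (s + 1 + j) * X ^ k + X ^ k := by ring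
    obtain ⟨r, hr⟩ : ∃ r : ℕ, r = ρ j % W := ⟨_, rfl⟩
    have hrW : r < W := by rw [hr]; exact Nat.mod_lt _ (by omega)
    obtain ⟨S, hS⟩ : ∃ S : Finset ℕ, S = (range (X / W)).image (fun i => r + W * i) := ⟨_, rfl⟩
    have hScard : S.card = X / W := by
      rw [hS, Finset.card_image_of_injOn, Finset.card_range]
      intro i _ i' _ hij
      simp only at hij
      exact Nat.eq_of_mul_eq_mul_left (by omega : 0 < W) (by omega)
    have hSprop : ∀ z ∈ S, z < X ∧ (W : ℤ) ∣ (z : ℤ) - (ρ j : ℤ) := by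
      intro z hz
      rw [hS, Finset.mem_image] at hz
      obtain ⟨i, hi, rfl⟩ := hz
      rw [Finset.mem_range] at hi
      have h2 : W * (i + 1) ≤ W * (X / W) := Nat.mul_le_mul_left _ hi
      have h3 : W * (i + 1) = W * i + W := by ring
      have h4 : W * (X / W) ≤ X := Nat.mul_div_le _ _
      refine ⟨by omega, ?_⟩
      have h5 : ((ρ j : ℕ) : ℤ) = W * ((ρ j / W : ℕ) : ℤ) + r := by
        rw [hr]
        exact_mod_cast (Nat.div_add_mod (ρ j) W).symm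
      rw [h5]
      refine ⟨(i : ℤ) - ((ρ j / W : ℕ) : ℤ), ?_⟩
      push_cast
      ring
    have hz : ∀ z ∈ S, z ^ k ≤ X ^ k := fun z hz => Nat.pow_le_pow_left (hSprop z hz).1.le k
    have hXn : X ^ k ≤ n := by omega
    have hR := Rp_succ k (s + 1 + j) n hk S (fun z hz' => (hz z hz').trans hXn)
    have hmain : ∀ z ∈ S, (T1 : ℝ) * (X : ℝ) ^ s * (((X / W : ℕ)) : ℝ) ^ j ≤
        2 * s * (X : ℝ) ^ k * (Rp k (s + 1 + j) (n - z ^ k)).card := by
      intro z hz'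
      have hzk := hz z hz'
      refine ih (n - z ^ k) (by omega) (by omega) ⟨ρ, ?_⟩
      have h6 : (W : ℤ) ∣ (z : ℤ) ^ k - ((ρ j : ℕ) : ℤ) ^ k :=
        (hSprop z hz').2.trans (sub_dvd_pow_sub_pow _ _ _)
      have e : ((n - z ^ k : ℕ) : ℤ) - n0 - ∑ i ∈ range j, ((ρ i : ℕ) : ℤ) ^ k =
          (((n : ℤ) - n0) - ∑ i ∈ range (j + 1), ((ρ i : ℕ) : ℤ) ^ k) -
            ((z : ℤ) ^ k - ((ρ j : ℕ) : ℤ) ^ k) := by
        rw [Finset.sum_range_succ, Nat.cast_sub (by omega)]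
        push_cast
        ring
      rw [e]
      exact dvd_sub hρ h6
    calc (T1 : ℝ) * (X : ℝ) ^ s * (((X / W : ℕ)) : ℝ) ^ (j + 1)
        = ∑ z ∈ S, (T1 : ℝ) * (X : ℝ) ^ s * (((X / W : ℕ)) : ℝ) ^ j := by
          rw [Finset.sum_const, hScard, nsmul_eq_mul]; ring
      _ ≤ ∑ z ∈ S, 2 * s * (X : ℝ) ^ k * (Rp k (s + 1 + j) (n - z ^ k)).card := Finset.sum_le_sum hmain
      _ = 2 * s * (X : ℝ) ^ k * ((∑ z ∈ S, (Rp k (s + 1 + j) (n - z ^ k)).card : ℕ) : ℝ) := by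
          rw [← Finset.mul_sum]; push_cast; ring
      _ ≤ _ := by
          refine mul_le_mul_of_nonneg_left ?_ (by positivity)
          exact_mod_cast hR

/-- lower bound for the number of representations, explicit dimension. -/
theorem sphere_lower' (k A : ℕ) (hk : 3 ≤ k) (C : ℝ) (hC : 1 ≤ C) (hWH : WH k A C) (d : ℕ)
    (hd : k * A + 2 + k ^ 3 ≤ d) : ∃ c : ℝ, 0 < c ∧
    ∀ (n : ℕ) (r : ℝ), 0 < r → r ^ k = n →
      c * r ^ (d - k) ≤ max 1 (((Rp k d n).card : ℕ) : ℝ) := by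
  obtain ⟨s, hsA⟩ : ∃ s, s = k * A + 1 := ⟨_, rfl⟩
  have hs : 1 ≤ s := by omega
  obtain ⟨W, X1, δ, hW1, hX1, hδ0, hδ1, hint⟩ := interval_lemma' k A hk C hC hWH s hsA
  have hkR : (0 : ℝ) < k := by exact_mod_cast (by omega : 0 < k)
  have hsR : (0 : ℝ) < s := by exact_mod_cast (by omega : 0 < s)
  have hWR1 : (1 : ℝ) ≤ W := by exact_mod_cast hW1
  have hWR : (0 : ℝ) < W := by linarith
  have hkk : k ≤ k ^ 3 := Nat.le_self_pow (by norm_num) k
  have hdk : k ≤ d := by omega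
  have hds : s + 1 + k ^ 3 ≤ d := by omega
  obtain ⟨j, hj⟩ : ∃ j, j = d - s - 1 := ⟨_, rfl⟩
  have hjk : k ^ 3 ≤ j := by omega
  have hjd : s + 1 + j = d := by omega
  obtain ⟨B, hB⟩ : ∃ B : ℕ, B = d * 2 ^ k := ⟨_, rfl⟩
  have hB1 : 1 ≤ B := by rw [hB]; exact Nat.mul_pos (by omega) (by positivity)
  have hBR : (1 : ℝ) ≤ B := by exact_mod_cast hB1
  have hdB : d ≤ B := by rw [hB]; exact Nat.le_mul_of_pos_right _ (by positivity)
  obtain ⟨v, hv⟩ : ∃ v : ℝ, v = δ / (k * W * ((B : ℝ) + 1) ^ (k - 1)) := ⟨_, rfl⟩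
  have hv0 : 0 < v := by rw [hv]; positivity
  have hden1 : (1 : ℝ) ≤ k * ((B : ℝ) + 1) ^ (k - 1) := by
    have h1 : (1 : ℝ) ≤ k := by exact_mod_cast (by omega : 1 ≤ k)
    have h2 : (1 : ℝ) ≤ ((B : ℝ) + 1) ^ (k - 1) := one_le_pow₀ (by linarith)
    calc (1 : ℝ) = 1 * 1 := by ring
      _ ≤ _ := mul_le_mul h1 h2 zero_le_one (by positivity)
  have hvW : v * W ≤ 1 := by
    have e : v * W = δ / (k * ((B : ℝ) + 1) ^ (k - 1)) := by rw [hv]; field_simp
    rw [e, div_le_one (by positivity)]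
    linarith
  obtain ⟨X2, hX2⟩ := exists_nat_ge (max (max (X1 : ℝ) (2 / v)) (2 * W))
  have hX2a : X1 ≤ X2 := by exact_mod_cast (le_max_left _ _).trans ((le_max_left _ _).trans hX2)
  have hX2b : 2 / v ≤ X2 := (le_max_right _ _).trans ((le_max_left _ _).trans hX2)
  have hX2c : 2 * (W : ℝ) ≤ X2 := (le_max_right _ _).trans hX2
  have hX21 : 1 ≤ X2 := hX1.trans hX2a
  obtain ⟨c1, hc1⟩ : ∃ c1 : ℝ, c1 = v / (4 * s * (2 * W) ^ j) := ⟨_, rfl⟩
  have hc10 : 0 < c1 := by rw [hc1]; positivity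
  have hdX2 : (0 : ℝ) < (((d * X2 : ℕ)) : ℝ) := by
    exact_mod_cast Nat.mul_pos (by omega) hX21
  refine ⟨min (c1 / (B : ℝ) ^ (d - k)) (1 / (((d * X2 : ℕ)) : ℝ) ^ (d - k)),
    lt_min (by positivity) (by positivity), ?_⟩
  intro n r hr hrn
  have hrk0 : 0 ≤ r ^ (d - k) := by positivity
  rcases lt_or_ge n (d * X2 ^ k) with hcase | hcase
  · refine le_trans ?_ (le_max_left _ _)
    refine (mul_le_mul_of_nonneg_right (min_le_right _ _) hrk0).trans ?_
    rw [one_div, inv_mul_le_iff₀ (by positivity), mul_one]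
    refine pow_le_pow_left₀ hr.le ?_ _
    refine le_of_pow_le_pow_left₀ (n := k) (by omega) hdX2.le ?_
    rw [hrn]
    have : n ≤ (d * X2) ^ k := by
      calc n ≤ d * X2 ^ k := hcase.le
        _ ≤ d ^ k * X2 ^ k := Nat.mul_le_mul_right _ (Nat.le_self_pow (by omega) _)
        _ = (d * X2) ^ k := (Nat.mul_pow _ _ _).symm
    exact_mod_cast this
  · refine le_trans ?_ (le_max_right _ _)
    obtain ⟨X, hXa, hXb⟩ := exists_root k (n / d) (by omega)
    have hd0 : 0 < d := by omega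
    have hXa' : d * X ^ k ≤ n := by
      calc d * X ^ k ≤ d * (n / d) := Nat.mul_le_mul_left _ hXa
        _ ≤ n := Nat.mul_div_le _ _
    have hX2X : X2 ≤ X := by
      by_contra hlt
      push Not at hlt
      have h1 : X2 ^ k ≤ n / d := by
        rw [Nat.le_div_iff_mul_le hd0, mul_comm]; exact hcase
      have h2 : (X + 1) ^ k ≤ X2 ^ k := Nat.pow_le_pow_left hlt k
      omega
    have hX1' : 1 ≤ X := hX21.trans hX2X
    have hXR : (1 : ℝ) ≤ X := by exact_mod_cast hX1'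
    have hX0 : (0 : ℝ) < X := by linarith
    have hX2XR : (X2 : ℝ) ≤ X := by exact_mod_cast hX2X
    have hnB : n ≤ B * X ^ k := by
      have h1 : n < d * (X + 1) ^ k := by
        rw [mul_comm, ← Nat.div_lt_iff_lt_mul hd0]
        exact hXb
      have h2 : (X + 1) ^ k ≤ (2 * X) ^ k := Nat.pow_le_pow_left (by omega) k
      calc n ≤ d * (X + 1) ^ k := h1.le
        _ ≤ d * (2 * X) ^ k := Nat.mul_le_mul_left _ h2
        _ = B * X ^ k := by rw [hB, Nat.mul_pow]; ring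
    obtain ⟨n0, hn0, hn0i⟩ := hint X (hX2a.trans hX2X)
    obtain ⟨T1, hT1⟩ : ∃ T1 : ℕ, T1 = ⌊v * X⌋₊ := ⟨_, rfl⟩
    have hvX : 2 ≤ v * X := by
      have h1 : 2 / v ≤ (X : ℝ) := hX2b.trans hX2XR
      rw [div_le_iff₀ hv0] at h1
      linarith
    have hT1a : (T1 : ℝ) ≤ v * X := by rw [hT1]; exact Nat.floor_le (by positivity)
    have hT1b : v * X / 2 ≤ T1 := by
      have : v * X < T1 + 1 := by rw [hT1]; exact Nat.lt_floor_add_one _
      linarith
    have hT1X : T1 * W ≤ X := by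
      have h1 : ((T1 * W : ℕ) : ℝ) ≤ X := by
        push_cast
        calc (T1 : ℝ) * W ≤ (v * X) * W := mul_le_mul_of_nonneg_right hT1a hWR.le
          _ = (v * W) * X := by ring
          _ ≤ 1 * X := mul_le_mul_of_nonneg_right hvW hX0.le
          _ = X := one_mul _
      exact_mod_cast h1
    have hT2 : (k : ℝ) * ((T1 * W : ℕ) : ℝ) * ((B : ℝ) + 1) ^ (k - 1) ≤ δ * X := by
      push_cast
      calc (k : ℝ) * ((T1 : ℝ) * W) * ((B : ℝ) + 1) ^ (k - 1) = (k * W * ((B : ℝ) + 1) ^ (k - 1)) * T1 := by ring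
        _ ≤ (k * W * ((B : ℝ) + 1) ^ (k - 1)) * (v * X) := mul_le_mul_of_nonneg_left hT1a (by positivity)
        _ = δ * X := by rw [hv]; field_simp
    have hst := step_two' k X s B T1 W n0 (by omega) hW1 (fun n' hn1 hn2 hn3 =>
      step_one' k X s n' n0 B T1 W δ (by omega) hX1' hW1 hn0 hn0i hn1 hn2 hn3 hT1X hT2) j n
      (by rw [hjd]; exact hXa') hnB
      ((local_solv k (by omega) W hW1).mono (by omega) hjk ((n : ℤ) - n0))
    rw [hjd] at hst
    have hY : (X : ℝ) / (2 * W) ≤ ((X / W : ℕ) : ℝ) := by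
      have h1 := Nat.lt_div_mul_add (a := X) (b := W) (by omega)
      have h2 : (X : ℝ) < ((X / W : ℕ) : ℝ) * W + W := by exact_mod_cast h1
      rw [div_le_iff₀ (by positivity)]
      have h3 : 2 * (W : ℝ) ≤ X := hX2c.trans hX2XR
      have h4 : ((X / W : ℕ) : ℝ) * (2 * W) = 2 * (((X / W : ℕ) : ℝ) * W) := by ring
      rw [h4]
      linarith
    -- conclude
    have h1 : c1 * (X : ℝ) ^ (d - k) ≤ (Rp k d n).card := by
      have h2 : (v * X / 2) * (X : ℝ) ^ s * ((X : ℝ) / (2 * W)) ^ j ≤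
          2 * s * (X : ℝ) ^ k * (Rp k d n).card := by
        refine le_trans ?_ hst
        gcongr
      have h3 : (v * X / 2) * (X : ℝ) ^ s * ((X : ℝ) / (2 * W)) ^ j =
          (c1 * (X : ℝ) ^ (d - k)) * (2 * s * (X : ℝ) ^ k) := by
        have h4 : (X : ℝ) * (X : ℝ) ^ s * (X : ℝ) ^ j = (X : ℝ) ^ (d - k) * (X : ℝ) ^ k := by
          rw [← pow_succ', ← pow_add, ← pow_add]; congr 1; omega
        calc (v * X / 2) * (X : ℝ) ^ s * ((X : ℝ) / (2 * W)) ^ j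
            = (v / 2 / (2 * W) ^ j) * ((X : ℝ) * (X : ℝ) ^ s * (X : ℝ) ^ j) := by
              rw [div_pow]; field_simp
          _ = (v / 2 / (2 * W) ^ j) * ((X : ℝ) ^ (d - k) * (X : ℝ) ^ k) := by rw [h4]
          _ = _ := by rw [hc1]; field_simp; ring
      rw [h3] at h2
      have h5 : (0 : ℝ) < 2 * s * (X : ℝ) ^ k := by positivity
      refine le_of_mul_le_mul_right ?_ h5
      linarith
    refine le_trans ?_ h1
    refine (mul_le_mul_of_nonneg_right (min_le_left _ _) hrk0).trans ?_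
    have h6 : r ≤ B * X := by
      refine le_of_pow_le_pow_left₀ (n := k) (by omega) (by positivity) ?_
      rw [hrn]
      have : n ≤ (B * X) ^ k := by
        calc n ≤ B * X ^ k := hnB
          _ ≤ B ^ k * X ^ k := Nat.mul_le_mul_right _ (Nat.le_self_pow (by omega) _)
          _ = (B * X) ^ k := (Nat.mul_pow _ _ _).symm
      exact_mod_cast this
    calc c1 / (B : ℝ) ^ (d - k) * r ^ (d - k) ≤ c1 / (B : ℝ) ^ (d - k) * (B * X) ^ (d - k) := by
          refine mul_le_mul_of_nonneg_left ?_ (by positivity)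
          exact pow_le_pow_left₀ hr.le h6 _
      _ = c1 * (X : ℝ) ^ (d - k) := by rw [mul_pow]; field_simp

end Pool.Agent.helper132_poly
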