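import Pool.Agent.helper132_poly.F1

/-! The endpoint bound with an explicit polynomial dimension. -/

namespace Pool.Agent.helper132_poly

open Finset Pool.Agent.helper132_sph
open scoped ENNReal NNReal

lemma eta_small (κ : ℕ) (hκ : 2 ≤ κ) : eta κ (κ * (2 * Nat.log 2 κ + 8)) ≤ 1 / 48 := by
  have hκR : (2 : ℝ) ≤ κ := by exact_mod_cast hκ
  have hκ0 : (0 : ℝ) < κ := by linarith
  have hκ1 : (0 : ℝ) < (κ : ℝ) - 1 := by linarith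
  obtain ⟨a, ha⟩ : ∃ a : ℝ, a = 1 - 1 / κ := ⟨_, rfl⟩
  obtain ⟨b, hb⟩ : ∃ b : ℝ, b = 1 + 1 / ((κ : ℝ) - 1) := ⟨_, rfl⟩
  have hab : a * b = 1 := by rw [ha, hb]; field_simp; ring
  have ha0 : 0 ≤ a := by
    rw [ha]
    have : (1 : ℝ) / κ ≤ 1 := by rw [div_le_one hκ0]; linarith
    linarith
  have hb2 : 2 ≤ b ^ κ := by
    have h1 := one_add_mul_le_pow (a := 1 / ((κ : ℝ) - 1)) (by
      have : (0 : ℝ) ≤ 1 / ((κ : ℝ) - 1) := by positivity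
      linarith) κ
    rw [← hb] at h1
    have h2 : (1 : ℝ) ≤ κ * (1 / ((κ : ℝ) - 1)) := by
      rw [mul_one_div, le_div_iff₀ hκ1]; linarith
    linarith
  have haκ : a ^ κ ≤ 1 / 2 := by
    have h1 : a ^ κ * b ^ κ = 1 := by rw [← mul_pow, hab, one_pow]
    have h2 : a ^ κ * 2 ≤ a ^ κ * b ^ κ := mul_le_mul_of_nonneg_left hb2 (by positivity)
    linarith
  obtain ⟨ℓ, hℓ⟩ : ∃ ℓ, ℓ = Nat.log 2 κ := ⟨_, rfl⟩
  rw [← hℓ]
  have h2ℓ : (κ : ℝ) < 2 ^ (ℓ + 1) := by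
    have := Nat.lt_pow_succ_log_self (b := 2) (by norm_num) κ
    rw [← hℓ] at this
    exact_mod_cast this
  obtain ⟨t, ht⟩ : ∃ t : ℝ, t = 2 ^ ℓ := ⟨_, rfl⟩
  have ht0 : 0 < t := by rw [ht]; positivity
  have hκt : (κ : ℝ) < 2 * t := by rw [ht, ← pow_succ']; exact h2ℓ
  unfold eta
  rw [← ha, pow_mul]
  have h3 : (a ^ κ) ^ (2 * ℓ + 8) ≤ 1 / (256 * t ^ 2) := by
    calc (a ^ κ) ^ (2 * ℓ + 8) ≤ (1 / 2 : ℝ) ^ (2 * ℓ + 8) := pow_le_pow_left₀ (by positivity) haκ _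
      _ = 1 / (256 * t ^ 2) := by
          rw [ht, ← pow_mul, one_div_pow, pow_add, mul_comm ℓ 2]
          norm_num
          ring
  have h4 : (κ : ℝ) * (κ + 1) / 2 ≤ (κ : ℝ) ^ 2 := by nlinarith
  have h5 : (κ : ℝ) ^ 2 ≤ 4 * t ^ 2 := by nlinarith
  calc (κ : ℝ) * (κ + 1) / 2 * (a ^ κ) ^ (2 * ℓ + 8) ≤ (4 * t ^ 2) * (1 / (256 * t ^ 2)) := by
        refine mul_le_mul (h4.trans h5) h3 (by positivity) (by positivity)
    _ = 1 / 64 := by field_simp; norm_num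
    _ ≤ 1 / 48 := by norm_num

lemma l_large (κ : ℕ) (hκ : 2 ≤ κ) : 12 ≤ κ * (2 * Nat.log 2 κ + 8) := by
  calc 12 ≤ 2 * 8 := by norm_num
    _ ≤ κ * (2 * Nat.log 2 κ + 8) := Nat.mul_le_mul hκ (by omega)

lemma exists_WH (κ : ℕ) (hκ : 2 ≤ κ) : ∃ A : ℕ, ∃ K : ℝ, 1 ≤ A ∧
    A ≤ 12 * κ ^ 2 * (Nat.log 2 κ + 4) ∧ 1 ≤ K ∧ WH κ A K := by
  rcases hκ.eq_or_lt with h | h
  · rw [← h]
    obtain ⟨K, hK, hW⟩ := weyl_two
    exact ⟨12, K, by norm_num, by omega, hK, hW⟩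
  · obtain ⟨κ', rfl⟩ : ∃ κ', κ = κ' + 1 := ⟨κ - 1, by omega⟩
    obtain ⟨K, hK, hW⟩ := weyl_WH κ' (κ' * (2 * Nat.log 2 κ' + 8)) (by omega) (l_large κ' (by omega))
      (eta_small κ' (by omega))
    have hlog : Nat.log 2 κ' ≤ Nat.log 2 (κ' + 1) := Nat.log_mono_right (by omega)
    refine ⟨_, K, ?_, ?_, hK, hW⟩
    · have := l_large κ' (by omega)
      have : 0 < κ' * (κ' * (2 * Nat.log 2 κ' + 8)) := Nat.mul_pos (by omega) (by omega)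
      omega
    · calc 3 * (2 * (κ' * (κ' * (2 * Nat.log 2 κ' + 8)))) = 12 * κ' ^ 2 * (Nat.log 2 κ' + 4) := by ring
        _ ≤ 12 * (κ' + 1) ^ 2 * (Nat.log 2 (κ' + 1) + 4) := by gcongr; omega

/-- The endpoint bound in all dimensions `d ≥ 32 k³ (log₂ k + 4)`. -/
theorem endpoint_explicit (k : ℕ) (hk : 3 ≤ k) (d : ℕ) (hd : 32 * k ^ 3 * (Nat.log 2 k + 4) ≤ d) :
    ∃ C : ℝ≥0, ∀ f : (Fin d → ℤ) → ℂ,
      weakNorm ((d : ℝ) / (d - k)) (sphMax k f) ≤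
        C * lorentzNorm ((d : ℝ) / (d - k)) (fun x => ENNReal.ofReal ‖f x‖) := by
  obtain ⟨κ, rfl⟩ : ∃ κ, k = κ + 1 := ⟨k - 1, by omega⟩
  have hκ : 2 ≤ κ := by omega
  obtain ⟨u, hu⟩ : ∃ u, u = Nat.log 2 (κ + 1) + 4 := ⟨_, rfl⟩
  rw [← hu] at hd
  have hlog : Nat.log 2 κ + 4 ≤ u := by
    have : Nat.log 2 κ ≤ Nat.log 2 (κ + 1) := Nat.log_mono_right (by omega)
    omega
  have hu4 : 4 ≤ u := by omega
  obtain ⟨l, hl⟩ : ∃ l, l = κ * (2 * Nat.log 2 κ + 8) := ⟨_, rfl⟩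
  have hl12 : 12 ≤ l := by rw [hl]; exact l_large κ hκ
  have hη : eta κ l ≤ 1 / 48 := by rw [hl]; exact eta_small κ hκ
  have hκl : κ * l = 2 * κ ^ 2 * (Nat.log 2 κ + 4) := by rw [hl]; ring
  have hκl2 : κ * l ≤ 2 * κ ^ 2 * u := by
    rw [hκl]; exact Nat.mul_le_mul_left _ hlog
  have hκl1 : 1 ≤ κ * l := Nat.mul_pos (by omega) (by omega)
  obtain ⟨A', K', hA'1, hA', hK', hW'⟩ := exists_WH κ hκ
  have hA'2 : A' ≤ 12 * κ ^ 2 * u := hA'.trans (Nat.mul_le_mul_left _ hlog)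
  obtain ⟨C0, hC0, hst⟩ := Hst_holds κ l A' hκ hl12 hη K' hK' hW'
  obtain ⟨CW, hCW, hW⟩ := weyl_WH κ l hκ hl12 hη
  have hm : 2 * (κ * l) + A' ≤ 16 * κ ^ 2 * u := by
    calc 2 * (κ * l) + A' ≤ 2 * (2 * κ ^ 2 * u) + 12 * κ ^ 2 * u := by gcongr
      _ = 16 * κ ^ 2 * u := by ring
  have hd1 : (2 * (κ * l) + A') * (2 * (κ + 1) + 2) + 1 ≤ d := by
    refine le_trans ?_ hd
    calc (2 * (κ * l) + A') * (2 * (κ + 1) + 2) + 1 ≤ (16 * κ ^ 2 * u) * (2 * (κ + 1) + 2) + 1 * u := by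
          gcongr; omega
      _ = (32 * κ ^ 3 + 64 * κ ^ 2 + 1) * u := by ring
      _ ≤ (32 * (κ + 1) ^ 3) * u := by
          refine Nat.mul_le_mul_right _ ?_
          have : 32 * (κ + 1) ^ 3 = 32 * κ ^ 3 + 96 * κ ^ 2 + 96 * κ + 32 := by ring
          nlinarith
  have hd2 : 5 * (3 * (2 * (κ * l))) ≤ d := by
    refine le_trans ?_ hd
    calc 5 * (3 * (2 * (κ * l))) ≤ 5 * (3 * (2 * (2 * κ ^ 2 * u))) := by gcongr
      _ = (60 * κ ^ 2) * u := by ring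
      _ ≤ (32 * (κ + 1) ^ 3) * u := by
          refine Nat.mul_le_mul_right _ ?_
          have : 32 * (κ + 1) ^ 3 = 32 * κ ^ 3 + 96 * κ ^ 2 + 96 * κ + 32 := by ring
          nlinarith
  have hd3 : (κ + 1) * (3 * (2 * (κ * l))) + 2 + (κ + 1) ^ 3 ≤ d := by
    refine le_trans ?_ hd
    calc (κ + 1) * (3 * (2 * (κ * l))) + 2 + (κ + 1) ^ 3
        ≤ (κ + 1) * (3 * (2 * (2 * κ ^ 2 * u))) + 2 * u + (κ + 1) ^ 3 * u := by
          gcongr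
          · omega
          · exact Nat.le_mul_of_pos_right _ (by omega)
      _ = (12 * (κ + 1) * κ ^ 2 + 2 + (κ + 1) ^ 3) * u := by ring
      _ ≤ (32 * (κ + 1) ^ 3) * u := by
          refine Nat.mul_le_mul_right _ ?_
          have h1 : 32 * (κ + 1) ^ 3 = 32 * κ ^ 3 + 96 * κ ^ 2 + 96 * κ + 32 := by ring
          have h2 : 12 * (κ + 1) * κ ^ 2 + 2 + (κ + 1) ^ 3 = 13 * κ ^ 3 + 15 * κ ^ 2 + 3 * κ + 3 := by ring
          have h3 : 0 ≤ κ ^ 3 := Nat.zero_le _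
          have h4 : 0 ≤ κ ^ 2 := Nat.zero_le _
          omega
  obtain ⟨K, hK0, hK⟩ := restricted' κ (2 * (κ * l) + A') hκ (by omega) C0 hC0 hst
    (3 * (2 * (κ * l))) (by omega) CW hCW hW d hd1 hd2 hd3
  have hdk : 2 * (κ + 1) < d := by
    have : 2 * (κ + 1) + 2 ≤ (2 * (κ * l) + A') * (2 * (κ + 1) + 2) := Nat.le_mul_of_pos_left _ (by omega)
    omega
  refine ⟨Real.toNNReal K, ?_⟩
  intro f
  have hd0 : (0 : ℝ) < d := by exact_mod_cast (by omega : 0 < d)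
  have hdkR : 2 * (((κ + 1 : ℕ)) : ℝ) < d := by exact_mod_cast hdk
  have hkpos : (0 : ℝ) < ((κ + 1 : ℕ) : ℝ) := by exact_mod_cast Nat.succ_pos κ
  have hp1 : 1 ≤ (d : ℝ) / (d - ((κ + 1 : ℕ) : ℝ)) := by
    rw [le_div_iff₀ (by linarith)]; linarith
  have hp : 1 / ((d : ℝ) / (d - ((κ + 1 : ℕ) : ℝ))) = 1 - ((κ + 1 : ℕ) : ℝ) / d := by
    rw [one_div_div, sub_div, div_self hd0.ne']
  have hθ0 : 0 < ((κ + 1 : ℕ) : ℝ) / d := by positivity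
  have hθ1 : ((κ + 1 : ℕ) : ℝ) / d < 1 := by
    rw [div_lt_one hd0]; linarith
  unfold weakNorm lorentzNorm
  rw [hp]
  refine iSup_le fun t => iSup_le fun ht => ?_
  refine le_trans (level_bound _ t (1 - ((κ + 1 : ℕ) : ℝ) / d) ht (by linarith)
    (ENNReal.ofReal K * ∫⁻ s in Set.Ioi (0 : ℝ), distr (fun x => ENNReal.ofReal ‖f x‖) s ^
      (1 - ((κ + 1 : ℕ) : ℝ) / d)) ?_) ?_
  · intro F hF
    exact finite_bound (κ + 1) (by omega) (by omega) K _ hK0 hθ0 hθ1 hK f t F (fun x hx => hF hx)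
  · change ENNReal.ofReal K * _ ≤ ENNReal.ofReal K * _
    refine mul_le_mul_right ?_ _
    refine le_mul_of_one_le_left bot_le ?_
    rw [← ENNReal.ofReal_one]
    exact ENNReal.ofReal_le_ofReal hp1

end Pool.Agent.helper132_poly
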