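import Pool.Agent.helper132_poly.N4
import Pool.Agent.helper132_sph.Final

/-! The restricted estimate, explicit dimension. -/

namespace Pool.Agent.helper132_poly

open Finset Pool.Agent.helper132_sph

/-- The restricted estimate. -/
theorem restricted' (κ m : ℕ) (hκ : 2 ≤ κ) (hm : 1 ≤ m) (C0 : ℝ) (hC0 : 1 ≤ C0)
    (hst0 : Hst (κ + 1) m C0) (A : ℕ) (hA : 1 ≤ A) (CW : ℝ) (hCW : 1 ≤ CW) (hW0 : WH (κ + 1) A CW)
    (d : ℕ) (hd2 : m * (2 * (κ + 1) + 2) + 1 ≤ d) (hdA : 5 * A ≤ d)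
    (hdN : (κ + 1) * A + 2 + (κ + 1) ^ 3 ≤ d) :
    ∃ K : ℝ, 0 ≤ K ∧ ∀ (n : (Fin d → ℤ) → ℕ)
      (_ : ∀ x, 1 ≤ n x ∧ (SpF (κ + 1) d (n x)).Nonempty) (E F : Finset (Fin d → ℤ)),
      ∑ x ∈ F, (((SpF (κ + 1) d (n x)).filter (fun y => x - y ∈ E)).card : ℝ) /
        (SpF (κ + 1) d (n x)).card ≤
        K * ((F.card : ℝ) ^ (((κ + 1 : ℕ) : ℝ) / d) * (E.card : ℝ) ^ (1 - ((κ + 1 : ℕ) : ℝ) / d)) := by
  classical
  obtain ⟨K, hK1, hK⟩ := main_prop' κ m hκ hm C0 hC0 hst0 A hA CW hCW hW0 d hd2 hdA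
  obtain ⟨c, hc0, hc⟩ := sphere_lower' (κ + 1) A (by omega) CW hCW hW0 d hdN
  have hdk : 2 * (κ + 1) + 1 ≤ d := by
    have : 2 * (κ + 1) + 2 ≤ m * (2 * (κ + 1) + 2) := Nat.le_mul_of_pos_left _ hm
    omega
  have hdR : (0 : ℝ) < d := by exact_mod_cast (by omega : 0 < d)
  have hK0 : 0 ≤ K := by linarith
  obtain ⟨θ, hθ⟩ : ∃ θ : ℝ, θ = ((κ + 1 : ℕ) : ℝ) / d := ⟨_, rfl⟩
  have hθ0 : 0 < θ := by rw [hθ]; positivity
  have hθ1 : θ < 1 / 2 := by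
    rw [hθ, div_lt_iff₀ hdR]
    have : ((2 * (κ + 1) + 1 : ℕ) : ℝ) ≤ d := by exact_mod_cast hdk
    push_cast at this ⊢
    linarith
  have h2θ : 1 - ((2 * (κ + 1) : ℕ) : ℝ) / d = 1 - 2 * θ := by
    rw [hθ]; push_cast; ring
  obtain ⟨Kb, hKb⟩ : ∃ Kb : ℝ, Kb = 2 ^ (d - (κ + 1)) / c * (2 ^ d * K) := ⟨_, rfl⟩
  have hKb0 : 0 ≤ Kb := by rw [hKb]; positivity
  obtain ⟨K', hK'0, hK'⟩ := induct_bound (d := d) θ hθ0 hθ1 1 Kb zero_le_one hKb0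
  refine ⟨K', hK'0, ?_⟩
  intro n hn E F
  rw [← hθ]
  refine hK' E (fun x => (((SpF (κ + 1) d (n x)).filter (fun y => x - y ∈ E)).card : ℝ) /
        (SpF (κ + 1) d (n x)).card) ?_ ?_ ?_ F
  · intro x; positivity
  · intro x
    have h1 : (0 : ℝ) < (SpF (κ + 1) d (n x)).card := by
      exact_mod_cast Finset.card_pos.2 (hn x).2
    rw [div_le_one h1]
    exact_mod_cast Finset.card_filter_le _ _
  clear F
  intro F ρ hρ hDens
  -- scales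
  have hJex : ∀ x, ∃ j : ℕ, n x < (2 ^ j) ^ (κ + 1) ∧
      (((2 ^ j : ℕ) : ℝ)) ^ (d - (κ + 1)) * c ≤ 2 ^ (d - (κ + 1)) * (SpF (κ + 1) d (n x)).card := by
    intro x
    obtain ⟨w, hw1, hw2⟩ := exists_root (κ + 1) (n x) (by omega)
    have hw0 : w ≠ 0 := by
      intro h0
      rw [h0] at hw2
      simp only [zero_add, one_pow] at hw2
      have := (hn x).1
      omega
    refine ⟨Nat.log 2 w + 1, ?_, ?_⟩
    · have h1 : w + 1 ≤ 2 ^ (Nat.log 2 w + 1) := Nat.lt_pow_succ_log_self (by norm_num) _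
      exact lt_of_lt_of_le hw2 (Nat.pow_le_pow_left h1 _)
    · obtain ⟨r, hr⟩ : ∃ r : ℝ, r = ((n x : ℕ) : ℝ) ^ ((((κ + 1 : ℕ)) : ℝ)⁻¹) := ⟨_, rfl⟩
      have hnx : (0 : ℝ) < n x := by exact_mod_cast (hn x).1
      have hr0 : 0 < r := by rw [hr]; positivity
      have hrk : r ^ (κ + 1) = n x := by
        rw [hr]; exact Real.rpow_inv_natCast_pow hnx.le (by omega)
      have h2 := hc (n x) r hr0 hrk
      have h3 : max 1 (((Rp (κ + 1) d (n x)).card : ℕ) : ℝ) ≤ (SpF (κ + 1) d (n x)).card := by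
        refine max_le ?_ ?_
        · exact_mod_cast Finset.card_pos.2 (hn x).2
        · exact_mod_cast Rp_le_SpF (κ + 1) d (n x) (by omega)
      have h4 : (2 : ℝ) ^ (Nat.log 2 w) ≤ r := by
        refine le_of_pow_le_pow_left₀ (n := κ + 1) (by omega) hr0.le ?_
        rw [hrk]
        have : (2 ^ Nat.log 2 w) ^ (κ + 1) ≤ n x :=
          (Nat.pow_le_pow_left (Nat.pow_log_le_self 2 hw0) _).trans hw1
        exact_mod_cast this
      calc (((2 ^ (Nat.log 2 w + 1) : ℕ) : ℝ)) ^ (d - (κ + 1)) * c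
          = 2 ^ (d - (κ + 1)) * (c * ((2 : ℝ) ^ (Nat.log 2 w)) ^ (d - (κ + 1))) := by
            push_cast
            rw [pow_succ, mul_pow]; ring
        _ ≤ 2 ^ (d - (κ + 1)) * (c * r ^ (d - (κ + 1))) := by gcongr
        _ ≤ 2 ^ (d - (κ + 1)) * (SpF (κ + 1) d (n x)).card := by
            refine mul_le_mul_of_nonneg_left (h2.trans h3) (by positivity)
  choose J hJ1 hJ2 using hJex
  -- pointwise
  have hpt : ∀ x ∈ F, (((SpF (κ + 1) d (n x)).filter (fun y => x - y ∈ E)).card : ℝ) /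
        (SpF (κ + 1) d (n x)).card ≤ 2 ^ (d - (κ + 1)) / c *
        ∑ ε ∈ sgns d, ((((2 ^ J x) ^ (κ + 1) : ℕ) : ℝ) *
          cnt (κ + 1) (2 ^ J x) (E.image (rf ε)) (rf ε x) (n x : ℤ)) / (((2 ^ J x : ℕ) : ℝ)) ^ d := by
    intro x _
    have hS : (0 : ℝ) < (SpF (κ + 1) d (n x)).card := by
      exact_mod_cast Finset.card_pos.2 (hn x).2
    have h1 := sphere_count_le (κ + 1) (n x) (2 ^ J x) (by omega) (hJ1 x) E x
    have h1R : (((SpF (κ + 1) d (n x)).filter (fun y => x - y ∈ E)).card : ℝ) ≤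
        ∑ ε ∈ sgns d, (cnt (κ + 1) (2 ^ J x) (E.image (rf ε)) (rf ε x) (n x : ℤ) : ℝ) := by
      exact_mod_cast h1
    obtain ⟨X, hX⟩ : ∃ X : ℝ, X = ((2 ^ J x : ℕ) : ℝ) := ⟨_, rfl⟩
    have hX0 : 0 < X := by rw [hX]; positivity
    have h2 := hJ2 x
    rw [← hX] at h2
    have hXk : ((((2 ^ J x) ^ (κ + 1) : ℕ) : ℝ)) = X ^ (κ + 1) := by rw [hX]; push_cast; ring
    rw [hXk, ← hX]
    have hXd : X ^ d = X ^ (κ + 1) * X ^ (d - (κ + 1)) := by rw [← pow_add]; congr 1; omega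
    rw [div_le_iff₀ hS]
    have h3 : ∑ ε ∈ sgns d, (X ^ (κ + 1) *
          cnt (κ + 1) (2 ^ J x) (E.image (rf ε)) (rf ε x) (n x : ℤ)) / X ^ d =
        (∑ ε ∈ sgns d, (cnt (κ + 1) (2 ^ J x) (E.image (rf ε)) (rf ε x) (n x : ℤ) : ℝ)) / X ^ (d - (κ + 1)) := by
      rw [Finset.sum_div]
      refine Finset.sum_congr rfl fun ε _ => ?_
      rw [hXd]
      field_simp
    rw [h3]
    obtain ⟨Sm, hSm⟩ : ∃ Sm : ℝ, Sm = ∑ ε ∈ sgns d, (cnt (κ + 1) (2 ^ J x) (E.image (rf ε)) (rf ε x) (n x : ℤ) : ℝ) :=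
      ⟨_, rfl⟩
    rw [← hSm] at h1R ⊢
    have hSm0 : 0 ≤ Sm := by rw [hSm]; positivity
    refine h1R.trans ?_
    have h4 : 2 ^ (d - (κ + 1)) / c * (Sm / X ^ (d - (κ + 1))) * (SpF (κ + 1) d (n x)).card =
        Sm * ((2 ^ (d - (κ + 1)) * (SpF (κ + 1) d (n x)).card) / (X ^ (d - (κ + 1)) * c)) := by
      field_simp
    rw [h4]
    refine le_mul_of_one_le_right hSm0 ?_
    rw [le_div_iff₀ (by positivity), one_mul]
    exact h2
  refine (Finset.sum_le_sum hpt).trans ?_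
  rw [← Finset.mul_sum, Finset.sum_comm]
  have hone : ∀ ε ∈ sgns d, ∑ x ∈ F, ((((2 ^ J x) ^ (κ + 1) : ℕ) : ℝ) *
          cnt (κ + 1) (2 ^ J x) (E.image (rf ε)) (rf ε x) (n x : ℤ)) / (((2 ^ J x : ℕ) : ℝ)) ^ d ≤
      K * (√((F.card : ℝ) * E.card * ρ ^ (1 - 2 * θ)) + E.card) := by
    intro ε hε
    have h1 := hK (E.image (rf ε)) (F.image (rf ε)) ρ hρ (Dens_rf hε E F ρ hDens)
      (fun x' => J (rf ε x')) (fun x' => (n (rf ε x') : ℤ))
    rw [Finset.sum_image (fun a _ b _ h => rf_inj hε h), Finset.card_image_of_injective _ (rf_inj hε),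
      Finset.card_image_of_injective _ (rf_inj hε), h2θ] at h1
    simp only [rf_rf hε] at h1
    exact h1
  have h5 := Finset.sum_le_sum hone
  rw [Finset.sum_const, card_sgns, nsmul_eq_mul] at h5
  push_cast at h5
  calc _ ≤ 2 ^ (d - (κ + 1)) / c * (2 ^ d * (K * (√((F.card : ℝ) * E.card * ρ ^ (1 - 2 * θ)) + E.card))) := by
        refine mul_le_mul_of_nonneg_left ?_ (by positivity)
        refine le_trans (le_of_eq ?_) h5
        push_cast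
        rfl
    _ = _ := by rw [hKb]; ring

end Pool.Agent.helper132_poly
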