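import Pool.Agent.helper132_poly.V5

/-! Polynomial phases. -/

namespace Pool.Agent.helper132_poly

open Finset Pool.Agent.helper132_sph

/-- polynomial functions of degree less than `κ`. -/
def Low (κ : ℕ) (φ : ℤ → ℝ) : Prop :=
  ∃ c : ℕ → ℝ, ∀ n : ℤ, φ n = ∑ j ∈ range κ, c j * (n : ℝ) ^ j

lemma Low.zero (κ : ℕ) : Low κ (fun _ => 0) := ⟨fun _ => 0, fun n => by simp⟩

lemma Low.add {κ : ℕ} {φ ψ : ℤ → ℝ} (h1 : Low κ φ) (h2 : Low κ ψ) : Low κ (fun n => φ n + ψ n) := by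
  obtain ⟨c, hc⟩ := h1
  obtain ⟨e, he⟩ := h2
  refine ⟨fun j => c j + e j, fun n => ?_⟩
  beta_reduce
  rw [hc, he, ← Finset.sum_add_distrib]
  refine Finset.sum_congr rfl fun j _ => by ring

lemma Low.smul {κ : ℕ} {φ : ℤ → ℝ} (a : ℝ) (h1 : Low κ φ) : Low κ (fun n => a * φ n) := by
  obtain ⟨c, hc⟩ := h1
  refine ⟨fun j => a * c j, fun n => ?_⟩
  beta_reduce
  rw [hc, Finset.mul_sum]
  refine Finset.sum_congr rfl fun j _ => by ring

lemma Low.sum {κ : ℕ} {ι : Type} (s : Finset ι) (f : ι → ℤ → ℝ) (h : ∀ i ∈ s, Low κ (f i)) :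
    Low κ (fun n => ∑ i ∈ s, f i n) := by
  classical
  induction s using Finset.induction_on with
  | empty => simpa using Low.zero κ
  | insert i s hi ih =>
    simp only [Finset.sum_insert hi]
    exact Low.add (h i (Finset.mem_insert_self _ _))
      (ih fun j hj => h j (Finset.mem_insert_of_mem hj))

lemma Low.pow {κ j : ℕ} (hj : j < κ) (a : ℝ) : Low κ (fun n => a * (n : ℝ) ^ j) := by
  refine ⟨fun i => if i = j then a else 0, fun n => ?_⟩
  rw [Finset.sum_eq_single j]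
  · simp
  · intro i _ hi
    simp [hi]
  · intro h
    exact absurd (Finset.mem_range.2 hj) h

lemma Low.congr {κ : ℕ} {φ ψ : ℤ → ℝ} (h : Low κ φ) (he : ∀ n, ψ n = φ n) : Low κ ψ := by
  have : ψ = φ := funext he
  rw [this]; exact h

/-- expansion of an affine monomial. -/
lemma Low.affine_pow {κ j : ℕ} (hj : j < κ) (y g : ℤ) (a : ℝ) :
    Low κ (fun u => a * (((y + g * u : ℤ)) : ℝ) ^ j) := by
  have h : ∀ u : ℤ, a * (((y + g * u : ℤ)) : ℝ) ^ j =
      ∑ i ∈ range (j + 1), (a * (g : ℝ) ^ i * (y : ℝ) ^ (j - i) * (j.choose i)) * (u : ℝ) ^ i := by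
    intro u
    push_cast
    rw [add_comm (y : ℝ), add_pow, Finset.mul_sum]
    refine Finset.sum_congr rfl fun i _ => ?_
    rw [mul_pow]
    ring
  refine Low.congr (Low.sum (range (j + 1)) (fun i (u : ℤ) =>
    (a * (g : ℝ) ^ i * (y : ℝ) ^ (j - i) * (j.choose i)) * (u : ℝ) ^ i) ?_) h
  intro i hi
  exact Low.pow (by have := Finset.mem_range.1 hi; omega) _

lemma Low.affine_top (κ : ℕ) (y g : ℤ) (a : ℝ) :
    Low κ (fun u => a * (((y + g * u : ℤ)) : ℝ) ^ κ - a * (g : ℝ) ^ κ * (u : ℝ) ^ κ) := by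
  have h : ∀ u : ℤ, a * (((y + g * u : ℤ)) : ℝ) ^ κ - a * (g : ℝ) ^ κ * (u : ℝ) ^ κ =
      ∑ i ∈ range κ, (a * (g : ℝ) ^ i * (y : ℝ) ^ (κ - i) * (κ.choose i)) * (u : ℝ) ^ i := by
    intro u
    push_cast
    rw [add_comm (y : ℝ), add_pow, Finset.mul_sum, Finset.sum_range_succ]
    simp only [Nat.sub_self, pow_zero, Nat.choose_self, Nat.cast_one, mul_one]
    rw [mul_pow, ← mul_assoc, add_sub_cancel_right]
    refine Finset.sum_congr rfl fun i _ => ?_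
    rw [mul_pow]
    ring
  refine Low.congr (Low.sum (range κ) (fun i (u : ℤ) =>
    (a * (g : ℝ) ^ i * (y : ℝ) ^ (κ - i) * (κ.choose i)) * (u : ℝ) ^ i) ?_) h
  intro i hi
  exact Low.pow (Finset.mem_range.1 hi) _

lemma Low.affine {κ : ℕ} {φ : ℤ → ℝ} (h : Low κ φ) (y g : ℤ) : Low κ (fun u => φ (y + g * u)) := by
  obtain ⟨c, hc⟩ := h
  have h1 : ∀ u : ℤ, φ (y + g * u) = ∑ j ∈ range κ, c j * (((y + g * u : ℤ)) : ℝ) ^ j := fun u => hc _
  refine Low.congr (Low.sum (range κ) (fun j (u : ℤ) => c j * (((y + g * u : ℤ)) : ℝ) ^ j) ?_) h1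
  intro j hj
  exact Low.affine_pow (Finset.mem_range.1 hj) y g _

/-- polynomial phases of degree `κ` with leading coefficient `δ`. -/
def PP (κ : ℕ) (δ : ℝ) (φ : ℤ → ℝ) : Prop := Low κ (fun n => φ n - δ * (n : ℝ) ^ κ)

lemma PP.add {κ : ℕ} {α β : ℝ} {φ ψ : ℤ → ℝ} (h1 : PP κ α φ) (h2 : PP κ β ψ) :
    PP κ (α + β) (fun n => φ n + ψ n) :=
  Low.congr (Low.add h1 h2) (fun n => by ring)

lemma PP.smul {κ : ℕ} {α : ℝ} {φ : ℤ → ℝ} (a : ℝ) (h1 : PP κ α φ) : PP κ (a * α) (fun n => a * φ n) :=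
  Low.congr (Low.smul a h1) (fun n => by ring)

lemma PP.pow (κ : ℕ) (a : ℝ) : PP κ a (fun n => a * (n : ℝ) ^ κ) :=
  Low.congr (Low.zero κ) (fun n => by ring)

lemma PP.affine {κ : ℕ} {δ : ℝ} {φ : ℤ → ℝ} (h : PP κ δ φ) (y g : ℤ) :
    PP κ (δ * (g : ℝ) ^ κ) (fun u => φ (y + g * u)) := by
  have h1 := Low.affine h y g
  have h2 := Low.affine_top κ y g δ
  exact Low.congr (Low.add h1 h2) (fun n => by ring)

lemma PP.shift {κ : ℕ} {δ : ℝ} {φ : ℤ → ℝ} (h : PP κ δ φ) (y : ℤ) :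
    PP κ δ (fun u => φ (u + y)) := by
  have h1 := PP.affine h y 1
  have : (fun u => φ (y + 1 * u)) = (fun u => φ (u + y)) := by
    funext u; congr 1; ring
  rw [this] at h1
  simpa using h1

lemma PP.diff {κ : ℕ} {δ : ℝ} {φ : ℤ → ℝ} (h : PP (κ + 1) δ φ) (y : ℤ) :
    PP κ (((κ : ℝ) + 1) * y * δ) (fun n => φ (n + y) - φ n) := by
  obtain ⟨c, hc⟩ := h
  have hmono : ∀ j ≤ κ, ∀ a : ℝ, Low κ (fun n : ℤ => a * (((n + y : ℤ)) : ℝ) ^ j - a * (n : ℝ) ^ j) := by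
    intro j hj a
    have h1 := Low.affine_top j y 1 a
    obtain ⟨e, he⟩ := h1
    refine Low.congr (Low.sum (range j) (fun i (n : ℤ) => e i * (n : ℝ) ^ i) ?_) ?_
    · intro i hi
      exact Low.pow (by have := Finset.mem_range.1 hi; omega) _
    · intro n
      have := he n
      simp only [one_mul, Int.cast_one, one_pow, mul_one] at this
      rw [← this]
      congr 3
      push_cast
      ring
  have htop : Low κ (fun n : ℤ => δ * (((n + y : ℤ)) : ℝ) ^ (κ + 1) - δ * (n : ℝ) ^ (κ + 1) -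
      ((κ : ℝ) + 1) * y * δ * (n : ℝ) ^ κ) := by
    have h1 : ∀ n : ℤ, δ * (((n + y : ℤ)) : ℝ) ^ (κ + 1) - δ * (n : ℝ) ^ (κ + 1) -
        ((κ : ℝ) + 1) * y * δ * (n : ℝ) ^ κ =
        ∑ i ∈ range κ, (δ * (y : ℝ) ^ (κ + 1 - i) * ((κ + 1).choose i)) * (n : ℝ) ^ i := by
      intro n
      push_cast
      rw [add_pow, Finset.sum_range_succ, Finset.sum_range_succ, mul_add, mul_add, Finset.mul_sum]
      have e1 : κ + 1 - κ = 1 := by omega
      have e2 : κ + 1 - (κ + 1) = 0 := by omega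
      have e3 : (κ + 1).choose κ = κ + 1 := by
        rw [Nat.choose_succ_self_right]
      rw [e1, e2, e3, Nat.choose_self]
      push_cast
      have e4 : ∑ i ∈ range κ, δ * ((n : ℝ) ^ i * (y : ℝ) ^ (κ + 1 - i) * ((κ + 1).choose i : ℝ)) =
          ∑ i ∈ range κ, (δ * (y : ℝ) ^ (κ + 1 - i) * ((κ + 1).choose i)) * (n : ℝ) ^ i :=
        Finset.sum_congr rfl fun i _ => by ring
      rw [e4]
      ring
    refine Low.congr (Low.sum (range κ) (fun i (n : ℤ) =>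
      (δ * (y : ℝ) ^ (κ + 1 - i) * ((κ + 1).choose i)) * (n : ℝ) ^ i) ?_) h1
    intro i hi
    exact Low.pow (Finset.mem_range.1 hi) _
  have hlow : Low κ (fun n : ℤ => ∑ j ∈ range (κ + 1), (c j * (((n + y : ℤ)) : ℝ) ^ j - c j * (n : ℝ) ^ j)) :=
    Low.sum _ _ (fun j hj => hmono j (by have := Finset.mem_range.1 hj; omega) _)
  refine Low.congr (Low.add hlow htop) ?_
  intro n
  have h1 := hc (n + y)
  have h2 := hc n
  rw [Finset.sum_sub_distrib]
  rw [← h1, ← h2]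
  ring

end Pool.Agent.helper132_poly
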