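import Pool.Agent.helper132_poly.P10

/-! The correlation averages: explicit structure theorem. -/

namespace Pool.Agent.helper132_poly

open Finset Pool.Agent.helper132_sph

/-- `α` is minor at level `R` for scale `X` in degree `k`. -/
def Minor (k X : ℕ) (α R : ℝ) : Prop :=
  ∀ (q : ℕ) (c : ℤ), 1 ≤ q → (q : ℝ) ≤ R → R < |q * α - c| * (X : ℝ) ^ k

lemma Minor.mono {k X : ℕ} {α R R' : ℝ} (h : Minor k X α R) (hR : R' ≤ R) : Minor k X α R' :=
  fun q c hq hqR => lt_of_le_of_lt hR (h q c hq (hqR.trans hR))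

lemma Dl_eq_Vm (k m X : ℕ) (α : ℝ) : Dl k m X α = Vm (fun n : ℤ => α * (n : ℝ) ^ k) X m := rfl

lemma Dl_anti (k m m' X : ℕ) (α : ℝ) (hX : 1 ≤ X) (h : m ≤ m') : Dl k m' X α ≤ Dl k m X α := by
  unfold Dl
  refine div_le_div_of_nonneg_right (Finset.sum_le_sum fun h' _ => ?_) (Nat.cast_nonneg _)
  exact pow_le_pow_of_le_one (dl_nonneg _ _ _ _) (dl_le_one _ _ _ _ hX) h

/-- all frequencies that are very minor have tiny averages. -/
theorem S2 (κ l A' : ℕ) (hκ : 2 ≤ κ) (hl : 12 ≤ l) (hη : eta κ l ≤ 1 / 48) (K' : ℝ) (hK' : 1 ≤ K')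
    (hW : WH κ A' K') : ∃ C : ℝ, 1 ≤ C ∧
    ∀ (X : ℕ) (α R : ℝ), 1 ≤ X → 1 ≤ R → Minor (κ + 1) X α R → (X : ℝ) ^ 11 ≤ 1024 * R ^ 10 →
      Dl (κ + 1) (2 * (κ * l) + A') X α * X ≤ C := by
  obtain ⟨C, hC1, hC⟩ := S1 κ l hκ hl hη
  obtain ⟨m, hm⟩ : ∃ m, m = 2 * (κ * l) := ⟨_, rfl⟩
  rw [← hm] at hC ⊢
  have hκ1 : (1 : ℝ) ≤ (κ : ℝ) + 1 := by
    have : (0 : ℝ) ≤ κ := Nat.cast_nonneg _
    linarith
  have hKκ : (1 : ℝ) ≤ K' * (κ + 1) := by nlinarith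
  obtain ⟨C1, hC1d⟩ : ∃ C1 : ℝ, C1 = 1024 * (K' * (κ + 1)) ^ 10 := ⟨_, rfl⟩
  have hC11 : 1 ≤ C1 := by
    have h2 : (1 : ℝ) ≤ (K' * (κ + 1)) ^ 10 := one_le_pow₀ hKκ
    rw [hC1d]; linarith
  have hC6 : 0 ≤ C1 ^ 6 * C ^ 5 := by positivity
  have hC65 : 1 ≤ C1 ^ 6 * C ^ 5 := by
    have h1 : (1 : ℝ) ≤ C1 ^ 6 := one_le_pow₀ hC11
    have h2 : (1 : ℝ) ≤ C ^ 5 := one_le_pow₀ hC1
    nlinarith
  refine ⟨2048 + (1 + C1 ^ 6 * C ^ 5), by linarith, ?_⟩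
  intro X α R hX hR1 hmin hXR10
  have hXR : (0 : ℝ) < X := by exact_mod_cast hX
  have hX1 : (1 : ℝ) ≤ X := by exact_mod_cast hX
  have hR0 : 0 < R := by linarith
  rcases lt_or_ge R X with hRX | hRX
  · have h1 : (X : ℝ) ^ 10 * X ≤ (X : ℝ) ^ 10 * 1024 := by
      calc (X : ℝ) ^ 10 * X = (X : ℝ) ^ 11 := by ring
        _ ≤ 1024 * R ^ 10 := hXR10
        _ ≤ 1024 * (X : ℝ) ^ 10 := by gcongr
        _ = _ := by ring
    have h2 : (X : ℝ) ≤ 1024 := le_of_mul_le_mul_left h1 (by positivity)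
    have h3 := Dl_le_two (κ + 1) (m + A') X α hX
    have h4 := Dl_nonneg (κ + 1) (m + A') X α
    calc Dl (κ + 1) (m + A') X α * X ≤ 2 * 1024 := by gcongr
      _ ≤ _ := by linarith
  have hV := hC X α X (fun n : ℤ => α * (n : ℝ) ^ (κ + 1)) hX (PP.pow (κ + 1) α) hX1 le_rfl
    (hmin.mono hRX)
  rw [← Dl_eq_Vm] at hV
  obtain ⟨V, hVd⟩ : ∃ V : ℝ, V = Dl (κ + 1) m X α := ⟨_, rfl⟩
  have hV0 : 0 ≤ V := by rw [hVd]; exact Dl_nonneg _ _ _ _
  rw [← hVd] at hV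
  -- individual correlations
  have hU : ∀ h : ℤ, h ≠ 0 → |h| < X → (dl (κ + 1) X α h ^ A') ^ 10 * X ≤ C1 := by
    intro h hne hlt
    have hh1 : (1 : ℤ) ≤ |h| := Int.one_le_abs hne
    obtain ⟨u, hu⟩ : ∃ u : ℝ, u = dl (κ + 1) X α h := ⟨_, rfl⟩
    have hu0 : 0 ≤ u := by rw [hu]; exact dl_nonneg _ _ _ _
    rw [← hu]
    have hw := hW X hX (((κ : ℝ) + 1) * h * α) _ (PP.diff (PP.pow (κ + 1) α) h)
      (max (0 : ℤ) (0 - h)) (min (X : ℤ) (X - h)) (by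
        have := min_le_left (X : ℤ) (X - h)
        have := le_max_left (0 : ℤ) (0 - h)
        linarith)
    have hw' : (u ^ A' * X ≤ K') ∨ ∃ q : ℕ, ∃ c : ℤ, 1 ≤ q ∧ (q : ℝ) * u ^ A' ≤ K' ∧
        |q * (((κ : ℝ) + 1) * h * α) - c| * u ^ A' * (X : ℝ) ^ κ ≤ K' := by
      rw [hu]; exact hw
    have huA0 : 0 ≤ u ^ A' := by positivity
    rcases hw' with h1 | ⟨q, c, hq, h2, h3⟩
    · calc (u ^ A') ^ 10 * X ≤ (u ^ A') ^ 10 * (X : ℝ) ^ 10 := by
            refine mul_le_mul_of_nonneg_left ?_ (by positivity)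
            exact le_self_pow₀ hX1 (by norm_num)
        _ = (u ^ A' * X) ^ 10 := by rw [mul_pow]
        _ ≤ K' ^ 10 := pow_le_pow_left₀ (by positivity) h1 10
        _ ≤ (K' * (κ + 1)) ^ 10 := by
            refine pow_le_pow_left₀ (by linarith) ?_ 10
            nlinarith
        _ ≤ C1 := by
            rw [hC1d]
            have : (0 : ℝ) ≤ (K' * (κ + 1)) ^ 10 := by positivity
            linarith
    · have hqR : (1 : ℝ) ≤ q := by exact_mod_cast hq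
      have hhR : (1 : ℝ) ≤ |(h : ℝ)| := by
        have : ((1 : ℤ) : ℝ) ≤ ((|h| : ℤ) : ℝ) := by exact_mod_cast hh1
        rw [Int.cast_abs] at this
        simpa using this
      have hhX : |(h : ℝ)| ≤ X := by
        have : ((|h| : ℤ) : ℝ) ≤ ((X : ℤ) : ℝ) := by exact_mod_cast hlt.le
        rw [Int.cast_abs] at this
        simpa using this
      have key : R * u ^ A' ≤ K' * (κ + 1) * X := by
        obtain ⟨Q, hQ⟩ : ∃ Q : ℕ, Q = q * (κ + 1) * h.natAbs := ⟨_, rfl⟩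
        have hQR : (Q : ℝ) = q * (κ + 1) * |(h : ℝ)| := by
          rw [hQ]
          push_cast
          rw [Nat.cast_natAbs]
          simp
        rcases le_or_gt (Q : ℝ) R with hle | hgt
        · have hQ1 : 1 ≤ Q := by
            rw [hQ]
            have : 0 < h.natAbs := Int.natAbs_pos.2 hne
            exact Nat.succ_le_of_lt (by positivity)
          have h4 := hmin Q (h.sign * c) hQ1 hle
          have h5 : |(Q : ℝ) * α - ((h.sign * c : ℤ) : ℝ)| = |q * (((κ : ℝ) + 1) * h * α) - c| := by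
            rw [hQR]
            rcases lt_or_gt_of_ne hne with hs | hs
            · have h6 : h.sign = -1 := Int.sign_eq_neg_one_of_neg hs
              have h7 : |(h : ℝ)| = -h := abs_of_neg (by exact_mod_cast hs)
              rw [h6, h7, ← abs_neg]
              congr 1
              push_cast
              ring
            · have h6 : h.sign = 1 := Int.sign_eq_one_of_pos hs
              have h7 : |(h : ℝ)| = h := abs_of_pos (by exact_mod_cast hs)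
              rw [h6, h7]
              congr 1
              push_cast
              ring
          rw [h5] at h4
          calc R * u ^ A' ≤ (|q * (((κ : ℝ) + 1) * h * α) - c| * (X : ℝ) ^ (κ + 1)) * u ^ A' :=
                mul_le_mul_of_nonneg_right h4.le huA0
            _ = (|q * (((κ : ℝ) + 1) * h * α) - c| * u ^ A' * (X : ℝ) ^ κ) * X := by
                rw [pow_succ]; ring
            _ ≤ K' * X := mul_le_mul_of_nonneg_right h3 hXR.le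
            _ ≤ K' * (κ + 1) * X := mul_le_mul_of_nonneg_right (by nlinarith) hXR.le
        · calc R * u ^ A' ≤ (Q : ℝ) * u ^ A' := mul_le_mul_of_nonneg_right hgt.le huA0
            _ = (q * u ^ A') * (κ + 1) * |(h : ℝ)| := by rw [hQR]; ring
            _ ≤ K' * (κ + 1) * X := by gcongr
      have h8 : (R * u ^ A') ^ 10 ≤ (K' * (κ + 1) * X) ^ 10 := pow_le_pow_left₀ (by positivity) key 10
      have h9 : (X : ℝ) ^ 10 * ((u ^ A') ^ 10 * X) ≤ (X : ℝ) ^ 10 * C1 := by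
        calc (X : ℝ) ^ 10 * ((u ^ A') ^ 10 * X) = (X : ℝ) ^ 11 * (u ^ A') ^ 10 := by ring
          _ ≤ (1024 * R ^ 10) * (u ^ A') ^ 10 := mul_le_mul_of_nonneg_right hXR10 (by positivity)
          _ = 1024 * (R * u ^ A') ^ 10 := by rw [mul_pow]; ring
          _ ≤ 1024 * (K' * (κ + 1) * X) ^ 10 := mul_le_mul_of_nonneg_left h8 (by norm_num)
          _ = (X : ℝ) ^ 10 * C1 := by rw [hC1d, mul_pow]; ring
      exact le_of_mul_le_mul_left h9 (by positivity)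
  obtain ⟨U, hU0, hU10⟩ : ∃ U : ℝ, 0 ≤ U ∧ U ^ 10 = C1 / X :=
    ⟨(C1 / X) ^ ((10 : ℕ) : ℝ)⁻¹, by positivity, Real.rpow_inv_natCast_pow (by positivity) (by norm_num)⟩
  have hU' : ∀ h : ℤ, h ≠ 0 → |h| < X → dl (κ + 1) X α h ^ A' ≤ U := by
    intro h hne hlt
    refine le_of_pow_le_pow_left₀ (n := 10) (by norm_num) hU0 ?_
    rw [hU10, le_div_iff₀ hXR]
    exact hU h hne hlt
  have hsum : Dl (κ + 1) (m + A') X α * X ≤ 1 + U * (X * V) := by
    have e1 : Dl (κ + 1) (m + A') X α * X = ∑ h ∈ Ioo (-(X : ℤ)) X, dl (κ + 1) X α h ^ (m + A') := by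
      unfold Dl; field_simp
    have e2 : X * V = ∑ h ∈ Ioo (-(X : ℤ)) X, dl (κ + 1) X α h ^ m := by
      rw [hVd]; unfold Dl; field_simp
    have h0 : (0 : ℤ) ∈ Ioo (-(X : ℤ)) X := by
      rw [Finset.mem_Ioo]
      have : (1 : ℤ) ≤ X := by exact_mod_cast hX
      constructor <;> linarith
    rw [e1, e2, ← Finset.sum_erase_add _ _ h0, add_comm, Finset.mul_sum]
    refine add_le_add (pow_le_one₀ (dl_nonneg _ _ _ _) (dl_le_one _ _ _ _ hX)) ?_
    refine (Finset.sum_le_sum (f := fun h => dl (κ + 1) X α h ^ (m + A'))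
      (g := fun h => U * dl (κ + 1) X α h ^ m) fun h hh => ?_).trans ?_
    · rw [Finset.mem_erase, Finset.mem_Ioo] at hh
      have h1 := hU' h hh.1 (abs_lt.2 hh.2)
      rw [pow_add, mul_comm]
      exact mul_le_mul_of_nonneg_right h1 (pow_nonneg (dl_nonneg _ _ _ _) _)
    · refine Finset.sum_le_sum_of_subset_of_nonneg (Finset.erase_subset _ _) ?_
      intro h _ _
      exact mul_nonneg hU0 (pow_nonneg (dl_nonneg _ _ _ _) _)
  have hfin : U * (X * V) ≤ C1 ^ 6 * C ^ 5 := by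
    refine le_of_pow_le_pow_left₀ (n := 60) (by norm_num) hC6 ?_
    have h1 : (U * (X * V)) ^ 60 * X ≤ C1 ^ 6 * C ^ 5 := by
      calc (U * (X * V)) ^ 60 * X = (U ^ 10 * X) ^ 6 * (V ^ 12 * (X : ℝ) ^ 11) ^ 5 := by ring
        _ = C1 ^ 6 * (V ^ 12 * (X : ℝ) ^ 11) ^ 5 := by
            rw [hU10, div_mul_cancel₀ _ hXR.ne']
        _ ≤ C1 ^ 6 * C ^ 5 := by gcongr
    calc (U * (X * V)) ^ 60 ≤ (U * (X * V)) ^ 60 * X := le_mul_of_one_le_right (by positivity) hX1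
      _ ≤ C1 ^ 6 * C ^ 5 := h1
      _ ≤ (C1 ^ 6 * C ^ 5) ^ 60 := le_self_pow₀ hC65 (by norm_num)
  linarith

/-- the structure hypothesis. -/
def Hst (k m : ℕ) (C : ℝ) : Prop :=
  (∀ (X : ℕ) (α R : ℝ), 1 ≤ X → 1 ≤ R → R ^ 10 ≤ (X : ℝ) ^ 11 → Minor k X α R →
    Dl k m X α ^ (2 * k) * R ^ 5 ≤ C) ∧
  (∀ (X : ℕ) (α R : ℝ), 1 ≤ X → 1 ≤ R → (X : ℝ) ^ 11 ≤ 1024 * R ^ 10 → Minor k X α R →
    Dl k m X α ^ (2 * k) * (X : ℝ) ^ (2 * k) ≤ C)

theorem Hst_holds (κ l A' : ℕ) (hκ : 2 ≤ κ) (hl : 12 ≤ l) (hη : eta κ l ≤ 1 / 48) (K' : ℝ) (hK' : 1 ≤ K')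
    (hW : WH κ A' K') : ∃ C : ℝ, 1 ≤ C ∧ Hst (κ + 1) (2 * (κ * l) + A') C := by
  obtain ⟨C, hC1, hC⟩ := S1 κ l hκ hl hη
  obtain ⟨C2, hC21, hC2⟩ := S2 κ l A' hκ hl hη K' hK' hW
  obtain ⟨m, hm⟩ : ∃ m, m = 2 * (κ * l) := ⟨_, rfl⟩
  rw [← hm] at hC hC2 ⊢
  have h2 : (1 : ℝ) ≤ 2 ^ (2 * κ) := one_le_pow₀ (by norm_num)
  have hC2k : (1 : ℝ) ≤ C2 ^ (2 * (κ + 1)) := one_le_pow₀ hC21
  refine ⟨2 ^ (2 * κ) * C + C2 ^ (2 * (κ + 1)), by nlinarith, ?_, ?_⟩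
  · intro X α R hX hR1 hRX10 hmin
    have hXR : (0 : ℝ) < X := by exact_mod_cast hX
    have hX1 : (1 : ℝ) ≤ X := by exact_mod_cast hX
    have hR0 : 0 < R := by linarith
    obtain ⟨V, hVd⟩ : ∃ V : ℝ, V = Dl (κ + 1) m X α := ⟨_, rfl⟩
    have hV0 : 0 ≤ V := by rw [hVd]; exact Dl_nonneg _ _ _ _
    have hV2 : V ≤ 2 := by rw [hVd]; exact Dl_le_two _ _ _ _ hX
    have hVR : (V ^ 6 * R ^ 5) ^ 2 ≤ C ^ 2 := by
      have hCC : C ≤ C ^ 2 := le_self_pow₀ hC1 (by norm_num)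
      refine le_trans ?_ hCC
      rcases le_or_gt R X with hRX | hRX
      · have h := hC X α R (fun n : ℤ => α * (n : ℝ) ^ (κ + 1)) hX (PP.pow (κ + 1) α) hR1 hRX hmin
        rw [← Dl_eq_Vm, ← hVd] at h
        calc (V ^ 6 * R ^ 5) ^ 2 = V ^ 12 * R ^ 10 := by ring
          _ ≤ V ^ 12 * R ^ 11 := by
              refine mul_le_mul_of_nonneg_left ?_ (by positivity)
              exact pow_le_pow_right₀ hR1 (by norm_num)
          _ ≤ C := h
      · have h := hC X α X (fun n : ℤ => α * (n : ℝ) ^ (κ + 1)) hX (PP.pow (κ + 1) α) hX1 le_rfl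
          (hmin.mono hRX.le)
        rw [← Dl_eq_Vm, ← hVd] at h
        calc (V ^ 6 * R ^ 5) ^ 2 = V ^ 12 * R ^ 10 := by ring
          _ ≤ V ^ 12 * (X : ℝ) ^ 11 := mul_le_mul_of_nonneg_left hRX10 (by positivity)
          _ ≤ C := h
    have hVR' : V ^ 6 * R ^ 5 ≤ C := le_of_pow_le_pow_left₀ (n := 2) (by norm_num) (by linarith) hVR
    have hDV : Dl (κ + 1) (m + A') X α ≤ V := by
      rw [hVd]; exact Dl_anti (κ + 1) m (m + A') X α hX (by omega)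
    have hD0 := Dl_nonneg (κ + 1) (m + A') X α
    calc Dl (κ + 1) (m + A') X α ^ (2 * (κ + 1)) * R ^ 5 ≤ V ^ (2 * (κ + 1)) * R ^ 5 := by gcongr
      _ = V ^ (2 * κ - 4) * (V ^ 6 * R ^ 5) := by
          rw [← mul_assoc, ← pow_add]; congr 2; omega
      _ ≤ 2 ^ (2 * κ) * C := by
          refine mul_le_mul ?_ hVR' (by positivity) (by positivity)
          calc V ^ (2 * κ - 4) ≤ 2 ^ (2 * κ - 4) := pow_le_pow_left₀ hV0 hV2 _
            _ ≤ 2 ^ (2 * κ) := pow_le_pow_right₀ (by norm_num) (by omega)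
      _ ≤ _ := by linarith
  · intro X α R hX hR1 hXR10 hmin
    have h := hC2 X α R hX hR1 hmin hXR10
    have hD0 := Dl_nonneg (κ + 1) (m + A') X α
    have hXR : (0 : ℝ) < X := by exact_mod_cast hX
    rw [← mul_pow]
    calc (Dl (κ + 1) (m + A') X α * X) ^ (2 * (κ + 1)) ≤ C2 ^ (2 * (κ + 1)) :=
          pow_le_pow_left₀ (by positivity) h _
      _ ≤ _ := by
          have : 0 ≤ 2 ^ (2 * κ) * C := by positivity
          linarith

end Pool.Agent.helper132_poly
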