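import Pool.Agent.helper132_poly.P11
import Pool.Agent.helper132_sph.MP

/-! Classification of frequencies, explicit version. -/

namespace Pool.Agent.helper132_poly

open Finset Pool.Agent.helper132_sph

/-- every frequency is minor or is attached to a good triple. -/
theorem classify' (κ m : ℕ) (hκ : 2 ≤ κ) (C : ℝ) (hC : 1 ≤ C) (hst : Hst (κ + 1) m C) :
    ∃ C' : ℝ, C ≤ C' ∧ ∀ (X : ℕ) (_ : 1 ≤ X) (a : ℕ) (_ : a < X ^ (κ + 1)),
      Dl (κ + 1) m X ((a : ℝ) / (X : ℝ) ^ (κ + 1)) ^ (2 * (κ + 1)) ≤ C' / (X : ℝ) ^ (2 * (κ + 1)) ∨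
      ∃ τ : ℕ × ℤ × ℤ, GoodT (κ + 1) m C' X τ ∧
        (a : ℤ) = τ.2.2 + ((X : ℤ) ^ (κ + 1) * τ.2.1) / (τ.1 : ℤ) := by
  classical
  obtain ⟨C1, hC1⟩ : ∃ C1 : ℝ, C1 = 32 * C + 4 ^ (κ + 1) := ⟨_, rfl⟩
  have hC0 : 0 < C := by linarith
  have h4p : (0 : ℝ) < 4 ^ (κ + 1) := by positivity
  have hC1C : C ≤ C1 := by linarith
  have hC1pos : 0 < C1 := by linarith
  have h243 : C1 ≤ C1 * 243 := by linarith
  refine ⟨C1 * 243, by linarith, ?_⟩
  intro X hX a ha
  set α : ℝ := (a : ℝ) / (X : ℝ) ^ (κ + 1) with hα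
  have hXR : (1 : ℝ) ≤ X := by exact_mod_cast hX
  have hXpos : (0 : ℝ) < X := by linarith
  have hXk : (0 : ℝ) < (X : ℝ) ^ (κ + 1) := by positivity
  set ν := Nat.find (exists_inArc (κ + 1) X α) with hν
  have hin : InArc (κ + 1) X α ν := Nat.find_spec (exists_inArc (κ + 1) X α)
  have hmin : ∀ μ, μ < ν → ¬ InArc (κ + 1) X α μ := fun μ h => Nat.find_min _ h
  have hminor : 1 ≤ ν → Minor (κ + 1) X α (2 ^ (ν - 1)) := by
    intro h0 q c hq1 hq2
    by_contra hcon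
    push Not at hcon
    exact hmin (ν - 1) (by omega) ⟨q, c, hq1, hq2, hcon⟩
  have h2ν : (1 : ℝ) ≤ 2 ^ ν := one_le_pow₀ (by norm_num)
  rcases le_or_gt (((2 : ℝ) ^ ν) ^ 10) ((X : ℝ) ^ 11) with hcase | hcase
  · right
    have hDl5 : Dl (κ + 1) m X α ^ (2 * (κ + 1)) ≤ C1 / ((2 : ℝ) ^ ν) ^ 5 := by
      rcases Nat.eq_zero_or_pos ν with h0 | h0
      · rw [h0]
        have h1 : Dl (κ + 1) m X α ^ (2 * (κ + 1)) ≤ 4 ^ (κ + 1) := by
          calc Dl (κ + 1) m X α ^ (2 * (κ + 1)) ≤ 2 ^ (2 * (κ + 1)) :=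
                pow_le_pow_left₀ (Dl_nonneg _ _ _ _) (Dl_le_two _ _ _ _ hX) _
            _ = 4 ^ (κ + 1) := by rw [pow_mul]; norm_num
        simp only [pow_zero, one_pow, div_one]
        linarith
      · have hpow : (2 : ℝ) ^ ν = 2 ^ (ν - 1) * 2 := by
          rw [← pow_succ]; congr 1; omega
        have hle : (2 : ℝ) ^ (ν - 1) ≤ 2 ^ ν := pow_le_pow_right₀ (by norm_num) (by omega)
        have h1 := hst.1 X α (2 ^ (ν - 1)) hX (one_le_pow₀ (by norm_num))
          ((pow_le_pow_left₀ (by positivity) hle 10).trans hcase) (hminor h0)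
        rw [le_div_iff₀ (by positivity), hpow]
        calc Dl (κ + 1) m X α ^ (2 * (κ + 1)) * ((2 : ℝ) ^ (ν - 1) * 2) ^ 5 =
              32 * (Dl (κ + 1) m X α ^ (2 * (κ + 1)) * ((2 : ℝ) ^ (ν - 1)) ^ 5) := by ring
          _ ≤ 32 * C := mul_le_mul_of_nonneg_left h1 (by norm_num)
          _ ≤ C1 := by linarith
    obtain ⟨q, c, hq1, hq2, hq3⟩ := hin
    have hqR : (1 : ℝ) ≤ q := by exact_mod_cast hq1
    have hqpos : (0 : ℝ) < q := by linarith
    -- coprimality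
    have hcop : IsCoprime c (q : ℤ) := by
      rw [Int.isCoprime_iff_gcd_eq_one]
      by_contra hne
      set g := Int.gcd c q with hg
      have hgq : g ∣ q := by
        have := Int.gcd_dvd_right c (q : ℤ)
        exact_mod_cast this
      have hgpos : 0 < g := Nat.pos_of_dvd_of_pos hgq (by omega)
      have hg2 : 2 ≤ g := by omega
      obtain ⟨q', hq'⟩ := hgq
      obtain ⟨c', hc'⟩ : (g : ℤ) ∣ c := Int.gcd_dvd_left c (q : ℤ)
      have hgR : (2 : ℝ) ≤ g := by exact_mod_cast hg2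
      have hgR0 : (0 : ℝ) < g := by linarith
      have hq'1 : 1 ≤ q' := by
        rcases Nat.eq_zero_or_pos q' with h | h
        · rw [h] at hq'; omega
        · exact h
      have hν1 : 1 ≤ ν := by
        by_contra h0
        have : ν = 0 := by omega
        rw [this, pow_zero] at hq2
        have h1 : q ≤ 1 := by exact_mod_cast hq2
        have : 2 * 1 ≤ g * q' := Nat.mul_le_mul hg2 hq'1
        omega
      apply hmin (ν - 1) (by omega)
      have hpow : (2 : ℝ) ^ ν = 2 ^ (ν - 1) * 2 := by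
        rw [← pow_succ]; congr 1; omega
      have hqq : (q : ℝ) = g * q' := by exact_mod_cast hq'
      have hcc : (c : ℝ) = g * c' := by exact_mod_cast hc'
      refine ⟨q', c', hq'1, ?_, ?_⟩
      · have h1 : 2 * (q' : ℝ) ≤ g * q' := mul_le_mul_of_nonneg_right hgR (Nat.cast_nonneg _)
        rw [← hqq] at h1
        linarith
      · have h1 : (q : ℝ) * α - c = g * (q' * α - c') := by rw [hqq, hcc]; ring
        rw [h1, abs_mul, abs_of_pos hgR0, hpow] at hq3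
        have h2 : 0 ≤ |(q' : ℝ) * α - c'| * (X : ℝ) ^ (κ + 1) := by positivity
        have h3 : 2 * (|(q' : ℝ) * α - c'| * (X : ℝ) ^ (κ + 1)) ≤
            g * (|(q' : ℝ) * α - c'| * (X : ℝ) ^ (κ + 1)) := mul_le_mul_of_nonneg_right hgR h2
        linarith
    -- bounds on c
    have hα0 : 0 ≤ α := by rw [hα]; positivity
    have hα1 : α ≤ 1 := by
      rw [hα, div_le_one hXk]
      exact_mod_cast ha.le
    have h2νX : (2 : ℝ) ^ ν ≤ (X : ℝ) ^ (κ + 1) := by
      have h1 : ((2 : ℝ) ^ ν) ^ 10 ≤ ((X : ℝ) ^ 2) ^ 10 := by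
        calc ((2 : ℝ) ^ ν) ^ 10 ≤ (X : ℝ) ^ 11 := hcase
          _ ≤ (X : ℝ) ^ 20 := pow_le_pow_right₀ hXR (by norm_num)
          _ = ((X : ℝ) ^ 2) ^ 10 := by rw [← pow_mul]
      have h2 : (2 : ℝ) ^ ν ≤ (X : ℝ) ^ 2 :=
        le_of_pow_le_pow_left₀ (by norm_num) (by positivity) h1
      exact h2.trans (pow_le_pow_right₀ hXR (by omega))
    have hqc : |(q : ℝ) * α - c| ≤ 1 := by
      have h1 : |(q : ℝ) * α - c| * (X : ℝ) ^ (κ + 1) ≤ 1 * (X : ℝ) ^ (κ + 1) := by linarith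
      exact le_of_mul_le_mul_right h1 hXk
    rw [abs_le] at hqc
    have hqα : (q : ℝ) * α ≤ q := by nlinarith
    have hqα0 : 0 ≤ (q : ℝ) * α := by positivity
    have hc1 : -1 ≤ c := by
      have : (-1 : ℝ) ≤ c := by linarith
      exact_mod_cast this
    have hc2 : c ≤ q + 1 := by
      have : (c : ℝ) ≤ q + 1 := by linarith
      exact_mod_cast this
    set i : ℤ := (a : ℤ) - ((X : ℤ) ^ (κ + 1) * c) / (q : ℤ) with hi
    have hai : (a : ℤ) = i + ((X : ℤ) ^ (κ + 1) * c) / (q : ℤ) := by rw [hi]; ring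
    have hfr : frq (κ + 1) X (q, c, i) = α := by
      unfold frq
      simp only
      rw [← hai, hα]
      simp
    refine ⟨(q, c, i), ⟨hq1, hcop, hc1, hc2, ?_⟩, hai⟩
    rw [hfr]
    -- size of the triple
    have hqz : (0 : ℤ) < q := by exact_mod_cast (by omega : 0 < q)
    have hi_bound : (q : ℝ) * (|(i : ℝ)| - 1) ≤ 2 ^ ν := by
      have h1 : (q : ℝ) * i - 0 = X ^ (κ + 1) * (q * α - c) + (((X : ℤ) ^ (κ + 1) * c) % (q : ℤ) : ℤ) := by
        have h2 := Int.mul_ediv_add_emod ((X : ℤ) ^ (κ + 1) * c) (q : ℤ)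
        have h3 : ((q : ℤ) * i : ℤ) = q * a - X ^ (κ + 1) * c + ((X : ℤ) ^ (κ + 1) * c) % (q : ℤ) := by
          rw [hi]; linarith
        have h4 : ((q : ℝ) * i) = q * a - X ^ (κ + 1) * c + ((((X : ℤ) ^ (κ + 1) * c) % (q : ℤ) : ℤ) : ℝ) := by
          exact_mod_cast h3
        rw [sub_zero, h4, hα]
        field_simp
      have h5 : (0 : ℤ) ≤ ((X : ℤ) ^ (κ + 1) * c) % (q : ℤ) := Int.emod_nonneg _ hqz.ne'
      have h6 : ((X : ℤ) ^ (κ + 1) * c) % (q : ℤ) < q := Int.emod_lt_of_pos _ hqz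
      have h5' : (0 : ℝ) ≤ ((((X : ℤ) ^ (κ + 1) * c) % (q : ℤ) : ℤ) : ℝ) := by exact_mod_cast h5
      have h6' : ((((X : ℤ) ^ (κ + 1) * c) % (q : ℤ) : ℤ) : ℝ) ≤ q := by exact_mod_cast h6.le
      have h7 : |(q : ℝ) * i| ≤ 2 ^ ν + q := by
        have : (q : ℝ) * i = X ^ (κ + 1) * (q * α - c) + (((X : ℤ) ^ (κ + 1) * c) % (q : ℤ) : ℤ) := by
          linarith
        rw [this]
        refine (abs_add_le _ _).trans (add_le_add ?_ ?_)
        · rw [abs_mul, abs_of_pos hXk, mul_comm]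
          exact hq3
        · rw [abs_of_nonneg h5']
          exact h6'
      rw [abs_mul, abs_of_pos hqpos] at h7
      linarith
    have hwt : ((wt (q, c, i) : ℕ) : ℝ) ≤ 3 * 2 ^ ν := by
      unfold wt
      simp only
      push_cast
      have hiabs : ((i.natAbs : ℕ) : ℝ) = |(i : ℝ)| := by
        rw [Nat.cast_natAbs]; simp
      rw [hiabs]
      rcases le_or_gt (i.natAbs) 1 with h | h
      · have h1 : |(i : ℝ)| ≤ 1 := by rw [← hiabs]; exact_mod_cast h
        have h2 : (q : ℝ) * (1 + |(i : ℝ)|) ≤ q * 2 :=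
          mul_le_mul_of_nonneg_left (by linarith) hqpos.le
        linarith
      · have h1 : (2 : ℝ) ≤ |(i : ℝ)| := by rw [← hiabs]; exact_mod_cast h
        have h2 : (q : ℝ) * (1 + |(i : ℝ)|) ≤ q * (3 * (|(i : ℝ)| - 1)) :=
          mul_le_mul_of_nonneg_left (by linarith) hqpos.le
        linarith
    have hpos5 : (0 : ℝ) < ((2 : ℝ) ^ ν) ^ 5 := by positivity
    calc Dl (κ + 1) m X α ^ (2 * (κ + 1)) * ((wt (q, c, i) : ℕ) : ℝ) ^ 5
        ≤ (C1 / ((2 : ℝ) ^ ν) ^ 5) * (3 * 2 ^ ν) ^ 5 := by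
          refine mul_le_mul hDl5 ?_ (by positivity) (by positivity)
          exact pow_le_pow_left₀ (Nat.cast_nonneg _) hwt _
      _ = C1 * 243 := by
          rw [mul_pow]
          field_simp
          norm_num
  · left
    have h0 : 1 ≤ ν := by
      by_contra hcon
      have : ν = 0 := by omega
      rw [this, pow_zero, one_pow] at hcase
      have : (1 : ℝ) ≤ (X : ℝ) ^ 11 := one_le_pow₀ hXR
      linarith
    have hpow : (2 : ℝ) ^ ν = 2 ^ (ν - 1) * 2 := by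
      rw [← pow_succ]; congr 1; omega
    have h1 := hst.2 X α (2 ^ (ν - 1)) hX (one_le_pow₀ (by norm_num)) (by
      rw [hpow] at hcase
      calc (X : ℝ) ^ 11 ≤ ((2 : ℝ) ^ (ν - 1) * 2) ^ 10 := hcase.le
        _ = 1024 * ((2 : ℝ) ^ (ν - 1)) ^ 10 := by ring) (hminor h0)
    rw [le_div_iff₀ (by positivity)]
    linarith

end Pool.Agent.helper132_poly
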