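import Pool.Agent.helper132_poly.P13

/-! Triple proposition and main proposition, explicit version. -/

namespace Pool.Agent.helper132_poly

open Finset Pool.Agent.helper132_sph

lemma Hst.mono {k m : ℕ} {C C' : ℝ} (h : Hst k m C) (hC : C ≤ C') : Hst k m C' :=
  ⟨fun X α R h1 h2 h3 h4 => (h.1 X α R h1 h2 h3 h4).trans hC,
    fun X α R h1 h2 h3 h4 => (h.2 X α R h1 h2 h3 h4).trans hC⟩

theorem triple_prop' (κ m : ℕ) (hκ : 2 ≤ κ) (hm : 1 ≤ m) (C : ℝ) (hC : 1 ≤ C)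
    (hst : Hst (κ + 1) m C) (A : ℕ) (hA : 1 ≤ A) (CW : ℝ) (hCW : 1 ≤ CW) (hW0 : WH (κ + 1) A CW)
    (d : ℕ) (hd : 2 * (κ + 1) * m + 1 ≤ d) (hdA : 5 * A ≤ d) : ∃ K : ℝ, 1 ≤ K ∧ ∀ (τ : ℕ × ℤ × ℤ) (E F : Finset (Fin d → ℤ)) (ρ : ℝ)
      (_ : 0 ≤ ρ) (_ : Dens E F ρ) (J : (Fin d → ℤ) → ℕ)
      (_ : ∀ x ∈ F, GoodT (κ + 1) m C (2 ^ J x) τ),
      ∑ x ∈ F, ‖Ts (κ + 1) (2 ^ J x) (frq (κ + 1) (2 ^ J x) τ) E x‖ / (((2 ^ J x : ℕ) : ℝ)) ^ d ≤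
        K * ((wt τ : ℝ) ^ (-(9 / 4) : ℝ) *
          (√((F.card : ℝ) * E.card * ρ ^ (1 - ((2 * (κ + 1) : ℕ) : ℝ) / d)) + E.card)) := by
  classical
  obtain ⟨Kt, hKt, hth⟩ := theta_bound' κ m hκ C hC hst A hA CW hCW hW0
  have hkm : 2 * (κ + 1) ≤ 2 * (κ + 1) * m := Nat.le_mul_of_pos_right _ hm
  have hkd : 2 * (κ + 1) < d := by omega
  have hmd : m * (2 * (κ + 1)) ≤ d := by rw [mul_comm]; omega
  have hpi := Real.pi_pos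
  obtain ⟨C', hC'⟩ : ∃ C' : ℝ, C' = C + (33 * C + 4 ^ (κ + 1)) + (8 ^ d + 2 * 6 ^ d) * Kt := ⟨_, rfl⟩
  have h4p : (0 : ℝ) ≤ 4 ^ (κ + 1) := by positivity
  have h8p : (0 : ℝ) ≤ (8 ^ d + 2 * 6 ^ d) * Kt := by positivity
  have hCC' : C ≤ C' := by rw [hC']; linarith
  have hC'1 : 1 ≤ C' := hC.trans hCC'
  have hrat' : 33 * C + 4 ^ (κ + 1) ≤ C' := by rw [hC']; linarith
  have hth' : (8 ^ d + 2 * 6 ^ d) * Kt ≤ C' := by rw [hC']; linarith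
  refine ⟨6 * (8 * (2 ^ d * C) + 4 * (6 * 32 ^ d * C' ^ 2)) +
    d * 4 ^ (d - 1) * (2 * Real.pi * ((κ + 1 : ℕ) : ℝ) + 4) * 2, ?_, ?_⟩
  · have h1 : (1 : ℝ) ≤ 2 ^ d := one_le_pow₀ (by norm_num)
    have h2 : (1 : ℝ) * 1 ≤ 2 ^ d * C := mul_le_mul h1 hC zero_le_one (by positivity)
    have h3 : (0 : ℝ) ≤ 4 * (6 * 32 ^ d * C' ^ 2) := by positivity
    have h4 : (0 : ℝ) ≤ d * 4 ^ (d - 1) * (2 * Real.pi * ((κ + 1 : ℕ) : ℝ) + 4) * 2 := by positivity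
    linarith
  intro τ E F ρ hρ hD J hG
  rcases F.eq_empty_or_nonempty with h0 | hne
  · rw [h0]
    simp only [Finset.sum_empty, Finset.card_empty, Nat.cast_zero, zero_mul, Real.sqrt_zero, zero_add]
    positivity
  obtain ⟨x1, hx1⟩ := hne
  have hq := (hG x1 hx1).q_pos
  have hcop := (hG x1 hx1).cop
  have hW := wt_pos τ hq
  obtain ⟨W, hWe⟩ : ∃ W, W = wt τ := ⟨_, rfl⟩
  rw [← hWe] at hW ⊢
  have hwR : (1 : ℝ) ≤ (W : ℝ) := by exact_mod_cast hW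
  have hw0 : (0 : ℝ) < (W : ℝ) := by linarith
  obtain ⟨L, hL⟩ : ∃ L, L = Nat.log 2 W := ⟨_, rfl⟩
  obtain ⟨l, hl⟩ : ∃ l, l = 4 * (L + 1) := ⟨_, rfl⟩
  obtain ⟨j0, hj0⟩ : ∃ j0, j0 = Nat.log 2 τ.1 + 2 := ⟨_, rfl⟩
  obtain ⟨J1, hJ1⟩ : ∃ J1, J1 = l + j0 + 2 := ⟨_, rfl⟩
  have hqW : τ.1 ≤ W := by
    rw [hWe]; unfold wt
    exact Nat.le_mul_of_pos_right _ (by omega)
  have hiW : 1 + τ.2.2.natAbs ≤ W := by
    rw [hWe]; unfold wt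
    exact Nat.le_mul_of_pos_left _ hq
  have hlogq : Nat.log 2 τ.1 ≤ L := by rw [hL]; exact Nat.log_mono_right hqW
  have hJ1L : J1 ≤ 8 * (L + 1) := by omega
  have h2l : W ^ 4 ≤ 2 ^ l := by
    have h1 : W ≤ 2 ^ (L + 1) := by rw [hL]; exact (Nat.lt_pow_succ_log_self (by norm_num) _).le
    calc W ^ 4 ≤ (2 ^ (L + 1)) ^ 4 := Nat.pow_le_pow_left h1 4
      _ = 2 ^ l := by rw [← pow_mul, hl]; congr 1; ring
  have hscale : ∀ J', J1 ≤ J' → τ.1 * (1 + τ.2.2.natAbs) ^ 2 ≤ 2 ^ J' := by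
    intro J' hJ'
    calc τ.1 * (1 + τ.2.2.natAbs) ^ 2 ≤ W * W ^ 2 :=
          Nat.mul_le_mul hqW (Nat.pow_le_pow_left hiW 2)
      _ = W ^ 3 := by ring
      _ ≤ W ^ 4 := Nat.pow_le_pow_right hW (by norm_num)
      _ ≤ 2 ^ l := h2l
      _ ≤ 2 ^ J' := Nat.pow_le_pow_right (by norm_num) (by omega)
  have hscale2 : ∀ J', J1 ≤ J' → τ.1 ≤ 2 ^ J' := by
    intro J' hJ'
    refine le_trans ?_ (hscale J' hJ')
    exact Nat.le_mul_of_pos_right _ (by positivity)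
  -- split
  rw [← Finset.sum_filter_add_sum_filter_not F (fun x => J x < J1)]
  obtain ⟨Fs, hFs⟩ : ∃ Fs, Fs = F.filter (fun x => J x < J1) := ⟨_, rfl⟩
  obtain ⟨Fl, hFl⟩ : ∃ Fl, Fl = F.filter (fun x => ¬ J x < J1) := ⟨_, rfl⟩
  rw [← hFs, ← hFl]
  have hFsF : Fs ⊆ F := by rw [hFs]; exact Finset.filter_subset _ _
  have hFlF : Fl ⊆ F := by rw [hFl]; exact Finset.filter_subset _ _
  have hFsc : (Fs.card : ℝ) ≤ F.card := by exact_mod_cast Finset.card_le_card hFsF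
  have hFlc : (Fl.card : ℝ) ≤ F.card := by exact_mod_cast Finset.card_le_card hFlF
  have hR0 : 0 ≤ ρ ^ (1 - ((2 * (κ + 1) : ℕ) : ℝ) / d) := Real.rpow_nonneg hρ _
  obtain ⟨R, hR⟩ : ∃ R, R = ρ ^ (1 - ((2 * (κ + 1) : ℕ) : ℝ) / d) := ⟨_, rfl⟩
  have ps := small_scales (κ + 1) m C hC τ hq E Fs ρ hρ (hD.mono hFsF) J (fun x hx => hG x (hFsF hx))
    J1 (fun x hx => by rw [hFs] at hx; exact (Finset.mem_filter.1 hx).2) (by omega) hkd hmd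
  -- dual hypotheses
  obtain ⟨U, hU0, hU1, hU2, hU3⟩ := hth τ hq
  have hi0 : (0 : ℝ) < ((1 + τ.2.2.natAbs : ℕ) : ℝ) := by positivity
  have hFlJ : ∀ x ∈ Fl, J1 ≤ J x := by
    intro x hx
    rw [hFl] at hx
    have := (Finset.mem_filter.1 hx).2
    omega
  have H : DualHyp (κ + 1) m C' τ Fl J (8 ^ d * (Kt / ((1 + τ.2.2.natAbs : ℕ) : ℝ) ^ 5) + 2 * (6 * U) ^ d) := by
    refine ⟨hq, ?_, by positivity, ?_, ?_⟩
    · intro j hj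
      exact (Dl_rat' κ m hκ C hC hst τ.1 (sj τ.1 j) τ.2.1 hq hcop (sj_ge τ.1 j hq hj).2).trans hrat'
    · refine le_trans ?_ hth'
      have h1 := hU1 d hdA
      calc (8 ^ d * (Kt / ((1 + τ.2.2.natAbs : ℕ) : ℝ) ^ 5) + 2 * (6 * U) ^ d) *
            ((1 + τ.2.2.natAbs : ℕ) : ℝ) ^ 5
          = 8 ^ d * Kt + 2 * 6 ^ d * (U ^ d * ((1 + τ.2.2.natAbs : ℕ) : ℝ) ^ 5) := by
            rw [mul_pow]; field_simp
        _ ≤ 8 ^ d * Kt + 2 * 6 ^ d * Kt := by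
            have := mul_le_mul_of_nonneg_left h1 (show (0 : ℝ) ≤ 2 * 6 ^ d by positivity)
            linarith
        _ = (8 ^ d + 2 * 6 ^ d) * Kt := by ring
    · intro F' hF' B G
      refine lam_dual (κ + 1) m τ.1 hq hm (by omega) F' B J (fun x hx => hscale2 _ (hFlJ x (hF' hx)))
        (bet (κ + 1) τ) U _ hU0 ?_ ?_ G
      · intro x hx
        rw [le_div_iff₀ (by positivity)]
        exact hU2 (J x) (hscale _ (hFlJ x (hF' hx)))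
      · intro x hx x' hx' hne h
        exact hU3 (J x) (J x') (hscale _ (hFlJ x (hF' hx))) (hscale _ (hFlJ x' (hF' hx'))) hne h
  have pl := large_scales hC'1 H (fun x hx => (hG x (hFlF hx)).mono hCC') E ρ hρ (hD.mono hFlF) j0 l
    (by omega) (by omega) (fun x hx => by have := hFlJ x hx; omega) (by omega) hkd hmd
  rw [← hWe, ← hR] at ps pl
  rw [← hR]
  rw [← hR] at hR0
  obtain ⟨Z, hZ⟩ : ∃ Z, Z = √((F.card : ℝ) * E.card * (R / (W : ℝ) ^ 5)) := ⟨_, rfl⟩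
  have hZ0 : 0 ≤ Z := by rw [hZ]; exact Real.sqrt_nonneg _
  have hZs : √((Fs.card : ℝ) * E.card * (R / (W : ℝ) ^ 5)) ≤ Z := by
    rw [hZ]; refine Real.sqrt_le_sqrt ?_; gcongr
  have hZl : √((Fl.card : ℝ) * E.card * (R / (W : ℝ) ^ 5)) ≤ Z := by
    rw [hZ]; refine Real.sqrt_le_sqrt ?_; gcongr
  have hlog := log_le_rpow W hW
  rw [← hL] at hlog
  -- Z (L+1) bound
  obtain ⟨V, hV⟩ : ∃ V, V = √((F.card : ℝ) * E.card * R) := ⟨_, rfl⟩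
  have hV0 : 0 ≤ V := by rw [hV]; exact Real.sqrt_nonneg _
  have hZV : Z = V * (W : ℝ) ^ (-(5 / 2) : ℝ) := by
    rw [hZ, hV, ← mul_div_assoc, Real.sqrt_div (by positivity)]
    rw [div_eq_mul_inv]
    congr 1
    rw [Real.sqrt_eq_rpow, ← Real.rpow_natCast, ← Real.rpow_mul hw0.le, ← Real.rpow_neg hw0.le]
    congr 1
    norm_num
  have hLZ : ((L + 1 : ℕ) : ℝ) * Z ≤ 6 * ((W : ℝ) ^ (-(9 / 4) : ℝ) * V) := by
    rw [hZV]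
    have h1 : (W : ℝ) ^ ((1 : ℝ) / 4) * (W : ℝ) ^ (-(5 / 2) : ℝ) = (W : ℝ) ^ (-(9 / 4) : ℝ) := by
      rw [← Real.rpow_add hw0]; norm_num
    have h2 : 0 ≤ (W : ℝ) ^ (-(5 / 2) : ℝ) := Real.rpow_nonneg hw0.le _
    calc ((L + 1 : ℕ) : ℝ) * (V * (W : ℝ) ^ (-(5 / 2) : ℝ))
        ≤ (6 * (W : ℝ) ^ ((1 : ℝ) / 4)) * (V * (W : ℝ) ^ (-(5 / 2) : ℝ)) :=
          mul_le_mul_of_nonneg_right hlog (by positivity)
      _ = 6 * (((W : ℝ) ^ ((1 : ℝ) / 4) * (W : ℝ) ^ (-(5 / 2) : ℝ)) * V) := by ring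
      _ = _ := by rw [h1]
  obtain ⟨w', hw'⟩ : ∃ w' : ℝ, w' = (W : ℝ) ^ (-(9 / 4) : ℝ) := ⟨_, rfl⟩
  have hw'0 : 0 ≤ w' := by rw [hw']; exact Real.rpow_nonneg hw0.le _
  rw [← hV, ← hw']
  rw [← hw'] at hLZ
  -- error term
  have herr : (E.card : ℝ) * (d * 4 ^ (d - 1) * (2 * Real.pi * ((κ + 1 : ℕ) : ℝ) * (τ.2.2.natAbs + 1) + 4) *
      (2 / 2 ^ l)) ≤ (d * 4 ^ (d - 1) * (2 * Real.pi * ((κ + 1 : ℕ) : ℝ) + 4) * 2) * (w' * E.card) := by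
    have h1 : ((τ.2.2.natAbs : ℕ) : ℝ) + 1 ≤ W := by
      have : ((1 + τ.2.2.natAbs : ℕ) : ℝ) ≤ W := by exact_mod_cast hiW
      push_cast at this
      linarith
    have h2 : 2 * Real.pi * ((κ + 1 : ℕ) : ℝ) * ((τ.2.2.natAbs : ℕ) + 1) + 4 ≤
        (2 * Real.pi * ((κ + 1 : ℕ) : ℝ) + 4) * W := by
      have h3 : 2 * Real.pi * ((κ + 1 : ℕ) : ℝ) * (((τ.2.2.natAbs : ℕ) : ℝ) + 1) ≤
          2 * Real.pi * ((κ + 1 : ℕ) : ℝ) * W := mul_le_mul_of_nonneg_left h1 (by positivity)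
      linarith
    have h4 : (2 : ℝ) / 2 ^ l ≤ 2 / (W : ℝ) ^ 4 := by
      refine div_le_div_of_nonneg_left (by norm_num) (by positivity) ?_
      exact_mod_cast h2l
    have h5 : (W : ℝ) * (2 / (W : ℝ) ^ 4) ≤ 2 * w' := by
      have h6 : (W : ℝ) * (2 / (W : ℝ) ^ 4) = 2 * (W : ℝ) ^ (-3 : ℝ) := by
        rw [Real.rpow_neg hw0.le]
        have : (W : ℝ) ^ (3 : ℝ) = (W : ℝ) ^ 3 := by exact_mod_cast Real.rpow_natCast (W : ℝ) 3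
        rw [this]
        field_simp
      rw [h6]
      refine mul_le_mul_of_nonneg_left ?_ (by norm_num)
      rw [hw']
      exact Real.rpow_le_rpow_of_exponent_le hwR (by norm_num)
    calc (E.card : ℝ) * (d * 4 ^ (d - 1) * (2 * Real.pi * ((κ + 1 : ℕ) : ℝ) * (τ.2.2.natAbs + 1) + 4) *
          (2 / 2 ^ l))
        ≤ (E.card : ℝ) * (d * 4 ^ (d - 1) * ((2 * Real.pi * ((κ + 1 : ℕ) : ℝ) + 4) * W) *
          (2 / (W : ℝ) ^ 4)) := by gcongr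
      _ = (d * 4 ^ (d - 1) * (2 * Real.pi * ((κ + 1 : ℕ) : ℝ) + 4)) * ((W : ℝ) * (2 / (W : ℝ) ^ 4)) *
          E.card := by ring
      _ ≤ (d * 4 ^ (d - 1) * (2 * Real.pi * ((κ + 1 : ℕ) : ℝ) + 4)) * (2 * w') * E.card := by gcongr
      _ = _ := by ring
  have hs2 : (J1 : ℝ) * (2 ^ d * C) * √((Fs.card : ℝ) * E.card * (R / (W : ℝ) ^ 5)) ≤
      8 * (2 ^ d * C) * (6 * (w' * V)) := by
    have h1 : (J1 : ℝ) ≤ 8 * ((L + 1 : ℕ) : ℝ) := by exact_mod_cast hJ1L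
    calc (J1 : ℝ) * (2 ^ d * C) * √((Fs.card : ℝ) * E.card * (R / (W : ℝ) ^ 5))
        ≤ (8 * ((L + 1 : ℕ) : ℝ)) * (2 ^ d * C) * Z := by gcongr
      _ = 8 * (2 ^ d * C) * (((L + 1 : ℕ) : ℝ) * Z) := by ring
      _ ≤ _ := mul_le_mul_of_nonneg_left hLZ (by positivity)
  have hl2 : (l : ℝ) * (6 * 32 ^ d * C' ^ 2) * √((Fl.card : ℝ) * E.card * (R / (W : ℝ) ^ 5)) ≤
      4 * (6 * 32 ^ d * C' ^ 2) * (6 * (w' * V)) := by
    have h1 : (l : ℝ) = 4 * ((L + 1 : ℕ) : ℝ) := by exact_mod_cast hl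
    calc (l : ℝ) * (6 * 32 ^ d * C' ^ 2) * √((Fl.card : ℝ) * E.card * (R / (W : ℝ) ^ 5))
        ≤ (4 * ((L + 1 : ℕ) : ℝ)) * (6 * 32 ^ d * C' ^ 2) * Z := by rw [h1]; gcongr
      _ = 4 * (6 * 32 ^ d * C' ^ 2) * (((L + 1 : ℕ) : ℝ) * Z) := by ring
      _ ≤ _ := mul_le_mul_of_nonneg_left hLZ (by positivity)
  have hfin := add_le_add ps pl
  refine hfin.trans ?_
  have e1 : 0 ≤ (6 * (8 * (2 ^ d * C) + 4 * (6 * 32 ^ d * C' ^ 2))) * (w' * (E.card : ℝ)) := by positivity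
  have e2 : 0 ≤ (d * 4 ^ (d - 1) * (2 * Real.pi * ((κ + 1 : ℕ) : ℝ) + 4) * 2) * (w' * V) := by positivity
  have e3 : (6 * (8 * (2 ^ d * C) + 4 * (6 * 32 ^ d * C' ^ 2)) +
      d * 4 ^ (d - 1) * (2 * Real.pi * ((κ + 1 : ℕ) : ℝ) + 4) * 2) * (w' * (V + E.card)) =
      8 * (2 ^ d * C) * (6 * (w' * V)) + 4 * (6 * 32 ^ d * C' ^ 2) * (6 * (w' * V)) +
      (6 * (8 * (2 ^ d * C) + 4 * (6 * 32 ^ d * C' ^ 2))) * (w' * (E.card : ℝ)) +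
      (d * 4 ^ (d - 1) * (2 * Real.pi * ((κ + 1 : ℕ) : ℝ) + 4) * 2) * (w' * V) +
      (d * 4 ^ (d - 1) * (2 * Real.pi * ((κ + 1 : ℕ) : ℝ) + 4) * 2) * (w' * E.card) := by ring
  rw [e3]
  linarith

/-- The main proposition. -/
theorem main_prop' (κ m : ℕ) (hκ : 2 ≤ κ) (hm : 1 ≤ m) (C0 : ℝ) (hC0' : 1 ≤ C0)
    (hst0 : Hst (κ + 1) m C0) (A : ℕ) (hA : 1 ≤ A) (CW : ℝ) (hCW : 1 ≤ CW) (hW0 : WH (κ + 1) A CW)
    (d : ℕ) (hd2 : m * (2 * (κ + 1) + 2) + 1 ≤ d) (hdA : 5 * A ≤ d) : ∃ K : ℝ, 1 ≤ K ∧ ∀ (E F : Finset (Fin d → ℤ)) (ρ : ℝ)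
      (_ : 0 < ρ) (_ : Dens E F ρ) (J : (Fin d → ℤ) → ℕ) (n : (Fin d → ℤ) → ℤ),
      ∑ x ∈ F, ((((2 ^ J x) ^ (κ + 1) : ℕ) : ℝ) * cnt (κ + 1) (2 ^ J x) E x (n x)) /
        (((2 ^ J x : ℕ) : ℝ)) ^ d ≤
        K * (√((F.card : ℝ) * E.card * ρ ^ (1 - ((2 * (κ + 1) : ℕ) : ℝ) / d)) + E.card) := by
  classical
  obtain ⟨C, hCC0, hcl⟩ := classify' κ m hκ C0 hC0' hst0
  have hC : 1 ≤ C := hC0'.trans hCC0
  have hst : Hst (κ + 1) m C := hst0.mono hCC0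
  have hd1 : 2 * (κ + 1) * m + 1 ≤ d := by
    have : m * (2 * (κ + 1) + 2) = 2 * (κ + 1) * m + 2 * m := by ring
    omega
  obtain ⟨Ks, hKs1, hKs⟩ := sum_wt
  have hkd : 2 * (κ + 1) + 2 < d := by
    have : 2 * (κ + 1) + 2 ≤ m * (2 * (κ + 1) + 2) := Nat.le_mul_of_pos_left _ hm
    omega
  obtain ⟨K, hK1, hK⟩ := triple_prop' κ m hκ hm C hC hst A hA CW hCW hW0 d hd1 hdA
  have hK0 : 0 ≤ K := by linarith
  have hC0 : 0 ≤ C := by linarith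
  refine ⟨2 * (2 ^ d * C ^ (κ + 1 + 1)) + K * Ks, ?_, ?_⟩
  · have h1 : (0 : ℝ) ≤ 2 * (2 ^ d * C ^ (κ + 1 + 1)) := by positivity
    have h2 : (1 : ℝ) * 1 ≤ K * Ks := mul_le_mul hK1 hKs1 zero_le_one hK0
    linarith
  intro E F ρ hρ hD J n
  obtain ⟨M, hM⟩ : ∃ M : ℕ → Finset ℕ, M = fun n =>
    (range ((2 ^ n) ^ (κ + 1))).filter (fun a => Pool.Agent.helper132_sph.Minor (κ + 1) m C (2 ^ n) a) := ⟨_, rfl⟩
  obtain ⟨N, hN⟩ : ∃ N : ℕ → Finset ℕ, N = fun n =>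
    (range ((2 ^ n) ^ (κ + 1))).filter (fun a => ¬ Pool.Agent.helper132_sph.Minor (κ + 1) m C (2 ^ n) a) := ⟨_, rfl⟩
  have hch : ∀ n a, ∃ τ : ℕ × ℤ × ℤ, a ∈ N n → GoodT (κ + 1) m C (2 ^ n) τ ∧
      (a : ℤ) = τ.2.2 + (((2 ^ n : ℕ) : ℤ) ^ (κ + 1) * τ.2.1) / (τ.1 : ℤ) := by
    intro n a
    by_cases ha : a ∈ N n
    · rw [hN, Finset.mem_filter, Finset.mem_range] at ha
      rcases hcl (2 ^ n) Nat.one_le_two_pow a ha.1 with h | ⟨τ, h1, h2⟩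
      · exact absurd h ha.2
      · exact ⟨τ, fun _ => ⟨h1, h2⟩⟩
    · exact ⟨(0, 0, 0), fun h => absurd h ha⟩
  choose tau htau using hch
  obtain ⟨V, hV⟩ : ∃ V, V = √((F.card : ℝ) * E.card * ρ ^ (1 - ((2 * (κ + 1) : ℕ) : ℝ) / d)) := ⟨_, rfl⟩
  have hV0 : 0 ≤ V := by rw [hV]; exact Real.sqrt_nonneg _
  have hR0 : 0 ≤ ρ ^ (1 - ((2 * (κ + 1) : ℕ) : ℝ) / d) := Real.rpow_nonneg hρ.le _
  -- frequency at triples
  have hfr : ∀ n, ∀ a ∈ N n, frq (κ + 1) (2 ^ n) (tau n a) = (a : ℝ) / (((2 ^ n : ℕ) : ℝ)) ^ (κ + 1) := by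
    intro n a ha
    unfold frq
    rw [← (htau n a ha).2]
    simp
  have hinj : ∀ n, Set.InjOn (tau n) (N n : Set ℕ) := by
    intro n a ha b hb hab
    have h1 := (htau n a ha).2
    have h2 := (htau n b hb).2
    rw [hab] at h1
    have : (a : ℤ) = b := h1.trans h2.symm
    exact_mod_cast this
  -- pointwise bound
  have hpt : ∀ x ∈ F, ((((2 ^ J x) ^ (κ + 1) : ℕ) : ℝ) * cnt (κ + 1) (2 ^ J x) E x (n x)) /
        (((2 ^ J x : ℕ) : ℝ)) ^ d ≤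
      ∑ a ∈ M (J x), ‖Ts (κ + 1) (2 ^ J x) ((a : ℝ) / (((2 ^ J x : ℕ) : ℝ)) ^ (κ + 1)) E x‖ /
        (((2 ^ J x : ℕ) : ℝ)) ^ d +
      ∑ τ ∈ (N (J x)).image (tau (J x)),
        ‖Ts (κ + 1) (2 ^ J x) (frq (κ + 1) (2 ^ J x) τ) E x‖ / (((2 ^ J x : ℕ) : ℝ)) ^ d := by
    intro x _
    have h1 := cnt_le (κ + 1) (2 ^ J x) Nat.one_le_two_pow E x (n x)
    rw [Finset.sum_image (hinj (J x))]
    have h2 : ∑ a ∈ N (J x), ‖Ts (κ + 1) (2 ^ J x) (frq (κ + 1) (2 ^ J x) (tau (J x) a)) E x‖ /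
        (((2 ^ J x : ℕ) : ℝ)) ^ d =
        ∑ a ∈ N (J x), ‖Ts (κ + 1) (2 ^ J x) ((a : ℝ) / (((2 ^ J x : ℕ) : ℝ)) ^ (κ + 1)) E x‖ /
        (((2 ^ J x : ℕ) : ℝ)) ^ d := by
      refine Finset.sum_congr rfl fun a ha => ?_
      rw [hfr _ a ha]
    rw [h2, ← Finset.sum_div, ← Finset.sum_div, ← add_div]
    refine div_le_div_of_nonneg_right ?_ (by positivity)
    refine h1.trans (le_of_eq ?_)
    rw [hM, hN]
    simp only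
    rw [Finset.sum_filter_add_sum_filter_not]
  refine (Finset.sum_le_sum hpt).trans ?_
  rw [Finset.sum_add_distrib]
  have hminor := minor_part (κ + 1) m C hC (by omega) E F ρ hρ hD J M (by
    intro n a ha
    rw [hM, Finset.mem_filter, Finset.mem_range] at ha
    exact ha) hkd (by omega)
  rw [← hV] at hminor
  -- the triples
  obtain ⟨T, hT⟩ : ∃ T : Finset (ℕ × ℤ × ℤ), T = (F.image J).biUnion (fun n => (N n).image (tau n)) :=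
    ⟨_, rfl⟩
  have hTgood : ∀ n, ∀ τ ∈ (N n).image (tau n), GoodT (κ + 1) m C (2 ^ n) τ := by
    intro n τ hτ
    rw [Finset.mem_image] at hτ
    obtain ⟨a, ha, rfl⟩ := hτ
    exact (htau n a ha).1
  have hmajor : ∑ x ∈ F, ∑ τ ∈ (N (J x)).image (tau (J x)),
        ‖Ts (κ + 1) (2 ^ J x) (frq (κ + 1) (2 ^ J x) τ) E x‖ / (((2 ^ J x : ℕ) : ℝ)) ^ d ≤
      K * Ks * (V + E.card) := by
    have hsw : ∑ x ∈ F, ∑ τ ∈ (N (J x)).image (tau (J x)),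
        ‖Ts (κ + 1) (2 ^ J x) (frq (κ + 1) (2 ^ J x) τ) E x‖ / (((2 ^ J x : ℕ) : ℝ)) ^ d =
        ∑ τ ∈ T, ∑ x ∈ F.filter (fun x => τ ∈ (N (J x)).image (tau (J x))),
        ‖Ts (κ + 1) (2 ^ J x) (frq (κ + 1) (2 ^ J x) τ) E x‖ / (((2 ^ J x : ℕ) : ℝ)) ^ d := by
      refine Finset.sum_comm' ?_
      intro x τ
      rw [Finset.mem_filter, hT, Finset.mem_biUnion]
      constructor
      · rintro ⟨h1, h2⟩
        exact ⟨⟨h1, h2⟩, J x, Finset.mem_image_of_mem J h1, h2⟩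
      · rintro ⟨⟨h1, h2⟩, _⟩
        exact ⟨h1, h2⟩
    rw [hsw]
    have hone : ∀ τ ∈ T, ∑ x ∈ F.filter (fun x => τ ∈ (N (J x)).image (tau (J x))),
        ‖Ts (κ + 1) (2 ^ J x) (frq (κ + 1) (2 ^ J x) τ) E x‖ / (((2 ^ J x : ℕ) : ℝ)) ^ d ≤
        (wt τ : ℝ) ^ (-(9 / 4) : ℝ) * (K * (V + E.card)) := by
      intro τ _
      have h1 := hK τ E (F.filter (fun x => τ ∈ (N (J x)).image (tau (J x)))) ρ hρ.le
        (hD.mono (Finset.filter_subset _ _)) J (by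
          intro x hx
          exact hTgood _ _ (Finset.mem_filter.1 hx).2)
      refine h1.trans ?_
      have h2 : √(((F.filter (fun x => τ ∈ (N (J x)).image (tau (J x)))).card : ℝ) * E.card *
          ρ ^ (1 - ((2 * (κ + 1) : ℕ) : ℝ) / d)) ≤ V := by
        rw [hV]
        refine Real.sqrt_le_sqrt ?_
        have h3 : ((F.filter (fun x => τ ∈ (N (J x)).image (tau (J x)))).card : ℝ) ≤ F.card := by
          exact_mod_cast Finset.card_filter_le _ _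
        gcongr
      have h4 : 0 ≤ (wt τ : ℝ) ^ (-(9 / 4) : ℝ) := by positivity
      calc _ ≤ K * ((wt τ : ℝ) ^ (-(9 / 4) : ℝ) * (V + E.card)) := by gcongr
        _ = _ := by ring
    refine (Finset.sum_le_sum hone).trans ?_
    rw [← Finset.sum_mul]
    have h5 := hKs T (by
      intro τ hτ
      rw [hT, Finset.mem_biUnion] at hτ
      obtain ⟨n, _, hn⟩ := hτ
      have := hTgood n τ hn
      exact ⟨this.q_pos, this.c_ge, this.c_le⟩)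
    calc _ ≤ Ks * (K * (V + E.card)) := mul_le_mul_of_nonneg_right h5 (by positivity)
      _ = _ := by ring
  rw [← hV]
  have h6 : 2 * (2 ^ d * C ^ (κ + 1 + 1)) * V ≤ 2 * (2 ^ d * C ^ (κ + 1 + 1)) * (V + E.card) := by
    refine mul_le_mul_of_nonneg_left ?_ (by positivity)
    have : (0 : ℝ) ≤ E.card := Nat.cast_nonneg _
    linarith
  linarith

end Pool.Agent.helper132_poly
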