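import Pool.Agent.helper132_poly.P1

/-! The large sieve in the leading coefficient. -/

namespace Pool.Agent.helper132_poly

open Finset Pool.Agent.helper132_sph

/-- the Fejer type kernel. -/
noncomputable def KX (X : ℕ) (θ : ℝ) : ℝ := ‖∑ a ∈ range (2 * X), ec (a * θ)‖ ^ 2 / X

lemma KX_nonneg (X : ℕ) (θ : ℝ) : 0 ≤ KX X θ := by unfold KX; positivity

lemma fejer_le (X : ℕ) (G : ℤ → ℝ) (hG : ∀ h, 0 ≤ G h) :
    X * ∑ h ∈ Ioo (-(X : ℤ)) X, G h ≤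
      ∑ a ∈ range (2 * X), ∑ b ∈ range (2 * X), G ((a : ℤ) - b) := by
  classical
  have h1 : (X : ℝ) * ∑ h ∈ Ioo (-(X : ℤ)) X, G h =
      ∑ w ∈ Ioo (-(X : ℤ)) X ×ˢ range X, G w.1 := by
    rw [Finset.sum_product, Finset.mul_sum]
    refine Finset.sum_congr rfl fun h _ => ?_
    simp only [Finset.sum_const, Finset.card_range, nsmul_eq_mul]
  have h2 : ∑ a ∈ range (2 * X), ∑ b ∈ range (2 * X), G ((a : ℤ) - b) =
      ∑ w ∈ range (2 * X) ×ˢ range (2 * X), G ((w.1 : ℤ) - w.2) := by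
    rw [Finset.sum_product]
  rw [h1, h2]
  obtain ⟨f, hf⟩ : ∃ f : ℤ × ℕ → ℕ × ℕ, f = fun w => (w.2 + (max 0 w.1).toNat, w.2 + (max 0 (-w.1)).toNat) :=
    ⟨_, rfl⟩
  have hinj : Set.InjOn f ((Ioo (-(X : ℤ)) X ×ˢ range X : Finset (ℤ × ℕ)) : Set (ℤ × ℕ)) := by
    intro w _ w' _ h
    rw [hf] at h
    simp only [Prod.mk.injEq] at h
    refine Prod.ext ?_ ?_ <;> omega
  have hval : ∀ w ∈ (Ioo (-(X : ℤ)) X ×ˢ range X : Finset (ℤ × ℕ)),
      G w.1 = (fun v : ℕ × ℕ => G ((v.1 : ℤ) - v.2)) (f w) := by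
    intro w _
    rw [hf]
    simp only
    congr 1
    push_cast
    omega
  rw [Finset.sum_congr rfl hval, ← Finset.sum_image (f := fun v : ℕ × ℕ => G ((v.1 : ℤ) - v.2)) hinj]
  refine Finset.sum_le_sum_of_subset_of_nonneg ?_ (fun _ _ _ => hG _)
  intro v hv
  rw [Finset.mem_image] at hv
  obtain ⟨w, hw, rfl⟩ := hv
  rw [Finset.mem_product, Finset.mem_Ioo, Finset.mem_range] at hw
  rw [hf, Finset.mem_product, Finset.mem_range, Finset.mem_range]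
  simp only
  omega

/-- pairs expansion of the averaged square. -/
lemma pair_kernel {ι : Type} (X : ℕ) (hX : 1 ≤ X) (U : Finset ι) (p : ι → ℤ) (ω : ℝ) :
    (∑ a ∈ range (2 * X), ∑ b ∈ range (2 * X), ‖∑ u ∈ U, ec (ω * (((a : ℤ) - b : ℤ)) * (p u))‖ ^ 2) / X =
      ∑ u ∈ U, ∑ u' ∈ U, KX X (ω * ((p u - p u' : ℤ) : ℝ)) := by
  classical
  have hXR : (0 : ℝ) < X := by exact_mod_cast hX
  have h1 : ∀ a b : ℕ, ((‖∑ u ∈ U, ec (ω * (((a : ℤ) - b : ℤ)) * (p u))‖ ^ 2 : ℝ) : ℂ) =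
      ∑ u ∈ U, ∑ u' ∈ U, ec (a * (ω * ((p u - p u' : ℤ) : ℝ))) *
        (starRingEnd ℂ) (ec (b * (ω * ((p u - p u' : ℤ) : ℝ)))) := by
    intro a b
    push_cast
    rw [← Complex.mul_conj', map_sum, Finset.sum_mul_sum]
    refine Finset.sum_congr rfl fun u _ => Finset.sum_congr rfl fun u' _ => ?_
    rw [← ec_sub, ← ec_sub]
    congr 1
    push_cast
    ring
  have h2 : ((∑ a ∈ range (2 * X), ∑ b ∈ range (2 * X),
      ‖∑ u ∈ U, ec (ω * (((a : ℤ) - b : ℤ)) * (p u))‖ ^ 2 : ℝ) : ℂ) =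
      ((∑ u ∈ U, ∑ u' ∈ U, ‖∑ a ∈ range (2 * X), ec (a * (ω * ((p u - p u' : ℤ) : ℝ)))‖ ^ 2 : ℝ) : ℂ) := by
    rw [Complex.ofReal_sum]
    have e1 : ∀ a ∈ range (2 * X), ((∑ b ∈ range (2 * X),
        ‖∑ u ∈ U, ec (ω * (((a : ℤ) - b : ℤ)) * (p u))‖ ^ 2 : ℝ) : ℂ) =
        ∑ b ∈ range (2 * X), ∑ u ∈ U, ∑ u' ∈ U, ec (a * (ω * ((p u - p u' : ℤ) : ℝ))) *
        (starRingEnd ℂ) (ec (b * (ω * ((p u - p u' : ℤ) : ℝ)))) := by
      intro a _
      rw [Complex.ofReal_sum]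
      exact Finset.sum_congr rfl fun b _ => h1 a b
    rw [Finset.sum_congr rfl e1]
    have e2 : ((∑ u ∈ U, ∑ u' ∈ U, ‖∑ a ∈ range (2 * X), ec (a * (ω * ((p u - p u' : ℤ) : ℝ)))‖ ^ 2 : ℝ) : ℂ) =
        ∑ u ∈ U, ∑ u' ∈ U, ∑ a ∈ range (2 * X), ∑ b ∈ range (2 * X),
        ec (a * (ω * ((p u - p u' : ℤ) : ℝ))) *
        (starRingEnd ℂ) (ec (b * (ω * ((p u - p u' : ℤ) : ℝ)))) := by
      push_cast
      refine Finset.sum_congr rfl fun u _ => Finset.sum_congr rfl fun u' _ => ?_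
      rw [← Complex.mul_conj', map_sum, Finset.sum_mul_sum]
    rw [e2]
    have s1 : ∀ a ∈ range (2 * X), ∑ b ∈ range (2 * X), ∑ u ∈ U, ∑ u' ∈ U,
        ec (a * (ω * ((p u - p u' : ℤ) : ℝ))) * (starRingEnd ℂ) (ec (b * (ω * ((p u - p u' : ℤ) : ℝ)))) =
        ∑ u ∈ U, ∑ b ∈ range (2 * X), ∑ u' ∈ U,
        ec (a * (ω * ((p u - p u' : ℤ) : ℝ))) * (starRingEnd ℂ) (ec (b * (ω * ((p u - p u' : ℤ) : ℝ)))) :=
      fun a _ => Finset.sum_comm
    rw [Finset.sum_congr rfl s1, Finset.sum_comm]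
    refine Finset.sum_congr rfl fun u _ => ?_
    have s2 : ∀ a ∈ range (2 * X), ∑ b ∈ range (2 * X), ∑ u' ∈ U,
        ec (a * (ω * ((p u - p u' : ℤ) : ℝ))) * (starRingEnd ℂ) (ec (b * (ω * ((p u - p u' : ℤ) : ℝ)))) =
        ∑ u' ∈ U, ∑ b ∈ range (2 * X),
        ec (a * (ω * ((p u - p u' : ℤ) : ℝ))) * (starRingEnd ℂ) (ec (b * (ω * ((p u - p u' : ℤ) : ℝ)))) :=
      fun a _ => Finset.sum_comm
    rw [Finset.sum_congr rfl s2, Finset.sum_comm]
  have h3 := Complex.ofReal_injective h2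
  rw [h3, Finset.sum_div]
  refine Finset.sum_congr rfl fun u _ => ?_
  rw [Finset.sum_div]
  rfl

lemma card_psm_image (κ s H : ℕ) (hs : 1 ≤ s) (hH : 1 ≤ H) :
    (((bx s H).image (psm (κ - 1))).card : ℝ) ≤ (s : ℝ) ^ (κ - 1) * (H : ℝ) ^ (κ * (κ - 1) / 2) := by
  classical
  have h1 : (bx s H).image (psm (κ - 1)) ⊆
      Fintype.piFinset (fun j : Fin (κ - 1) => Ico (0 : ℤ) ((s * H ^ ((j : ℕ) + 1) : ℕ))) := by
    intro v hv
    rw [Finset.mem_image] at hv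
    obtain ⟨u, hu, rfl⟩ := hv
    rw [mem_bx] at hu
    rw [Fintype.mem_piFinset]
    intro j
    rw [psm_apply, Finset.mem_Ico]
    refine ⟨Finset.sum_nonneg fun i _ => pow_nonneg (hu i).1 _, ?_⟩
    push_cast
    calc ∑ i, (u i) ^ ((j : ℕ) + 1) < ∑ _i : Fin s, (H : ℤ) ^ ((j : ℕ) + 1) := by
          refine Finset.sum_lt_sum_of_nonempty ⟨⟨0, by omega⟩, Finset.mem_univ _⟩ fun i _ => ?_
          exact pow_lt_pow_left₀ (hu i).2 (hu i).1 (by omega)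
      _ = s * (H : ℤ) ^ ((j : ℕ) + 1) := by simp
  have h2 := Finset.card_le_card h1
  rw [Fintype.card_piFinset] at h2
  simp only [Int.card_Ico, sub_zero, Int.toNat_natCast] at h2
  have h3 : ∏ j : Fin (κ - 1), s * H ^ ((j : ℕ) + 1) = s ^ (κ - 1) * H ^ (κ * (κ - 1) / 2) := by
    rw [Finset.prod_mul_distrib, Finset.prod_const, Finset.card_univ, Fintype.card_fin,
      Finset.prod_pow_eq_pow_sum]
    congr 2
    rw [Fin.sum_univ_eq_sum_range (fun j => j + 1) (κ - 1)]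
    rcases Nat.eq_zero_or_pos κ with h0 | h0
    · subst h0; simp
    · obtain ⟨κ', rfl⟩ : ∃ κ', κ = κ' + 1 := ⟨κ - 1, by omega⟩
      have := Finset.sum_range_succ' (fun j => j) κ'
      rw [add_zero] at this
      rw [Nat.add_sub_cancel, ← this, Finset.sum_range_id, Nat.add_sub_cancel]
  rw [h3] at h2
  exact_mod_cast h2

/-- the large sieve inequality for the leading coefficient. -/
theorem large_sieve (κ s H X : ℕ) (hκ : 1 ≤ κ) (hs : 1 ≤ s) (hH : 1 ≤ H) (hX : 1 ≤ X) (ω : ℝ)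
    (φ : ℤ → ℤ → ℝ) (hφ : ∀ h : ℤ, PP κ (ω * h) (φ h)) :
    ∑ h ∈ Ioo (-(X : ℤ)) X, ‖∑ u ∈ Ico (0 : ℤ) H, ec (φ h u)‖ ^ (2 * s) ≤
      ((s : ℝ) ^ (κ - 1) * (H : ℝ) ^ (κ * (κ - 1) / 2)) * (Jm κ s H *
        ∑ y ∈ Icc (-((s * H ^ κ : ℕ) : ℤ)) ((s * H ^ κ : ℕ) : ℤ), KX X (ω * y)) := by
  classical
  have hXR : (0 : ℝ) < X := by exact_mod_cast hX
  choose c hc using hφ
  obtain ⟨W, hW⟩ : ∃ W, W = (bx s H).image (psm (κ - 1)) := ⟨_, rfl⟩
  obtain ⟨pk, hpk⟩ : ∃ pk : (Fin s → ℤ) → ℤ, pk = fun u => ∑ i, (u i) ^ κ := ⟨_, rfl⟩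
  obtain ⟨Iw, hIw⟩ : ∃ Iw : (Fin (κ - 1) → ℤ) → ℤ → ℂ, Iw = fun w (h : ℤ) =>
    ∑ u ∈ (bx s H).filter (fun u => psm (κ - 1) u = w), ec (ω * h * (pk u)) := ⟨_, rfl⟩
  have hcardW : (W.card : ℝ) ≤ (s : ℝ) ^ (κ - 1) * (H : ℝ) ^ (κ * (κ - 1) / 2) := by
    rw [hW]; exact card_psm_image κ s H hs hH
  -- pointwise bound
  have hpt : ∀ h : ℤ, ‖∑ u ∈ Ico (0 : ℤ) H, ec (φ h u)‖ ^ (2 * s) ≤ W.card * ∑ w ∈ W, ‖Iw w h‖ ^ 2 := by
    intro h
    have e1 : (∑ u ∈ Ico (0 : ℤ) H, ec (φ h u)) ^ s = ∑ u ∈ bx s H, ec (∑ i, φ h (u i)) := by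
      have h9 := Finset.prod_univ_sum (fun _ : Fin s => Ico (0 : ℤ) H) (fun _ (m : ℤ) => ec (φ h m))
      rw [Finset.prod_const, Finset.card_univ, Fintype.card_fin] at h9
      rw [h9]
      unfold bx
      refine Finset.sum_congr rfl fun u _ => ?_
      rw [sum_ec_prod]
    have e2 : ∑ u ∈ bx s H, ec (∑ i, φ h (u i)) =
        ∑ w ∈ W, ∑ u ∈ (bx s H).filter (fun u => psm (κ - 1) u = w), ec (∑ i, φ h (u i)) := by
      rw [hW, Finset.sum_fiberwise_of_maps_to]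
      intro u hu
      exact Finset.mem_image_of_mem _ hu
    have e3 : ‖(∑ u ∈ Ico (0 : ℤ) H, ec (φ h u)) ^ s‖ ≤ ∑ w ∈ W, ‖Iw w h‖ := by
      rw [e1, e2]
      refine (norm_sum_le _ _).trans (Finset.sum_le_sum fun w _ => ?_)
      obtain ⟨Aw, hAw⟩ : ∃ Aw : ℝ, Aw = ∑ j ∈ range κ, c h j *
        (if hj : 1 ≤ j ∧ j < κ then ((w ⟨j - 1, by omega⟩ : ℤ) : ℝ) else (s : ℝ)) := ⟨_, rfl⟩
      have e4 : ∑ u ∈ (bx s H).filter (fun u => psm (κ - 1) u = w), ec (∑ i, φ h (u i)) =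
          ec Aw * Iw w h := by
        rw [hIw]
        simp only
        rw [Finset.mul_sum]
        refine Finset.sum_congr rfl fun u hu => ?_
        rw [Finset.mem_filter] at hu
        rw [← ec_add]
        congr 1
        have e5 : ∀ i, φ h (u i) = ∑ j ∈ range κ, c h j * ((u i : ℤ) : ℝ) ^ j + ω * h * ((u i : ℤ) : ℝ) ^ κ := by
          intro i
          have := hc h (u i)
          linarith
        simp only [e5]
        rw [Finset.sum_add_distrib]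
        congr 1
        · rw [Finset.sum_comm, hAw]
          refine Finset.sum_congr rfl fun j hj => ?_
          rw [Finset.mem_range] at hj
          rw [← Finset.mul_sum]
          congr 1
          split_ifs with h6
          · have h7 := congrFun hu.2 ⟨j - 1, by omega⟩
            rw [psm_apply] at h7
            simp only [Nat.sub_add_cancel h6.1] at h7
            rw [← h7]
            push_cast
            rfl
          · have : j = 0 := by omega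
            subst this
            simp
        · rw [hpk]
          push_cast
          rw [Finset.mul_sum]
      rw [e4, norm_mul, norm_ec, one_mul]
    have e6 : ‖∑ u ∈ Ico (0 : ℤ) H, ec (φ h u)‖ ^ (2 * s) =
        ‖(∑ u ∈ Ico (0 : ℤ) H, ec (φ h u)) ^ s‖ ^ 2 := by
      rw [norm_pow, ← pow_mul, mul_comm]
    rw [e6]
    refine (pow_le_pow_left₀ (norm_nonneg _) e3 2).trans ?_
    exact sq_sum_le_card_mul_sum_sq
  -- averaging
  have hsum : ∑ w ∈ W, ∑ h ∈ Ioo (-(X : ℤ)) X, ‖Iw w h‖ ^ 2 ≤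
      Jm κ s H * ∑ y ∈ Icc (-((s * H ^ κ : ℕ) : ℤ)) ((s * H ^ κ : ℕ) : ℤ), KX X (ω * y) := by
    have e1 : ∀ w ∈ W, ∑ h ∈ Ioo (-(X : ℤ)) X, ‖Iw w h‖ ^ 2 ≤
        ∑ u ∈ (bx s H).filter (fun u => psm (κ - 1) u = w),
          ∑ u' ∈ (bx s H).filter (fun u' => psm (κ - 1) u' = psm (κ - 1) u),
            KX X (ω * ((pk u - pk u' : ℤ) : ℝ)) := by
      intro w _
      have h1 := fejer_le X (fun h => ‖Iw w h‖ ^ 2) (fun _ => by positivity)
      have h2 := pair_kernel X hX ((bx s H).filter (fun u => psm (κ - 1) u = w)) pk ω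
      have h3 : ∑ h ∈ Ioo (-(X : ℤ)) X, ‖Iw w h‖ ^ 2 ≤
          (∑ a ∈ range (2 * X), ∑ b ∈ range (2 * X), ‖Iw w ((a : ℤ) - b)‖ ^ 2) / X := by
        rw [le_div_iff₀ hXR, mul_comm]
        exact h1
      refine h3.trans ?_
      rw [hIw]
      simp only
      rw [h2]
      refine le_of_eq (Finset.sum_congr rfl fun u hu => ?_)
      rw [(Finset.mem_filter.1 hu).2]
    refine (Finset.sum_le_sum e1).trans ?_
    rw [hW, Finset.sum_fiberwise_of_maps_to (fun u hu => Finset.mem_image_of_mem _ hu)]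
    -- now a sum over pairs
    have e2 : ∑ u ∈ bx s H, ∑ u' ∈ (bx s H).filter (fun u' => psm (κ - 1) u' = psm (κ - 1) u),
            KX X (ω * ((pk u - pk u' : ℤ) : ℝ)) =
        ∑ v ∈ (bx s H ×ˢ bx s H).filter (fun v => psm (κ - 1) v.2 = psm (κ - 1) v.1),
          KX X (ω * ((pk v.1 - pk v.2 : ℤ) : ℝ)) := by
      rw [Finset.sum_filter, Finset.sum_product]
      refine Finset.sum_congr rfl fun u _ => ?_
      rw [Finset.sum_filter]
    rw [e2]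
    have hmaps : ∀ v ∈ (bx s H ×ˢ bx s H).filter (fun v => psm (κ - 1) v.2 = psm (κ - 1) v.1),
        pk v.1 - pk v.2 ∈ Icc (-((s * H ^ κ : ℕ) : ℤ)) ((s * H ^ κ : ℕ) : ℤ) := by
      intro v hv
      rw [Finset.mem_filter, Finset.mem_product] at hv
      have hb : ∀ u ∈ bx s H, 0 ≤ pk u ∧ pk u ≤ ((s * H ^ κ : ℕ) : ℤ) := by
        intro u hu
        rw [mem_bx] at hu
        rw [hpk]
        simp only
        refine ⟨Finset.sum_nonneg fun i _ => pow_nonneg (hu i).1 _, ?_⟩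
        push_cast
        calc ∑ i, (u i) ^ κ ≤ ∑ _i : Fin s, (H : ℤ) ^ κ :=
              Finset.sum_le_sum fun i _ => pow_le_pow_left₀ (hu i).1 (hu i).2.le _
          _ = s * (H : ℤ) ^ κ := by simp
      have h1 := hb _ hv.1.1
      have h2 := hb _ hv.1.2
      rw [Finset.mem_Icc]
      constructor <;> linarith [h1.1, h1.2, h2.1, h2.2]
    rw [← Finset.sum_fiberwise_of_maps_to hmaps, Finset.mul_sum]
    refine Finset.sum_le_sum fun y _ => ?_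
    have e3 : ∑ v ∈ ((bx s H ×ˢ bx s H).filter (fun v => psm (κ - 1) v.2 = psm (κ - 1) v.1)).filter
        (fun v => pk v.1 - pk v.2 = y), KX X (ω * ((pk v.1 - pk v.2 : ℤ) : ℝ)) =
        ((((bx s H ×ˢ bx s H).filter (fun v => psm (κ - 1) v.2 = psm (κ - 1) v.1)).filter
        (fun v => pk v.1 - pk v.2 = y)).card : ℝ) * KX X (ω * y) := by
      rw [← nsmul_eq_mul, ← Finset.sum_const]
      refine Finset.sum_congr rfl fun v hv => ?_
      rw [(Finset.mem_filter.1 hv).2]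
    rw [e3]
    refine mul_le_mul_of_nonneg_right ?_ (KX_nonneg _ _)
    have h4 := Jm_shift κ s H (fun j => if (j : ℕ) = κ - 1 then y else 0)
    refine le_trans ?_ (Nat.cast_le.2 h4)
    refine Nat.cast_le.2 (Finset.card_le_card ?_)
    intro v hv
    rw [Finset.mem_filter, Finset.mem_filter] at hv
    rw [Finset.mem_filter]
    refine ⟨hv.1.1, ?_⟩
    funext j
    rw [Pi.sub_apply, psm_apply, psm_apply]
    split_ifs with hj
    · have h5 := hv.2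
      rw [hpk] at h5
      simp only at h5
      rw [hj, Nat.sub_add_cancel hκ]
      exact h5
    · have h5 := congrFun hv.1.2 ⟨(j : ℕ), by omega⟩
      rw [psm_apply, psm_apply] at h5
      simp only at h5
      linarith
  calc ∑ h ∈ Ioo (-(X : ℤ)) X, ‖∑ u ∈ Ico (0 : ℤ) H, ec (φ h u)‖ ^ (2 * s)
      ≤ ∑ h ∈ Ioo (-(X : ℤ)) X, W.card * ∑ w ∈ W, ‖Iw w h‖ ^ 2 := Finset.sum_le_sum fun h _ => hpt h
    _ = W.card * ∑ w ∈ W, ∑ h ∈ Ioo (-(X : ℤ)) X, ‖Iw w h‖ ^ 2 := by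
        rw [← Finset.mul_sum, Finset.sum_comm]
    _ ≤ _ := by
        refine mul_le_mul hcardW hsum ?_ (by positivity)
        exact Finset.sum_nonneg fun w _ => Finset.sum_nonneg fun h _ => by positivity

end Pool.Agent.helper132_poly
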