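import Pool.Agent.helper132_poly.P2

/-! Sums of the kernel over an interval. -/

namespace Pool.Agent.helper132_poly

open Finset Pool.Agent.helper132_sph

lemma KX_le1 (X : ℕ) (hX : 1 ≤ X) (θ : ℝ) : KX X θ ≤ 4 * X := by
  have hXR : (0 : ℝ) < X := by exact_mod_cast hX
  unfold KX
  rw [div_le_iff₀ hXR]
  have h1 : ‖∑ a ∈ range (2 * X), ec (a * θ)‖ ≤ 2 * X := by
    refine (norm_sum_le _ _).trans ?_
    simp [norm_ec]
  calc ‖∑ a ∈ range (2 * X), ec (a * θ)‖ ^ 2 ≤ (2 * X) ^ 2 := pow_le_pow_left₀ (norm_nonneg _) h1 2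
    _ = 4 * X * X := by ring

lemma KX_le2 (X : ℕ) (hX : 1 ≤ X) (θ t : ℝ) (ht : 0 < t) (h : ∀ b : ℤ, t ≤ |θ - b|) :
    KX X θ ≤ 1 / (4 * X * t ^ 2) := by
  have hXR : (0 : ℝ) < X := by exact_mod_cast hX
  obtain ⟨b, _, hb⟩ := exists_int_abs_sub_le θ
  have h1 : 4 * t ≤ ‖ec θ - 1‖ := by linarith [h b]
  have h2 : ‖∑ a ∈ range (2 * X), ec (a * θ)‖ * ‖ec θ - 1‖ ≤ 2 := by
    rw [← norm_mul]
    have h3 : (∑ a ∈ range (2 * X), ec (a * θ)) * (ec θ - 1) = ec θ ^ (2 * X) - 1 := by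
      have h4 : ∀ a ∈ range (2 * X), ec (a * θ) = ec θ ^ a := fun a _ => ec_nat_mul a θ
      rw [Finset.sum_congr rfl h4, geom_sum_mul]
    rw [h3]
    refine (norm_sub_le _ _).trans ?_
    rw [norm_pow, norm_ec, one_pow, norm_one]
    norm_num
  have h5 : ‖∑ a ∈ range (2 * X), ec (a * θ)‖ ≤ 1 / (2 * t) := by
    rw [le_div_iff₀ (by positivity)]
    have h6 := mul_le_mul_of_nonneg_left h1 (norm_nonneg (∑ a ∈ range (2 * X), ec (a * θ)))
    linarith
  unfold KX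
  rw [div_le_iff₀ hXR]
  calc ‖∑ a ∈ range (2 * X), ec (a * θ)‖ ^ 2 ≤ (1 / (2 * t)) ^ 2 :=
        pow_le_pow_left₀ (norm_nonneg _) h5 2
    _ = 1 / (4 * X * t ^ 2) * X := by field_simp; norm_num

lemma KX_add_int (X : ℕ) (θ : ℝ) (z : ℤ) : KX X (θ + z) = KX X θ := by
  unfold KX
  congr 3
  refine Finset.sum_congr rfl fun a _ => ?_
  have : (a : ℝ) * (θ + z) = a * θ + (((a : ℤ) * z : ℤ) : ℝ) := by push_cast; ring
  rw [this, ec_add_int]

lemma sum_inv_sq_le (n : ℕ) : ∑ t ∈ Ico 1 n, 1 / ((t : ℕ) : ℝ) ^ 2 ≤ 2 := by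
  have h : ∀ n : ℕ, 1 ≤ n → ∑ t ∈ Ico 1 (n + 1), 1 / ((t : ℕ) : ℝ) ^ 2 ≤ 2 - 1 / (n : ℝ) := by
    intro n hn
    induction n, hn using Nat.le_induction with
    | base => simp; norm_num
    | succ n hn ih =>
      rw [Finset.sum_Ico_succ_top (by omega)]
      have hnR : (0 : ℝ) < n := by exact_mod_cast (by omega : 0 < n)
      have h1 : 1 / (((n + 1 : ℕ)) : ℝ) ^ 2 ≤ 1 / n - 1 / ((n + 1 : ℕ) : ℝ) := by
        push_cast
        have e : 1 / (n : ℝ) - 1 / (n + 1) = 1 / (n * (n + 1)) := by field_simp; ring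
        rw [e]
        refine one_div_le_one_div_of_le (by positivity) ?_
        nlinarith
      linarith
  rcases lt_or_ge n 2 with h2 | h2
  · have : Ico 1 n = ∅ := by rw [Finset.Ico_eq_empty_iff]; omega
    rw [this]; simp
  · obtain ⟨m, rfl⟩ : ∃ m, n = m + 1 := ⟨n - 1, by omega⟩
    have h3 := h m (by omega)
    have hmR : (0 : ℝ) < m := by exact_mod_cast (by omega : 0 < m)
    have : (0 : ℝ) < 1 / m := by positivity
    linarith

/-- distance weight to the multiples. -/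
noncomputable def gw (q : ℕ) (t : ℕ) : ℝ := 1 / (t : ℝ) ^ 2 + 1 / (((q - t : ℕ)) : ℝ) ^ 2

lemma sum_gw (q : ℕ) : ∑ t ∈ Ico 1 q, gw q t ≤ 4 := by
  unfold gw
  rw [Finset.sum_add_distrib]
  have h1 := sum_inv_sq_le q
  have h2 : ∑ t ∈ Ico 1 q, 1 / (((q - t : ℕ)) : ℝ) ^ 2 = ∑ t ∈ Ico 1 q, 1 / ((t : ℕ) : ℝ) ^ 2 := by
    refine Finset.sum_bij' (fun t _ => q - t) (fun t _ => q - t) ?_ ?_ ?_ ?_ ?_
    · intro t ht; rw [Finset.mem_Ico] at ht ⊢; omega
    · intro t ht; rw [Finset.mem_Ico] at ht ⊢; omega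
    · intro t ht; rw [Finset.mem_Ico] at ht; omega
    · intro t ht; rw [Finset.mem_Ico] at ht; omega
    · intro t _; rfl
  rw [h2]
  linarith

/-- the contribution of the non-multiples. -/
lemma K_nonmult (X M q : ℕ) (hX : 1 ≤ X) (hq : 1 ≤ q) (a : ℤ) (hcop : IsCoprime a (q : ℤ))
    (θ ω : ℝ) (z : ℤ) (hω : ω = (a : ℝ) / q + θ + z) (hθ : |θ| * M ≤ 1 / (2 * q)) :
    ∑ y ∈ (Icc (-(M : ℤ)) M).filter (fun y => ¬ (q : ℤ) ∣ y), KX X (ω * y) ≤
      (2 * ((M : ℝ) / q) + 2) * (4 * (q : ℝ) ^ 2 / X) := by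
  classical
  have hXR : (0 : ℝ) < X := by exact_mod_cast hX
  have hqR : (0 : ℝ) < q := by exact_mod_cast hq
  have hqz : (0 : ℤ) < q := by exact_mod_cast hq
  obtain ⟨T, hT⟩ : ∃ T : ℤ → ℕ, T = fun y => ((a * y) % (q : ℤ)).toNat := ⟨_, rfl⟩
  have hTz : ∀ y, ((T y : ℕ) : ℤ) = (a * y) % (q : ℤ) := by
    intro y
    rw [hT]
    exact Int.toNat_of_nonneg (Int.emod_nonneg _ hqz.ne')
  have hTlt : ∀ y, T y < q := by
    intro y
    have h1 := Int.emod_lt_of_pos (a * y) hqz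
    rw [← hTz] at h1
    exact_mod_cast h1
  have hTpos : ∀ y, ¬ (q : ℤ) ∣ y → 1 ≤ T y := by
    intro y hy
    by_contra hlt
    have h0 : T y = 0 := by omega
    have h1 := hTz y
    rw [h0, Nat.cast_zero] at h1
    have h2 : (q : ℤ) ∣ a * y := Int.dvd_of_emod_eq_zero h1.symm
    exact hy (hcop.symm.dvd_of_dvd_mul_left h2)
  have hpt : ∀ y ∈ (Icc (-(M : ℤ)) M).filter (fun y => ¬ (q : ℤ) ∣ y),
      KX X (ω * y) ≤ ((q : ℝ) ^ 2 / X) * gw q (T y) := by
    intro y hy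
    rw [Finset.mem_filter, Finset.mem_Icc] at hy
    obtain ⟨⟨hy1, hy2⟩, hy3⟩ := hy
    have ht1 := hTpos y hy3
    have ht2 := hTlt y
    obtain ⟨mn, hmn⟩ : ∃ mn : ℕ, mn = min (T y) (q - T y) := ⟨_, rfl⟩
    have hmn1 : 1 ≤ mn := by rw [hmn]; exact le_min ht1 (by omega)
    have hmnR : (1 : ℝ) ≤ mn := by exact_mod_cast hmn1
    have hyabs : |(y : ℝ)| ≤ M := by
      rw [abs_le]
      constructor
      · have : ((-(M : ℤ) : ℤ) : ℝ) ≤ y := by exact_mod_cast hy1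
        push_cast at this; exact this
      · exact_mod_cast hy2
    have h1 : ∀ b : ℤ, (mn : ℝ) / (2 * q) ≤ |ω * y - b| := by
      intro b
      obtain ⟨e, he⟩ : ∃ e : ℤ, e = (a * y) / (q : ℤ) := ⟨_, rfl⟩
      have h2 : a * y = q * e + T y := by
        have := Int.mul_ediv_add_emod (a * y) (q : ℤ)
        rw [← he, ← hTz] at this
        linarith
      have h2R : (a : ℝ) * y = q * e + T y := by exact_mod_cast h2
      have h3 : ω * y - b = ((T y : ℝ) - q * ((b - e - z * y : ℤ) : ℝ)) / q + θ * y := by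
        rw [hω]
        push_cast
        field_simp
        linarith
      have h4 : (mn : ℝ) ≤ |(T y : ℝ) - q * ((b - e - z * y : ℤ) : ℝ)| := by
        obtain ⟨w, hw⟩ : ∃ w : ℤ, w = b - e - z * y := ⟨_, rfl⟩
        rw [← hw]
        have h5 : (mn : ℤ) ≤ |(T y : ℤ) - q * w| := by
          have hm1 : (mn : ℤ) ≤ T y := by
            have : mn ≤ T y := by rw [hmn]; exact min_le_left _ _
            exact_mod_cast this
          have hm2 : (mn : ℤ) ≤ q - T y := by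
            have : mn ≤ q - T y := by rw [hmn]; exact min_le_right _ _
            omega
          rcases le_or_gt w 0 with h | h
          · have : (q : ℤ) * w ≤ 0 := mul_nonpos_of_nonneg_of_nonpos hqz.le h
            refine le_trans ?_ (le_abs_self _)
            linarith
          · have h6 : (q : ℤ) * 1 ≤ q * w := mul_le_mul_of_nonneg_left (by omega) hqz.le
            refine le_trans ?_ (neg_le_abs _)
            linarith
        exact_mod_cast h5
      have h5 : |θ * y| ≤ 1 / (2 * q) := by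
        rw [abs_mul]
        exact (mul_le_mul_of_nonneg_left hyabs (abs_nonneg _)).trans hθ
      rw [h3]
      have h6 : |((T y : ℝ) - q * ((b - e - z * y : ℤ) : ℝ)) / q| - |θ * y| ≤
          |((T y : ℝ) - q * ((b - e - z * y : ℤ) : ℝ)) / q + θ * y| := by
        have := abs_sub_abs_le_abs_sub (((T y : ℝ) - q * ((b - e - z * y : ℤ) : ℝ)) / q) (-(θ * y))
        rwa [abs_neg, sub_neg_eq_add] at this
      refine le_trans ?_ h6
      rw [abs_div, abs_of_pos hqR]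
      have h7 : (mn : ℝ) / q ≤ |(T y : ℝ) - q * ((b - e - z * y : ℤ) : ℝ)| / q :=
        div_le_div_of_nonneg_right h4 hqR.le
      have h8 : (mn : ℝ) / (2 * q) = mn / q - mn / (2 * q) := by field_simp; ring
      have h9 : 1 / (2 * (q : ℝ)) ≤ mn / (2 * q) := div_le_div_of_nonneg_right hmnR (by positivity)
      linarith
    refine (KX_le2 X hX (ω * y) ((mn : ℝ) / (2 * q)) (by positivity) h1).trans ?_
    have h2 : 1 / (4 * (X : ℝ) * ((mn : ℝ) / (2 * q)) ^ 2) = ((q : ℝ) ^ 2 / X) * (1 / (mn : ℝ) ^ 2) := by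
      have : (mn : ℝ) ≠ 0 := by positivity
      field_simp
      norm_num
    rw [h2]
    refine mul_le_mul_of_nonneg_left ?_ (by positivity)
    unfold gw
    rcases min_choice (T y) (q - T y) with h | h
    · rw [hmn, h]
      have : 0 ≤ 1 / (((q - T y : ℕ)) : ℝ) ^ 2 := by positivity
      linarith
    · rw [hmn, h]
      have : 0 ≤ 1 / ((T y : ℕ) : ℝ) ^ 2 := by positivity
      linarith
  refine (Finset.sum_le_sum hpt).trans ?_
  rw [← Finset.mul_sum]
  have hmaps : ∀ y ∈ (Icc (-(M : ℤ)) M).filter (fun y => ¬ (q : ℤ) ∣ y), T y ∈ Ico 1 q := by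
    intro y hy
    rw [Finset.mem_Ico]
    exact ⟨hTpos y (Finset.mem_filter.1 hy).2, hTlt y⟩
  rw [← Finset.sum_fiberwise_of_maps_to hmaps]
  have hfib : ∀ t ∈ Ico 1 q, ∑ y ∈ ((Icc (-(M : ℤ)) M).filter (fun y => ¬ (q : ℤ) ∣ y)).filter (fun y => T y = t),
      gw q (T y) ≤ (2 * ((M : ℝ) / q) + 2) * gw q t := by
    intro t _
    have e1 : ∑ y ∈ ((Icc (-(M : ℤ)) M).filter (fun y => ¬ (q : ℤ) ∣ y)).filter (fun y => T y = t),
        gw q (T y) = ((((Icc (-(M : ℤ)) M).filter (fun y => ¬ (q : ℤ) ∣ y)).filter (fun y => T y = t)).card : ℝ) * gw q t := by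
      rw [← nsmul_eq_mul, ← Finset.sum_const]
      refine Finset.sum_congr rfl fun y hy => ?_
      rw [(Finset.mem_filter.1 hy).2]
    rw [e1]
    have hg0 : 0 ≤ gw q t := by unfold gw; positivity
    refine mul_le_mul_of_nonneg_right ?_ hg0
    have h1 : (((Icc (-(M : ℤ)) M).filter (fun y => ¬ (q : ℤ) ∣ y)).filter (fun y => T y = t)).card ≤
        (Icc (-(((M / q : ℕ)) : ℤ) - 1) (((M / q : ℕ)) : ℤ)).card := by
      refine Finset.card_le_card_of_injOn (fun y => y / (q : ℤ)) ?_ ?_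
      · intro y hy
        rw [Finset.mem_coe, Finset.mem_filter, Finset.mem_filter, Finset.mem_Icc] at hy
        obtain ⟨⟨⟨hy1, hy2⟩, _⟩, _⟩ := hy
        rw [Finset.mem_coe, Finset.mem_Icc]
        push_cast
        constructor
        · have h2 : -((M : ℤ) / q) - 1 = -((M : ℤ) / q + 1) := by ring
          rw [h2]
          rw [Int.le_ediv_iff_mul_le hqz]
          have h3 := Int.lt_mul_ediv_self_add (x := (M : ℤ)) hqz
          nlinarith
        · exact Int.ediv_le_ediv hqz hy2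
      · intro y hy y' hy' h
        rw [Finset.mem_coe, Finset.mem_filter] at hy hy'
        have h2 : y / (q : ℤ) = y' / q := h
        have h3 : (a * y) % (q : ℤ) = (a * y') % (q : ℤ) := by
          rw [← hTz, ← hTz, hy.2, hy'.2]
        have h4 : (q : ℤ) ∣ a * y - a * y' := by
          have := Int.ModEq.dvd (show a * y' ≡ a * y [ZMOD (q : ℤ)] from h3.symm)
          exact this
        rw [← mul_sub] at h4
        have h5 := hcop.symm.dvd_of_dvd_mul_left h4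
        have h6 := Int.mul_ediv_add_emod y (q : ℤ)
        have h7 := Int.mul_ediv_add_emod y' (q : ℤ)
        have h8 : y % (q : ℤ) = y' % (q : ℤ) := Int.ModEq.symm ((Int.modEq_iff_dvd).2 h5)
        rw [h2, h8] at h6
        linarith
    rw [Int.card_Icc] at h1
    have h2 : ((((M / q : ℕ)) : ℤ) + 1 - (-(((M / q : ℕ)) : ℤ) - 1)).toNat = 2 * (M / q) + 2 := by omega
    rw [h2] at h1
    have h3 : ((M / q : ℕ) : ℝ) ≤ (M : ℝ) / q := Nat.cast_div_le
    have h4 : ((((Icc (-(M : ℤ)) M).filter (fun y => ¬ (q : ℤ) ∣ y)).filter (fun y => T y = t)).card : ℝ) ≤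
        ((2 * (M / q) + 2 : ℕ) : ℝ) := by exact_mod_cast h1
    push_cast at h4
    linarith
  have h5 := Finset.sum_le_sum hfib
  rw [← Finset.mul_sum] at h5
  have h6 := sum_gw q
  have hpos : 0 ≤ 2 * ((M : ℝ) / q) + 2 := by positivity
  calc ((q : ℝ) ^ 2 / X) * ∑ t ∈ Ico 1 q, ∑ y ∈ ((Icc (-(M : ℤ)) M).filter
        (fun y => ¬ (q : ℤ) ∣ y)).filter (fun y => T y = t), gw q (T y)
      ≤ ((q : ℝ) ^ 2 / X) * ((2 * ((M : ℝ) / q) + 2) * ∑ t ∈ Ico 1 q, gw q t) :=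
        mul_le_mul_of_nonneg_left h5 (by positivity)
    _ ≤ ((q : ℝ) ^ 2 / X) * ((2 * ((M : ℝ) / q) + 2) * 4) := by gcongr
    _ = _ := by ring

end Pool.Agent.helper132_poly
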