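import Pool.Agent.helper132_poly.P5

/-! The bound for `Vm` on the minor arcs. -/

namespace Pool.Agent.helper132_poly

open Finset Pool.Agent.helper132_sph

lemma Vm_mvt (κ l : ℕ) (hκ : 1 ≤ κ) (hl : 1 ≤ l) : ∃ C : ℝ, 1 ≤ C ∧ ∀ (X g H : ℕ) (α : ℝ) (φ : ℤ → ℝ),
    1 ≤ X → 1 ≤ H → PP (κ + 1) α φ →
    Vm φ X (2 * (κ * l)) ≤ C * ((H : ℝ) ^ eta κ l *
      ((∑ y ∈ Icc (-(((κ * l) * H ^ κ : ℕ) : ℤ)) (((κ * l) * H ^ κ : ℕ) : ℤ),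
        KX X ((((κ : ℝ) + 1) * α * (g : ℝ) ^ κ) * y)) / ((H : ℝ) ^ κ * X)) +
        ((g : ℝ) * H / X) ^ (2 * (κ * l))) := by
  obtain ⟨C, hC1, hC⟩ := vmvt κ hκ l
  have hs : 1 ≤ κ * l := Nat.one_le_iff_ne_zero.2 (Nat.mul_ne_zero (by omega) (by omega))
  have hs1 : (1 : ℝ) ≤ ((κ * l : ℕ) : ℝ) ^ (κ - 1) := one_le_pow₀ (by exact_mod_cast hs)
  refine ⟨2 ^ (2 * (κ * l)) * (((κ * l : ℕ) : ℝ) ^ (κ - 1) * C + 2), ?_, ?_⟩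
  · have h1 : (1 : ℝ) ≤ 2 ^ (2 * (κ * l)) := one_le_pow₀ (by norm_num)
    have h2 : (1 : ℝ) ≤ ((κ * l : ℕ) : ℝ) ^ (κ - 1) * C + 2 := by nlinarith
    nlinarith
  intro X g H α φ hX hH hφ
  have hXR : (0 : ℝ) < X := by exact_mod_cast hX
  have hHR : (0 : ℝ) < H := by exact_mod_cast hH
  have h := Vm_basic κ (κ * l) X g H hκ hs hX hH α φ hφ
  obtain ⟨K, hK⟩ : ∃ K : ℝ, K = ∑ y ∈ Icc (-(((κ * l) * H ^ κ : ℕ) : ℤ)) (((κ * l) * H ^ κ : ℕ) : ℤ),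
        KX X ((((κ : ℝ) + 1) * α * (g : ℝ) ^ κ) * y) := ⟨_, rfl⟩
  rw [← hK] at h ⊢
  have hK0 : 0 ≤ K := by rw [hK]; exact Finset.sum_nonneg (fun y _ => KX_nonneg X _)
  refine h.trans ?_
  rw [mul_assoc (2 ^ (2 * (κ * l)) : ℝ)]
  refine mul_le_mul_of_nonneg_left ?_ (by positivity)
  have hJ := hC H hH
  have hhalf : (((κ * (κ - 1) / 2 : ℕ)) : ℝ) = (κ : ℝ) * (κ - 1) / 2 := by
    have h1 : 2 ∣ κ * (κ - 1) := (Nat.even_mul_pred_self κ).two_dvd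
    rw [Nat.cast_div h1 (by norm_num)]
    push_cast [Nat.cast_sub hκ]
    ring
  have hexp : (H : ℝ) ^ (κ * (κ - 1) / 2) * (H : ℝ) ^ ee κ l / (H : ℝ) ^ (2 * (κ * l)) =
      (H : ℝ) ^ eta κ l / (H : ℝ) ^ κ := by
    rw [div_eq_div_iff (by positivity) (by positivity)]
    rw [← Real.rpow_natCast (H : ℝ) (κ * (κ - 1) / 2), ← Real.rpow_natCast (H : ℝ) κ,
      ← Real.rpow_natCast (H : ℝ) (2 * (κ * l)), ← Real.rpow_add hHR, ← Real.rpow_add hHR,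
      ← Real.rpow_add hHR]
    congr 1
    rw [hhalf]
    unfold ee
    push_cast
    ring
  have hA0 : 0 ≤ (H : ℝ) ^ eta κ l * (K / ((H : ℝ) ^ κ * X)) := by positivity
  have hB0 : 0 ≤ ((g : ℝ) * H / X) ^ (2 * (κ * l)) := by positivity
  have h1 : (((κ * l : ℕ) : ℝ) ^ (κ - 1) * (H : ℝ) ^ (κ * (κ - 1) / 2)) * (Jm κ (κ * l) H * K) /
      ((H : ℝ) ^ (2 * (κ * l)) * X) ≤
      (((κ * l : ℕ) : ℝ) ^ (κ - 1) * C) * ((H : ℝ) ^ eta κ l * (K / ((H : ℝ) ^ κ * X))) := by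
    calc (((κ * l : ℕ) : ℝ) ^ (κ - 1) * (H : ℝ) ^ (κ * (κ - 1) / 2)) * (Jm κ (κ * l) H * K) /
          ((H : ℝ) ^ (2 * (κ * l)) * X)
        ≤ (((κ * l : ℕ) : ℝ) ^ (κ - 1) * (H : ℝ) ^ (κ * (κ - 1) / 2)) *
            ((C * (H : ℝ) ^ ee κ l) * K) / ((H : ℝ) ^ (2 * (κ * l)) * X) := by gcongr
      _ = (((κ * l : ℕ) : ℝ) ^ (κ - 1) * C) *
          ((H : ℝ) ^ (κ * (κ - 1) / 2) * (H : ℝ) ^ ee κ l / (H : ℝ) ^ (2 * (κ * l))) * (K / X) := by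
          field_simp
      _ = _ := by
          rw [hexp]
          field_simp
  refine (add_le_add h1 le_rfl).trans ?_
  have hsC : 0 ≤ ((κ * l : ℕ) : ℝ) ^ (κ - 1) * C := by positivity
  nlinarith [mul_nonneg hsC hB0]

lemma red (k q : ℕ) (hk : 1 ≤ k) (hq : 1 ≤ q) (a : ℤ) (h : IsCoprime a (q : ℤ)) :
    ∃ (q' : ℕ) (a' : ℤ), 1 ≤ q' ∧ q' ≤ q ∧ q ≤ k * q' ∧ IsCoprime a' (q' : ℤ) ∧
      (k : ℝ) * ((a : ℝ) / q) = (a' : ℝ) / q' := by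
  have hd : 0 < Nat.gcd k q := Nat.gcd_pos_of_pos_left _ (by omega)
  obtain ⟨k1, q1, hcop, hk1, hq1⟩ : ∃ k1 q1 : ℕ, Nat.Coprime k1 q1 ∧ k = k1 * Nat.gcd k q ∧
      q = q1 * Nat.gcd k q := by
    refine ⟨k / Nat.gcd k q, q / Nat.gcd k q, Nat.coprime_div_gcd_div_gcd hd, ?_, ?_⟩
    · exact (Nat.div_mul_cancel (Nat.gcd_dvd_left _ _)).symm
    · exact (Nat.div_mul_cancel (Nat.gcd_dvd_right _ _)).symm
  obtain ⟨d, hdd⟩ : ∃ d, d = Nat.gcd k q := ⟨_, rfl⟩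
  rw [← hdd] at hd hk1 hq1
  have hq1' : 1 ≤ q1 := by
    rcases Nat.eq_zero_or_pos q1 with h0 | h0
    · rw [h0, zero_mul] at hq1; omega
    · exact h0
  have hk1' : 1 ≤ k1 := by
    rcases Nat.eq_zero_or_pos k1 with h0 | h0
    · rw [h0, zero_mul] at hk1; omega
    · exact h0
  refine ⟨q1, k1 * a, hq1', ?_, ?_, ?_, ?_⟩
  · rw [hq1]; exact Nat.le_mul_of_pos_right _ hd
  · rw [hk1]
    calc q = q1 * d := hq1
      _ = 1 * d * q1 := by ring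
      _ ≤ k1 * d * q1 := Nat.mul_le_mul_right _ (Nat.mul_le_mul_right _ hk1')
  · refine IsCoprime.mul_left (Nat.isCoprime_iff_coprime.2 hcop) ?_
    have : (q : ℤ) = q1 * d := by exact_mod_cast hq1
    rw [this] at h
    exact IsCoprime.of_mul_right_left h
  · have hqR : (q : ℝ) = q1 * d := by exact_mod_cast hq1
    have hkR : (k : ℝ) = k1 * d := by exact_mod_cast hk1
    have h1 : (q1 : ℝ) ≠ 0 := by exact_mod_cast (by omega : q1 ≠ 0)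
    have h2 : (d : ℝ) ≠ 0 := by exact_mod_cast (by omega : d ≠ 0)
    rw [hqR, hkR]
    push_cast
    field_simp

/-- the final numerical step. -/
lemma finish (V C r R : ℝ) (hV : 0 ≤ V) (hr : 1 ≤ r) (hrR : r ^ 24 = R)
    (h : V ≤ C * (r ^ 2 / R)) : V ^ 12 * R ^ 11 ≤ C ^ 12 := by
  have hr0 : 0 < r := by linarith
  have hR0 : 0 < R := by rw [← hrR]; positivity
  calc V ^ 12 * R ^ 11 ≤ (C * (r ^ 2 / R)) ^ 12 * R ^ 11 := by gcongr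
    _ = C ^ 12 := by
      rw [← hrR]
      field_simp

end Pool.Agent.helper132_poly
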