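import Pool.Agent.helper132_poly.P6

/-! The bound for `Vm` on the minor arcs: the two cases. -/

namespace Pool.Agent.helper132_poly

open Finset Pool.Agent.helper132_sph

lemma exists_max (P : ℕ → Prop) (h1 : P 1) (B : ℕ) (hB : ∀ n, P n → n ≤ B) :
    ∃ n, 1 ≤ n ∧ P n ∧ ¬ P (n + 1) := by
  classical
  have hex : ∃ n, 1 ≤ n ∧ ¬ P (n + 1) := by
    refine ⟨B + 1, by omega, fun h => ?_⟩
    have := hB _ h
    omega
  refine ⟨Nat.find hex, (Nat.find_spec hex).1, ?_, (Nat.find_spec hex).2⟩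
  rcases Nat.lt_or_ge 1 (Nat.find hex) with h | h
  · have h2 := Nat.find_min hex (m := Nat.find hex - 1) (by omega)
    rw [Nat.sub_add_cancel (by omega)] at h2
    by_contra hP
    exact h2 ⟨by omega, hP⟩
  · have h3 := (Nat.find_spec hex).1
    have h4 : Nat.find hex = 1 := le_antisymm h h3
    rw [h4]; exact h1

/-- trivial case. -/
lemma triv_case (φ : ℤ → ℝ) (X m : ℕ) (hX : 1 ≤ X) (R c : ℝ) (hR : 1 ≤ R) (hRc : R ≤ c) :
    Vm φ X m ^ 12 * R ^ 11 ≤ 2 ^ 12 * c ^ 11 := by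
  have h1 := Vm_le_two φ X m hX
  have h2 := Vm_nonneg φ X m
  gcongr

lemma s1_case1 (κ l : ℕ) (hκ : 2 ≤ κ) (hl : 1 ≤ l) (hη : eta κ l ≤ 1 / 48) : ∃ C : ℝ,
    ∀ (X : ℕ) (α R : ℝ) (φ : ℤ → ℝ) (q : ℕ) (a : ℤ), 1 ≤ X → PP (κ + 1) α φ → 1 ≤ R → R ≤ X →
      1 ≤ q → q ≤ X → IsCoprime a (q : ℤ) → |α - a / q| ≤ 1 / ((X + 1) * q) → R < q →
      Vm φ X (2 * (κ * l)) ^ 12 * R ^ 11 ≤ C := by
  obtain ⟨C0, hC01, hC0⟩ := Vm_mvt κ l (by omega) hl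
  have hs : 1 ≤ κ * l := Nat.one_le_iff_ne_zero.2 (Nat.mul_ne_zero (by omega) (by omega))
  obtain ⟨s, hsd⟩ : ∃ s, s = κ * l := ⟨_, rfl⟩
  rw [← hsd] at hs
  have hsR : (1 : ℝ) ≤ s := by exact_mod_cast hs
  obtain ⟨k, hk⟩ : ∃ k, k = κ + 1 := ⟨_, rfl⟩
  have hkR : (1 : ℝ) ≤ k := by exact_mod_cast (by omega : 1 ≤ k)
  obtain ⟨c0, hc0⟩ : ∃ c0 : ℝ, c0 = 4 * k * s := ⟨_, rfl⟩
  have hc01 : 1 ≤ c0 := by rw [hc0]; nlinarith
  obtain ⟨C2, hC2⟩ : ∃ C2 : ℝ, C2 = 16 * s * k + 12 * (c0 * 2 ^ κ) := ⟨_, rfl⟩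
  have hC20 : 0 ≤ C2 := by rw [hC2]; positivity
  refine ⟨max (2 ^ 12 * c0 ^ 11) ((C0 * (C2 + 1)) ^ 12), ?_⟩
  intro X α R φ q a hX hφ hR1 hRX hq1 hqX hcop hβ hRq
  rcases lt_or_ge R c0 with hRc | hRc
  · exact (triv_case φ X _ hX R c0 hR1 hRc.le).trans (le_max_left _ _)
  refine le_trans ?_ (le_max_right _ _)
  have hXR : (0 : ℝ) < X := by exact_mod_cast hX
  have hX1 : (1 : ℝ) ≤ X := by exact_mod_cast hX
  have hqR : (0 : ℝ) < q := by exact_mod_cast hq1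
  have hR0 : 0 < R := by linarith
  obtain ⟨r, hr1, hrR, hrη⟩ : ∃ r : ℝ, 1 ≤ r ∧ r ^ 24 = R ∧ R ^ (1 / 48 : ℝ) ≤ r := by
    refine ⟨R ^ (1 / 24 : ℝ), Real.one_le_rpow hR1 (by norm_num), ?_, ?_⟩
    · rw [← Real.rpow_natCast, ← Real.rpow_mul hR0.le]; norm_num
    · exact Real.rpow_le_rpow_of_exponent_le hR1 (by norm_num)
  obtain ⟨H, hH1, hHP, hHnP⟩ := exists_max (fun H => c0 * (H : ℝ) ^ κ ≤ R) (by simpa using hRc) X (by
    intro n hn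
    have h1 : (n : ℝ) ≤ X := by
      rcases Nat.eq_zero_or_pos n with h0 | h0
      · rw [h0, Nat.cast_zero]; exact hXR.le
      have hn1 : (1 : ℝ) ≤ n := by exact_mod_cast h0
      calc (n : ℝ) ≤ (n : ℝ) ^ κ := le_self_pow₀ hn1 (by omega)
        _ ≤ c0 * (n : ℝ) ^ κ := le_mul_of_one_le_left (by positivity) hc01
        _ ≤ R := hn
        _ ≤ X := hRX
    exact_mod_cast h1)
  push Not at hHnP
  have hHR : (1 : ℝ) ≤ H := by exact_mod_cast hH1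
  have hH0 : (0 : ℝ) < H := by linarith
  have hHκ : R ≤ (c0 * 2 ^ κ) * (H : ℝ) ^ κ := by
    refine hHnP.le.trans ?_
    rw [mul_assoc, ← mul_pow]
    push_cast
    gcongr
    linarith
  have hHκR : (H : ℝ) ^ κ ≤ R := (le_mul_of_one_le_left (by positivity) hc01).trans hHP
  have hHR' : (H : ℝ) ≤ R := (le_self_pow₀ hHR (by omega)).trans hHκR
  obtain ⟨q', a', hq'1, hq'q, hqq', hcop', haq'⟩ := red k q (by omega) hq1 a hcop
  have hq'R : (0 : ℝ) < q' := by exact_mod_cast hq'1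
  have hq'qR : (q' : ℝ) ≤ q := by exact_mod_cast hq'q
  have hqq'R : (q : ℝ) ≤ k * q' := by exact_mod_cast hqq'
  have hqXR : (q : ℝ) ≤ X := by exact_mod_cast hqX
  have hmain := hC0 X 1 H α φ hX hH1 hφ
  rw [← hsd] at hmain
  obtain ⟨M, hM⟩ : ∃ M : ℕ, M = s * H ^ κ := ⟨_, rfl⟩
  rw [← hM] at hmain
  have hMR : (M : ℝ) = s * (H : ℝ) ^ κ := by rw [hM]; push_cast; ring
  have hkA := K_A X M q' hX hq'1 a' hcop' (k * (α - a / q)) (((κ : ℝ) + 1) * α * ((1 : ℕ) : ℝ) ^ κ) 0 (by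
    rw [← haq', hk]
    push_cast
    rw [one_pow]
    ring) (by
    rw [abs_mul, abs_of_nonneg (by positivity : (0 : ℝ) ≤ k), hMR]
    calc (k : ℝ) * |α - a / q| * (s * (H : ℝ) ^ κ) ≤ k * (1 / ((X + 1) * q)) * (s * (H : ℝ) ^ κ) := by
          gcongr
      _ = (c0 * (H : ℝ) ^ κ) / (4 * (X + 1) * q) := by
          rw [hc0]; field_simp
      _ ≤ R / (4 * (X + 1) * q) := div_le_div_of_nonneg_right hHP (by positivity)
      _ ≤ 1 / (2 * q') := by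
          rw [div_le_div_iff₀ (by positivity) (by positivity)]
          have h1 : R * q' ≤ X * q := mul_le_mul hRX hq'qR hq'R.le hXR.le
          nlinarith)
  obtain ⟨K, hK⟩ : ∃ K : ℝ, K = ∑ y ∈ Icc (-(M : ℤ)) (M : ℤ),
        KX X ((((κ : ℝ) + 1) * α * ((1 : ℕ) : ℝ) ^ κ) * y) := ⟨_, rfl⟩
  rw [← hK] at hmain hkA
  have hKb : K / ((H : ℝ) ^ κ * X) ≤ C2 / R := by
    have h1 : K / ((H : ℝ) ^ κ * X) ≤ 8 * s * q' / (X : ℝ) ^ 2 + 8 * (q' : ℝ) ^ 2 / ((H : ℝ) ^ κ * X ^ 2) +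
        8 * s / q' + 4 / (H : ℝ) ^ κ := by
      rw [div_le_iff₀ (by positivity)]
      refine hkA.trans (le_of_eq ?_)
      rw [hMR]
      field_simp
      ring
    have hq'X : (q' : ℝ) ≤ X := by linarith
    have h2 : 8 * s * q' / (X : ℝ) ^ 2 ≤ 8 * s / q' := by
      rw [div_le_div_iff₀ (by positivity) hq'R]
      have : (q' : ℝ) * q' ≤ (X : ℝ) ^ 2 := by rw [sq]; exact mul_le_mul hq'X hq'X hq'R.le hXR.le
      calc 8 * (s : ℝ) * q' * q' = 8 * s * (q' * q') := by ring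
        _ ≤ 8 * s * (X : ℝ) ^ 2 := mul_le_mul_of_nonneg_left this (by positivity)
    have h3 : 8 * (q' : ℝ) ^ 2 / ((H : ℝ) ^ κ * X ^ 2) ≤ 8 / (H : ℝ) ^ κ := by
      rw [div_le_div_iff₀ (by positivity) (by positivity)]
      have : (q' : ℝ) ^ 2 ≤ (X : ℝ) ^ 2 := pow_le_pow_left₀ hq'R.le hq'X 2
      calc 8 * (q' : ℝ) ^ 2 * (H : ℝ) ^ κ = 8 * (H : ℝ) ^ κ * (q' : ℝ) ^ 2 := by ring
        _ ≤ 8 * (H : ℝ) ^ κ * (X : ℝ) ^ 2 := mul_le_mul_of_nonneg_left this (by positivity)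
        _ = _ := by ring
    have h4 : 8 * s / (q' : ℝ) ≤ 8 * s * k / R := by
      rw [div_le_div_iff₀ hq'R hR0]
      have : R ≤ k * q' := by linarith
      calc 8 * (s : ℝ) * R ≤ 8 * s * (k * q') := mul_le_mul_of_nonneg_left this (by positivity)
        _ = _ := by ring
    have h5 : 1 / (H : ℝ) ^ κ ≤ (c0 * 2 ^ κ) / R := by
      rw [div_le_div_iff₀ (by positivity) hR0, one_mul]
      exact hHκ
    have h6 : 8 / (H : ℝ) ^ κ = 8 * (1 / (H : ℝ) ^ κ) := by ring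
    have h7 : 4 / (H : ℝ) ^ κ = 4 * (1 / (H : ℝ) ^ κ) := by ring
    have h8 : C2 / R = 2 * (8 * s * k / R) + 12 * ((c0 * 2 ^ κ) / R) := by rw [hC2]; ring
    rw [h8]
    rw [h6] at h3
    rw [h7] at h1
    linarith
  have hHη : (H : ℝ) ^ eta κ l ≤ r := by
    have hη0 := eta_nonneg κ l (by omega)
    calc (H : ℝ) ^ eta κ l ≤ R ^ eta κ l := Real.rpow_le_rpow hH0.le hHR' hη0
      _ ≤ R ^ (1 / 48 : ℝ) := Real.rpow_le_rpow_of_exponent_le hR1 hη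
      _ ≤ r := hrη
  have hpow : (((1 : ℕ) : ℝ) * H / X) ^ (2 * s) ≤ 1 / R := by
    rw [Nat.cast_one, one_mul, pow_mul]
    have h1 : ((H : ℝ) / X) ^ 2 ≤ 1 / X := by
      rw [div_pow, div_le_div_iff₀ (by positivity) hXR]
      have h2 : (H : ℝ) ^ 2 ≤ (H : ℝ) ^ κ := pow_le_pow_right₀ hHR hκ
      have h3 : (H : ℝ) ^ 2 ≤ X := by linarith
      calc (H : ℝ) ^ 2 * X ≤ X * X := mul_le_mul_of_nonneg_right h3 hXR.le
        _ = 1 * (X : ℝ) ^ 2 := by ring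
    calc (((H : ℝ) / X) ^ 2) ^ s ≤ (1 / (X : ℝ)) ^ s := pow_le_pow_left₀ (by positivity) h1 s
      _ ≤ 1 / (X : ℝ) := pow_le_of_le_one (by positivity) (by rw [div_le_one hXR]; exact hX1) (by omega)
      _ ≤ 1 / R := one_div_le_one_div_of_le hR0 hRX
  refine finish _ (C0 * (C2 + 1)) r R (Vm_nonneg _ _ _) hr1 hrR ?_
  rw [← hsd]
  refine hmain.trans ?_
  rw [mul_assoc]
  refine mul_le_mul_of_nonneg_left ?_ (by linarith)
  have hK0 : 0 ≤ K / ((H : ℝ) ^ κ * X) := by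
    rw [hK]; exact div_nonneg (Finset.sum_nonneg (fun y _ => KX_nonneg X _)) (by positivity)
  calc (H : ℝ) ^ eta κ l * (K / ((H : ℝ) ^ κ * X)) + (((1 : ℕ) : ℝ) * H / X) ^ (2 * s)
      ≤ r * (C2 / R) + 1 / R := by
        refine add_le_add ?_ hpow
        exact mul_le_mul hHη hKb hK0 (by linarith)
    _ ≤ r ^ 2 * (C2 / R) + r ^ 2 * (1 / R) := by
        have h1 : r ≤ r ^ 2 := le_self_pow₀ hr1 (by norm_num)
        have h2 : 1 ≤ r ^ 2 := one_le_pow₀ hr1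
        refine add_le_add (mul_le_mul_of_nonneg_right h1 (by positivity)) ?_
        exact le_mul_of_one_le_left (by positivity) h2
    _ = (C2 + 1) * (r ^ 2 / R) := by ring

end Pool.Agent.helper132_poly
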