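import Pool.Agent.helper132_poly.P7

/-! The bound for `Vm` on the minor arcs: small denominators. -/

namespace Pool.Agent.helper132_poly

open Finset Pool.Agent.helper132_sph

lemma choose_gH (Y q H0 : ℕ) (hq : 1 ≤ q) (hH0 : 1 ≤ H0) (hY : 1 ≤ Y) :
    ∃ g H : ℕ, 1 ≤ g ∧ 1 ≤ H ∧ g * H ≤ Y ∧ Y ≤ 2 * (g * H) ∧ (∃ t : ℕ, g = 1 + q * t) ∧
      ((H = H0) ∨ (H = Y ∧ Y < 2 * q * H0)) := by
  rcases Nat.lt_or_ge Y (2 * q * H0) with h | h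
  · refine ⟨1, Y, le_refl _, hY, by omega, by omega, ⟨0, by simp⟩, Or.inr ⟨rfl, h⟩⟩
  · obtain ⟨u, hu⟩ : ∃ u, u = Y / H0 := ⟨_, rfl⟩
    have hu1 : u * H0 ≤ Y := by rw [hu]; exact Nat.div_mul_le_self _ _
    have hu2 : Y < (u + 1) * H0 := by
      rw [hu]
      have := Nat.lt_div_mul_add (a := Y) (b := H0) (by omega)
      calc Y < Y / H0 * H0 + H0 := this
        _ = _ := by ring
    have hu3 : 2 * q ≤ u := by
      rw [hu]; exact (Nat.le_div_iff_mul_le (by omega)).2 h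
    obtain ⟨t, ht⟩ : ∃ t, t = (u - 1) / q := ⟨_, rfl⟩
    have ht1 : q * t ≤ u - 1 := by rw [ht]; exact Nat.mul_div_le _ _
    have ht2 : u - 1 < q * t + q := by
      have := Nat.lt_div_mul_add (a := u - 1) (b := q) (by omega)
      rw [ht]
      calc u - 1 < (u - 1) / q * q + q := this
        _ = _ := by ring
    refine ⟨1 + q * t, H0, by omega, hH0, ?_, ?_, ⟨t, rfl⟩, Or.inl rfl⟩
    · calc (1 + q * t) * H0 ≤ u * H0 := Nat.mul_le_mul_right _ (by omega)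
        _ ≤ Y := hu1
    · have h1 : u + 1 ≤ (1 + q * t) + q := by omega
      have h2 : Y < ((1 + q * t) + q) * H0 := lt_of_lt_of_le hu2 (Nat.mul_le_mul_right _ h1)
      have h3 : ((1 + q * t) + q) * H0 = (1 + q * t) * H0 + q * H0 := by ring
      have h4 : 2 * q * H0 = 2 * (q * H0) := by ring
      omega

lemma s1_case2 (κ l : ℕ) (hκ : 2 ≤ κ) (hl : 12 ≤ l) (hη : eta κ l ≤ 1 / 48) : ∃ C : ℝ,
    ∀ (X : ℕ) (α R : ℝ) (φ : ℤ → ℝ) (q : ℕ) (a : ℤ), 1 ≤ X → PP (κ + 1) α φ → 1 ≤ R → R ≤ X →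
      1 ≤ q → (q : ℝ) ≤ R → IsCoprime a (q : ℤ) → |α - a / q| ≤ 1 / ((X + 1) * q) →
      R < q * |α - a / q| * X ^ (κ + 1) →
      Vm φ X (2 * (κ * l)) ^ 12 * R ^ 11 ≤ C := by
  obtain ⟨C0, hC01, hC0⟩ := Vm_mvt κ l (by omega) (by omega)
  have hs : 1 ≤ κ * l := Nat.one_le_iff_ne_zero.2 (Nat.mul_ne_zero (by omega) (by omega))
  obtain ⟨s, hsd⟩ : ∃ s, s = κ * l := ⟨_, rfl⟩
  rw [← hsd] at hs
  have hsR : (1 : ℝ) ≤ s := by exact_mod_cast hs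
  obtain ⟨k, hk⟩ : ∃ k, k = κ + 1 := ⟨_, rfl⟩
  have hkR : (1 : ℝ) ≤ k := by exact_mod_cast (by omega : 1 ≤ k)
  obtain ⟨c0, hc0⟩ : ∃ c0 : ℝ, c0 = 8 * k * s := ⟨_, rfl⟩
  have hc01 : 1 ≤ c0 := by rw [hc0]; nlinarith
  obtain ⟨C3, hC3⟩ : ∃ C3 : ℝ, C3 = c0 * 2 ^ κ + 2 ^ (2 * s) := ⟨_, rfl⟩
  have hC31 : 1 ≤ C3 := by
    have h1 : (1 : ℝ) ≤ 2 ^ (2 * s) := one_le_pow₀ (by norm_num)
    have h2 : 0 ≤ c0 * 2 ^ κ := by positivity
    rw [hC3]; linarith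
  refine ⟨max (2 ^ 12 * c0 ^ 11) ((C0 * (4 * (8 * s + 12 * C3 + 8 * (2 ^ κ * C3)) + 1)) ^ 12), ?_⟩
  intro X α R φ q a hX hφ hR1 hRX hq1 hqRle hcop hβ hRb
  rcases lt_or_ge R c0 with hRc | hRc
  · exact (triv_case φ X _ hX R c0 hR1 hRc.le).trans (le_max_left _ _)
  refine le_trans ?_ (le_max_right _ _)
  have hXR : (0 : ℝ) < X := by exact_mod_cast hX
  have hX1 : (1 : ℝ) ≤ X := by exact_mod_cast hX
  have hqR : (0 : ℝ) < q := by exact_mod_cast hq1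
  have hR0 : 0 < R := by linarith
  obtain ⟨b, hb⟩ : ∃ b : ℝ, b = q * |α - a / q| * X ^ (κ + 1) := ⟨_, rfl⟩
  rw [← hb] at hRb
  have hb0 : 0 < b := by linarith
  have hbX : b ≤ (X : ℝ) ^ κ := by
    rw [hb]
    calc q * |α - a / q| * (X : ℝ) ^ (κ + 1) ≤ q * (1 / ((X + 1) * q)) * (X : ℝ) ^ (κ + 1) := by gcongr
      _ = (X : ℝ) ^ κ * (X / (X + 1)) := by
          rw [pow_succ]; field_simp
      _ ≤ (X : ℝ) ^ κ * 1 := by
          refine mul_le_mul_of_nonneg_left ?_ (by positivity)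
          rw [div_le_one (by positivity)]; linarith
      _ = _ := mul_one _
  have hβ0 : 0 < |α - a / q| := by
    rcases (abs_nonneg (α - a / q)).eq_or_lt with h | h
    · rw [← h] at hb
      rw [hb] at hb0
      simp at hb0
    · exact h
  obtain ⟨r, hr1, hrR⟩ : ∃ r : ℝ, 1 ≤ r ∧ r = R ^ (1 / 24 : ℝ) :=
    ⟨R ^ (1 / 24 : ℝ), Real.one_le_rpow hR1 (by norm_num), rfl⟩
  have hrR24 : r ^ 24 = R := by
    rw [hrR, ← Real.rpow_natCast, ← Real.rpow_mul hR0.le]; norm_num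
  obtain ⟨Y, hY1, hYP, hYnP⟩ := exists_max (fun Y => c0 * b * (Y : ℝ) ^ κ ≤ (X : ℝ) ^ (κ + 1) ∧
      R * (Y : ℝ) ^ (2 * s) ≤ (X : ℝ) ^ (2 * s)) (by
    simp only [Nat.cast_one, one_pow, mul_one]
    constructor
    · rw [pow_succ']
      exact mul_le_mul (by linarith) hbX hb0.le hXR.le
    · exact hRX.trans (le_self_pow₀ hX1 (by omega))) X (by
    rintro n ⟨_, hn⟩
    have h1 : (n : ℝ) ^ (2 * s) ≤ (X : ℝ) ^ (2 * s) :=
      (le_mul_of_one_le_left (by positivity) hR1).trans hn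
    have h2 : (n : ℝ) ≤ X := le_of_pow_le_pow_left₀ (n := 2 * s) (by omega) hXR.le h1
    exact_mod_cast h2)
  obtain ⟨hYa, hYb⟩ := hYP
  have hYR1 : (1 : ℝ) ≤ Y := by exact_mod_cast hY1
  have hY0 : (0 : ℝ) < Y := by linarith
  have hYX : (Y : ℝ) ≤ X := by
    have h1 : (Y : ℝ) ^ (2 * s) ≤ (X : ℝ) ^ (2 * s) :=
      (le_mul_of_one_le_left (by positivity) hR1).trans hYb
    exact le_of_pow_le_pow_left₀ (n := 2 * s) (by omega) hXR.le h1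
  have hY2 : (((Y + 1 : ℕ)) : ℝ) ≤ 2 * Y := by push_cast; linarith
  have hviol : (X : ℝ) ^ (κ + 1) ≤ c0 * 2 ^ κ * b * (Y : ℝ) ^ κ ∨
      (X : ℝ) ^ (2 * s) ≤ 2 ^ (2 * s) * R * (Y : ℝ) ^ (2 * s) := by
    rw [not_and_or] at hYnP
    rcases hYnP with h | h
    · left
      push Not at h
      calc (X : ℝ) ^ (κ + 1) ≤ c0 * b * (((Y + 1 : ℕ)) : ℝ) ^ κ := h.le
        _ ≤ c0 * b * (2 * Y) ^ κ := by gcongr
        _ = _ := by rw [mul_pow]; ring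
    · right
      push Not at h
      calc (X : ℝ) ^ (2 * s) ≤ R * (((Y + 1 : ℕ)) : ℝ) ^ (2 * s) := h.le
        _ ≤ R * (2 * Y) ^ (2 * s) := by gcongr
        _ = _ := by rw [mul_pow]; ring
  have hC3a : c0 * 2 ^ κ ≤ C3 := by
    rw [hC3]; have : (0 : ℝ) ≤ 2 ^ (2 * s) := by positivity
    linarith
  have hC3b : (2 : ℝ) ^ (2 * s) ≤ C3 := by
    rw [hC3]; have : (0 : ℝ) ≤ c0 * 2 ^ κ := by positivity
    linarith
  have hYκ : R ≤ C3 * (Y : ℝ) ^ κ := by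
    rcases hviol with h | h
    · have h1 : (X : ℝ) ^ κ * X ≤ (X : ℝ) ^ κ * (c0 * 2 ^ κ * (Y : ℝ) ^ κ) := by
        calc (X : ℝ) ^ κ * X = (X : ℝ) ^ (κ + 1) := by ring
          _ ≤ c0 * 2 ^ κ * b * (Y : ℝ) ^ κ := h
          _ ≤ c0 * 2 ^ κ * (X : ℝ) ^ κ * (Y : ℝ) ^ κ := by gcongr
          _ = _ := by ring
      have h2 : (X : ℝ) ≤ c0 * 2 ^ κ * (Y : ℝ) ^ κ := le_of_mul_le_mul_left h1 (by positivity)
      calc R ≤ X := hRX
        _ ≤ c0 * 2 ^ κ * (Y : ℝ) ^ κ := h2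
        _ ≤ C3 * (Y : ℝ) ^ κ := mul_le_mul_of_nonneg_right hC3a (by positivity)
    · have h2s : κ ≤ 2 * s := by rw [hsd]; nlinarith
      have h0 : (X : ℝ) ^ (2 * s - κ) * (X : ℝ) ^ κ ≤ (X : ℝ) ^ (2 * s - κ) * (2 ^ (2 * s) * X * (Y : ℝ) ^ κ) := by
        calc (X : ℝ) ^ (2 * s - κ) * (X : ℝ) ^ κ = (X : ℝ) ^ (2 * s) := by
              rw [← pow_add, Nat.sub_add_cancel h2s]
          _ ≤ 2 ^ (2 * s) * R * (Y : ℝ) ^ (2 * s) := h
          _ = 2 ^ (2 * s) * R * ((Y : ℝ) ^ (2 * s - κ) * (Y : ℝ) ^ κ) := by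
              rw [← pow_add, Nat.sub_add_cancel h2s]
          _ ≤ 2 ^ (2 * s) * X * ((X : ℝ) ^ (2 * s - κ) * (Y : ℝ) ^ κ) := by gcongr
          _ = _ := by ring
      have h1 : (X : ℝ) ^ κ ≤ 2 ^ (2 * s) * X * (Y : ℝ) ^ κ := le_of_mul_le_mul_left h0 (by positivity)
      have h2 : (X : ℝ) * X ≤ X * (2 ^ (2 * s) * (Y : ℝ) ^ κ) := by
        calc (X : ℝ) * X = (X : ℝ) ^ 2 := by ring
          _ ≤ (X : ℝ) ^ κ := pow_le_pow_right₀ hX1 hκ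
          _ ≤ _ := h1
          _ = _ := by ring
      have h3 : (X : ℝ) ≤ 2 ^ (2 * s) * (Y : ℝ) ^ κ := le_of_mul_le_mul_left h2 hXR
      calc R ≤ X := hRX
        _ ≤ 2 ^ (2 * s) * (Y : ℝ) ^ κ := h3
        _ ≤ C3 * (Y : ℝ) ^ κ := mul_le_mul_of_nonneg_right hC3b (by positivity)
  have hXbY : (X : ℝ) ^ κ / (b * (Y : ℝ) ^ κ) ≤ C3 * (r / R) := by
    rcases hviol with h | h
    · rw [div_le_iff₀ (by positivity)]
      have h1 : (X : ℝ) ^ κ * X ≤ (c0 * 2 ^ κ * (b * (Y : ℝ) ^ κ) / X) * X := by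
        rw [div_mul_cancel₀ _ hXR.ne']
        calc (X : ℝ) ^ κ * X = (X : ℝ) ^ (κ + 1) := by ring
          _ ≤ c0 * 2 ^ κ * b * (Y : ℝ) ^ κ := h
          _ = _ := by ring
      have h2 : (X : ℝ) ^ κ ≤ c0 * 2 ^ κ * (b * (Y : ℝ) ^ κ) / X := le_of_mul_le_mul_right h1 hXR
      have h3 : 1 / (X : ℝ) ≤ r / R := by
        rw [div_le_div_iff₀ hXR hR0]
        nlinarith
      calc (X : ℝ) ^ κ ≤ c0 * 2 ^ κ * (b * (Y : ℝ) ^ κ) / X := h2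
        _ = (c0 * 2 ^ κ) * (1 / X) * (b * (Y : ℝ) ^ κ) := by ring
        _ ≤ C3 * (r / R) * (b * (Y : ℝ) ^ κ) := by gcongr
    · obtain ⟨W, hW⟩ : ∃ W : ℝ, W = ((X : ℝ) / Y) ^ κ := ⟨_, rfl⟩
      have hW1 : 1 ≤ W := by
        rw [hW]; exact one_le_pow₀ (by rw [le_div_iff₀ hY0]; linarith)
      have h1 : W ^ (2 * l) ≤ 2 ^ (2 * s) * R := by
        rw [hW, ← pow_mul, show κ * (2 * l) = 2 * s by rw [hsd]; ring, div_pow,
          div_le_iff₀ (by positivity)]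
        exact h
      have h2 : W ^ 24 ≤ (2 ^ (2 * s) * r) ^ 24 := by
        calc W ^ 24 ≤ W ^ (2 * l) := pow_le_pow_right₀ hW1 (by omega)
          _ ≤ 2 ^ (2 * s) * R := h1
          _ ≤ (2 ^ (2 * s)) ^ 24 * R := by
              refine mul_le_mul_of_nonneg_right ?_ hR0.le
              exact le_self_pow₀ (one_le_pow₀ (by norm_num)) (by norm_num)
          _ = (2 ^ (2 * s) * r) ^ 24 := by rw [mul_pow _ r, hrR24]
      have h3 : W ≤ 2 ^ (2 * s) * r := le_of_pow_le_pow_left₀ (n := 24) (by norm_num) (by positivity) h2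
      calc (X : ℝ) ^ κ / (b * (Y : ℝ) ^ κ) = W * (1 / b) := by rw [hW, div_pow]; field_simp
        _ ≤ (2 ^ (2 * s) * r) * (1 / R) := by
            refine mul_le_mul h3 (one_div_le_one_div_of_le hR0 hRb.le) (by positivity) (by positivity)
        _ = 2 ^ (2 * s) * (r / R) := by ring
        _ ≤ C3 * (r / R) := mul_le_mul_of_nonneg_right hC3b (by positivity)
  obtain ⟨H0, hH0⟩ : ∃ H0 : ℕ, H0 = ⌈R⌉₊ := ⟨_, rfl⟩
  have hH0a : R ≤ H0 := by rw [hH0]; exact Nat.le_ceil R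
  have hH0b : (H0 : ℝ) ≤ 2 * R := by
    have := Nat.ceil_lt_add_one hR0.le
    rw [hH0]; linarith
  have hH01 : 1 ≤ H0 := by
    have : (1 : ℝ) ≤ H0 := hR1.trans hH0a
    exact_mod_cast this
  obtain ⟨g, H, hg1, hH1, hgHY, hYgH, ⟨t, ht⟩, hHH⟩ := choose_gH Y q H0 hq1 hH01 hY1
  have hg1R : (1 : ℝ) ≤ g := by exact_mod_cast hg1
  have hHR : (1 : ℝ) ≤ H := by exact_mod_cast hH1
  have hH0' : (0 : ℝ) < H := by linarith
  have hgHYR : (g : ℝ) * H ≤ Y := by exact_mod_cast hgHY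
  have hYgHR : (Y : ℝ) ≤ 2 * (g * H) := by exact_mod_cast hYgH
  have hHb : (H : ℝ) ≤ 4 * R ^ 2 := by
    rcases hHH with h | ⟨h1, h2⟩
    · rw [h]; nlinarith
    · have h3 : (Y : ℝ) < 2 * q * H0 := by exact_mod_cast h2
      rw [h1]
      calc (Y : ℝ) ≤ 2 * q * H0 := h3.le
        _ ≤ 2 * R * (2 * R) := by gcongr
        _ = _ := by ring
  have hHκ : R ≤ C3 * (H : ℝ) ^ κ := by
    rcases hHH with h | ⟨h1, h2⟩
    · have h3 : R ≤ (H : ℝ) := by rw [h]; exact hH0a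
      calc R ≤ (H : ℝ) := h3
        _ ≤ (H : ℝ) ^ κ := le_self_pow₀ hHR (by omega)
        _ ≤ C3 * (H : ℝ) ^ κ := le_mul_of_one_le_left (by positivity) hC31
    · rw [h1]; exact hYκ
  have hHη : (H : ℝ) ^ eta κ l ≤ 4 * r := by
    have hη0 := eta_nonneg κ l (by omega)
    have hR2 : (1 : ℝ) ≤ 4 * R ^ 2 := by nlinarith
    calc (H : ℝ) ^ eta κ l ≤ (4 * R ^ 2) ^ eta κ l := Real.rpow_le_rpow hH0'.le hHb hη0
      _ ≤ (4 * R ^ 2) ^ (1 / 48 : ℝ) := Real.rpow_le_rpow_of_exponent_le hR2 hη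
      _ = (4 : ℝ) ^ (1 / 48 : ℝ) * r := by
          rw [Real.mul_rpow (by norm_num) (by positivity), hrR, ← Real.rpow_natCast R 2,
            ← Real.rpow_mul hR0.le]
          norm_num
      _ ≤ 4 * r := by
          refine mul_le_mul_of_nonneg_right ?_ (by linarith)
          calc (4 : ℝ) ^ (1 / 48 : ℝ) ≤ (4 : ℝ) ^ (1 : ℝ) :=
                Real.rpow_le_rpow_of_exponent_le (by norm_num) (by norm_num)
            _ = 4 := Real.rpow_one 4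
  have hpow : ((g : ℝ) * H / X) ^ (2 * s) ≤ 1 / R := by
    calc ((g : ℝ) * H / X) ^ (2 * s) ≤ ((Y : ℝ) / X) ^ (2 * s) := by gcongr
      _ = (Y : ℝ) ^ (2 * s) / (X : ℝ) ^ (2 * s) := div_pow _ _ _
      _ ≤ 1 / R := by
          rw [div_le_div_iff₀ (by positivity) hR0, one_mul, mul_comm]
          exact hYb
  obtain ⟨q', a', hq'1, hq'q, hqq', hcop', haq'⟩ := red k q (by omega) hq1 a hcop
  have hq'R : (0 : ℝ) < q' := by exact_mod_cast hq'1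
  have hq'qR : (q' : ℝ) ≤ q := by exact_mod_cast hq'q
  have hqq'R : (q : ℝ) ≤ k * q' := by exact_mod_cast hqq'
  obtain ⟨w, hw⟩ : ∃ w : ℤ, (g : ℤ) ^ κ - 1 = q * w := by
    have h1 : (g : ℤ) - 1 ∣ (g : ℤ) ^ κ - 1 := by
      have := sub_dvd_pow_sub_pow (g : ℤ) 1 κ
      simpa using this
    have h2 : (q : ℤ) ∣ (g : ℤ) - 1 := ⟨t, by rw [ht]; push_cast; ring⟩
    exact h2.trans h1
  have hwR : (g : ℝ) ^ κ = 1 + q * w := by
    have : (((g : ℤ) ^ κ - 1 : ℤ) : ℝ) = ((q * w : ℤ) : ℝ) := by rw [hw]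
    push_cast at this
    linarith
  have hmain := hC0 X g H α φ hX hH1 hφ
  rw [← hsd] at hmain
  obtain ⟨M, hM⟩ : ∃ M : ℕ, M = s * H ^ κ := ⟨_, rfl⟩
  rw [← hM] at hmain
  have hMR : (M : ℝ) = s * (H : ℝ) ^ κ := by rw [hM]; push_cast; ring
  obtain ⟨θ, hθ⟩ : ∃ θ : ℝ, θ = k * (α - a / q) * (g : ℝ) ^ κ := ⟨_, rfl⟩
  have hθabs : |θ| = k * |α - a / q| * (g : ℝ) ^ κ := by
    rw [hθ, abs_mul, abs_mul, abs_of_nonneg (by positivity : (0 : ℝ) ≤ k),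
      abs_of_nonneg (by positivity : (0 : ℝ) ≤ (g : ℝ) ^ κ)]
  have hkB := K_B X M q' hX hq'1 a' hcop' θ (((κ : ℝ) + 1) * α * (g : ℝ) ^ κ) (k * a * w) (by
    rw [← haq', hθ]
    have hkk : (κ : ℝ) + 1 = k := by rw [hk]; push_cast; ring
    rw [hkk]
    have e1 : (k : ℝ) * (a / q) + k * (α - a / q) * (g : ℝ) ^ κ + (((k * a * w : ℤ)) : ℝ) =
        k * α * (g : ℝ) ^ κ + (k : ℝ) * (a / q) * (1 + q * w - (g : ℝ) ^ κ) := by
      push_cast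
      field_simp
      ring
    rw [e1, hwR]
    ring) (by
    rw [hθabs, hMR]
    have h1 : (g : ℝ) ^ κ * (H : ℝ) ^ κ ≤ (Y : ℝ) ^ κ := by
      rw [← mul_pow]; exact pow_le_pow_left₀ (by positivity) hgHYR κ
    calc (k : ℝ) * |α - a / q| * (g : ℝ) ^ κ * (s * (H : ℝ) ^ κ)
        = (k * s * |α - a / q|) * ((g : ℝ) ^ κ * (H : ℝ) ^ κ) := by ring
      _ ≤ (k * s * |α - a / q|) * (Y : ℝ) ^ κ := mul_le_mul_of_nonneg_left h1 (by positivity)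
      _ = (c0 * b * (Y : ℝ) ^ κ) / (8 * q * X ^ (κ + 1)) := by
          rw [hc0, hb]; field_simp
      _ ≤ (X : ℝ) ^ (κ + 1) / (8 * q * X ^ (κ + 1)) := div_le_div_of_nonneg_right hYa (by positivity)
      _ = 1 / (8 * q) := by field_simp
      _ ≤ 1 / (2 * q') := by
          rw [div_le_div_iff₀ (by positivity) (by positivity)]
          nlinarith) (by
    have : 0 < |θ| := by rw [hθabs]; positivity
    exact abs_pos.1 this)
  obtain ⟨K, hK⟩ : ∃ K : ℝ, K = ∑ y ∈ Icc (-(M : ℤ)) (M : ℤ),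
        KX X ((((κ : ℝ) + 1) * α * (g : ℝ) ^ κ) * y) := ⟨_, rfl⟩
  rw [← hK] at hmain hkB
  have hKb : K / ((H : ℝ) ^ κ * X) ≤ (8 * s + 12 * C3 + 8 * (2 ^ κ * C3)) * (r / R) := by
    have h1 : K / ((H : ℝ) ^ κ * X) ≤ 8 * s * q' / (X : ℝ) ^ 2 + 8 * (q' : ℝ) ^ 2 / ((H : ℝ) ^ κ * X ^ 2) +
        4 / (H : ℝ) ^ κ + 8 / (|θ| * q' * (H : ℝ) ^ κ * X) := by
      rw [div_le_iff₀ (by positivity)]
      refine hkB.trans (le_of_eq ?_)
      have hθ0 : |θ| ≠ 0 := by rw [hθabs]; positivity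
      rw [hMR]
      field_simp
      ring
    have hq'X : (q' : ℝ) ≤ X := by linarith
    have hrR' : 1 / R ≤ r / R := div_le_div_of_nonneg_right hr1 hR0.le
    have h2 : 8 * s * q' / (X : ℝ) ^ 2 ≤ 8 * s * (r / R) := by
      have h3 : 8 * s * q' / (X : ℝ) ^ 2 ≤ 8 * s * (1 / R) := by
        rw [mul_one_div, div_le_div_iff₀ (by positivity) hR0]
        have : (q' : ℝ) * R ≤ (X : ℝ) ^ 2 := by rw [sq]; exact mul_le_mul hq'X hRX hR0.le hXR.le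
        calc 8 * (s : ℝ) * q' * R = 8 * s * (q' * R) := by ring
          _ ≤ 8 * s * (X : ℝ) ^ 2 := mul_le_mul_of_nonneg_left this (by positivity)
      refine h3.trans (mul_le_mul_of_nonneg_left hrR' (by positivity))
    have h5 : 1 / (H : ℝ) ^ κ ≤ C3 * (r / R) := by
      have h6 : 1 / (H : ℝ) ^ κ ≤ C3 * (1 / R) := by
        rw [mul_one_div, div_le_div_iff₀ (by positivity) hR0, one_mul]
        exact hHκ
      exact h6.trans (mul_le_mul_of_nonneg_left hrR' (by linarith))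
    have h3 : 8 * (q' : ℝ) ^ 2 / ((H : ℝ) ^ κ * X ^ 2) ≤ 8 * (1 / (H : ℝ) ^ κ) := by
      rw [mul_one_div, div_le_div_iff₀ (by positivity) (by positivity)]
      have : (q' : ℝ) ^ 2 ≤ (X : ℝ) ^ 2 := pow_le_pow_left₀ hq'R.le hq'X 2
      calc 8 * (q' : ℝ) ^ 2 * (H : ℝ) ^ κ = 8 * (H : ℝ) ^ κ * (q' : ℝ) ^ 2 := by ring
        _ ≤ 8 * (H : ℝ) ^ κ * (X : ℝ) ^ 2 := mul_le_mul_of_nonneg_left this (by positivity)
        _ = _ := by ring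
    have h4 : 8 / (|θ| * q' * (H : ℝ) ^ κ * X) ≤ 8 * (2 ^ κ * ((X : ℝ) ^ κ / (b * (Y : ℝ) ^ κ))) := by
      have e1 : 8 * (2 ^ κ * ((X : ℝ) ^ κ / (b * (Y : ℝ) ^ κ))) =
          8 / ((b * (Y : ℝ) ^ κ) / (2 ^ κ * (X : ℝ) ^ κ)) := by
        field_simp
      rw [e1]
      refine div_le_div_of_nonneg_left (by norm_num) (by positivity) ?_
      rw [div_le_iff₀ (by positivity), hθabs]
      have h6 : (Y : ℝ) ^ κ ≤ 2 ^ κ * ((g : ℝ) ^ κ * (H : ℝ) ^ κ) := by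
        rw [← mul_pow, ← mul_pow]; exact pow_le_pow_left₀ hY0.le hYgHR κ
      calc b * (Y : ℝ) ^ κ ≤ b * (2 ^ κ * ((g : ℝ) ^ κ * (H : ℝ) ^ κ)) :=
            mul_le_mul_of_nonneg_left h6 hb0.le
        _ = (q : ℝ) * (|α - a / q| * X ^ (κ + 1) * (2 ^ κ * ((g : ℝ) ^ κ * (H : ℝ) ^ κ))) := by
            rw [hb]; ring
        _ ≤ (k * q') * (|α - a / q| * X ^ (κ + 1) * (2 ^ κ * ((g : ℝ) ^ κ * (H : ℝ) ^ κ))) :=
            mul_le_mul_of_nonneg_right hqq'R (by positivity)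
        _ = _ := by ring
    have h7 : 4 / (H : ℝ) ^ κ = 4 * (1 / (H : ℝ) ^ κ) := by ring
    rw [h7] at h1
    have h8 : 2 ^ κ * ((X : ℝ) ^ κ / (b * (Y : ℝ) ^ κ)) ≤ 2 ^ κ * (C3 * (r / R)) :=
      mul_le_mul_of_nonneg_left hXbY (by positivity)
    have h9 : (8 * s + 12 * C3 + 8 * (2 ^ κ * C3)) * (r / R) =
        8 * s * (r / R) + 12 * (C3 * (r / R)) + 8 * (2 ^ κ * (C3 * (r / R))) := by ring
    rw [h9]
    linarith
  refine finish _ (C0 * (4 * (8 * s + 12 * C3 + 8 * (2 ^ κ * C3)) + 1)) r R (Vm_nonneg _ _ _) hr1 hrR24 ?_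
  rw [← hsd]
  refine hmain.trans ?_
  rw [mul_assoc]
  refine mul_le_mul_of_nonneg_left ?_ (by linarith)
  have hK0 : 0 ≤ K / ((H : ℝ) ^ κ * X) := by
    rw [hK]; exact div_nonneg (Finset.sum_nonneg (fun y _ => KX_nonneg X _)) (by positivity)
  calc (H : ℝ) ^ eta κ l * (K / ((H : ℝ) ^ κ * X)) + ((g : ℝ) * H / X) ^ (2 * s)
      ≤ (4 * r) * ((8 * s + 12 * C3 + 8 * (2 ^ κ * C3)) * (r / R)) + 1 / R := by
        refine add_le_add ?_ hpow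
        exact mul_le_mul hHη hKb hK0 (by linarith)
    _ ≤ (4 * r) * ((8 * s + 12 * C3 + 8 * (2 ^ κ * C3)) * (r / R)) + r ^ 2 * (1 / R) := by
        have h2 : 1 ≤ r ^ 2 := one_le_pow₀ hr1
        refine add_le_add le_rfl ?_
        exact le_mul_of_one_le_left (by positivity) h2
    _ = (4 * (8 * s + 12 * C3 + 8 * (2 ^ κ * C3)) + 1) * (r ^ 2 / R) := by ring

/-- the main estimate on the minor arcs. -/
theorem S1 (κ l : ℕ) (hκ : 2 ≤ κ) (hl : 12 ≤ l) (hη : eta κ l ≤ 1 / 48) : ∃ C : ℝ, 1 ≤ C ∧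
    ∀ (X : ℕ) (α R : ℝ) (φ : ℤ → ℝ), 1 ≤ X → PP (κ + 1) α φ → 1 ≤ R → R ≤ X →
      (∀ (q : ℕ) (c : ℤ), 1 ≤ q → (q : ℝ) ≤ R → R < |q * α - c| * X ^ (κ + 1)) →
      Vm φ X (2 * (κ * l)) ^ 12 * R ^ 11 ≤ C := by
  obtain ⟨C1, hC1⟩ := s1_case1 κ l hκ (by omega) hη
  obtain ⟨C2, hC2⟩ := s1_case2 κ l hκ hl hη
  refine ⟨max 1 (max C1 C2), le_max_left _ _, ?_⟩
  intro X α R φ hX hφ hR1 hRX hmin
  obtain ⟨ξ, hξ1, hξ2⟩ := Real.exists_rat_abs_sub_le_and_den_le α (n := X) (by omega)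
  have hden : 1 ≤ ξ.den := ξ.den_pos
  have hcop : IsCoprime ξ.num (ξ.den : ℤ) := by
    rw [Int.isCoprime_iff_gcd_eq_one]
    have := ξ.reduced
    rw [Int.gcd]
    simpa using this
  have hξR : (ξ : ℝ) = (ξ.num : ℝ) / (ξ.den : ℝ) := by
    exact_mod_cast (Rat.num_div_den ξ).symm
  rw [hξR] at hξ1
  rcases lt_or_ge R (ξ.den : ℝ) with h | h
  · exact (hC1 X α R φ ξ.den ξ.num hX hφ hR1 hRX hden hξ2 hcop hξ1 h).trans
      ((le_max_left _ _).trans (le_max_right _ _))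
  · refine (hC2 X α R φ ξ.den ξ.num hX hφ hR1 hRX hden h hcop hξ1 ?_).trans
      ((le_max_right _ _).trans (le_max_right _ _))
    have h1 := hmin ξ.den ξ.num hden h
    have hd0 : (0 : ℝ) < ξ.den := by exact_mod_cast hden
    have e1 : (ξ.den : ℝ) * |α - ξ.num / ξ.den| = |(ξ.den : ℝ) * α - ξ.num| := by
      rw [← abs_of_pos hd0, ← abs_mul, abs_of_pos hd0]
      congr 1
      field_simp
    rw [e1]
    exact h1

end Pool.Agent.helper132_poly
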