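import Pool.Agent.helper132_poly.P8

/-! Weyl's inequality from the differenced mean values. -/

namespace Pool.Agent.helper132_poly

open Finset Pool.Agent.helper132_sph

/-- inverse form of Weyl's inequality. -/
def WH (k A : ℕ) (K : ℝ) : Prop :=
  ∀ (N : ℕ) (_ : 1 ≤ N) (α : ℝ) (φ : ℤ → ℝ) (_ : PP k α φ) (a b : ℤ) (_ : b - a ≤ N),
    ((‖∑ n ∈ Ico a b, ec (φ n)‖ / N) ^ A * N ≤ K) ∨
    ∃ q : ℕ, ∃ c : ℤ, 1 ≤ q ∧ (q : ℝ) * (‖∑ n ∈ Ico a b, ec (φ n)‖ / N) ^ A ≤ K ∧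
      |q * α - c| * (‖∑ n ∈ Ico a b, ec (φ n)‖ / N) ^ A * (N : ℝ) ^ k ≤ K

lemma sum_pow_le_Vm (φ : ℤ → ℝ) (X m : ℕ) (hX : 1 ≤ X) :
    (‖∑ n ∈ Ico (0 : ℤ) X, ec (φ n)‖ / X) ^ (2 * m) ≤ 2 ^ m * Vm φ X m := by
  have hXR : (0 : ℝ) < X := by exact_mod_cast hX
  obtain ⟨T, hT⟩ : ∃ T : ℝ, T = ∑ h ∈ Ioo (-(X : ℤ)) X, ‖DD φ X h‖ / X := ⟨_, rfl⟩
  have hT0 : 0 ≤ T := by rw [hT]; exact Finset.sum_nonneg fun h _ => by positivity
  have h1 : (‖∑ n ∈ Ico (0 : ℤ) X, ec (φ n)‖ / X) ^ 2 ≤ T / X := by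
    rw [div_pow, div_le_div_iff₀ (by positivity) hXR]
    have h2 := weyl_diff X φ 0 X (by linarith)
    have h3 : ∑ h ∈ Ioo (-(X : ℤ)) X, ‖∑ n ∈ Ico (max (0 : ℤ) (0 - h)) (min (X : ℤ) (X - h)),
        ec (φ (n + h) - φ n)‖ = X * T := by
      rw [hT, Finset.mul_sum]
      refine Finset.sum_congr rfl fun h _ => ?_
      unfold DD
      field_simp
    rw [h3] at h2
    calc ‖∑ n ∈ Ico (0 : ℤ) X, ec (φ n)‖ ^ 2 * X ≤ (X * T) * X := mul_le_mul_of_nonneg_right h2 hXR.le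
      _ = T * (X : ℝ) ^ 2 := by ring
  have h4 := pow_mean (Ioo (-(X : ℤ)) X) (fun h => ‖DD φ X h‖ / X) (fun h _ => by positivity) m
  rw [← hT] at h4
  have hcard : (((Ioo (-(X : ℤ)) X).card : ℕ) : ℝ) ≤ 2 * X := by
    rw [Int.card_Ioo]
    have : ((X : ℤ) - -(X : ℤ) - 1).toNat ≤ 2 * X := by omega
    exact_mod_cast this
  have hcard2 : (X : ℝ) ≤ (((Ioo (-(X : ℤ)) X).card : ℕ) : ℝ) := by
    rw [Int.card_Ioo]
    have : X ≤ ((X : ℤ) - -(X : ℤ) - 1).toNat := by omega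
    exact_mod_cast this
  have hV : ∑ h ∈ Ioo (-(X : ℤ)) X, (‖DD φ X h‖ / X) ^ m = X * Vm φ X m := by
    unfold Vm
    field_simp
  rw [hV] at h4
  have hVn := Vm_nonneg φ X m
  have h5 : T ^ m * X ≤ ((2 * X) ^ m * Vm φ X m) * X := by
    calc T ^ m * X ≤ T ^ m * (((Ioo (-(X : ℤ)) X).card : ℕ) : ℝ) :=
          mul_le_mul_of_nonneg_left hcard2 (by positivity)
      _ ≤ (((Ioo (-(X : ℤ)) X).card : ℕ) : ℝ) ^ m * (X * Vm φ X m) := h4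
      _ ≤ (2 * X) ^ m * (X * Vm φ X m) := by gcongr
      _ = _ := by ring
  have h6 : T ^ m ≤ (2 * X) ^ m * Vm φ X m := le_of_mul_le_mul_right h5 hXR
  calc (‖∑ n ∈ Ico (0 : ℤ) X, ec (φ n)‖ / X) ^ (2 * m)
      = ((‖∑ n ∈ Ico (0 : ℤ) X, ec (φ n)‖ / X) ^ 2) ^ m := by rw [pow_mul]
    _ ≤ (T / X) ^ m := pow_le_pow_left₀ (by positivity) h1 m
    _ = T ^ m / (X : ℝ) ^ m := div_pow _ _ _
    _ ≤ ((2 * X) ^ m * Vm φ X m) / (X : ℝ) ^ m := div_le_div_of_nonneg_right h6 (by positivity)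
    _ = 2 ^ m * Vm φ X m := by rw [mul_pow]; field_simp

/-- Weyl's inequality in inverse form. -/
theorem weyl_WH (κ l : ℕ) (hκ : 2 ≤ κ) (hl : 12 ≤ l) (hη : eta κ l ≤ 1 / 48) :
    ∃ K : ℝ, 1 ≤ K ∧ WH (κ + 1) (3 * (2 * (κ * l))) K := by
  obtain ⟨C, hC1, hC⟩ := S1 κ l hκ hl hη
  obtain ⟨m, hm⟩ : ∃ m, m = 2 * (κ * l) := ⟨_, rfl⟩
  have hκl : κ ≤ κ * l := Nat.le_mul_of_pos_right _ (by omega)
  have hm1 : κ + 1 ≤ 3 * m := by omega
  rw [← hm] at hC ⊢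
  obtain ⟨K, hK⟩ : ∃ K : ℝ, K = C * 2 ^ (12 * m) + 1 := ⟨_, rfl⟩
  have hK1 : 1 ≤ K := by
    have : 0 ≤ C * 2 ^ (12 * m) := by positivity
    rw [hK]; linarith
  have hK11 : C * 2 ^ (12 * m) < K ^ 11 := by
    calc C * 2 ^ (12 * m) < K := by rw [hK]; linarith
      _ ≤ K ^ 11 := le_self_pow₀ hK1 (by norm_num)
  have hK0 : 0 < K := by linarith
  refine ⟨K, hK1, ?_⟩
  -- the case of full intervals
  have hfull : ∀ (X : ℕ) (_ : 1 ≤ X) (α : ℝ) (φ : ℤ → ℝ) (_ : PP (κ + 1) α φ),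
      ((‖∑ n ∈ Ico (0 : ℤ) X, ec (φ n)‖ / X) ^ (3 * m) * X ≤ K) ∨
      ∃ q : ℕ, ∃ c : ℤ, 1 ≤ q ∧ (q : ℝ) * (‖∑ n ∈ Ico (0 : ℤ) X, ec (φ n)‖ / X) ^ (3 * m) ≤ K ∧
        |q * α - c| * (‖∑ n ∈ Ico (0 : ℤ) X, ec (φ n)‖ / X) ^ (3 * m) * (X : ℝ) ^ (κ + 1) ≤ K := by
    intro X hX α φ hφ
    have hXR : (0 : ℝ) < X := by exact_mod_cast hX
    have hu := sum_pow_le_Vm φ X m hX
    obtain ⟨u, hu'⟩ : ∃ u : ℝ, u = ‖∑ n ∈ Ico (0 : ℤ) X, ec (φ n)‖ / X := ⟨_, rfl⟩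
    rw [← hu'] at hu ⊢
    have hu0 : 0 ≤ u := by rw [hu']; positivity
    have hu1 : u ≤ 1 := by
      rw [hu', div_le_one hXR]
      exact norm_sum_ec_le 0 X φ X (by linarith)
    by_contra hcon
    rw [not_or] at hcon
    obtain ⟨hc1, hc2⟩ := hcon
    push Not at hc1
    have hupos : 0 < u := by
      rcases hu0.eq_or_lt with h | h
      · exfalso
        rw [← h, zero_pow (by omega), zero_mul] at hc1
        linarith
      · exact h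
    obtain ⟨R, hR⟩ : ∃ R : ℝ, R = K / u ^ (3 * m) := ⟨_, rfl⟩
    have huA : 0 < u ^ (3 * m) := by positivity
    have hRu : R * u ^ (3 * m) = K := by rw [hR]; field_simp
    have hR1 : 1 ≤ R := by
      rw [hR, le_div_iff₀ huA, one_mul]
      exact (pow_le_one₀ hu0 hu1).trans hK1
    have hR0 : 0 < R := by linarith
    have hRX : R ≤ X := by
      rw [hR, div_le_iff₀ huA]
      linarith
    have hS := hC X α R φ hX hφ hR1 hRX (by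
      intro q c hq hqR
      by_contra hcon
      push Not at hcon
      refine hc2 ⟨q, c, hq, ?_, ?_⟩
      · rw [← hRu]; exact mul_le_mul_of_nonneg_right hqR huA.le
      · rw [← hRu]
        calc |q * α - c| * u ^ (3 * m) * (X : ℝ) ^ (κ + 1) =
              (|q * α - c| * (X : ℝ) ^ (κ + 1)) * u ^ (3 * m) := by ring
          _ ≤ R * u ^ (3 * m) := mul_le_mul_of_nonneg_right hcon huA.le)
    have h1 : (u ^ (2 * m)) ^ 12 ≤ (2 ^ m * Vm φ X m) ^ 12 := pow_le_pow_left₀ (by positivity) hu 12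
    have h2 : (u ^ (2 * m)) ^ 12 * R ^ 11 ≤ C * 2 ^ (12 * m) := by
      calc (u ^ (2 * m)) ^ 12 * R ^ 11 ≤ (2 ^ m * Vm φ X m) ^ 12 * R ^ 11 :=
            mul_le_mul_of_nonneg_right h1 (by positivity)
        _ = (2 ^ m) ^ 12 * (Vm φ X m ^ 12 * R ^ 11) := by ring
        _ ≤ (2 ^ m) ^ 12 * C := mul_le_mul_of_nonneg_left hS (by positivity)
        _ = C * 2 ^ (12 * m) := by rw [← pow_mul, mul_comm m 12]; ring
    have h3 : K ^ 11 ≤ (u ^ (2 * m)) ^ 12 * R ^ 11 := by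
      have e1 : K ^ 11 = R ^ 11 * (u ^ (3 * m)) ^ 11 := by rw [← hRu, mul_pow]
      rw [e1, mul_comm]
      refine mul_le_mul_of_nonneg_right ?_ (by positivity)
      rw [← pow_mul, ← pow_mul]
      exact pow_le_pow_of_le_one hu0 hu1 (by omega)
    linarith
  -- general intervals
  intro N hN α φ hφ a b hab
  have hNR : (0 : ℝ) < N := by exact_mod_cast hN
  have hN1 : (1 : ℝ) ≤ N := by exact_mod_cast hN
  rcases le_or_gt b a with hba | hba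
  · left
    rw [Finset.Ico_eq_empty_iff.2 (not_lt.2 hba), Finset.sum_empty, norm_zero, zero_div,
      zero_pow (by omega), zero_mul]
    exact hK0.le
  obtain ⟨X, hX⟩ : ∃ X : ℕ, (X : ℤ) = b - a := ⟨(b - a).toNat, by omega⟩
  have hX1 : 1 ≤ X := by omega
  have hXN : X ≤ N := by omega
  have hXR : (0 : ℝ) < X := by exact_mod_cast hX1
  have hXNR : (X : ℝ) ≤ N := by exact_mod_cast hXN
  have hsum : ∑ n ∈ Ico a b, ec (φ n) = ∑ n ∈ Ico (0 : ℤ) X, ec (φ (n + a)) := by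
    refine Finset.sum_bij' (fun n _ => n - a) (fun n _ => n + a) ?_ ?_ ?_ ?_ ?_
    · intro n hn; rw [Finset.mem_Ico] at hn ⊢; constructor <;> linarith [hn.1, hn.2]
    · intro n hn; rw [Finset.mem_Ico] at hn ⊢; constructor <;> linarith [hn.1, hn.2]
    · intro n _; ring
    · intro n _; ring
    · intro n _; rw [sub_add_cancel]
  have h := hfull X hX1 α (fun n => φ (n + a)) (PP.shift hφ a)
  rw [hsum]
  obtain ⟨S, hS⟩ : ∃ S : ℝ, S = ‖∑ n ∈ Ico (0 : ℤ) X, ec (φ (n + a))‖ := ⟨_, rfl⟩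
  have hS0 : 0 ≤ S := by rw [hS]; exact norm_nonneg _
  rw [← hS]
  have h' : ((S / X) ^ (3 * m) * X ≤ K) ∨
      ∃ q : ℕ, ∃ c : ℤ, 1 ≤ q ∧ (q : ℝ) * (S / X) ^ (3 * m) ≤ K ∧
        |q * α - c| * (S / X) ^ (3 * m) * (X : ℝ) ^ (κ + 1) ≤ K := by
    rw [hS]; exact h
  have hcomp : ∀ j, j ≤ 3 * m → (S / N) ^ (3 * m) * (N : ℝ) ^ j ≤ (S / X) ^ (3 * m) * (X : ℝ) ^ j := by
    intro j hj
    obtain ⟨i, hi⟩ : ∃ i, 3 * m = j + i := ⟨3 * m - j, by omega⟩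
    rw [hi, div_pow, div_pow, pow_add (N : ℝ), pow_add (X : ℝ)]
    have e1 : S ^ (j + i) / ((N : ℝ) ^ j * (N : ℝ) ^ i) * (N : ℝ) ^ j = S ^ (j + i) / (N : ℝ) ^ i := by
      field_simp
    have e2 : S ^ (j + i) / ((X : ℝ) ^ j * (X : ℝ) ^ i) * (X : ℝ) ^ j = S ^ (j + i) / (X : ℝ) ^ i := by
      field_simp
    rw [e1, e2]
    refine div_le_div_of_nonneg_left (by positivity) (by positivity) ?_
    exact pow_le_pow_left₀ hXR.le hXNR i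
  rcases h' with h1 | ⟨q, c, hq, h2, h3⟩
  · left
    have h4 := hcomp 1 (by omega)
    rw [pow_one, pow_one] at h4
    exact h4.trans h1
  · right
    refine ⟨q, c, hq, ?_, ?_⟩
    · have h4 := hcomp 0 (by omega)
      rw [pow_zero, pow_zero, mul_one, mul_one] at h4
      exact (mul_le_mul_of_nonneg_left h4 (Nat.cast_nonneg _)).trans h2
    · have h4 := hcomp (κ + 1) hm1
      calc |q * α - c| * (S / N) ^ (3 * m) * (N : ℝ) ^ (κ + 1)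
          = |q * α - c| * ((S / N) ^ (3 * m) * (N : ℝ) ^ (κ + 1)) := by ring
        _ ≤ |q * α - c| * ((S / X) ^ (3 * m) * (X : ℝ) ^ (κ + 1)) :=
            mul_le_mul_of_nonneg_left h4 (abs_nonneg _)
        _ = |q * α - c| * (S / X) ^ (3 * m) * (X : ℝ) ^ (κ + 1) := by ring
        _ ≤ K := h3

end Pool.Agent.helper132_poly
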