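import Pool.Agent.helper132_sph.LB3

/-! Exponential sums on a finite grid and solution counts. -/

namespace Pool.Agent.helper132_poly

open Finset Pool.Agent.helper132_sph

/-- the moment curve. -/
def mom (k : ℕ) (x : ℤ) : Fin k → ℤ := fun j => x ^ ((j : ℕ) + 1)

/-- character at the grid point `a / N`. -/
noncomputable def eg {k : ℕ} (N : ℕ) (a : Fin k → ℕ) (v : Fin k → ℤ) : ℂ :=
  ec (∑ j, (a j : ℝ) / N * (v j : ℝ))

lemma eg_zero {k : ℕ} (N : ℕ) (a : Fin k → ℕ) : eg N a 0 = 1 := by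
  unfold eg
  simp [ec_zero]

lemma eg_add {k : ℕ} (N : ℕ) (a : Fin k → ℕ) (v w : Fin k → ℤ) :
    eg N a (v + w) = eg N a v * eg N a w := by
  unfold eg
  rw [← ec_add, ← Finset.sum_add_distrib]
  congr 1
  refine Finset.sum_congr rfl fun j _ => ?_
  simp only [Pi.add_apply]
  push_cast
  ring

lemma norm_eg {k : ℕ} (N : ℕ) (a : Fin k → ℕ) (v : Fin k → ℤ) : ‖eg N a v‖ = 1 := norm_ec _

lemma eg_neg {k : ℕ} (N : ℕ) (a : Fin k → ℕ) (v : Fin k → ℤ) :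
    eg N a (-v) = (starRingEnd ℂ) (eg N a v) := by
  unfold eg
  rw [conj_ec]
  congr 1
  rw [← Finset.sum_neg_distrib]
  refine Finset.sum_congr rfl fun j _ => ?_
  simp only [Pi.neg_apply]
  push_cast
  ring

lemma eg_sum {k : ℕ} {ι : Type} (N : ℕ) (a : Fin k → ℕ) (s : Finset ι) (v : ι → Fin k → ℤ) :
    eg N a (∑ i ∈ s, v i) = ∏ i ∈ s, eg N a (v i) := by
  classical
  induction s using Finset.induction_on with
  | empty => simp [eg_zero]
  | insert i s hi ih => rw [Finset.sum_insert hi, Finset.prod_insert hi, eg_add, ih]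

/-- the grid. -/
def gr (k N : ℕ) : Finset (Fin k → ℕ) := Fintype.piFinset (fun _ => range N)

lemma card_gr (k N : ℕ) : (gr k N).card = N ^ k := by
  unfold gr
  rw [Fintype.card_piFinset]
  simp

lemma orth1 {k : ℕ} (N : ℕ) (hN : 1 ≤ N) (v : Fin k → ℤ) (hv : ∀ j, |v j| < N) :
    ∑ a ∈ gr k N, eg N a v = if v = 0 then (N : ℂ) ^ k else 0 := by
  classical
  have h1 : ∑ a ∈ gr k N, eg N a v = ∏ j : Fin k, ∑ b ∈ range N, ec ((b : ℝ) / N * (v j : ℤ)) := by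
    unfold gr
    rw [Finset.prod_univ_sum]
    refine Finset.sum_congr rfl fun a _ => ?_
    unfold eg
    rw [sum_ec_prod]
  rw [h1]
  split_ifs with h
  · have : ∀ j ∈ (Finset.univ : Finset (Fin k)), ∑ b ∈ range N, ec ((b : ℝ) / N * (v j : ℤ)) = (N : ℂ) := by
      intro j _
      refine (geom_ec N hN (v j)).2 ?_
      rw [h]; rfl
    rw [Finset.prod_congr rfl this]
    simp
  · obtain ⟨j, hj⟩ : ∃ j, v j ≠ 0 := by
      by_contra hcon
      push Not at hcon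
      exact h (funext hcon)
    exact Finset.prod_eq_zero (Finset.mem_univ j) (geom_ec_zero N hN (v j) hj (hv j))

/-- exponential sum over a finite family. -/
noncomputable def Sg {k : ℕ} {ι : Type} (N : ℕ) (I : Finset ι) (Φ : ι → Fin k → ℤ)
    (a : Fin k → ℕ) : ℂ := ∑ i ∈ I, eg N a (Φ i)

lemma Sg_mul {k : ℕ} {ι κ : Type} (N : ℕ) (I : Finset ι) (Φ : ι → Fin k → ℤ) (J : Finset κ)
    (Ψ : κ → Fin k → ℤ) (a : Fin k → ℕ) :
    Sg N I Φ a * Sg N J Ψ a = Sg N (I ×ˢ J) (fun w => Φ w.1 + Ψ w.2) a := by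
  unfold Sg
  rw [Finset.sum_mul_sum, Finset.sum_product]
  refine Finset.sum_congr rfl fun i _ => Finset.sum_congr rfl fun j _ => ?_
  rw [eg_add]

lemma Sg_conj {k : ℕ} {ι : Type} (N : ℕ) (I : Finset ι) (Φ : ι → Fin k → ℤ) (a : Fin k → ℕ) :
    (starRingEnd ℂ) (Sg N I Φ a) = Sg N I (fun i => -Φ i) a := by
  unfold Sg
  rw [map_sum]
  refine Finset.sum_congr rfl fun i _ => ?_
  rw [eg_neg]

lemma Sg_pow {k : ℕ} {ι : Type} (N : ℕ) (I : Finset ι) (Φ : ι → Fin k → ℤ) (a : Fin k → ℕ) (s : ℕ) :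
    Sg N I Φ a ^ s = Sg N (Fintype.piFinset (fun _ : Fin s => I)) (fun u => ∑ i, Φ (u i)) a := by
  classical
  unfold Sg
  have h := Finset.prod_univ_sum (fun _ : Fin s => I) (fun _ (m : ι) => eg N a (Φ m))
  rw [Finset.prod_const, Finset.card_univ, Fintype.card_fin] at h
  rw [h]
  refine Finset.sum_congr rfl fun u _ => ?_
  rw [eg_sum]

lemma orth {k : ℕ} {ι : Type} (N : ℕ) (hN : 1 ≤ N) (I : Finset ι) (Φ : ι → Fin k → ℤ)
    (h : ∀ i ∈ I, ∀ j, |Φ i j| < N) :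
    ∑ a ∈ gr k N, Sg N I Φ a = (N : ℂ) ^ k * ((I.filter (fun i => Φ i = 0)).card : ℂ) := by
  classical
  unfold Sg
  rw [Finset.sum_comm]
  have h1 : ∀ i ∈ I, ∑ a ∈ gr k N, eg N a (Φ i) = if Φ i = 0 then (N : ℂ) ^ k else 0 :=
    fun i hi => orth1 N hN (Φ i) (h i hi)
  rw [Finset.sum_congr rfl h1, ← Finset.sum_filter, Finset.sum_const, nsmul_eq_mul]
  ring

lemma exists_N {k : ℕ} {ι : Type} (I : Finset ι) (Φ : ι → Fin k → ℤ) :
    ∃ N0 : ℕ, ∀ N, N0 ≤ N → ∀ i ∈ I, ∀ j, |Φ i j| < N := by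
  classical
  refine ⟨1 + ∑ i ∈ I, ∑ j, (Φ i j).natAbs, ?_⟩
  intro N hN i hi j
  have h1 : (Φ i j).natAbs ≤ ∑ j, (Φ i j).natAbs :=
    Finset.single_le_sum (f := fun j => (Φ i j).natAbs) (fun _ _ => Nat.zero_le _) (Finset.mem_univ j)
  have h2 : ∑ j, (Φ i j).natAbs ≤ ∑ i ∈ I, ∑ j, (Φ i j).natAbs :=
    Finset.single_le_sum (f := fun i => ∑ j, (Φ i j).natAbs) (fun _ _ => Nat.zero_le _) hi
  rw [Int.abs_eq_natAbs]
  exact_mod_cast (by omega : (Φ i j).natAbs < N)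

/-- norm of a sum of characters is at most the number of terms. -/
lemma norm_Sg_le {k : ℕ} {ι : Type} (N : ℕ) (I : Finset ι) (Φ : ι → Fin k → ℤ) (a : Fin k → ℕ) :
    ‖Sg N I Φ a‖ ≤ I.card := by
  unfold Sg
  refine (norm_sum_le _ _).trans ?_
  simp [norm_eg]

/-- pairs with a prescribed difference are at most as many as pairs with difference zero. -/
lemma shift_count {k : ℕ} {ι : Type} (I : Finset ι) (Φ : ι → Fin k → ℤ) (h : Fin k → ℤ) :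
    ((I ×ˢ I).filter (fun w => Φ w.1 - Φ w.2 = h)).card ≤
      ((I ×ˢ I).filter (fun w => Φ w.1 = Φ w.2)).card := by
  classical
  obtain ⟨N1, hN1⟩ := exists_N (I ×ˢ I) (fun w => Φ w.1 + -Φ w.2)
  obtain ⟨N2, hN2⟩ := exists_N (I ×ˢ I) (fun w => Φ w.1 - Φ w.2 - h)
  obtain ⟨N, hN⟩ : ∃ N, N = max 1 (max N1 N2) := ⟨_, rfl⟩
  have hN0 : 1 ≤ N := by rw [hN]; exact le_max_left _ _
  have hNN1 : N1 ≤ N := by rw [hN]; exact (le_max_left _ _).trans (le_max_right _ _)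
  have hNN2 : N2 ≤ N := by rw [hN]; exact (le_max_right _ _).trans (le_max_right _ _)
  have h1 := orth N hN0 (I ×ˢ I) (fun w => Φ w.1 + -Φ w.2) (hN1 N hNN1)
  have h2 := orth N hN0 (I ×ˢ I) (fun w => Φ w.1 - Φ w.2 - h) (hN2 N hNN2)
  have e1 : ∀ a, Sg N (I ×ˢ I) (fun w => Φ w.1 + -Φ w.2) a = ((‖Sg N I Φ a‖ ^ 2 : ℝ) : ℂ) := by
    intro a
    have := Sg_mul N I Φ I (fun i => -Φ i) a
    rw [← this, ← Sg_conj, Complex.mul_conj']
    push_cast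
    rfl
  have e2 : ∀ a, Sg N (I ×ˢ I) (fun w => Φ w.1 - Φ w.2 - h) a =
      ((‖Sg N I Φ a‖ ^ 2 : ℝ) : ℂ) * eg N a (-h) := by
    intro a
    rw [← e1]
    unfold Sg
    rw [Finset.sum_mul]
    refine Finset.sum_congr rfl fun w _ => ?_
    rw [← eg_add]
    congr 1
  have f1 : {w ∈ I ×ˢ I | Φ w.1 + -Φ w.2 = 0} = {w ∈ I ×ˢ I | Φ w.1 = Φ w.2} := by
    refine Finset.filter_congr fun w _ => ?_
    rw [← sub_eq_add_neg, sub_eq_zero]
  have f2 : {w ∈ I ×ˢ I | Φ w.1 - Φ w.2 - h = 0} = {w ∈ I ×ˢ I | Φ w.1 - Φ w.2 = h} := by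
    refine Finset.filter_congr fun w _ => ?_
    rw [sub_eq_zero]
  rw [f1] at h1
  rw [f2] at h2
  have hNp : (0 : ℝ) < (N : ℝ) ^ k := by
    have : (0 : ℝ) < N := by exact_mod_cast hN0
    positivity
  have n1 : ∑ a ∈ gr k N, ‖Sg N I Φ a‖ ^ 2 =
      (N : ℝ) ^ k * (({w ∈ I ×ˢ I | Φ w.1 = Φ w.2}).card : ℝ) := by
    have : ((∑ a ∈ gr k N, ‖Sg N I Φ a‖ ^ 2 : ℝ) : ℂ) =
        (((N : ℝ) ^ k * (({w ∈ I ×ˢ I | Φ w.1 = Φ w.2}).card : ℝ) : ℝ) : ℂ) := by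
      push_cast
      rw [← h1]
      refine Finset.sum_congr rfl fun a _ => ?_
      rw [e1]
      push_cast
      rfl
    exact_mod_cast this
  have n2 : (N : ℝ) ^ k * (({w ∈ I ×ˢ I | Φ w.1 - Φ w.2 = h}).card : ℝ) ≤
      ∑ a ∈ gr k N, ‖Sg N I Φ a‖ ^ 2 := by
    have h3 : ‖∑ a ∈ gr k N, Sg N (I ×ˢ I) (fun w => Φ w.1 - Φ w.2 - h) a‖ ≤
        ∑ a ∈ gr k N, ‖Sg N I Φ a‖ ^ 2 := by
      refine (norm_sum_le _ _).trans (Finset.sum_le_sum fun a _ => ?_)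
      rw [e2, norm_mul, norm_eg, mul_one, Complex.norm_real, Real.norm_of_nonneg (by positivity)]
    rw [h2] at h3
    rw [norm_mul, norm_pow, Complex.norm_natCast, Complex.norm_natCast] at h3
    exact h3
  rw [n1] at n2
  have := le_of_mul_le_mul_left n2 hNp
  exact_mod_cast this

/-- power sums of a tuple. -/
def psm (k : ℕ) {s : ℕ} (u : Fin s → ℤ) : Fin k → ℤ := ∑ i, mom k (u i)

lemma psm_apply (k : ℕ) {s : ℕ} (u : Fin s → ℤ) (j : Fin k) : psm k u j = ∑ i, (u i) ^ ((j : ℕ) + 1) := by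
  unfold psm mom
  rw [Finset.sum_apply]

/-- box. -/
noncomputable def bx (s X : ℕ) : Finset (Fin s → ℤ) := Fintype.piFinset (fun _ => Ico (0 : ℤ) X)

lemma mem_bx {s X : ℕ} {u : Fin s → ℤ} : u ∈ bx s X ↔ ∀ i, 0 ≤ u i ∧ u i < X := by
  unfold bx
  rw [Fintype.mem_piFinset]
  simp only [Finset.mem_Ico]

lemma card_bx (s X : ℕ) : (bx s X).card = X ^ s := by
  unfold bx
  rw [Fintype.card_piFinset]
  simp

/-- number of solutions of the Vinogradov system. -/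
noncomputable def Jm (k s X : ℕ) : ℕ := ((bx s X ×ˢ bx s X).filter (fun w => psm k w.1 = psm k w.2)).card

lemma Jm_shift (k s X : ℕ) (h : Fin k → ℤ) :
    ((bx s X ×ˢ bx s X).filter (fun w => psm k w.1 - psm k w.2 = h)).card ≤ Jm k s X :=
  shift_count (bx s X) (psm k) h

end Pool.Agent.helper132_poly
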