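import Pool.Agent.helper132_poly.V2

/-! Counting lemmas for the mean value recursion. -/

namespace Pool.Agent.helper132_poly

open Finset Pool.Agent.helper132_sph

lemma pow_mean {ι : Type} (s : Finset ι) (f : ι → ℝ) (hf : ∀ i ∈ s, 0 ≤ f i) (n : ℕ) :
    (∑ i ∈ s, f i) ^ n * s.card ≤ (s.card : ℝ) ^ n * ∑ i ∈ s, f i ^ n := by
  classical
  rcases s.eq_empty_or_nonempty with h0 | hne
  · rw [h0]; simp
  have hc : (0 : ℝ) < s.card := by exact_mod_cast hne.card_pos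
  have h := Real.pow_arith_mean_le_arith_mean_pow s (fun _ => 1 / (s.card : ℝ)) f
    (fun _ _ => by positivity) (by rw [Finset.sum_const, nsmul_eq_mul]; field_simp) hf n
  rw [← Finset.mul_sum, ← Finset.mul_sum, mul_pow, div_pow, one_pow, div_mul_eq_mul_div,
    div_mul_eq_mul_div, div_le_div_iff₀ (by positivity) hc, one_mul, one_mul] at h
  linarith

lemma exists_primes (n B : ℕ) (hB : 1 ≤ B) : ∃ P : Finset ℕ, P.card = n ∧
    ∀ p ∈ P, p.Prime ∧ B < p ∧ p ≤ 2 ^ n * B := by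
  classical
  induction n with
  | zero => exact ⟨∅, rfl, by simp⟩
  | succ n ih =>
    obtain ⟨P, hP1, hP2⟩ := ih
    have h0 : 0 < 2 ^ n * B := Nat.mul_pos (by positivity) hB
    obtain ⟨p, hp1, hp2, hp3⟩ := Nat.exists_prime_lt_and_le_two_mul (2 ^ n * B) h0.ne'
    have hnot : p ∉ P := by
      intro hp
      have := (hP2 p hp).2.2
      omega
    refine ⟨insert p P, ?_, ?_⟩
    · rw [Finset.card_insert_of_notMem hnot, hP1]
    · intro q hq
      rw [Finset.mem_insert] at hq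
      have hBle : B ≤ 2 ^ n * B := Nat.le_mul_of_pos_left _ (by positivity)
      have hexp : 2 ^ (n + 1) * B = 2 * (2 ^ n * B) := by ring
      rcases hq with rfl | hq
      · exact ⟨hp1, by omega, by omega⟩
      · obtain ⟨a, b, c⟩ := hP2 q hq
        exact ⟨a, b, by omega⟩

lemma exists_good_prime (k X B : ℕ) (hk : 1 ≤ k) (hX : X ≤ B ^ k) (P : Finset ℕ)
    (hP : ∀ p ∈ P, p.Prime ∧ B < p) (hcard : k ^ 3 ≤ P.card) (x : Fin k → ℤ) (hx : x ∈ bx k X)
    (hinj : ∀ i j, i ≠ j → x i ≠ x j) :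
    ∃ p ∈ P, ∀ i j, i ≠ j → ¬ (p : ℤ) ∣ x i - x j := by
  classical
  by_contra hcon
  push Not at hcon
  have hex : ∀ p, ∃ w : Fin k × Fin k, p ∈ P → w.1 ≠ w.2 ∧ (p : ℤ) ∣ x w.1 - x w.2 := by
    intro p
    by_cases hp : p ∈ P
    · obtain ⟨i, j, h1, h2⟩ := hcon p hp
      exact ⟨(i, j), fun _ => ⟨h1, h2⟩⟩
    · exact ⟨(⟨0, by omega⟩, ⟨0, by omega⟩), fun h => absurd h hp⟩
  choose w hw using hex
  have hne : (Finset.univ : Finset (Fin k × Fin k)).Nonempty :=
    ⟨(⟨0, by omega⟩, ⟨0, by omega⟩), Finset.mem_univ _⟩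
  obtain ⟨v, _, hv⟩ := Finset.exists_le_card_fiber_of_mul_le_card_of_maps_to
    (f := w) (s := P) (t := Finset.univ) (n := k) (fun _ _ => Finset.mem_univ _) hne (by
      rw [Finset.card_univ, Fintype.card_prod, Fintype.card_fin]
      calc k * k * k = k ^ 3 := by ring
        _ ≤ P.card := hcard)
  obtain ⟨Q, hQ⟩ : ∃ Q, Q = P.filter (fun p => w p = v) := ⟨_, rfl⟩
  rw [← hQ] at hv
  have hQP : ∀ p ∈ Q, p ∈ P ∧ w p = v := by
    intro p hp
    rw [hQ, Finset.mem_filter] at hp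
    exact hp
  have hQne : Q.Nonempty := Finset.card_pos.1 (by omega)
  obtain ⟨p0, hp0⟩ := hQne
  have hvne : v.1 ≠ v.2 := by
    have := (hw p0 (hQP p0 hp0).1).1
    rwa [(hQP p0 hp0).2] at this
  have hdvd : (∏ p ∈ Q, p) ∣ (x v.1 - x v.2).natAbs := by
    refine Finset.prod_primes_dvd _ (fun p hp => (hP p (hQP p hp).1).1.prime) ?_
    intro p hp
    have := (hw p (hQP p hp).1).2
    rw [(hQP p hp).2] at this
    exact Int.natCast_dvd.1 this
  have hpos : 0 < (x v.1 - x v.2).natAbs := by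
    rw [Int.natAbs_pos]
    exact sub_ne_zero.2 (hinj _ _ hvne)
  have h1 := Nat.le_of_dvd hpos hdvd
  have h2 : B ^ k < (B + 1) ^ k := Nat.pow_lt_pow_left (by omega) (by omega)
  have h3 : (B + 1) ^ k ≤ (B + 1) ^ Q.card := Nat.pow_le_pow_right (by omega) hv
  have h4 : (B + 1) ^ Q.card ≤ ∏ p ∈ Q, p :=
    Finset.pow_card_le_prod _ _ _ (fun p hp => (hP p (hQP p hp).1).2)
  have hb1 := mem_bx.1 hx v.1
  have hb2 := mem_bx.1 hx v.2
  have h5 : (x v.1 - x v.2).natAbs < X := by omega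
  omega

/-- translation invariance. -/
lemma translate {k s : ℕ} (x y : Fin k → ℤ) (u v : Fin s → ℤ)
    (h : psm k x + psm k u = psm k y + psm k v) (r : ℤ) (j : ℕ) (hj : j ≤ k) :
    ∑ i, (x i - r) ^ j + ∑ i, (u i - r) ^ j = ∑ i, (y i - r) ^ j + ∑ i, (v i - r) ^ j := by
  have h0 : ∀ m ≤ k, ∑ i, (x i) ^ m + ∑ i, (u i) ^ m = ∑ i, (y i) ^ m + ∑ i, (v i) ^ m := by
    intro m hm
    rcases Nat.eq_zero_or_pos m with h1 | h1
    · subst h1; simp
    · have := congrFun h ⟨m - 1, by omega⟩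
      simp only [Pi.add_apply, psm_apply] at this
      rwa [Nat.sub_add_cancel h1] at this
  have hexp : ∀ {n : ℕ} (z : Fin n → ℤ), ∑ i, (z i - r) ^ j =
      ∑ m ∈ range (j + 1), ((-r) ^ (j - m) * (j.choose m)) * ∑ i, (z i) ^ m := by
    intro n z
    have : ∀ i ∈ (Finset.univ : Finset (Fin n)), (z i - r) ^ j =
        ∑ m ∈ range (j + 1), ((-r) ^ (j - m) * (j.choose m)) * (z i) ^ m := by
      intro i _
      rw [sub_eq_add_neg, add_pow]
      refine Finset.sum_congr rfl fun m _ => by ring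
    rw [Finset.sum_congr rfl this, Finset.sum_comm]
    refine Finset.sum_congr rfl fun m _ => ?_
    rw [Finset.mul_sum]
  rw [hexp x, hexp u, hexp y, hexp v, ← Finset.sum_add_distrib, ← Finset.sum_add_distrib]
  refine Finset.sum_congr rfl fun m hm => ?_
  rw [Finset.mem_range] at hm
  rw [← mul_add, ← mul_add, h0 m (by omega)]

/-- the residue class tuples. -/
noncomputable def cls (s X p : ℕ) (r : ℕ) : Finset (Fin s → ℤ) :=
  Fintype.piFinset (fun _ => (Ico (0 : ℤ) X).filter (fun x => x % (p : ℤ) = r))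

lemma fiber_count (k s X p r : ℕ) (hp : 1 ≤ p) (hr : r < p) (x y : Fin k → ℤ) :
    ((cls s X p r ×ˢ cls s X p r).filter
      (fun w => psm k x + psm k w.1 = psm k y + psm k w.2)).card ≤ Jm k s (X / p + 1) := by
  classical
  have hp0 : (0 : ℤ) < p := by exact_mod_cast hp
  have hmem : ∀ u ∈ cls s X p r, ∀ i, u i = r + p * ((u i - r) / p) ∧ 0 ≤ (u i - r) / p ∧
      (u i - r) / (p : ℤ) < ((X / p + 1 : ℕ) : ℤ) := by
    intro u hu i
    unfold cls at hu
    rw [Fintype.mem_piFinset] at hu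
    have h1 := hu i
    rw [Finset.mem_filter, Finset.mem_Ico] at h1
    obtain ⟨⟨h2, h3⟩, h4⟩ := h1
    have h5 : u i = r + p * (u i / p) := by
      have := Int.emod_add_mul_ediv (u i) (p : ℤ)
      rw [h4] at this
      linarith
    have h6 : (u i - r) / (p : ℤ) = u i / p := by
      have : u i - r = p * (u i / p) := by linarith
      rw [this, Int.mul_ediv_cancel_left _ hp0.ne']
    rw [h6]
    refine ⟨h5, Int.ediv_nonneg h2 hp0.le, ?_⟩
    have h7 : u i / (p : ℤ) ≤ (X : ℤ) / p := Int.ediv_le_ediv hp0 h3.le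
    push_cast
    linarith
  obtain ⟨h, hh⟩ : ∃ h : Fin k → ℤ, h = fun j : Fin k =>
      (∑ i, (y i - (r : ℤ)) ^ ((j : ℕ) + 1) - ∑ i, (x i - (r : ℤ)) ^ ((j : ℕ) + 1)) /
        (p : ℤ) ^ ((j : ℕ) + 1) := ⟨_, rfl⟩
  refine le_trans ?_ (Jm_shift k s (X / p + 1) h)
  refine Finset.card_le_card_of_injOn
    (fun w : (Fin s → ℤ) × (Fin s → ℤ) => (fun i => (w.1 i - r) / p, fun i => (w.2 i - r) / p)) ?_ ?_
  · intro w hw
    rw [Finset.mem_coe, Finset.mem_filter, Finset.mem_product] at hw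
    obtain ⟨⟨hw1, hw2⟩, hw3⟩ := hw
    rw [Finset.mem_coe, Finset.mem_filter, Finset.mem_product]
    refine ⟨⟨?_, ?_⟩, ?_⟩
    · rw [mem_bx]
      intro i
      exact (hmem _ hw1 i).2
    · rw [mem_bx]
      intro i
      exact (hmem _ hw2 i).2
    · funext j
      rw [Pi.sub_apply, psm_apply, psm_apply, hh]
      have ht := translate x y w.1 w.2 hw3 r ((j : ℕ) + 1) (by omega)
      have e1 : ∀ u ∈ cls s X p r, ∑ i, (u i - (r : ℤ)) ^ ((j : ℕ) + 1) =
          (p : ℤ) ^ ((j : ℕ) + 1) * ∑ i, ((u i - r) / p) ^ ((j : ℕ) + 1) := by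
        intro u hu
        rw [Finset.mul_sum]
        refine Finset.sum_congr rfl fun i _ => ?_
        have := (hmem u hu i).1
        have e : u i - (r : ℤ) = p * ((u i - r) / p) := by linarith
        calc (u i - (r : ℤ)) ^ ((j : ℕ) + 1) = (p * ((u i - r) / p)) ^ ((j : ℕ) + 1) := by rw [← e]
          _ = _ := mul_pow _ _ _
      rw [e1 _ hw1, e1 _ hw2] at ht
      have hpj : ((p : ℤ) ^ ((j : ℕ) + 1)) ≠ 0 := by positivity
      have e2 : ∑ i, (y i - (r : ℤ)) ^ ((j : ℕ) + 1) - ∑ i, (x i - (r : ℤ)) ^ ((j : ℕ) + 1) =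
          (p : ℤ) ^ ((j : ℕ) + 1) * (∑ i, ((w.1 i - r) / p) ^ ((j : ℕ) + 1) -
            ∑ i, ((w.2 i - r) / p) ^ ((j : ℕ) + 1)) := by linarith
      simp only
      rw [e2, Int.mul_ediv_cancel_left _ hpj]
  · intro w hw w' hw' heq
    rw [Finset.mem_coe, Finset.mem_filter, Finset.mem_product] at hw hw'
    rw [Prod.mk.injEq] at heq
    refine Prod.ext ?_ ?_
    · funext i
      have h1 := (hmem _ hw.1.1 i).1
      have h2 := (hmem _ hw'.1.1 i).1
      have h3 : (w.1 i - (r : ℤ)) / p = (w'.1 i - r) / p := congrFun heq.1 i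
      rw [h1, h2, h3]
    · funext i
      have h1 := (hmem _ hw.1.2 i).1
      have h2 := (hmem _ hw'.1.2 i).1
      have h3 : (w.2 i - (r : ℤ)) / p = (w'.2 i - r) / p := congrFun heq.2 i
      rw [h1, h2, h3]

lemma class_count (k s X p r : ℕ) (hp : p.Prime) (hk : 1 ≤ k) (hpk : k < p) (hX : X ≤ p ^ k)
    (hr : r < p) (A : Finset (Fin k → ℤ)) (hA : A ⊆ bx k X)
    (hinj : ∀ x ∈ A, ∀ i j, i ≠ j → ¬ (p : ℤ) ∣ x i - x j) :
    (((A ×ˢ cls s X p r) ×ˢ (A ×ˢ cls s X p r)).filter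
      (fun w => psm k w.1.1 + psm k w.1.2 = psm k w.2.1 + psm k w.2.2)).card ≤
      Jm k s (X / p + 1) * (X ^ k * (k ^ k * p ^ (k * (k - 1) / 2))) := by
  classical
  have hp0 : (0 : ℤ) < p := by exact_mod_cast hp.pos
  obtain ⟨G, hG⟩ : ∃ G : Finset ((Fin k → ℤ) × (Fin k → ℤ)), G = (A ×ˢ A).filter
      (fun z => ∀ j : Fin k, ((p : ℤ) ^ ((j : ℕ) + 1)) ∣
      ∑ i, (z.1 i - (r : ℤ)) ^ ((j : ℕ) + 1) - ∑ i, (z.2 i - (r : ℤ)) ^ ((j : ℕ) + 1)) := ⟨_, rfl⟩
  have hGcard : G.card ≤ X ^ k * (k ^ k * p ^ (k * (k - 1) / 2)) := by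
    have h1 : G.card ≤ (k ^ k * p ^ (k * (k - 1) / 2)) * A.card := by
      refine Finset.card_le_mul_card_image_of_maps_to (f := fun z => z.2) ?_ _ ?_
      · intro z hz
        rw [hG, Finset.mem_filter, Finset.mem_product] at hz
        exact hz.1.2
      · intro y _
        refine le_trans ?_ (linnik p k X hp hk hpk hX r
          (fun j => ∑ i, (y i - r) ^ ((j : ℕ) + 1)) A hA hinj)
        refine Finset.card_le_card_of_injOn (fun z => z.1) ?_ ?_
        · intro z hz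
          rw [Finset.mem_coe, Finset.mem_filter, hG, Finset.mem_filter, Finset.mem_product] at hz
          rw [Finset.mem_coe, Finset.mem_filter]
          refine ⟨hz.1.1.1, fun j => ?_⟩
          have := hz.1.2 j
          rw [hz.2] at this
          exact this
        · intro z hz z' hz' h
          rw [Finset.mem_coe, Finset.mem_filter] at hz hz'
          exact Prod.ext h (hz.2.trans hz'.2.symm)
    have h2 : A.card ≤ X ^ k := (Finset.card_le_card hA).trans (card_bx k X).le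
    calc G.card ≤ (k ^ k * p ^ (k * (k - 1) / 2)) * A.card := h1
      _ ≤ (k ^ k * p ^ (k * (k - 1) / 2)) * X ^ k := Nat.mul_le_mul_left _ h2
      _ = _ := by ring
  refine le_trans ?_ (Nat.mul_le_mul_left _ hGcard)
  refine Finset.card_le_mul_card_image_of_maps_to (f := fun w => (w.1.1, w.2.1)) ?_ _ ?_
  · intro w hw
    rw [Finset.mem_filter, Finset.mem_product, Finset.mem_product, Finset.mem_product] at hw
    obtain ⟨⟨⟨h1, h2⟩, h3, h4⟩, h5⟩ := hw
    rw [hG, Finset.mem_filter, Finset.mem_product]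
    refine ⟨⟨h1, h3⟩, fun j => ?_⟩
    have ht := translate w.1.1 w.2.1 w.1.2 w.2.2 h5 r ((j : ℕ) + 1) (by omega)
    have e1 : ∀ u ∈ cls s X p r, ((p : ℤ) ^ ((j : ℕ) + 1)) ∣ ∑ i, (u i - (r : ℤ)) ^ ((j : ℕ) + 1) := by
      intro u hu
      refine Finset.dvd_sum fun i _ => pow_dvd_pow_of_dvd ?_ _
      unfold cls at hu
      rw [Fintype.mem_piFinset] at hu
      have h1 := (Finset.mem_filter.1 (hu i)).2
      have h2 := Int.emod_add_mul_ediv (u i) (p : ℤ)
      rw [h1] at h2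
      exact ⟨u i / p, by linarith⟩
    have e2 : ∑ i, (w.1.1 i - (r : ℤ)) ^ ((j : ℕ) + 1) - ∑ i, (w.2.1 i - (r : ℤ)) ^ ((j : ℕ) + 1) =
        ∑ i, (w.2.2 i - (r : ℤ)) ^ ((j : ℕ) + 1) - ∑ i, (w.1.2 i - (r : ℤ)) ^ ((j : ℕ) + 1) := by
      linarith
    simp only
    rw [e2]
    exact dvd_sub (e1 _ h4) (e1 _ h2)
  · intro z _
    refine le_trans ?_ (fiber_count k s X p r hp.one_le hr z.1 z.2)
    refine Finset.card_le_card_of_injOn (fun w => (w.1.2, w.2.2)) ?_ ?_
    · intro w hw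
      rw [Finset.mem_coe, Finset.mem_filter, Finset.mem_filter, Finset.mem_product,
        Finset.mem_product, Finset.mem_product] at hw
      obtain ⟨⟨⟨⟨h1, h2⟩, h3, h4⟩, h5⟩, h6⟩ := hw
      rw [Finset.mem_coe, Finset.mem_filter, Finset.mem_product]
      refine ⟨⟨h2, h4⟩, ?_⟩
      rw [← h6]
      exact h5
    · intro w hw w' hw' h
      rw [Finset.mem_coe, Finset.mem_filter] at hw hw'
      have h1 := hw.2.trans hw'.2.symm
      rw [Prod.mk.injEq] at h h1
      exact Prod.ext (Prod.ext h1.1 h.1) (Prod.ext h1.2 h.2)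

end Pool.Agent.helper132_poly
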