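import Pool.Agent.helper132_poly.V3

/-! The recursion for mean values. -/

namespace Pool.Agent.helper132_poly

open Finset Pool.Agent.helper132_sph

lemma moment_eq {k : ℕ} {ι : Type} (N : ℕ) (hN : 1 ≤ N) (I : Finset ι) (Φ : ι → Fin k → ℤ)
    (h : ∀ x ∈ I, ∀ y ∈ I, ∀ j, |Φ x j - Φ y j| < N) :
    ∑ a ∈ gr k N, ‖Sg N I Φ a‖ ^ 2 =
      (N : ℝ) ^ k * (((I ×ˢ I).filter (fun w => Φ w.1 = Φ w.2)).card : ℝ) := by
  classical
  have h1 := orth N hN (I ×ˢ I) (fun w => Φ w.1 + -Φ w.2) (by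
    intro w hw j
    rw [Finset.mem_product] at hw
    have := h _ hw.1 _ hw.2 j
    rwa [sub_eq_add_neg] at this)
  have e1 : ∀ a, Sg N (I ×ˢ I) (fun w => Φ w.1 + -Φ w.2) a = ((‖Sg N I Φ a‖ ^ 2 : ℝ) : ℂ) := by
    intro a
    have := Sg_mul N I Φ I (fun i => -Φ i) a
    rw [← this, ← Sg_conj, Complex.mul_conj']
    push_cast
    rfl
  have f1 : {w ∈ I ×ˢ I | Φ w.1 + -Φ w.2 = 0} = {w ∈ I ×ˢ I | Φ w.1 = Φ w.2} := by
    refine Finset.filter_congr fun w _ => ?_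
    rw [← sub_eq_add_neg, sub_eq_zero]
  rw [f1] at h1
  have : ((∑ a ∈ gr k N, ‖Sg N I Φ a‖ ^ 2 : ℝ) : ℂ) =
      (((N : ℝ) ^ k * (({w ∈ I ×ˢ I | Φ w.1 = Φ w.2}).card : ℝ) : ℝ) : ℂ) := by
    push_cast
    rw [← h1]
    refine Finset.sum_congr rfl fun a _ => ?_
    rw [e1]
    push_cast
    rfl
  exact_mod_cast this

lemma psm_bound (k s X : ℕ) (hX : 1 ≤ X) (u : Fin s → ℤ) (hu : ∀ i, 0 ≤ u i ∧ u i < X) (j : Fin k) :
    0 ≤ psm k u j ∧ psm k u j ≤ s * (X : ℤ) ^ k := by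
  rw [psm_apply]
  constructor
  · exact Finset.sum_nonneg fun i _ => pow_nonneg (hu i).1 _
  · calc ∑ i, (u i) ^ ((j : ℕ) + 1) ≤ ∑ _i : Fin s, (X : ℤ) ^ k := by
          refine Finset.sum_le_sum fun i _ => ?_
          have hXz : (1 : ℤ) ≤ X := by exact_mod_cast hX
          calc (u i) ^ ((j : ℕ) + 1) ≤ (X : ℤ) ^ ((j : ℕ) + 1) := pow_le_pow_left₀ (hu i).1 (hu i).2.le _
            _ ≤ (X : ℤ) ^ k := pow_le_pow_right₀ hXz (by omega)
      _ = s * (X : ℤ) ^ k := by simp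

/-- the basic exponential sum. -/
noncomputable def Fs (k N X : ℕ) (a : Fin k → ℕ) : ℂ := Sg N (Ico (0 : ℤ) X) (mom k) a

lemma Fs_pow (k N X s : ℕ) (a : Fin k → ℕ) : Fs k N X a ^ s = Sg N (bx s X) (psm k) a := by
  unfold Fs
  rw [Sg_pow]
  rfl

lemma Jm_eq (k s X N : ℕ) (hX : 1 ≤ X) (hN : s * X ^ k < N) :
    ∑ a ∈ gr k N, ‖Fs k N X a‖ ^ (2 * s) = (N : ℝ) ^ k * Jm k s X := by
  have h := moment_eq N (by omega) (bx s X) (psm k) (by
    intro x hx y hy j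
    have h1 := psm_bound k s X hX x (mem_bx.1 hx) j
    have h2 := psm_bound k s X hX y (mem_bx.1 hy) j
    have h3 : ((s * X ^ k : ℕ) : ℤ) < N := by exact_mod_cast hN
    push_cast at h3
    rw [abs_lt]
    constructor <;> linarith [h1.1, h1.2, h2.1, h2.2])
  unfold Jm
  rw [← h]
  refine Finset.sum_congr rfl fun a _ => ?_
  rw [← Fs_pow, norm_pow, ← pow_mul, mul_comm]

/-- the number of solutions with the first block in `A`. -/
noncomputable def cA (k s X : ℕ) (A : Finset (Fin k → ℤ)) : ℕ :=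
  (((A ×ˢ bx s X) ×ˢ bx (k + s) X).filter (fun w => psm k w.1.1 + psm k w.1.2 = psm k w.2)).card

lemma cA_eq (k s X N : ℕ) (hX : 1 ≤ X) (hN : (k + s) * X ^ k < N) (A : Finset (Fin k → ℤ))
    (hA : A ⊆ bx k X) :
    ∑ a ∈ gr k N, Sg N A (psm k) a * Fs k N X a ^ s * (starRingEnd ℂ) (Fs k N X a ^ (k + s)) =
      (N : ℂ) ^ k * (cA k s X A : ℂ) := by
  classical
  have h := orth N (by omega) ((A ×ˢ bx s X) ×ˢ bx (k + s) X)
    (fun w => psm k w.1.1 + psm k w.1.2 + -psm k w.2) (by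
      intro w hw j
      rw [Finset.mem_product, Finset.mem_product] at hw
      obtain ⟨⟨h1, h2⟩, h3⟩ := hw
      have a1 := psm_bound k k X hX w.1.1 (mem_bx.1 (hA h1)) j
      have a2 := psm_bound k s X hX w.1.2 (mem_bx.1 h2) j
      have a3 := psm_bound k (k + s) X hX w.2 (mem_bx.1 h3) j
      have h3 : (((k + s) * X ^ k : ℕ) : ℤ) < N := by exact_mod_cast hN
      push_cast at h3 a3
      simp only [Pi.add_apply, Pi.neg_apply]
      rw [abs_lt]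
      constructor <;> linarith [a1.1, a1.2, a2.1, a2.2, a3.1, a3.2])
  unfold cA
  have f1 : {w ∈ (A ×ˢ bx s X) ×ˢ bx (k + s) X | psm k w.1.1 + psm k w.1.2 + -psm k w.2 = 0} =
      {w ∈ (A ×ˢ bx s X) ×ˢ bx (k + s) X | psm k w.1.1 + psm k w.1.2 = psm k w.2} := by
    refine Finset.filter_congr fun w _ => ?_
    rw [← sub_eq_add_neg, sub_eq_zero]
  rw [f1] at h
  rw [← h]
  refine Finset.sum_congr rfl fun a _ => ?_
  rw [Fs_pow, Fs_pow, Sg_conj, Sg_mul]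
  exact Sg_mul N (A ×ˢ bx s X) (fun w => psm k w.1 + psm k w.2) (bx (k + s) X) (fun i => -psm k i) a

lemma cA_le (k s X N : ℕ) (hX : 1 ≤ X) (hN : (k + s) * X ^ k < N) (A : Finset (Fin k → ℤ))
    (hA : A ⊆ bx k X) :
    (N : ℝ) ^ k * (cA k s X A : ℝ) ≤
      ∑ a ∈ gr k N, ‖Sg N A (psm k) a‖ * ‖Fs k N X a‖ ^ s * ‖Fs k N X a‖ ^ (k + s) := by
  have h := congrArg norm (cA_eq k s X N hX hN A hA)
  rw [norm_mul, norm_pow, Complex.norm_natCast, Complex.norm_natCast] at h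
  rw [← h]
  refine (norm_sum_le _ _).trans (Finset.sum_le_sum fun a _ => ?_)
  rw [norm_mul, norm_mul, RCLike.norm_conj, norm_pow, norm_pow]

lemma cA_full (k s X : ℕ) (hX : 1 ≤ X) : cA k s X (bx k X) = Jm k (k + s) X := by
  obtain ⟨N, hN⟩ : ∃ N, N = (k + s) * X ^ k + 1 := ⟨_, rfl⟩
  have h1 := cA_eq k s X N hX (by omega) (bx k X) (Finset.Subset.refl _)
  have h2 := Jm_eq k (k + s) X N hX (by omega)
  have h3 : ((N : ℝ) ^ k * (cA k s X (bx k X) : ℝ)) = (N : ℝ) ^ k * Jm k (k + s) X := by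
    rw [← h2]
    have : (((N : ℝ) ^ k * (cA k s X (bx k X) : ℝ) : ℝ) : ℂ) =
        ((∑ a ∈ gr k N, ‖Fs k N X a‖ ^ (2 * (k + s)) : ℝ) : ℂ) := by
      push_cast
      rw [← h1]
      refine Finset.sum_congr rfl fun a _ => ?_
      rw [← Fs_pow, ← pow_add, Complex.mul_conj', norm_pow]
      push_cast
      rw [← pow_mul, mul_comm (k + s) 2]
    exact_mod_cast this
  have hNp : (0 : ℝ) < (N : ℝ) ^ k := by
    have : (0 : ℝ) < N := by rw [hN]; positivity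
    positivity
  have := mul_left_cancel₀ hNp.ne' h3
  exact_mod_cast this

lemma sing_bound (k X N : ℕ) (a : Fin k → ℕ) (i j : Fin k) (hij : i ≠ j) :
    ‖Sg N ((bx k X).filter (fun x => x i = x j)) (psm k) a‖ ≤ X * ‖Fs k N X a‖ ^ (k - 2) := by
  classical
  have h1 : Sg N ((bx k X).filter (fun x => x i = x j)) (psm k) a =
      ∑ c ∈ Ico (0 : ℤ) X, Sg N (Fintype.piFinset (fun l : Fin k =>
        if l = i ∨ l = j then ({c} : Finset ℤ) else Ico (0 : ℤ) X)) (psm k) a := by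
    unfold Sg
    rw [← Finset.sum_fiberwise_of_maps_to (s := (bx k X).filter (fun x => x i = x j))
      (t := Ico (0 : ℤ) X) (g := fun x => x i)]
    · refine Finset.sum_congr rfl fun c hc => ?_
      refine Finset.sum_congr ?_ fun _ _ => rfl
      ext x
      rw [Finset.mem_filter, Finset.mem_filter, Fintype.mem_piFinset, mem_bx]
      rw [Finset.mem_Ico] at hc
      constructor
      · rintro ⟨⟨h1, h2⟩, h3⟩ l
        split_ifs with h
        · rw [Finset.mem_singleton]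
          rcases h with rfl | rfl
          · exact h3
          · rw [← h2]; exact h3
        · rw [Finset.mem_Ico]; exact h1 l
      · intro h
        have hi := h i
        have hj := h j
        rw [if_pos (Or.inl rfl), Finset.mem_singleton] at hi
        rw [if_pos (Or.inr rfl), Finset.mem_singleton] at hj
        refine ⟨⟨fun l => ?_, by rw [hi, hj]⟩, hi⟩
        have hl := h l
        split_ifs at hl with h5
        · rw [Finset.mem_singleton] at hl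
          rw [hl]; exact hc
        · exact Finset.mem_Ico.1 hl
    · intro x hx
      rw [Finset.mem_filter, mem_bx] at hx
      exact Finset.mem_Ico.2 (hx.1 i)
  rw [h1]
  refine (norm_sum_le _ _).trans ?_
  have h2 : ∀ c ∈ Ico (0 : ℤ) X, ‖Sg N (Fintype.piFinset (fun l : Fin k =>
        if l = i ∨ l = j then ({c} : Finset ℤ) else Ico (0 : ℤ) X)) (psm k) a‖ ≤
      ‖Fs k N X a‖ ^ (k - 2) := by
    intro c _
    have h3 : Sg N (Fintype.piFinset (fun l : Fin k =>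
        if l = i ∨ l = j then ({c} : Finset ℤ) else Ico (0 : ℤ) X)) (psm k) a =
        ∏ l : Fin k, ∑ y ∈ (if l = i ∨ l = j then ({c} : Finset ℤ) else Ico (0 : ℤ) X),
          eg N a (mom k y) := by
      unfold Sg
      rw [Finset.prod_univ_sum]
      refine Finset.sum_congr rfl fun x _ => ?_
      unfold psm
      rw [eg_sum]
    rw [h3, norm_prod]
    have h4 : ∀ l ∈ (Finset.univ : Finset (Fin k)),
        ‖∑ y ∈ (if l = i ∨ l = j then ({c} : Finset ℤ) else Ico (0 : ℤ) X), eg N a (mom k y)‖ =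
        if l = i ∨ l = j then 1 else ‖Fs k N X a‖ := by
      intro l _
      split_ifs with h
      · rw [Finset.sum_singleton, norm_eg]
      · rfl
    rw [Finset.prod_congr rfl h4, Finset.prod_ite, Finset.prod_const_one, one_mul, Finset.prod_const]
    refine le_of_eq ?_
    congr 1
    have h5 : (Finset.univ.filter (fun l : Fin k => ¬ (l = i ∨ l = j))) = Finset.univ \ {i, j} := by
      ext l
      simp
    rw [h5, Finset.card_sdiff_of_subset (Finset.subset_univ _), Finset.card_univ, Fintype.card_fin,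
      Finset.card_pair hij]
  refine (Finset.sum_le_sum h2).trans ?_
  rw [Finset.sum_const, Int.card_Ico, nsmul_eq_mul]
  simp

lemma class_split (k X N p s : ℕ) (hp : 1 ≤ p) (a : Fin k → ℕ) :
    ‖Fs k N X a‖ ^ (2 * s) * p ≤
      (p : ℝ) ^ (2 * s) * ∑ r ∈ range p, ‖Sg N (cls s X p r) (psm k) a‖ ^ 2 := by
  classical
  obtain ⟨fr, hfr⟩ : ∃ fr : ℕ → ℂ, fr = fun (r : ℕ) =>
    Sg N ((Ico (0 : ℤ) X).filter (fun x => x % (p : ℤ) = (r : ℤ))) (mom k) a := ⟨_, rfl⟩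
  have h1 : Fs k N X a = ∑ r ∈ range p, fr r := by
    rw [hfr]
    unfold Fs Sg
    have hp0 : (0 : ℤ) < p := by exact_mod_cast hp
    have h2 : ∀ r ∈ range p, ∑ i ∈ (Ico (0 : ℤ) X).filter (fun x => x % (p : ℤ) = (r : ℤ)), eg N a (mom k i) =
        ∑ i ∈ (Ico (0 : ℤ) X).filter (fun x => (x % (p : ℤ)).toNat = r), eg N a (mom k i) := by
      intro r _
      refine Finset.sum_congr ?_ fun _ _ => rfl
      refine Finset.filter_congr fun x _ => ?_
      have := Int.emod_nonneg x hp0.ne'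
      omega
    simp only
    rw [Finset.sum_congr rfl h2, Finset.sum_fiberwise_of_maps_to]
    intro x _
    have h3 := Int.emod_nonneg x hp0.ne'
    have h4 := Int.emod_lt_of_pos x hp0
    rw [Finset.mem_range]
    omega
  have h2 : ∀ r, ‖fr r‖ ^ (2 * s) = ‖Sg N (cls s X p r) (psm k) a‖ ^ 2 := by
    intro r
    rw [mul_comm, pow_mul, ← norm_pow, hfr]
    simp only
    rw [Sg_pow]
    rfl
  have h3 := pow_mean (range p) (fun r => ‖fr r‖) (fun _ _ => norm_nonneg _) (2 * s)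
  rw [Finset.card_range] at h3
  rw [Finset.sum_congr rfl (fun r _ => h2 r)] at h3
  refine le_trans ?_ h3
  refine mul_le_mul_of_nonneg_right ?_ (Nat.cast_nonneg _)
  refine pow_le_pow_left₀ (norm_nonneg _) ?_ _
  rw [h1]
  exact norm_sum_le _ _

lemma Q_bound (k s X N p : ℕ) (hX1 : 1 ≤ X) (hN : (k + s) * X ^ k < N) (hp : p.Prime) (hk : 1 ≤ k)
    (hpk : k < p) (hX : X ≤ p ^ k) (A : Finset (Fin k → ℤ)) (hA : A ⊆ bx k X)
    (hinj : ∀ x ∈ A, ∀ i j, i ≠ j → ¬ (p : ℤ) ∣ x i - x j) :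
    ∑ a ∈ gr k N, ‖Sg N A (psm k) a‖ ^ 2 * ‖Fs k N X a‖ ^ (2 * s) ≤
      (N : ℝ) ^ k * ((p : ℝ) ^ (2 * s) *
        (Jm k s (X / p + 1) * (X ^ k * (k ^ k * p ^ (k * (k - 1) / 2))))) := by
  classical
  have hpR : (0 : ℝ) < p := by exact_mod_cast hp.pos
  have hcls : ∀ r, cls s X p r ⊆ bx s X := by
    intro r u hu
    unfold cls at hu
    rw [Fintype.mem_piFinset] at hu
    rw [mem_bx]
    intro i
    exact Finset.mem_Ico.1 (Finset.mem_filter.1 (hu i)).1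
  have hone : ∀ r ∈ range p, ∑ a ∈ gr k N, ‖Sg N A (psm k) a‖ ^ 2 * ‖Sg N (cls s X p r) (psm k) a‖ ^ 2 ≤
      (N : ℝ) ^ k * (Jm k s (X / p + 1) * (X ^ k * (k ^ k * p ^ (k * (k - 1) / 2)))) := by
    intro r hr
    rw [Finset.mem_range] at hr
    have h1 := moment_eq N (by omega) (A ×ˢ cls s X p r) (fun w => psm k w.1 + psm k w.2) (by
      intro x hx y hy j
      rw [Finset.mem_product] at hx hy
      have a1 := psm_bound k k X hX1 x.1 (mem_bx.1 (hA hx.1)) j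
      have a2 := psm_bound k s X hX1 x.2 (mem_bx.1 (hcls r hx.2)) j
      have a3 := psm_bound k k X hX1 y.1 (mem_bx.1 (hA hy.1)) j
      have a4 := psm_bound k s X hX1 y.2 (mem_bx.1 (hcls r hy.2)) j
      have h3 : (((k + s) * X ^ k : ℕ) : ℤ) < N := by exact_mod_cast hN
      push_cast at h3
      simp only [Pi.add_apply]
      rw [abs_lt]
      constructor <;> linarith [a1.1, a1.2, a2.1, a2.2, a3.1, a3.2, a4.1, a4.2])
    have h2 := class_count k s X p r hp hk hpk hX hr A hA hinj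
    have h3 : ∀ a, ‖Sg N A (psm k) a‖ ^ 2 * ‖Sg N (cls s X p r) (psm k) a‖ ^ 2 =
        ‖Sg N (A ×ˢ cls s X p r) (fun w => psm k w.1 + psm k w.2) a‖ ^ 2 := by
      intro a
      rw [← Sg_mul, norm_mul, mul_pow]
    rw [Finset.sum_congr rfl (fun a _ => h3 a), h1]
    refine mul_le_mul_of_nonneg_left ?_ (by positivity)
    exact_mod_cast h2
  have h1 : (∑ a ∈ gr k N, ‖Sg N A (psm k) a‖ ^ 2 * ‖Fs k N X a‖ ^ (2 * s)) * p ≤
      ((N : ℝ) ^ k * ((p : ℝ) ^ (2 * s) *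
        (Jm k s (X / p + 1) * (X ^ k * (k ^ k * p ^ (k * (k - 1) / 2)))))) * p := by
    calc (∑ a ∈ gr k N, ‖Sg N A (psm k) a‖ ^ 2 * ‖Fs k N X a‖ ^ (2 * s)) * p
        = ∑ a ∈ gr k N, ‖Sg N A (psm k) a‖ ^ 2 * (‖Fs k N X a‖ ^ (2 * s) * p) := by
          rw [Finset.sum_mul]
          refine Finset.sum_congr rfl fun a _ => by ring
      _ ≤ ∑ a ∈ gr k N, ‖Sg N A (psm k) a‖ ^ 2 *
          ((p : ℝ) ^ (2 * s) * ∑ r ∈ range p, ‖Sg N (cls s X p r) (psm k) a‖ ^ 2) :=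
          Finset.sum_le_sum fun a _ =>
            mul_le_mul_of_nonneg_left (class_split k X N p s hp.one_le a) (by positivity)
      _ = (p : ℝ) ^ (2 * s) * ∑ r ∈ range p, ∑ a ∈ gr k N,
          ‖Sg N A (psm k) a‖ ^ 2 * ‖Sg N (cls s X p r) (psm k) a‖ ^ 2 := by
          rw [Finset.sum_comm, Finset.mul_sum]
          refine Finset.sum_congr rfl fun a _ => ?_
          rw [← Finset.mul_sum]
          ring
      _ ≤ (p : ℝ) ^ (2 * s) * ∑ r ∈ range p, (N : ℝ) ^ k *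
          (Jm k s (X / p + 1) * (X ^ k * (k ^ k * p ^ (k * (k - 1) / 2)))) :=
          mul_le_mul_of_nonneg_left (Finset.sum_le_sum hone) (by positivity)
      _ = _ := by
          rw [Finset.sum_const, Finset.card_range, nsmul_eq_mul]
          ring
  exact le_of_mul_le_mul_right h1 hpR

/-- the recursion. -/
theorem Jm_rec (k s X B : ℕ) (hk : 1 ≤ k) (hX1 : 1 ≤ X) (hXB : X ≤ B ^ k) (hkB : k ≤ B)
    (P : Finset ℕ) (hP : ∀ p ∈ P, p.Prime ∧ B < p) (hPc : P.card = k ^ 3) :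
    (Jm k (k + s) X : ℝ) ≤ 2 * (4 * (k : ℝ) ^ 2 * X) ^ (k + s) +
      2 * (k : ℝ) ^ 3 * ∑ p ∈ P, ((p : ℝ) ^ (2 * s) *
        (Jm k s (X / p + 1) * (X ^ k * (k ^ k * (p : ℝ) ^ (k * (k - 1) / 2))))) := by
  classical
  obtain ⟨N, hN⟩ : ∃ N, N = (k + s) * X ^ k + 1 := ⟨_, rfl⟩
  have hNb : (k + s) * X ^ k < N := by omega
  have hkR : (1 : ℝ) ≤ k := by exact_mod_cast hk
  have hXR : (1 : ℝ) ≤ X := by exact_mod_cast hX1
  have hNp : (0 : ℝ) < (N : ℝ) ^ k := by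
    have : (0 : ℝ) < N := by rw [hN]; positivity
    positivity
  obtain ⟨t, ht⟩ : ∃ t, t = k + s := ⟨_, rfl⟩
  obtain ⟨M, hM⟩ : ∃ M : ℝ, M = (N : ℝ) ^ k * Jm k (k + s) X := ⟨_, rfl⟩
  have hMe := Jm_eq k (k + s) X N hX1 hNb
  rw [← hM] at hMe
  obtain ⟨Ap, hAp⟩ : ∃ Ap : ℕ → Finset (Fin k → ℤ), Ap = fun (p : ℕ) =>
    (bx k X).filter (fun x => ∀ i j, i ≠ j → ¬ (p : ℤ) ∣ x i - x j) := ⟨_, rfl⟩
  obtain ⟨As, hAs⟩ : ∃ As : Fin k × Fin k → Finset (Fin k → ℤ), As = fun w =>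
    (bx k X).filter (fun x => x w.1 = x w.2) := ⟨_, rfl⟩
  obtain ⟨O, hO⟩ : ∃ O : Finset (Fin k × Fin k), O = Finset.univ.filter (fun w => w.1 ≠ w.2) := ⟨_, rfl⟩
  have hOc : (O.card : ℝ) ≤ (k : ℝ) ^ 2 := by
    have h1 : O.card ≤ k * k := by
      rw [hO]
      refine (Finset.card_filter_le _ _).trans ?_
      rw [Finset.card_univ, Fintype.card_prod, Fintype.card_fin]
    calc (O.card : ℝ) ≤ ((k * k : ℕ) : ℝ) := by exact_mod_cast h1
      _ = (k : ℝ) ^ 2 := by push_cast; ring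
  -- covering
  have hcover : cA k s X (bx k X) ≤ ∑ w ∈ O, cA k s X (As w) + ∑ p ∈ P, cA k s X (Ap p) := by
    have h1 : ((bx k X ×ˢ bx s X) ×ˢ bx (k + s) X).filter
        (fun w => psm k w.1.1 + psm k w.1.2 = psm k w.2) ⊆
        (O.biUnion (fun v => ((As v ×ˢ bx s X) ×ˢ bx (k + s) X).filter
          (fun w => psm k w.1.1 + psm k w.1.2 = psm k w.2))) ∪
        (P.biUnion (fun p => ((Ap p ×ˢ bx s X) ×ˢ bx (k + s) X).filter
          (fun w => psm k w.1.1 + psm k w.1.2 = psm k w.2))) := by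
      intro w hw
      rw [Finset.mem_filter, Finset.mem_product, Finset.mem_product] at hw
      obtain ⟨⟨⟨h1, h2⟩, h3⟩, h4⟩ := hw
      rw [Finset.mem_union]
      by_cases hinj : ∀ i j, i ≠ j → w.1.1 i ≠ w.1.1 j
      · right
        obtain ⟨p, hp, hpp⟩ := exists_good_prime k X B hk hXB P hP hPc.ge w.1.1 h1 hinj
        rw [Finset.mem_biUnion]
        refine ⟨p, hp, ?_⟩
        rw [Finset.mem_filter, Finset.mem_product, Finset.mem_product, hAp]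
        simp only
        rw [Finset.mem_filter]
        exact ⟨⟨⟨⟨h1, hpp⟩, h2⟩, h3⟩, h4⟩
      · left
        push Not at hinj
        obtain ⟨i, j, hij, he⟩ := hinj
        rw [Finset.mem_biUnion]
        refine ⟨(i, j), ?_, ?_⟩
        · rw [hO, Finset.mem_filter]; exact ⟨Finset.mem_univ _, hij⟩
        · rw [Finset.mem_filter, Finset.mem_product, Finset.mem_product, hAs]
          simp only
          rw [Finset.mem_filter]
          exact ⟨⟨⟨⟨h1, he⟩, h2⟩, h3⟩, h4⟩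
    unfold cA
    refine (Finset.card_le_card h1).trans ((Finset.card_union_le _ _).trans ?_)
    exact Nat.add_le_add Finset.card_biUnion_le Finset.card_biUnion_le
  have hcovR : (cA k s X (bx k X) : ℝ) ≤ ∑ w ∈ O, (cA k s X (As w) : ℝ) + ∑ p ∈ P, (cA k s X (Ap p) : ℝ) := by
    exact_mod_cast hcover
  rw [cA_full k s X hX1] at hcovR
  -- singular part
  have hsing : ∀ w ∈ O, (N : ℝ) ^ k * (cA k s X (As w) : ℝ) ≤
      ∑ a ∈ gr k N, X * ‖Fs k N X a‖ ^ (2 * t - 2) := by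
    intro w hw
    rw [hO, Finset.mem_filter] at hw
    have hk2 : 2 ≤ k := by
      by_contra hlt
      have h1 : k = 1 := by omega
      subst h1
      exact hw.2 (Subsingleton.elim _ _)
    have h1 := cA_le k s X N hX1 hNb (As w) (by rw [hAs]; exact Finset.filter_subset _ _)
    refine h1.trans (Finset.sum_le_sum fun a _ => ?_)
    have h2 := sing_bound k X N a w.1 w.2 hw.2
    rw [hAs]
    simp only
    calc ‖Sg N ((bx k X).filter (fun x => x w.1 = x w.2)) (psm k) a‖ * ‖Fs k N X a‖ ^ s * ‖Fs k N X a‖ ^ (k + s)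
        ≤ (X * ‖Fs k N X a‖ ^ (k - 2)) * ‖Fs k N X a‖ ^ s * ‖Fs k N X a‖ ^ (k + s) := by gcongr
      _ = X * ‖Fs k N X a‖ ^ (2 * t - 2) := by
          rw [mul_assoc, mul_assoc, ← pow_add, ← pow_add]
          congr 2
          omega
  -- nonsingular part
  obtain ⟨Q, hQ⟩ : ∃ Q : ℕ → ℝ, Q = fun (p : ℕ) => (p : ℝ) ^ (2 * s) *
        (Jm k s (X / p + 1) * (X ^ k * (k ^ k * (p : ℝ) ^ (k * (k - 1) / 2)))) := ⟨_, rfl⟩
  have hn : (0 : ℝ) < (k : ℝ) ^ 3 := by positivity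
  have hreg : ∀ p ∈ P, (N : ℝ) ^ k * (cA k s X (Ap p) : ℝ) ≤
      (k : ℝ) ^ 3 * ((N : ℝ) ^ k * Q p) + M / (4 * (k : ℝ) ^ 3) := by
    intro p hp
    obtain ⟨hp1, hp2⟩ := hP p hp
    have hsub : Ap p ⊆ bx k X := by rw [hAp]; exact Finset.filter_subset _ _
    have h1 := cA_le k s X N hX1 hNb (Ap p) hsub
    have hXp : X ≤ p ^ k := hXB.trans (Nat.pow_le_pow_left hp2.le k)
    have h2 := Q_bound k s X N p hX1 hNb hp1 hk (by omega) hXp (Ap p) hsub (by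
      intro x hx
      rw [hAp] at hx
      exact (Finset.mem_filter.1 hx).2)
    refine h1.trans ?_
    have h3 : ∀ a ∈ gr k N, ‖Sg N (Ap p) (psm k) a‖ * ‖Fs k N X a‖ ^ s * ‖Fs k N X a‖ ^ (k + s) ≤
        (k : ℝ) ^ 3 * (‖Sg N (Ap p) (psm k) a‖ ^ 2 * ‖Fs k N X a‖ ^ (2 * s)) +
          ‖Fs k N X a‖ ^ (2 * (k + s)) / (4 * (k : ℝ) ^ 3) := by
      intro a _
      obtain ⟨y, hy⟩ : ∃ y, y = ‖Sg N (Ap p) (psm k) a‖ * ‖Fs k N X a‖ ^ s := ⟨_, rfl⟩
      obtain ⟨z, hz⟩ : ∃ z, z = ‖Fs k N X a‖ ^ (k + s) := ⟨_, rfl⟩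
      have e1 : ‖Sg N (Ap p) (psm k) a‖ ^ 2 * ‖Fs k N X a‖ ^ (2 * s) = y ^ 2 := by
        rw [hy, mul_pow, ← pow_mul, mul_comm s 2]
      have e2 : ‖Fs k N X a‖ ^ (2 * (k + s)) = z ^ 2 := by
        rw [hz, ← pow_mul, mul_comm (k + s) 2]
      rw [e1, e2, ← hy, ← hz]
      have h4 : 0 ≤ (2 * (k : ℝ) ^ 3 * y - z) ^ 2 := sq_nonneg _
      have h5 : (k : ℝ) ^ 3 * y ^ 2 + z ^ 2 / (4 * (k : ℝ) ^ 3) - y * z =
          (2 * (k : ℝ) ^ 3 * y - z) ^ 2 / (4 * (k : ℝ) ^ 3) := by field_simp; ring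
      have h6 : 0 ≤ (2 * (k : ℝ) ^ 3 * y - z) ^ 2 / (4 * (k : ℝ) ^ 3) := by positivity
      linarith
    refine (Finset.sum_le_sum h3).trans ?_
    rw [Finset.sum_add_distrib, ← Finset.mul_sum, ← Finset.sum_div, hMe]
    have h4 : ∑ a ∈ gr k N, ‖Sg N (Ap p) (psm k) a‖ ^ 2 * ‖Fs k N X a‖ ^ (2 * s) ≤ (N : ℝ) ^ k * Q p := by
      rw [hQ]; exact h2
    have := mul_le_mul_of_nonneg_left h4 hn.le
    linarith
  -- combine
  have hS : (k : ℝ) ^ 2 * ∑ a ∈ gr k N, X * ‖Fs k N X a‖ ^ (2 * t - 2) ≤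
      M / 4 + (N : ℝ) ^ k * (4 * (k : ℝ) ^ 2 * X) ^ t := by
    have ht1 : 1 ≤ t := by omega
    have h1 : ∀ a ∈ gr k N, (k : ℝ) ^ 2 * (X * ‖Fs k N X a‖ ^ (2 * t - 2)) ≤
        ‖Fs k N X a‖ ^ (2 * t) / 4 + (4 * (k : ℝ) ^ 2 * X) ^ t := by
      intro a _
      obtain ⟨y, hy⟩ : ∃ y, y = ‖Fs k N X a‖ ^ 2 := ⟨_, rfl⟩
      have hy0 : 0 ≤ y := by rw [hy]; positivity
      have e1 : ‖Fs k N X a‖ ^ (2 * t - 2) = y ^ (t - 1) := by
        rw [hy, ← pow_mul]; congr 1; omega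
      have e2 : ‖Fs k N X a‖ ^ (2 * t) = y ^ (t - 1) * y := by
        rw [hy, ← pow_mul, ← pow_add]; congr 1; omega
      rw [e1, e2]
      have hT0 : 0 ≤ 4 * (k : ℝ) ^ 2 * X := by positivity
      have e3 : (4 * (k : ℝ) ^ 2 * X) ^ t = (4 * (k : ℝ) ^ 2 * X) ^ (t - 1) * (4 * (k : ℝ) ^ 2 * X) := by
        rw [← pow_succ]; congr 1; omega
      rcases le_or_gt y (4 * (k : ℝ) ^ 2 * X) with h | h
      · have h2 : y ^ (t - 1) ≤ (4 * (k : ℝ) ^ 2 * X) ^ (t - 1) := pow_le_pow_left₀ hy0 h _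
        have h3 : (k : ℝ) ^ 2 * (X * y ^ (t - 1)) ≤ (4 * (k : ℝ) ^ 2 * X) ^ t := by
          rw [e3]
          calc (k : ℝ) ^ 2 * (X * y ^ (t - 1)) = y ^ (t - 1) * (k ^ 2 * X) := by ring
            _ ≤ (4 * (k : ℝ) ^ 2 * X) ^ (t - 1) * (4 * (k : ℝ) ^ 2 * X) := by
                refine mul_le_mul h2 ?_ (by positivity) (by positivity)
                have : 0 ≤ (k : ℝ) ^ 2 * X := by positivity
                linarith
        have h4 : 0 ≤ y ^ (t - 1) * y / 4 := by positivity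
        linarith
      · have h2 : y ^ (t - 1) * (4 * (k : ℝ) ^ 2 * X) ≤ y ^ (t - 1) * y :=
          mul_le_mul_of_nonneg_left h.le (by positivity)
        have h4 : 0 ≤ (4 * (k : ℝ) ^ 2 * X) ^ t := by positivity
        have h5 : (k : ℝ) ^ 2 * (X * y ^ (t - 1)) = y ^ (t - 1) * (4 * (k : ℝ) ^ 2 * X) / 4 := by ring
        rw [h5]
        linarith
    rw [Finset.mul_sum]
    refine (Finset.sum_le_sum h1).trans ?_
    rw [Finset.sum_add_distrib, ← Finset.sum_div, Finset.sum_const, card_gr, nsmul_eq_mul]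
    rw [ht, hMe]
    push_cast
    exact le_rfl
  have hfin : M ≤ ((k : ℝ) ^ 2 * ∑ a ∈ gr k N, X * ‖Fs k N X a‖ ^ (2 * t - 2)) +
      ∑ p ∈ P, ((k : ℝ) ^ 3 * ((N : ℝ) ^ k * Q p) + M / (4 * (k : ℝ) ^ 3)) := by
    rw [hM]
    have h1 := mul_le_mul_of_nonneg_left hcovR hNp.le
    refine h1.trans ?_
    rw [← hM, mul_add, Finset.mul_sum, Finset.mul_sum]
    refine add_le_add ?_ (Finset.sum_le_sum hreg)
    refine (Finset.sum_le_sum hsing).trans ?_
    rw [Finset.sum_const, nsmul_eq_mul]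
    refine mul_le_mul_of_nonneg_right hOc ?_
    exact Finset.sum_nonneg fun a _ => by positivity
  have hsum : ∑ p ∈ P, ((k : ℝ) ^ 3 * ((N : ℝ) ^ k * Q p) + M / (4 * (k : ℝ) ^ 3)) =
      (k : ℝ) ^ 3 * ((N : ℝ) ^ k * ∑ p ∈ P, Q p) + M / 4 := by
    rw [Finset.sum_add_distrib, Finset.sum_const, hPc, nsmul_eq_mul, ← Finset.mul_sum, ← Finset.mul_sum]
    push_cast
    field_simp
  rw [hsum] at hfin
  have hend : (N : ℝ) ^ k * (Jm k (k + s) X : ℝ) ≤
      (N : ℝ) ^ k * (2 * (4 * (k : ℝ) ^ 2 * X) ^ t + 2 * (k : ℝ) ^ 3 * ∑ p ∈ P, Q p) := by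
    rw [← hM]
    have e : (N : ℝ) ^ k * (2 * (4 * (k : ℝ) ^ 2 * X) ^ t + 2 * (k : ℝ) ^ 3 * ∑ p ∈ P, Q p) =
        2 * ((N : ℝ) ^ k * (4 * (k : ℝ) ^ 2 * X) ^ t) + 2 * ((k : ℝ) ^ 3 * ((N : ℝ) ^ k * ∑ p ∈ P, Q p)) := by
      ring
    rw [e]
    linarith
  have := le_of_mul_le_mul_left hend hNp
  rw [ht, hQ] at this
  exact this

end Pool.Agent.helper132_poly
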