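import Pool.Agent.helper132_poly.V4
import Pool.Agent.helper132_sph.LB4

/-! The mean value theorem. -/

namespace Pool.Agent.helper132_poly

open Finset Pool.Agent.helper132_sph

/-- the defect exponent. -/
noncomputable def eta (k l : ℕ) : ℝ := ((k : ℝ) * (k + 1) / 2) * (1 - 1 / k) ^ l

/-- the exponent in the mean value theorem. -/
noncomputable def ee (k l : ℕ) : ℝ := 2 * k * l - (k : ℝ) * (k + 1) / 2 + eta k l

lemma eta_nonneg (k l : ℕ) (hk : 1 ≤ k) : 0 ≤ eta k l := by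
  unfold eta
  have h1 : (1 : ℝ) / k ≤ 1 := by
    rw [div_le_one (by exact_mod_cast (by omega : 0 < k))]
    exact_mod_cast hk
  have h2 : (0 : ℝ) ≤ (1 - 1 / (k : ℝ)) ^ l := pow_nonneg (by linarith) _
  positivity

lemma eta_le (k l : ℕ) (hk : 1 ≤ k) : eta k l ≤ (k : ℝ) ^ 2 := by
  unfold eta
  have hkR : (1 : ℝ) ≤ k := by exact_mod_cast hk
  have h0 : (0 : ℝ) ≤ 1 / (k : ℝ) := by positivity
  have h1 : (1 : ℝ) / k ≤ 1 := by
    rw [div_le_one (by linarith)]
    exact hkR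
  have h2 : (1 - 1 / (k : ℝ)) ^ l ≤ 1 := pow_le_one₀ (by linarith) (by linarith)
  have h3 : (k : ℝ) * (k + 1) / 2 ≤ (k : ℝ) ^ 2 := by nlinarith
  calc ((k : ℝ) * (k + 1) / 2) * (1 - 1 / k) ^ l ≤ ((k : ℝ) * (k + 1) / 2) * 1 :=
        mul_le_mul_of_nonneg_left h2 (by positivity)
    _ ≤ (k : ℝ) ^ 2 := by linarith

lemma ee_ge (k l : ℕ) (hk : 1 ≤ k) : (k : ℝ) * l ≤ ee k l := by
  have hkR : (1 : ℝ) ≤ k := by exact_mod_cast hk
  have hk0 : (0 : ℝ) < k := by linarith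
  have h1 := one_add_mul_le_pow (a := -(1 / (k : ℝ))) (by
    have : (1 : ℝ) / k ≤ 1 := by rw [div_le_one hk0]; exact hkR
    linarith) l
  have h2 : (1 + -(1 / (k : ℝ))) = 1 - 1 / k := by ring
  rw [h2] at h1
  unfold ee eta
  have h3 : ((k : ℝ) * (k + 1) / 2) * (1 + (l : ℝ) * -(1 / k)) ≤
      ((k : ℝ) * (k + 1) / 2) * (1 - 1 / k) ^ l := mul_le_mul_of_nonneg_left h1 (by positivity)
  have h4 : ((k : ℝ) * (k + 1) / 2) * (1 + (l : ℝ) * -(1 / k)) =
      (k : ℝ) * (k + 1) / 2 - l * (k + 1) / 2 := by field_simp; ring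
  rw [h4] at h3
  have h5 : (0 : ℝ) ≤ l * (k - 1) := mul_nonneg (Nat.cast_nonneg _) (by linarith)
  nlinarith

lemma ee_succ (k l : ℕ) (hk : 1 ≤ k) :
    ee k (l + 1) = k + ee k l + ((k : ℝ) ^ 2 - eta k l) * (1 / k) := by
  have hk0 : (0 : ℝ) < k := by exact_mod_cast (by omega : 0 < k)
  unfold ee eta
  push_cast
  rw [pow_succ]
  field_simp
  ring

theorem vmvt (k : ℕ) (hk : 1 ≤ k) (l : ℕ) : ∃ C : ℝ, 1 ≤ C ∧ ∀ X : ℕ, 1 ≤ X →
    (Jm k (k * l) X : ℝ) ≤ C * (X : ℝ) ^ ee k l := by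
  classical
  induction l with
  | zero =>
    refine ⟨1, le_rfl, ?_⟩
    intro X hX
    have h1 : Jm k (k * 0) X ≤ 1 := by
      unfold Jm
      refine (Finset.card_filter_le _ _).trans ?_
      rw [Finset.card_product, card_bx]
      simp
    have h2 : ee k 0 = 0 := by
      unfold ee eta
      simp
    rw [h2, Real.rpow_zero, mul_one]
    exact_mod_cast h1
  | succ l ih =>
    obtain ⟨C, hC, ih⟩ := ih
    have hC0 : 0 < C := by linarith
    have hkR : (1 : ℝ) ≤ k := by exact_mod_cast hk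
    have hk0 : (0 : ℝ) < k := by linarith
    obtain ⟨C1, hC1⟩ : ∃ C1 : ℝ, C1 = 2 ^ (k ^ 3) * (k + 2) := ⟨_, rfl⟩
    have hC11 : 1 ≤ C1 := by
      rw [hC1]
      have : (1 : ℝ) ≤ 2 ^ (k ^ 3) := one_le_pow₀ (by norm_num)
      calc (1 : ℝ) = 1 * 1 := by ring
        _ ≤ 2 ^ (k ^ 3) * (k + 2) := mul_le_mul this (by linarith) zero_le_one (by positivity)
    have hC10 : 0 < C1 := by linarith
    obtain ⟨e, he⟩ : ∃ e, e = ee k l := ⟨_, rfl⟩
    obtain ⟨g, hg⟩ : ∃ g, g = (k : ℝ) ^ 2 - eta k l := ⟨_, rfl⟩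
    have he0 : 0 ≤ e := by
      rw [he]
      exact le_trans (by positivity) (ee_ge k l hk)
    have hg0 : 0 ≤ g := by rw [hg]; linarith [eta_le k l hk]
    refine ⟨2 * (4 * (k : ℝ) ^ 2) ^ (k + k * l) + 2 * (k : ℝ) ^ 3 * ((k : ℝ) ^ 3 *
      (C * (1 + C1) ^ e * (k : ℝ) ^ k * C1 ^ g)), ?_, ?_⟩
    · have h1 : (1 : ℝ) ≤ (4 * (k : ℝ) ^ 2) ^ (k + k * l) := by
        refine one_le_pow₀ ?_
        nlinarith
      have h2 : (0 : ℝ) ≤ 2 * (k : ℝ) ^ 3 * ((k : ℝ) ^ 3 *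
        (C * (1 + C1) ^ e * (k : ℝ) ^ k * C1 ^ g)) := by positivity
      linarith
    intro X hX
    have hXR : (1 : ℝ) ≤ X := by exact_mod_cast hX
    have hX0 : (0 : ℝ) < X := by linarith
    obtain ⟨w, hw1, hw2⟩ := exists_root k X hk
    obtain ⟨x, hx⟩ : ∃ x : ℝ, x = (X : ℝ) ^ (1 / (k : ℝ)) := ⟨_, rfl⟩
    have hx1 : 1 ≤ x := by rw [hx]; exact Real.one_le_rpow hXR (by positivity)
    have hxk : x ^ k = X := by
      rw [hx, one_div]; exact Real.rpow_inv_natCast_pow hX0.le (by omega)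
    have hxX : x ≤ X := by
      rw [← hxk]; exact le_self_pow₀ hx1 (by omega)
    have hwx : (w : ℝ) ≤ x := by
      refine le_of_pow_le_pow_left₀ (n := k) (by omega) (by linarith) ?_
      rw [hxk]
      exact_mod_cast hw1
    obtain ⟨B, hB⟩ : ∃ B, B = w + 1 + k := ⟨_, rfl⟩
    have hBx : (B : ℝ) ≤ (k + 2) * x := by
      rw [hB]
      push_cast
      nlinarith
    obtain ⟨P, hPc, hP⟩ := exists_primes (k ^ 3) B (by omega)
    have hrec := Jm_rec k (k * l) X B hk hX (hw2.le.trans (Nat.pow_le_pow_left (by omega) k)) (by omega)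
      P (fun p hp => ⟨(hP p hp).1, (hP p hp).2.1⟩) hPc
    have hkl : k * (l + 1) = k + k * l := by ring
    rw [hkl]
    refine hrec.trans ?_
    have hE := ee_succ k l hk
    rw [← he, ← hg] at hE
    have hlow := ee_ge k (l + 1) hk
    rw [add_mul]
    refine add_le_add ?_ ?_
    · rw [mul_pow (4 * (k : ℝ) ^ 2), mul_assoc]
      refine mul_le_mul_of_nonneg_left ?_ (by norm_num)
      refine mul_le_mul_of_nonneg_left ?_ (by positivity)
      rw [← Real.rpow_natCast]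
      refine Real.rpow_le_rpow_of_exponent_le hXR ?_
      push_cast at hlow ⊢
      linarith
    · have e5 : 2 * (k : ℝ) ^ 3 * ((k : ℝ) ^ 3 * (C * (1 + C1) ^ e * (k : ℝ) ^ k * C1 ^ g)) *
          (X : ℝ) ^ ee k (l + 1) = 2 * (k : ℝ) ^ 3 * ((k : ℝ) ^ 3 *
            (C * (1 + C1) ^ e * (k : ℝ) ^ k * C1 ^ g) * (X : ℝ) ^ ee k (l + 1)) := by ring
      rw [e5]
      refine mul_le_mul_of_nonneg_left ?_ (by positivity)
      have hterm : ∀ p ∈ P, ((p : ℝ) ^ (2 * (k * l)) *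
          (Jm k (k * l) (X / p + 1) * (X ^ k * (k ^ k * (p : ℝ) ^ (k * (k - 1) / 2))))) ≤
          (C * (1 + C1) ^ e * (k : ℝ) ^ k * C1 ^ g) * (X : ℝ) ^ ee k (l + 1) := by
        intro p hp
        obtain ⟨hp1, hp2, hp3⟩ := hP p hp
        have hpR : (1 : ℝ) ≤ p := by exact_mod_cast hp1.one_le
        have hp0 : (0 : ℝ) < p := by linarith
        have hpC : (p : ℝ) ≤ C1 * x := by
          have h1 : (p : ℝ) ≤ 2 ^ (k ^ 3) * B := by exact_mod_cast hp3
          calc (p : ℝ) ≤ 2 ^ (k ^ 3) * B := h1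
            _ ≤ 2 ^ (k ^ 3) * ((k + 2) * x) := mul_le_mul_of_nonneg_left hBx (by positivity)
            _ = C1 * x := by rw [hC1]; ring
        have hY : ((X / p + 1 : ℕ) : ℝ) ≤ (1 + C1) * (X / p) := by
          have h1 : ((X / p : ℕ) : ℝ) ≤ (X : ℝ) / p := Nat.cast_div_le
          have h2 : 1 ≤ C1 * (X / p) := by
            rw [← mul_div_assoc, le_div_iff₀ hp0, one_mul]
            refine hpC.trans ?_
            exact mul_le_mul_of_nonneg_left hxX hC10.le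
          push_cast
          linarith
        have hJ := ih (X / p + 1) (Nat.le_add_left 1 _)
        rw [← he] at hJ
        have hJ2 : (Jm k (k * l) (X / p + 1) : ℝ) ≤ C * ((1 + C1) ^ e * ((X : ℝ) ^ e * ((p : ℝ) ^ e)⁻¹)) := by
          refine hJ.trans (mul_le_mul_of_nonneg_left ?_ hC0.le)
          calc ((X / p + 1 : ℕ) : ℝ) ^ e ≤ ((1 + C1) * (X / p)) ^ e :=
                Real.rpow_le_rpow (Nat.cast_nonneg _) hY he0
            _ = (1 + C1) ^ e * ((X : ℝ) ^ e * ((p : ℝ) ^ e)⁻¹) := by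
                rw [Real.mul_rpow (by linarith) (by positivity), Real.div_rpow hX0.le hp0.le]
                rfl
        have hhalf : (((k * (k - 1) / 2 : ℕ)) : ℝ) = (k : ℝ) * (k - 1) / 2 := by
          have h1 : 2 ∣ k * (k - 1) := (Nat.even_mul_pred_self k).two_dvd
          rw [Nat.cast_div h1 (by norm_num)]
          push_cast [Nat.cast_sub hk]
          ring
        have hpow : (p : ℝ) ^ (2 * (k * l)) * (p : ℝ) ^ (k * (k - 1) / 2) * ((p : ℝ) ^ e)⁻¹ = (p : ℝ) ^ g := by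
          rw [← pow_add, ← Real.rpow_natCast, ← Real.rpow_neg hp0.le, ← Real.rpow_add hp0]
          congr 1
          push_cast
          rw [hhalf, he, hg]
          unfold ee
          ring
        have hpg : (p : ℝ) ^ g ≤ C1 ^ g * (X : ℝ) ^ (g * (1 / k)) := by
          calc (p : ℝ) ^ g ≤ (C1 * x) ^ g := Real.rpow_le_rpow hp0.le hpC hg0
            _ = C1 ^ g * (X : ℝ) ^ (g * (1 / k)) := by
                rw [Real.mul_rpow hC10.le (by linarith), hx, ← Real.rpow_mul hX0.le]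
                congr 2
                ring
        calc (p : ℝ) ^ (2 * (k * l)) *
              (Jm k (k * l) (X / p + 1) * (X ^ k * (k ^ k * (p : ℝ) ^ (k * (k - 1) / 2))))
            ≤ (p : ℝ) ^ (2 * (k * l)) *
              ((C * ((1 + C1) ^ e * ((X : ℝ) ^ e * ((p : ℝ) ^ e)⁻¹))) *
                (X ^ k * (k ^ k * (p : ℝ) ^ (k * (k - 1) / 2)))) := by gcongr
          _ = (C * (1 + C1) ^ e * (k : ℝ) ^ k) * ((X : ℝ) ^ k * (X : ℝ) ^ e) *
              ((p : ℝ) ^ (2 * (k * l)) * (p : ℝ) ^ (k * (k - 1) / 2) * ((p : ℝ) ^ e)⁻¹) := by ring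
          _ ≤ (C * (1 + C1) ^ e * (k : ℝ) ^ k) * ((X : ℝ) ^ k * (X : ℝ) ^ e) *
              (C1 ^ g * (X : ℝ) ^ (g * (1 / k))) := by
              rw [hpow]
              exact mul_le_mul_of_nonneg_left hpg (by positivity)
          _ = (C * (1 + C1) ^ e * (k : ℝ) ^ k * C1 ^ g) * (X : ℝ) ^ ee k (l + 1) := by
              rw [hE, Real.rpow_add hX0, Real.rpow_add hX0, Real.rpow_natCast]
              ring
      refine (Finset.sum_le_sum hterm).trans ?_
      rw [Finset.sum_const, hPc, nsmul_eq_mul]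
      push_cast
      exact le_of_eq (by ring)

end Pool.Agent.helper132_poly
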